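import Mathlib

open Finset

namespace Pool.MP_81d1ca_an.H37

/-- Two partitions of unity `{A,C}` and `{B,D}` with the square pattern of zero products. -/
structure SqPat {R : Type*} [Ring R] {I J K L : Type} [Fintype I] [Fintype J] [Fintype K]
    [Fintype L] (A : I → K → R) (C : J → L → R) (B : I → L → R) (D : J → K → R) : Prop where
  AA : ∀ i k, A i k * A i k = A i k
  AA' : ∀ i k i' k', (i ≠ i' ∨ k ≠ k') → A i k * A i' k' = 0
  DD : ∀ j k, D j k * D j k = D j k
  DD' : ∀ j k j' k', (j ≠ j' ∨ k ≠ k') → D j k * D j' k' = 0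
  AC : ∀ i k j l, A i k * C j l = 0
  CA : ∀ i k j l, C j l * A i k = 0
  BD : ∀ i l j k, B i l * D j k = 0
  DB : ∀ i l j k, D j k * B i l = 0
  sumAC : ∑ i, ∑ k, A i k + ∑ j, ∑ l, C j l = 1
  sumBD : ∑ i, ∑ l, B i l + ∑ j, ∑ k, D j k = 1
  zAB : ∀ i k i' l, i ≠ i' → A i k * B i' l = 0
  zBA : ∀ i k i' l, i ≠ i' → B i' l * A i k = 0
  zAD : ∀ i k j k', k ≠ k' → A i k * D j k' = 0
  zDA : ∀ i k j k', k ≠ k' → D j k' * A i k = 0
  zCB : ∀ j l i l', l ≠ l' → C j l * B i l' = 0
  zBC : ∀ j l i l', l ≠ l' → B i l' * C j l = 0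
  zCD : ∀ j l j' k, j ≠ j' → C j l * D j' k = 0
  zDC : ∀ j l j' k, j ≠ j' → D j' k * C j l = 0

namespace SqPat

variable {R : Type*} [Ring R] {I J K L : Type} [Fintype I] [Fintype J] [Fintype K] [Fintype L]
variable (A : I → K → R) (C : J → L → R) (B : I → L → R) (D : J → K → R)

/-- total of `A` -/
def al (A : I → K → R) : R := ∑ i, ∑ k, A i k
/-- row sums of `A` -/
def alI (A : I → K → R) (i : I) : R := ∑ k, A i k
/-- column sums of `A` -/
def alK (A : I → K → R) (k : K) : R := ∑ i, A i k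
/-- compressed `D` -/
def X (A : I → K → R) (D : J → K → R) (j : J) : R := al A * (∑ k, D j k) * al A
/-- compressed `B` -/
def Z (A : I → K → R) (B : I → L → R) (l : L) : R := al A * (∑ i, B i l) * al A

variable {A C B D} (h : SqPat A C B D)
include h

lemma alI_mul_alK [DecidableEq I] [DecidableEq K] (i : I) (k : K) :
    alI A i * alK A k = A i k := by
  classical
  unfold alI alK
  rw [sum_mul_sum]
  rw [sum_eq_single k, sum_eq_single i]
  · exact h.AA i k
  · intro i' _ hi; exact h.AA' _ _ _ _ (Or.inl (Ne.symm hi))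
  · simp
  · intro k' _ hk
    exact sum_eq_zero fun i' _ => h.AA' _ _ _ _ (Or.inr hk)
  · simp

lemma alK_mul_alI [DecidableEq I] [DecidableEq K] (i : I) (k : K) :
    alK A k * alI A i = A i k := by
  classical
  unfold alI alK
  rw [sum_mul_sum]
  rw [sum_eq_single i, sum_eq_single k]
  · exact h.AA i k
  · intro k' _ hk; exact h.AA' _ _ _ _ (Or.inr (Ne.symm hk))
  · simp
  · intro i' _ hi
    exact sum_eq_zero fun k' _ => h.AA' _ _ _ _ (Or.inl hi)
  · simp

lemma comm_alI_alK (i : I) (k : K) : alI A i * alK A k = alK A k * alI A i := by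
  classical
  rw [h.alI_mul_alK, h.alK_mul_alI]

lemma al_B (i : I) (l : L) : al A * B i l = alI A i * B i l := by
  classical
  unfold al alI
  rw [sum_mul, sum_eq_single i]
  intro i' _ hi
  rw [sum_mul]
  exact sum_eq_zero fun k _ => h.zAB _ _ _ _ hi
  simp

lemma B_al (i : I) (l : L) : B i l * al A = B i l * alI A i := by
  classical
  unfold al alI
  rw [mul_sum, sum_eq_single i]
  intro i' _ hi
  rw [mul_sum]
  exact sum_eq_zero fun k _ => h.zBA _ _ _ _ hi
  simp

lemma alI_B_ne {i i' : I} (l : L) (hi : i ≠ i') : alI A i * B i' l = 0 := by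
  unfold alI; rw [sum_mul]; exact sum_eq_zero fun k _ => h.zAB _ _ _ _ hi

lemma B_alI_ne {i i' : I} (l : L) (hi : i ≠ i') : B i' l * alI A i = 0 := by
  unfold alI; rw [mul_sum]; exact sum_eq_zero fun k _ => h.zBA _ _ _ _ hi

lemma al_D (j : J) (k : K) : al A * D j k = alK A k * D j k := by
  classical
  unfold al alK
  rw [sum_comm, sum_mul, sum_eq_single k]
  intro k' _ hk
  rw [sum_mul]
  exact sum_eq_zero fun i _ => h.zAD _ _ _ _ hk
  simp

lemma D_al (j : J) (k : K) : D j k * al A = D j k * alK A k := by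
  classical
  unfold al alK
  rw [sum_comm, mul_sum, sum_eq_single k]
  intro k' _ hk
  rw [mul_sum]
  exact sum_eq_zero fun i _ => h.zDA _ _ _ _ hk
  simp

lemma alK_D_ne {k k' : K} (j : J) (hk : k ≠ k') : alK A k * D j k' = 0 := by
  unfold alK; rw [sum_mul]; exact sum_eq_zero fun i _ => h.zAD _ _ _ _ hk

lemma D_alK_ne {k k' : K} (j : J) (hk : k ≠ k') : D j k' * alK A k = 0 := by
  unfold alK; rw [mul_sum]; exact sum_eq_zero fun i _ => h.zDA _ _ _ _ hk

lemma al_alI (i : I) : al A * alI A i = alI A i := by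
  classical
  unfold al alI
  rw [sum_mul, sum_eq_single i]
  · rw [sum_mul_sum]
    refine sum_congr rfl fun k _ => ?_
    rw [sum_eq_single k]
    · exact h.AA i k
    · intro k' _ hk; exact h.AA' _ _ _ _ (Or.inr (Ne.symm hk))
    · simp
  · intro i' _ hi
    rw [sum_mul_sum]
    exact sum_eq_zero fun k _ => sum_eq_zero fun k' _ => h.AA' _ _ _ _ (Or.inl hi)
  · simp

lemma alI_al (i : I) : alI A i * al A = alI A i := by
  classical
  unfold al alI
  rw [mul_sum, sum_eq_single i]
  · rw [sum_mul_sum]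
    refine sum_congr rfl fun k _ => ?_
    rw [sum_eq_single k]
    · exact h.AA i k
    · intro k' _ hk; exact h.AA' _ _ _ _ (Or.inr (Ne.symm hk))
    · simp
  · intro i' _ hi
    rw [sum_mul_sum]
    exact sum_eq_zero fun k _ => sum_eq_zero fun k' _ => h.AA' _ _ _ _ (Or.inl (Ne.symm hi))
  · simp

lemma al_alK (k : K) : al A * alK A k = alK A k := by
  classical
  unfold al alK
  rw [sum_comm, sum_mul, sum_eq_single k]
  · rw [sum_mul_sum]
    refine sum_congr rfl fun i _ => ?_
    rw [sum_eq_single i]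
    · exact h.AA i k
    · intro i' _ hi; exact h.AA' _ _ _ _ (Or.inl (Ne.symm hi))
    · simp
  · intro k' _ hk
    rw [sum_mul_sum]
    exact sum_eq_zero fun i _ => sum_eq_zero fun i' _ => h.AA' _ _ _ _ (Or.inr hk)
  · simp

lemma alK_al (k : K) : alK A k * al A = alK A k := by
  classical
  unfold al alK
  rw [sum_comm (f := fun i k => A i k), mul_sum, sum_eq_single k]
  · rw [sum_mul_sum]
    refine sum_congr rfl fun i _ => ?_
    rw [sum_eq_single i]
    · exact h.AA i k
    · intro i' _ hi; exact h.AA' _ _ _ _ (Or.inl (Ne.symm hi))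
    · simp
  · intro k' _ hk
    rw [sum_mul_sum]
    exact sum_eq_zero fun i _ => sum_eq_zero fun i' _ => h.AA' _ _ _ _ (Or.inr (Ne.symm hk))
  · simp

lemma al_al : al A * al A = al A := by
  have : al A * al A = ∑ i, al A * alI A i := by
    rw [← mul_sum]; rfl
  rw [this]
  simp only [h.al_alI]
  rfl

lemma comm_alI_Z (i : I) (l : L) : alI A i * Z A B l = Z A B l * alI A i := by
  classical
  have e1 : alI A i * (∑ i', B i' l) = alI A i * B i l := by
    rw [mul_sum, sum_eq_single i]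
    · intro i' _ hi; exact h.alI_B_ne l (Ne.symm hi)
    · simp
  have e2 : (∑ i', B i' l) * alI A i = B i l * alI A i := by
    rw [sum_mul, sum_eq_single i]
    · intro i' _ hi; exact h.B_alI_ne l (Ne.symm hi)
    · simp
  unfold Z
  calc alI A i * (al A * (∑ i', B i' l) * al A)
      = (alI A i * al A) * (∑ i', B i' l) * al A := by simp only [mul_assoc]
    _ = alI A i * B i l * al A := by rw [h.alI_al, e1]
    _ = al A * B i l * al A := by rw [h.al_B]
    _ = al A * (B i l * alI A i) := by rw [mul_assoc, h.B_al]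
    _ = al A * ((∑ i', B i' l) * alI A i) := by rw [e2]
    _ = al A * (∑ i', B i' l) * al A * alI A i := by
        rw [mul_assoc (al A * _), h.al_alI, mul_assoc]

lemma comm_alK_X (k : K) (j : J) : alK A k * X A D j = X A D j * alK A k := by
  classical
  have e1 : alK A k * (∑ k', D j k') = alK A k * D j k := by
    rw [mul_sum, sum_eq_single k]
    · intro k' _ hk; exact h.alK_D_ne j (Ne.symm hk)
    · simp
  have e2 : (∑ k', D j k') * alK A k = D j k * alK A k := by
    rw [sum_mul, sum_eq_single k]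
    · intro k' _ hk; exact h.D_alK_ne j (Ne.symm hk)
    · simp
  unfold X
  calc alK A k * (al A * (∑ k', D j k') * al A)
      = (alK A k * al A) * (∑ k', D j k') * al A := by simp only [mul_assoc]
    _ = alK A k * D j k * al A := by rw [h.alK_al, e1]
    _ = al A * D j k * al A := by rw [h.al_D]
    _ = al A * (D j k * alK A k) := by rw [mul_assoc, h.D_al]
    _ = al A * ((∑ k', D j k') * alK A k) := by rw [e2]
    _ = al A * (∑ k', D j k') * al A * alK A k := by
        rw [mul_assoc (al A * _), h.al_alK, mul_assoc]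

lemma al_eq : al A = 1 - ∑ j, ∑ l, C j l := by
  rw [← h.sumAC]; simp [al]

lemma al_C (j : J) (l : L) : al A * C j l = 0 := by
  unfold al; simp [sum_mul, h.AC]

lemma C_al (j : J) (l : L) : C j l * al A = 0 := by
  unfold al; simp [mul_sum, h.CA]

/-- `δ_j α β'_l = - δ_j C_{jl} β'_l` -/
lemma D_al_B (j : J) (l : L) :
    (∑ k, D j k) * al A * (∑ i, B i l) = - ((∑ k, D j k) * C j l * (∑ i, B i l)) := by
  classical
  rw [h.al_eq, mul_sub, mul_one, sub_mul]
  have e0 : (∑ k, D j k) * (∑ i, B i l) = 0 := by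
    rw [sum_mul_sum]; simp [h.DB]
  rw [e0, zero_sub, neg_inj]
  have e1 : (∑ k, D j k) * (∑ j', ∑ l', C j' l') = (∑ k, D j k) * ∑ l', C j l' := by
    rw [mul_sum, sum_eq_single j]
    · intro j' _ hj
      rw [sum_mul_sum]
      exact sum_eq_zero fun k _ => sum_eq_zero fun l' _ => h.zDC _ _ _ _ hj
    · simp
  rw [e1, mul_assoc, mul_assoc]
  congr 1
  rw [sum_mul, sum_eq_single l]
  · intro l' _ hl
    rw [mul_sum]
    exact sum_eq_zero fun i _ => h.zCB _ _ _ _ hl
  · simp

lemma B_al_D (j : J) (l : L) :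
    (∑ i, B i l) * al A * (∑ k, D j k) = - ((∑ i, B i l) * C j l * (∑ k, D j k)) := by
  classical
  rw [h.al_eq, mul_sub, mul_one, sub_mul]
  have e0 : (∑ i, B i l) * (∑ k, D j k) = 0 := by
    rw [sum_mul_sum]; simp [h.BD]
  rw [e0, zero_sub, neg_inj]
  have e1 : (∑ i, B i l) * (∑ j', ∑ l', C j' l') = (∑ i, B i l) * ∑ j', C j' l := by
    rw [sum_comm, mul_sum, sum_eq_single l]
    · intro l' _ hl
      rw [sum_mul_sum]
      exact sum_eq_zero fun k _ => sum_eq_zero fun l' _ => h.zBC _ _ _ _ hl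
    · simp
  rw [e1, mul_assoc, mul_assoc]
  congr 1
  rw [sum_mul, sum_eq_single j]
  · intro j' _ hj
    rw [mul_sum]
    exact sum_eq_zero fun k _ => h.zCD _ _ _ _ hj
  · simp

/-- `δ_j C_{jl} = δ C_{jl}` -/
lemma D_C (j : J) (l : L) : (∑ k, D j k) * C j l = (∑ j', ∑ k, D j' k) * C j l := by
  classical
  symm
  rw [sum_mul, sum_eq_single j]
  · intro j' _ hj
    rw [sum_mul]
    exact sum_eq_zero fun k _ => h.zDC _ _ _ _ (Ne.symm hj)
  · simp

lemma C_D (j : J) (l : L) : C j l * (∑ k, D j k) = C j l * (∑ j', ∑ k, D j' k) := by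
  classical
  symm
  rw [mul_sum, sum_eq_single j]
  · intro j' _ hj
    rw [mul_sum]
    exact sum_eq_zero fun k _ => h.zCD _ _ _ _ (Ne.symm hj)
  · simp

lemma C_B (j : J) (l : L) : C j l * (∑ i, B i l) = C j l * (∑ i, ∑ l', B i l') := by
  classical
  symm
  rw [sum_comm, mul_sum, sum_eq_single l]
  · intro l' _ hl
    rw [mul_sum]
    exact sum_eq_zero fun k _ => h.zCB _ _ _ _ (Ne.symm hl)
  · simp

lemma B_C (j : J) (l : L) : (∑ i, B i l) * C j l = (∑ i, ∑ l', B i l') * C j l := by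
  classical
  symm
  rw [sum_comm, sum_mul, sum_eq_single l]
  · intro l' _ hl
    rw [sum_mul]
    exact sum_eq_zero fun k _ => h.zBC _ _ _ _ (Ne.symm hl)
  · simp

lemma X_mul_Z (j : J) (l : L) : X A D j * Z A B l =
    al A * (∑ i, ∑ l', B i l') * C j l * (∑ i, ∑ l', B i l') * al A := by
  have hD : (∑ j', ∑ k, D j' k) = 1 - (∑ i, ∑ l', B i l') := by
    rw [← h.sumBD]; simp
  unfold X Z
  calc al A * (∑ k, D j k) * al A * (al A * (∑ i, B i l) * al A)
      = al A * ((∑ k, D j k) * (al A * al A) * (∑ i, B i l)) * al A := by simp only [mul_assoc]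
    _ = al A * (-((∑ k, D j k) * C j l * (∑ i, B i l))) * al A := by rw [h.al_al, h.D_al_B]
    _ = -(al A * ((∑ k, D j k) * C j l) * (∑ i, B i l) * al A) := by
        simp only [mul_assoc, mul_neg, neg_mul]
    _ = -(al A * ((1 - (∑ i, ∑ l', B i l')) * C j l) * (∑ i, B i l) * al A) := by
        rw [h.D_C, hD]
    _ = -((al A * C j l - al A * (∑ i, ∑ l', B i l') * C j l) * (∑ i, B i l) * al A) := by
        rw [sub_mul, one_mul, mul_sub, mul_assoc (al A)]
    _ = al A * (∑ i, ∑ l', B i l') * (C j l * (∑ i, B i l)) * al A := by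
        rw [h.al_C, zero_sub]; simp only [neg_mul, neg_neg, mul_assoc]
    _ = _ := by rw [h.C_B]; simp only [mul_assoc]

lemma Z_mul_X (j : J) (l : L) : Z A B l * X A D j =
    al A * (∑ i, ∑ l', B i l') * C j l * (∑ i, ∑ l', B i l') * al A := by
  have hD : (∑ j', ∑ k, D j' k) = 1 - (∑ i, ∑ l', B i l') := by
    rw [← h.sumBD]; simp
  unfold X Z
  calc al A * (∑ i, B i l) * al A * (al A * (∑ k, D j k) * al A)
      = al A * ((∑ i, B i l) * (al A * al A) * (∑ k, D j k)) * al A := by simp only [mul_assoc]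
    _ = al A * (-((∑ i, B i l) * C j l * (∑ k, D j k))) * al A := by rw [h.al_al, h.B_al_D]
    _ = -(al A * (∑ i, B i l) * (C j l * (∑ k, D j k)) * al A) := by
        simp only [mul_assoc, mul_neg, neg_mul]
    _ = -(al A * (∑ i, B i l) * (C j l * (1 - (∑ i, ∑ l', B i l'))) * al A) := by
        rw [h.C_D, hD]
    _ = -(al A * (∑ i, B i l) * (C j l * al A - C j l * (∑ i, ∑ l', B i l') * al A)) := by
        rw [mul_sub, mul_one, mul_assoc (al A * _), sub_mul]
    _ = al A * ((∑ i, B i l) * C j l) * (∑ i, ∑ l', B i l') * al A := by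
        rw [h.C_al, zero_sub]; simp only [mul_neg, neg_neg, mul_assoc]
    _ = _ := by rw [h.B_C]; simp only [mul_assoc]

lemma comm_X_Z (j : J) (l : L) : X A D j * Z A B l = Z A B l * X A D j := by
  rw [h.X_mul_Z, h.Z_mul_X]

lemma X_mul_X_ne {j j' : J} (hj : j ≠ j') : X A D j * X A D j' = 0 := by
  classical
  unfold X
  have e : (∑ k, D j k) * al A * (∑ k, D j' k) = 0 := by
    rw [h.al_eq, mul_sub, mul_one, sub_mul]
    have e0 : (∑ k, D j k) * (∑ k, D j' k) = 0 := by
      rw [sum_mul_sum]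
      exact sum_eq_zero fun k _ => sum_eq_zero fun k' _ => h.DD' _ _ _ _ (Or.inl hj)
    have e1 : (∑ k, D j k) * (∑ j', ∑ l', C j' l') = (∑ k, D j k) * ∑ l', C j l' := by
      rw [mul_sum, sum_eq_single j]
      · intro j' _ hj
        rw [sum_mul_sum]
        exact sum_eq_zero fun k _ => sum_eq_zero fun l' _ => h.zDC _ _ _ _ hj
      · simp
    have e2 : (∑ l', C j l') * (∑ k, D j' k) = 0 := by
      rw [sum_mul_sum]
      exact sum_eq_zero fun k _ => sum_eq_zero fun l' _ => h.zCD _ _ _ _ hj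
    rw [e0, e1, mul_assoc, e2, mul_zero, sub_zero]
  calc al A * (∑ k, D j k) * al A * (al A * (∑ k, D j' k) * al A)
      = al A * ((∑ k, D j k) * (al A * al A) * (∑ k, D j' k)) * al A := by simp only [mul_assoc]
    _ = 0 := by rw [h.al_al, e, mul_zero, zero_mul]

lemma X_sq (j : J) : X A D j * X A D j = X A D j * ∑ j', X A D j' := by
  classical
  rw [mul_sum, sum_eq_single j]
  · intro j' _ hj; exact h.X_mul_X_ne (Ne.symm hj)
  · simp

lemma sum_X : ∑ j, X A D j = al A * (∑ j, ∑ k, D j k) * al A := by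
  unfold X
  rw [← sum_mul, ← mul_sum]

lemma al_X (j : J) : al A * X A D j = X A D j := by
  unfold X; rw [← mul_assoc, ← mul_assoc, h.al_al]
lemma X_al (j : J) : X A D j * al A = X A D j := by
  unfold X; rw [mul_assoc, h.al_al]
lemma al_Z (l : L) : al A * Z A B l = Z A B l := by
  unfold Z; rw [← mul_assoc, ← mul_assoc, h.al_al]
lemma Z_al (l : L) : Z A B l * al A = Z A B l := by
  unfold Z; rw [mul_assoc, h.al_al]

end SqPat

end Pool.MP_81d1ca_an.H37
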