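import Mathlib

open Monoid Monoid.CoprodI

namespace Pool.MP_81d1ca_an.H37

/-- cyclic group of order three, multiplicatively -/
abbrev C3 := Multiplicative (ZMod 3)
/-- `Z₃ * Z₃` -/
abbrev FG := Monoid.CoprodI (fun _ : Bool => C3)

/-- first letter index -/
def hd (g : FG) : Option Bool := (Word.equiv g).fstIdx

/-- word length -/
def len (g : FG) : ℕ := (Word.equiv g).toList.length

lemma equiv_mul {i : Bool} (m : C3) (x : FG) :
    Word.equiv ((of (M := fun _ : Bool => C3) (i := i) m) * x) = (of (M := fun _ : Bool => C3) (i := i) m) • Word.equiv x := by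
  apply Word.equiv.symm.injective
  rw [Equiv.symm_apply_apply]
  change _ = Word.prod _
  rw [Word.prod_smul]
  congr 1
  exact (Word.equiv.symm_apply_apply x).symm

lemma equiv_cons {i : Bool} {m : C3} (hm : m ≠ 1) {x : FG} (hx : hd x ≠ some i) :
    Word.equiv ((of (M := fun _ : Bool => C3) (i := i) m) * x) =
      Word.cons (M := fun _ : Bool => C3) (i := i) m (Word.equiv x) hx hm := by
  rw [equiv_mul, Word.cons_eq_smul]

@[simp] lemma hd_one : hd 1 = none := by
  have : Word.equiv (1 : FG) = Word.empty := by
    apply Word.equiv.symm.injective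
    rw [Equiv.symm_apply_apply]
    exact Word.prod_empty.symm
  unfold hd; rw [this]; rfl

@[simp] lemma len_one : len 1 = 0 := by
  have : Word.equiv (1 : FG) = Word.empty := by
    apply Word.equiv.symm.injective
    rw [Equiv.symm_apply_apply]
    exact Word.prod_empty.symm
  unfold len; rw [this]; rfl

/-- abbreviation for the inclusions -/
abbrev io (i : Bool) (m : C3) : FG := of (M := fun _ : Bool => C3) (i := i) m

lemma hd_mul {i : Bool} {m : C3} (hm : m ≠ 1) {x : FG} (hx : hd x ≠ some i) :
    hd (io i m * x) = some i := by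
  unfold hd
  rw [equiv_cons hm hx]
  exact Word.fstIdx_cons _ _ _ _

lemma len_mul {i : Bool} {m : C3} (hm : m ≠ 1) {x : FG} (hx : hd x ≠ some i) :
    len (io i m * x) = len x + 1 := by
  unfold len
  rw [equiv_cons hm hx]
  simp [Word.cons]

theorem induct {P : FG → Prop} (h1 : P 1)
    (hc : ∀ (i : Bool) (m : C3) (x : FG), m ≠ 1 → hd x ≠ some i → P x → P (io i m * x))
    (g : FG) : P g := by
  have key : ∀ w : Word (fun _ : Bool => C3), P w.prod := by
    intro w
    induction w using Word.consRecOn with
    | empty => rw [Word.prod_empty]; exact h1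
    | cons i m w h1' h2 ih =>
      rw [Word.prod_cons]
      apply hc i m _ h2 _ ih
      unfold hd
      have : Word.equiv (Word.prod w) = w := Word.equiv.apply_symm_apply w
      rw [this]; exact h1'
  have := key (Word.equiv g)
  rwa [show Word.prod (Word.equiv g) = g from Word.equiv.symm_apply_apply g] at this

lemma eq_one_of_hd {x : FG} (hx : hd x = none) : x = 1 := by
  revert hx
  refine induct (P := fun x => hd x = none → x = 1) (fun _ => rfl) ?_ x
  intro i m x hm hx _ h
  rw [hd_mul hm hx] at h
  simp at h

lemma hd_io_ne {i : Bool} (m : C3) : hd (io i m) ≠ some (!i) := by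
  by_cases hm : m = 1
  · subst hm; simp [io]
  · have : io i m = io i m * 1 := by simp
    rw [this, hd_mul hm (by simp)]
    cases i <;> simp

lemma hd_mul_right (x : FG) (i : Bool) (h : C3) :
    (hd x ≠ some (!i) → hd (x * io i h) ≠ some (!i)) ∧
    (hd x = some (!i) → hd (x * io i h) = some (!i)) := by
  refine induct (P := fun x => (hd x ≠ some (!i) → hd (x * io i h) ≠ some (!i)) ∧
    (hd x = some (!i) → hd (x * io i h) = some (!i))) ?_ ?_ x
  · simp only [hd_one, one_mul]
    exact ⟨fun _ => hd_io_ne h, fun h => by simp at h⟩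
  · intro k m x hm hx ih
    rw [mul_assoc, hd_mul hm hx]
    by_cases hk : k = !i
    · subst hk
      refine ⟨fun h => (h rfl).elim, fun _ => ?_⟩
      exact hd_mul hm (ih.1 hx)
    · have hk' : k = i := by cases k <;> cases i <;> simp_all
      subst hk'
      refine ⟨fun _ => ?_, fun h => ?_⟩
      · rcases hh : hd x with _ | b
        · have := eq_one_of_hd hh
          subst this
          rw [one_mul]
          have e : io k m * io k h = io k (m * h) := by simp [io]
          rw [e]; exact hd_io_ne _
        · have hb : b = !k := by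
            rw [hh] at hx
            cases b <;> cases k <;> simp_all
          have h3 := ih.2 (by rw [hh, hb])
          have h4 : hd (x * io k h) ≠ some k := by rw [h3]; cases k <;> simp
          rw [hd_mul hm h4]
          cases k <;> simp
      · cases k <;> simp at h

lemma hd_conj {x : FG} {i : Bool} (hx : hd x = some (!i)) {m : C3} (hm : m ≠ 1) :
    hd (io i m * x * (io i m)⁻¹) = some i := by
  have e : (io i m)⁻¹ = io i m⁻¹ := by simp [io]
  rw [mul_assoc, e]
  apply hd_mul hm
  rw [(hd_mul_right x i m⁻¹).2 hx]
  cases i <;> simp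

/-- finitely many words of bounded length -/
lemma finite_len (n : ℕ) : {g : FG | len g ≤ n}.Finite := by
  have h1 : {l : List (Σ _ : Bool, C3) | l.length ≤ n}.Finite := List.finite_length_le _ n
  refine Set.Finite.of_finite_image (f := fun g : FG => (Word.equiv g).toList) ?_ ?_
  · refine h1.subset ?_
    rintro _ ⟨g, hg, rfl⟩
    exact hg
  · intro g _ g' _ h
    apply Word.equiv.injective
    exact Word.ext h

/-- the four nontrivial letters -/
def el (s : Bool × Bool) : FG := io s.1 (if s.2 then Multiplicative.ofAdd 1 else Multiplicative.ofAdd 2)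

lemma el_ne (c : Bool) : (if c then Multiplicative.ofAdd (1 : ZMod 3) else Multiplicative.ofAdd 2) ≠ 1 := by
  cases c <;> decide

lemma hd_el_mul {s : Bool × Bool} {x : FG} (hx : hd x ≠ some s.1) : hd (el s * x) = some s.1 :=
  hd_mul (el_ne _) hx

lemma hd_el_conj {s : Bool × Bool} {x : FG} (hx : hd x = some (!s.1)) :
    hd (el s * x * (el s)⁻¹) = some s.1 := hd_conj hx (el_ne _)

/-- `el (b,false)⁻¹ * el (b,true)` is again a nontrivial letter -/
lemma el_inv_mul_el (b : Bool) : (el (b, false))⁻¹ * el (b, true) = el (b, false) := by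
  have : (el (b, false))⁻¹ = io b (Multiplicative.ofAdd 2)⁻¹ := by simp [el, io]
  rw [this]
  change io b (Multiplicative.ofAdd 2)⁻¹ * io b _ = io b _
  rw [← map_mul]
  congr 1

end Pool.MP_81d1ca_an.H37
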