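import Mathlib

open scoped InnerProductSpace ComplexConjugate
open Filter Topology

namespace Pool.MP_81d1ca_an.H37

section ext
set_option linter.unusedSectionVars false
variable {ι : Type*} {H : Type*} [NormedAddCommGroup H] [InnerProductSpace ℂ H] [CompleteSpace H]

/-- the family `v` is total -/
def Tot (v : ι → H) : Prop := DenseRange (Finsupp.linearCombination ℂ v)

/-- semilinear combination with conjugated coefficients -/
noncomputable def lcConj (w : ι → H) : (ι →₀ ℂ) →ₛₗ[starRingEnd ℂ] H where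
  toFun c := c.sum fun i a => (starRingEnd ℂ a) • w i
  map_add' c d := by
    classical
    exact Finsupp.sum_add_index' (by simp) (by intro i a b; simp [add_smul])
  map_smul' r c := by
    classical
    rw [Finsupp.sum_smul_index' (by simp), Finsupp.smul_sum]
    simp [mul_smul]

lemma inner_lc (v : ι → H) (c d : ι →₀ ℂ) :
    ⟪Finsupp.linearCombination ℂ v c, Finsupp.linearCombination ℂ v d⟫_ℂ =
      c.sum fun i a => d.sum fun j b => starRingEnd ℂ a * b * ⟪v i, v j⟫_ℂ := by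
  rw [Finsupp.linearCombination_apply, Finsupp.linearCombination_apply, Finsupp.sum, sum_inner]
  refine Finset.sum_congr rfl fun i _ => ?_
  rw [Finsupp.sum, inner_sum]
  refine Finset.sum_congr rfl fun j _ => ?_
  rw [inner_smul_left, inner_smul_right]; ring

lemma inner_lcConj (w : ι → H) (c d : ι →₀ ℂ) :
    ⟪lcConj w c, lcConj w d⟫_ℂ =
      c.sum fun i a => d.sum fun j b => a * starRingEnd ℂ b * ⟪w i, w j⟫_ℂ := by
  change ⟪c.sum fun i a => (starRingEnd ℂ a) • w i, d.sum fun i a => (starRingEnd ℂ a) • w i⟫_ℂ = _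
  rw [Finsupp.sum, sum_inner]
  refine Finset.sum_congr rfl fun i _ => ?_
  rw [Finsupp.sum, inner_sum]
  refine Finset.sum_congr rfl fun j _ => ?_
  rw [inner_smul_left, inner_smul_right]; simp; ring

lemma norm_eq_of_inner {x y : H} (h : ⟪x, x⟫_ℂ = ⟪y, y⟫_ℂ) : ‖x‖ = ‖y‖ := by
  have h1 := inner_self_eq_norm_sq_to_K (𝕜 := ℂ) x
  have h2 := inner_self_eq_norm_sq_to_K (𝕜 := ℂ) y
  rw [h1, h2] at h
  have h3 : (‖x‖ : ℝ) ^ 2 = ‖y‖ ^ 2 := by exact_mod_cast h
  exact (sq_eq_sq₀ (norm_nonneg _) (norm_nonneg _)).1 h3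

/-- extension of `v i ↦ w i` -/
noncomputable def ext (v w : ι → H) : H →L[ℂ] H :=
  (Finsupp.linearCombination ℂ w).extendOfNorm (Finsupp.linearCombination ℂ v)

lemma norm_lc_eq {v w : ι → H} (h : ∀ i j, ⟪w i, w j⟫_ℂ = ⟪v i, v j⟫_ℂ) (c : ι →₀ ℂ) :
    ‖Finsupp.linearCombination ℂ w c‖ = ‖Finsupp.linearCombination ℂ v c‖ := by
  apply norm_eq_of_inner
  rw [inner_lc, inner_lc]
  simp only [h]

lemma ext_lc {v w : ι → H} (hv : Tot v) (h : ∀ i j, ⟪w i, w j⟫_ℂ = ⟪v i, v j⟫_ℂ) (c : ι →₀ ℂ) :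
    ext v w (Finsupp.linearCombination ℂ v c) = Finsupp.linearCombination ℂ w c :=
  LinearMap.extendOfNorm_eq hv ⟨1, fun x => by rw [one_mul, norm_lc_eq h]⟩ c

lemma ext_apply {v w : ι → H} (hv : Tot v) (h : ∀ i j, ⟪w i, w j⟫_ℂ = ⟪v i, v j⟫_ℂ) (i : ι) :
    ext v w (v i) = w i := by
  have := ext_lc hv h (Finsupp.single i 1)
  simpa using this

lemma norm_ext {v w : ι → H} (hv : Tot v) (h : ∀ i j, ⟪w i, w j⟫_ℂ = ⟪v i, v j⟫_ℂ) (x : H) :
    ‖ext v w x‖ = ‖x‖ := by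
  refine DenseRange.induction_on (p := fun x => ‖ext v w x‖ = ‖x‖) hv x ?_ ?_
  · exact isClosed_eq (by fun_prop) (by fun_prop)
  · intro c
    rw [ext_lc hv h, norm_lc_eq h]

lemma inner_ext {v w : ι → H} (hv : Tot v) (h : ∀ i j, ⟪w i, w j⟫_ℂ = ⟪v i, v j⟫_ℂ) (x y : H) :
    ⟪ext v w x, ext v w y⟫_ℂ = ⟪x, y⟫_ℂ :=
  LinearIsometry.inner_map_map ⟨(ext v w : H →L[ℂ] H).toLinearMap, norm_ext hv h⟩ x y

lemma Tot.ext_clm {v : ι → H} (hv : Tot v) {F : Type*} [NormedAddCommGroup F] [NormedSpace ℂ F]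
    {S T : H →L[ℂ] F} (h : ∀ i, S (v i) = T (v i)) : S = T := by
  ext x
  refine DenseRange.induction_on (p := fun x => S x = T x) hv x ?_ ?_
  · exact isClosed_eq S.continuous T.continuous
  · intro c
    rw [Finsupp.linearCombination_apply, Finsupp.sum, map_sum, map_sum]
    simp [h]

lemma Tot.ext_inner {v : ι → H} (hv : Tot v) {x y : H} (h : ∀ i, ⟪v i, x⟫_ℂ = ⟪v i, y⟫_ℂ) :
    x = y := by
  have : innerSL ℂ x = innerSL ℂ y := by
    apply hv.ext_clm
    intro i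
    simp only [innerSL_apply_apply]
    rw [← inner_conj_symm, h, inner_conj_symm]
  have h2 : ⟪x - y, x - y⟫_ℂ = 0 := by
    have := congrArg (fun f => f (x - y)) this
    simp only [innerSL_apply_apply] at this
    rw [inner_sub_left, this, sub_self]
  exact sub_eq_zero.1 (inner_self_eq_zero.1 h2)

/-- antilinear extension -/
noncomputable def extJ (v w : ι → H) : H →SL[starRingEnd ℂ] H :=
  (lcConj w).extendOfNorm (Finsupp.linearCombination ℂ v)

lemma norm_lcConj_eq {v w : ι → H} (h : ∀ i j, ⟪w i, w j⟫_ℂ = ⟪v j, v i⟫_ℂ) (c : ι →₀ ℂ) :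
    ‖lcConj w c‖ = ‖Finsupp.linearCombination ℂ v c‖ := by
  apply norm_eq_of_inner
  rw [inner_lc, inner_lcConj]
  rw [Finsupp.sum_comm]
  refine Finset.sum_congr rfl fun i _ => Finset.sum_congr rfl fun j _ => ?_
  simp only [h]; ring

lemma extJ_lc {v w : ι → H} (hv : Tot v) (h : ∀ i j, ⟪w i, w j⟫_ℂ = ⟪v j, v i⟫_ℂ) (c : ι →₀ ℂ) :
    extJ v w (Finsupp.linearCombination ℂ v c) = lcConj w c :=
  LinearMap.extendOfNorm_eq hv ⟨1, fun x => by rw [one_mul, norm_lcConj_eq h]⟩ c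

lemma extJ_apply {v w : ι → H} (hv : Tot v) (h : ∀ i j, ⟪w i, w j⟫_ℂ = ⟪v j, v i⟫_ℂ) (i : ι) :
    extJ v w (v i) = w i := by
  have := extJ_lc hv h (Finsupp.single i 1)
  simpa [lcConj] using this

lemma inner_extJ {v w : ι → H} (hv : Tot v) (h : ∀ i j, ⟪w i, w j⟫_ℂ = ⟪v j, v i⟫_ℂ) (x y : H) :
    ⟪extJ v w x, extJ v w y⟫_ℂ = ⟪y, x⟫_ℂ := by
  refine DenseRange.induction_on (p := fun x => ⟪extJ v w x, extJ v w y⟫_ℂ = ⟪y, x⟫_ℂ) hv x ?_ ?_
  · exact isClosed_eq (by fun_prop) (by fun_prop)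
  · intro c
    refine DenseRange.induction_on (p := fun y => ⟪extJ v w (Finsupp.linearCombination ℂ v c),
      extJ v w y⟫_ℂ = ⟪y, Finsupp.linearCombination ℂ v c⟫_ℂ) hv y ?_ ?_
    · exact isClosed_eq (by fun_prop) (by fun_prop)
    · intro d
      rw [extJ_lc hv h, extJ_lc hv h, inner_lc, inner_lcConj, Finsupp.sum_comm]
      refine Finset.sum_congr rfl fun i _ => Finset.sum_congr rfl fun j _ => ?_
      simp only [h]; ring

end ext

section vn
variable {H : Type} [NormedAddCommGroup H] [InnerProductSpace ℂ H] [CompleteSpace H]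

/-- The commutant of a set (and of its adjoints) as a von Neumann algebra. -/
noncomputable def vnOfSet (S : Set (H →L[ℂ] H)) : VonNeumannAlgebra H where
  toStarSubalgebra := StarSubalgebra.centralizer ℂ S
  centralizer_centralizer' := by
    exact Set.centralizer_centralizer_centralizer _

lemma mem_vnOfSet {S : Set (H →L[ℂ] H)} {x : H →L[ℂ] H} :
    x ∈ vnOfSet S ↔ ∀ y ∈ S, y * x = x * y ∧ star y * x = x * star y := by
  rw [← SetLike.mem_coe]
  change x ∈ StarSubalgebra.centralizer ℂ S ↔ _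
  rw [StarSubalgebra.mem_centralizer_iff]

/-- `Ω` is a trace vector for `M`. -/
structure TraceVec (M : VonNeumannAlgebra H) (Ω : H) : Prop where
  norm_one : ‖Ω‖ = 1
  tracial : ∀ x ∈ M, ∀ y ∈ M, ⟪Ω, (x * y) Ω⟫_ℂ = ⟪Ω, (y * x) Ω⟫_ℂ
  separating : ∀ x ∈ M, x Ω = 0 → x = 0

end vn

section char
variable {G : Type} [Group G] {H : Type} [NormedAddCommGroup H] [InnerProductSpace ℂ H]
  [CompleteSpace H]

/-- A total family indexed by a group whose Gram matrix is given by a character. -/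
structure CharFam (ψ : G → ℂ) (v : G → H) : Prop where
  inner_eq : ∀ g h, ⟪v g, v h⟫_ℂ = ψ (g⁻¹ * h)
  tot : Tot v
  conj_inv : ∀ g h, ψ (h * g * h⁻¹) = ψ g
  one : ψ 1 = 1

variable {ψ : G → ℂ} {v : G → H}

/-- left regular representation -/
noncomputable def Lop (v : G → H) (k : G) : H →L[ℂ] H := ext v fun g => v (k * g)
/-- right regular representation -/
noncomputable def Rop (v : G → H) (k : G) : H →L[ℂ] H := ext v fun g => v (g * k⁻¹)

namespace CharFam
variable (hv : CharFam ψ v)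
include hv

lemma gramL (k g h : G) : ⟪v (k * g), v (k * h)⟫_ℂ = ⟪v g, v h⟫_ℂ := by
  rw [hv.inner_eq, hv.inner_eq]; congr 1; group

lemma gramR (k g h : G) : ⟪v (g * k⁻¹), v (h * k⁻¹)⟫_ℂ = ⟪v g, v h⟫_ℂ := by
  rw [hv.inner_eq, hv.inner_eq, ← hv.conj_inv (g⁻¹ * h) k]; congr 1; group

lemma gramJ (g h : G) : ⟪v g⁻¹, v h⁻¹⟫_ℂ = ⟪v h, v g⟫_ℂ := by
  rw [hv.inner_eq, hv.inner_eq, ← hv.conj_inv (h⁻¹ * g) h]; congr 1; group

@[simp] lemma L_apply (k g : G) : Lop v k (v g) = v (k * g) := ext_apply hv.tot (hv.gramL k) g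
@[simp] lemma R_apply (k g : G) : Rop v k (v g) = v (g * k⁻¹) := ext_apply hv.tot (hv.gramR k) g

lemma L_mul (k l : G) : Lop v k * Lop v l = Lop v (k * l) := by
  apply hv.tot.ext_clm; intro g
  simp [hv.L_apply, mul_assoc]

lemma R_mul (k l : G) : Rop v k * Rop v l = Rop v (k * l) := by
  apply hv.tot.ext_clm; intro g
  simp [hv.R_apply, mul_assoc]

lemma L_one : Lop v 1 = 1 := by
  apply hv.tot.ext_clm; intro g; simp [hv.L_apply]
lemma R_one : Rop v 1 = 1 := by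
  apply hv.tot.ext_clm; intro g; simp [hv.R_apply]

lemma LR_comm (k l : G) : Lop v k * Rop v l = Rop v l * Lop v k := by
  apply hv.tot.ext_clm; intro g
  simp [hv.L_apply, hv.R_apply, mul_assoc]

lemma L_star (k : G) : star (Lop v k) = Lop v k⁻¹ := by
  apply hv.tot.ext_clm; intro g
  apply hv.tot.ext_inner; intro h
  rw [ContinuousLinearMap.star_eq_adjoint, ContinuousLinearMap.adjoint_inner_right]
  rw [hv.L_apply, hv.L_apply, hv.inner_eq, hv.inner_eq]
  congr 1; group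

lemma R_star (k : G) : star (Rop v k) = Rop v k⁻¹ := by
  apply hv.tot.ext_clm; intro g
  apply hv.tot.ext_inner; intro h
  rw [ContinuousLinearMap.star_eq_adjoint, ContinuousLinearMap.adjoint_inner_right]
  rw [hv.R_apply, hv.R_apply, hv.inner_eq, hv.inner_eq]
  rw [← hv.conj_inv ((h * k⁻¹)⁻¹ * g) k⁻¹]
  congr 1; group

omit hv in
/-- the von Neumann algebra of the character: commutant of the right regular representation -/
noncomputable def _root_.Pool.MP_81d1ca_an.H37.charVN (v : G → H) : VonNeumannAlgebra H :=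
  vnOfSet (Set.range (Rop v))

lemma mem_charVN {x : H →L[ℂ] H} : x ∈ charVN v ↔ ∀ k, Rop v k * x = x * Rop v k := by
  rw [charVN, mem_vnOfSet]
  constructor
  · intro h k; exact (h _ ⟨k, rfl⟩).1
  · rintro h y ⟨k, rfl⟩
    refine ⟨h k, ?_⟩
    rw [hv.R_star]; exact h _

lemma L_mem (k : G) : Lop v k ∈ charVN v := by
  rw [hv.mem_charVN]; intro l; rw [hv.LR_comm]

lemma R_Omega (k : G) : Rop v k (v 1) = v k⁻¹ := by simp [hv.R_apply]
lemma L_Omega (k : G) : Lop v k (v 1) = v k := by simp [hv.L_apply]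

/-- the modular conjugation -/
noncomputable def _root_.Pool.MP_81d1ca_an.H37.Jop (v : G → H) : H →SL[starRingEnd ℂ] H :=
  extJ v fun g => v g⁻¹

@[simp] lemma J_apply (g : G) : Jop v (v g) = v g⁻¹ := extJ_apply hv.tot hv.gramJ g

lemma inner_J (x y : H) : ⟪Jop v x, Jop v y⟫_ℂ = ⟪y, x⟫_ℂ := inner_extJ hv.tot hv.gramJ x y

lemma apply_v {x : H →L[ℂ] H} (hx : x ∈ charVN v) (g : G) : x (v g) = Rop v g⁻¹ (x (v 1)) := by
  have h := (hv.mem_charVN.1 hx) g⁻¹
  have h2 := congrArg (fun T : H →L[ℂ] H => T (v 1)) h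
  simp only [mul_apply_eq_comp] at h2
  rw [h2, hv.R_apply]; simp

lemma J_star {x : H →L[ℂ] H} (hx : x ∈ charVN v) : Jop v (x (v 1)) = (star x) (v 1) := by
  apply hv.tot.ext_inner; intro g
  rw [ContinuousLinearMap.star_eq_adjoint, ContinuousLinearMap.adjoint_inner_right]
  have h1 : v g = Jop v (v g⁻¹) := by rw [hv.J_apply, inv_inv]
  conv_lhs => rw [h1]
  have e2 : ⟪Rop v g⁻¹ (x (v 1)), v 1⟫_ℂ = ⟪x (v 1), star (Rop v g⁻¹) (v 1)⟫_ℂ := by
    rw [ContinuousLinearMap.star_eq_adjoint, ContinuousLinearMap.adjoint_inner_right]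
  rw [hv.inner_J, hv.apply_v hx g, e2, hv.R_star, hv.R_apply]
  simp

theorem traceVec : TraceVec (charVN v) (v 1) where
  norm_one := by
    have h := inner_self_eq_norm_sq_to_K (𝕜 := ℂ) (v 1)
    rw [hv.inner_eq] at h
    simp only [inv_one, mul_one, hv.one] at h
    have h2 : (1 : ℝ) = ‖v 1‖ ^ 2 := by
      have h3 : ((1 : ℝ) : ℂ) = ((‖v 1‖ ^ 2 : ℝ) : ℂ) := by push_cast; exact h
      exact_mod_cast h3
    nlinarith [norm_nonneg (v 1)]
  tracial := by
    intro x hx y hy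
    have e1 : ⟪v 1, (x * y) (v 1)⟫_ℂ = ⟪Jop v (x (v 1)), y (v 1)⟫_ℂ := by
      rw [hv.J_star hx, mul_apply_eq_comp, ContinuousLinearMap.star_eq_adjoint,
        ContinuousLinearMap.adjoint_inner_left]
    have e2 : ⟪v 1, (y * x) (v 1)⟫_ℂ = ⟪star y (v 1), x (v 1)⟫_ℂ := by
      rw [mul_apply_eq_comp, ContinuousLinearMap.star_eq_adjoint,
        ContinuousLinearMap.adjoint_inner_left]
    have h1 : y (v 1) = Jop v (star y (v 1)) := by
      rw [hv.J_star (star_mem hy), star_star]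
    rw [e1, e2, h1, hv.inner_J]
  separating := by
    intro x hx h0
    apply hv.tot.ext_clm; intro g
    rw [hv.apply_v hx, h0]; simp

/-- 2-norm of adjoint -/
lemma norm_star {x : H →L[ℂ] H} (hx : x ∈ charVN v) : ‖(star x) (v 1)‖ = ‖x (v 1)‖ := by
  rw [← hv.J_star hx]
  apply norm_eq_of_inner
  exact hv.inner_J _ _

/-- right multiplication: `x (L_k Ω) = R_{k⁻¹} (x Ω)` -/
lemma mul_L {x : H →L[ℂ] H} (hx : x ∈ charVN v) (k : G) :
    (x * Lop v k) (v 1) = Rop v k⁻¹ (x (v 1)) := by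
  rw [mul_apply_eq_comp, hv.L_Omega, hv.apply_v hx]

end CharFam

end char

end Pool.MP_81d1ca_an.H37
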