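import Mathlib

open scoped InnerProductSpace ComplexConjugate ENNReal
open Filter Topology

namespace Pool.MP_81d1ca_an.H37

/-- `ℓ²(𝓙)` -/
noncomputable abbrev L2 (J : Type) := lp (fun _ : J => ℂ) 2

section mass
variable {J : Type}

lemma summable_sq (x : L2 J) : Summable fun j => ‖x j‖ ^ 2 := by
  have := (lp.hasSum_norm (p := 2) (by norm_num) x).summable
  simpa using this

lemma tsum_sq (x : L2 J) : ∑' j, ‖x j‖ ^ 2 = ‖x‖ ^ 2 := by
  have := (lp.hasSum_norm (p := 2) (by norm_num) x).tsum_eq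
  simpa using this

/-- weighted mass -/
noncomputable def mass (f : J → ℝ) (x : L2 J) : ℝ := ∑' j, f j * ‖x j‖ ^ 2

lemma summable_mass {f : J → ℝ} (h0 : ∀ j, 0 ≤ f j) (h1 : ∀ j, f j ≤ 1) (x : L2 J) :
    Summable fun j => f j * ‖x j‖ ^ 2 :=
  Summable.of_nonneg_of_le (fun j => mul_nonneg (h0 j) (sq_nonneg _))
    (fun j => by nlinarith [h1 j, sq_nonneg ‖x j‖]) (summable_sq x)

lemma mass_nonneg {f : J → ℝ} (h0 : ∀ j, 0 ≤ f j) (x : L2 J) : 0 ≤ mass f x :=
  tsum_nonneg fun j => mul_nonneg (h0 j) (sq_nonneg _)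

lemma mass_mono {f g : J → ℝ} (h0 : ∀ j, 0 ≤ f j) (hfg : ∀ j, f j ≤ g j) (h1 : ∀ j, g j ≤ 1)
    (x : L2 J) : mass f x ≤ mass g x := by
  refine Summable.tsum_le_tsum (fun j => mul_le_mul_of_nonneg_right (hfg j) (sq_nonneg _))
    (summable_mass h0 (fun j => (hfg j).trans (h1 j)) x)
    (summable_mass (fun j => (h0 j).trans (hfg j)) h1 x)

lemma mass_le_norm {f : J → ℝ} (h0 : ∀ j, 0 ≤ f j) (h1 : ∀ j, f j ≤ 1) (x : L2 J) :
    mass f x ≤ ‖x‖ ^ 2 := by
  rw [← tsum_sq]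
  refine Summable.tsum_le_tsum (fun j => ?_) (summable_mass h0 h1 x) (summable_sq x)
  nlinarith [h1 j, sq_nonneg ‖x j‖]

lemma mass_add {f g : J → ℝ} (h0 : ∀ j, 0 ≤ f j) (h1 : ∀ j, f j ≤ 1)
    (k0 : ∀ j, 0 ≤ g j) (k1 : ∀ j, g j ≤ 1) (x : L2 J) :
    mass (fun j => f j + g j) x = mass f x + mass g x := by
  unfold mass
  rw [← (summable_mass h0 h1 x).tsum_add (summable_mass k0 k1 x)]
  congr 1; ext j; ring

lemma holder2 : (2 : ℝ≥0∞).toReal.HolderConjugate (2 : ℝ≥0∞).toReal := by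
  rw [Real.holderConjugate_iff]; norm_num

lemma abs_mass_sub_le {f : J → ℝ} (h0 : ∀ j, 0 ≤ f j) (h1 : ∀ j, f j ≤ 1) (x y : L2 J) :
    |mass f x - mass f y| ≤ ‖x - y‖ * (‖x‖ + ‖y‖) := by
  unfold mass
  rw [← (summable_mass h0 h1 x).tsum_sub (summable_mass h0 h1 y)]
  have hs1 := lp.tsum_mul_le_mul_norm (p := 2) (q := 2) holder2 (x - y) x
  have hs2 := lp.tsum_mul_le_mul_norm (p := 2) (q := 2) holder2 (x - y) y
  have hb : ∀ j, |f j * ‖x j‖ ^ 2 - f j * ‖y j‖ ^ 2| ≤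
      ‖(x - y) j‖ * ‖x j‖ + ‖(x - y) j‖ * ‖y j‖ := by
    intro j
    have e : (x - y) j = x j - y j := rfl
    rw [e, ← mul_sub, abs_mul, abs_of_nonneg (h0 j), ← mul_add]
    have h2 : |‖x j‖ ^ 2 - ‖y j‖ ^ 2| = |‖x j‖ - ‖y j‖| * (‖x j‖ + ‖y j‖) := by
      rw [sq_sub_sq, abs_mul, abs_of_nonneg (by positivity : 0 ≤ ‖x j‖ + ‖y j‖), mul_comm]
    rw [h2]
    have h3 := abs_norm_sub_norm_le (x j) (y j)
    calc f j * (|‖x j‖ - ‖y j‖| * (‖x j‖ + ‖y j‖))
        ≤ 1 * (‖x j - y j‖ * (‖x j‖ + ‖y j‖)) := by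
          apply mul_le_mul (h1 j) _ (by positivity) zero_le_one
          exact mul_le_mul_of_nonneg_right h3 (by positivity)
      _ = _ := one_mul _
  have hsum : Summable fun j => ‖(x - y) j‖ * ‖x j‖ + ‖(x - y) j‖ * ‖y j‖ :=
    hs1.1.add hs2.1
  have hsa : Summable fun j => |f j * ‖x j‖ ^ 2 - f j * ‖y j‖ ^ 2| :=
    Summable.of_nonneg_of_le (fun _ => abs_nonneg _) hb hsum
  calc |∑' j, (f j * ‖x j‖ ^ 2 - f j * ‖y j‖ ^ 2)|
      ≤ ∑' j, |f j * ‖x j‖ ^ 2 - f j * ‖y j‖ ^ 2| := by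
        have := norm_tsum_le_tsum_norm (f := fun j => f j * ‖x j‖ ^ 2 - f j * ‖y j‖ ^ 2)
          (by simpa using hsa)
        simpa using this
    _ ≤ ∑' j, (‖(x - y) j‖ * ‖x j‖ + ‖(x - y) j‖ * ‖y j‖) :=
        Summable.tsum_le_tsum hb hsa hsum
    _ = ∑' j, ‖(x - y) j‖ * ‖x j‖ + ∑' j, ‖(x - y) j‖ * ‖y j‖ := hs1.1.tsum_add hs2.1
    _ ≤ ‖x - y‖ * ‖x‖ + ‖x - y‖ * ‖y‖ := add_le_add hs1.2 hs2.2
    _ = _ := by ring

/-- finite sum of masses -/
lemma mass_finset_sum {ι : Type*} (s : Finset ι) {f : ι → J → ℝ} (h0 : ∀ i j, 0 ≤ f i j)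
    (h1 : ∀ i j, f i j ≤ 1) (x : L2 J) :
    ∑ i ∈ s, mass (f i) x = mass (fun j => ∑ i ∈ s, f i j) x := by
  unfold mass
  rw [← Summable.tsum_finsetSum (fun i _ => summable_mass (h0 i) (h1 i) x)]
  congr 1; ext j; rw [Finset.sum_mul]

end mass


section minnorm
variable {J : Type}

/-- rank one kernel `x ⊗ x̄` -/
noncomputable def tens (x : L2 J) : L2 (J × J) :=
  ⟨fun p => x p.1 * conj (x p.2), by
    refine memℓp_gen ?_
    have h := (summable_sq x).mul_of_nonneg (summable_sq x) (fun j => sq_nonneg _)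
      (fun j => sq_nonneg _)
    simpa [mul_pow] using h⟩

lemma tens_apply (x : L2 J) (p : J × J) : tens x p = x p.1 * conj (x p.2) := rfl

lemma inner_tens (x y : L2 J) : ⟪tens x, tens y⟫_ℂ = ⟪x, y⟫_ℂ * conj ⟪x, y⟫_ℂ := by
  have hs : Summable fun j => ‖⟪x j, y j⟫_ℂ‖ := by
    refine Summable.of_nonneg_of_le (fun _ => norm_nonneg _) (fun j => norm_inner_le_norm _ _)
      (lp.summable_mul holder2 x y)
  have hs2 : Summable fun j => ‖conj ⟪x j, y j⟫_ℂ‖ := by simpa using hs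
  have e2 : conj ⟪x, y⟫_ℂ = ∑' j, conj ⟪x j, y j⟫_ℂ := by
    rw [lp.inner_eq_tsum, Complex.conj_tsum]
  rw [e2, lp.inner_eq_tsum, lp.inner_eq_tsum, tsum_mul_tsum_of_summable_norm hs hs2]
  refine tsum_congr fun p => ?_
  simp only [tens_apply, RCLike.inner_apply, map_mul, Complex.conj_conj]
  ring

variable {X : Type} (η : X → L2 J)

/-- convex combination of rank one kernels -/
noncomputable def Phi (c : X →₀ ℝ) : L2 (J × J) := c.sum fun x a => (a : ℂ) • tens (η x)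

/-- probability weights -/
def Prob (c : X →₀ ℝ) : Prop := (∀ x, 0 ≤ c x) ∧ (c.sum fun _ a => a) = 1

lemma Phi_add (c d : X →₀ ℝ) : Phi η (c + d) = Phi η c + Phi η d := by
  classical
  unfold Phi
  exact Finsupp.sum_add_index' (by simp) (by intro x a b; push_cast; rw [add_smul])

lemma Phi_smul (r : ℝ) (c : X →₀ ℝ) : Phi η (r • c) = (r : ℂ) • Phi η c := by
  classical
  unfold Phi
  rw [Finsupp.sum_smul_index (by simp), Finsupp.smul_sum]
  refine Finset.sum_congr rfl fun x _ => ?_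
  push_cast; rw [mul_smul]

lemma Phi_mapDomain (σ : X → X) (c : X →₀ ℝ) :
    Phi η (c.mapDomain σ) = Phi (fun x => η (σ x)) c := by
  unfold Phi
  exact Finsupp.sum_mapDomain_index (by simp) (by intro x a b; push_cast; rw [add_smul])

lemma inner_Phi (η' : X → L2 J) (h : ∀ x y, ⟪η' x, η' y⟫_ℂ = ⟪η x, η y⟫_ℂ) (c : X →₀ ℝ) :
    ‖Phi η' c‖ = ‖Phi η c‖ := by
  have e : ∀ ξ : X → L2 J, ⟪Phi ξ c, Phi ξ c⟫_ℂ =
      c.sum fun x a => c.sum fun y b => (a : ℂ) * b * (⟪ξ x, ξ y⟫_ℂ * conj ⟪ξ x, ξ y⟫_ℂ) := by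
    intro ξ
    simp only [Phi, Finsupp.sum]
    rw [sum_inner]
    refine Finset.sum_congr rfl fun x _ => ?_
    rw [inner_sum]
    refine Finset.sum_congr rfl fun y _ => ?_
    rw [inner_smul_left, inner_smul_right, inner_tens]
    simp; ring
  have h2 : ⟪Phi η' c, Phi η' c⟫_ℂ = ⟪Phi η c, Phi η c⟫_ℂ := by
    rw [e, e]; simp only [h]
  have h3 := inner_self_eq_norm_sq_to_K (𝕜 := ℂ) (Phi η' c)
  have h4 := inner_self_eq_norm_sq_to_K (𝕜 := ℂ) (Phi η c)
  rw [h3, h4] at h2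
  have h5 : (‖Phi η' c‖ : ℝ) ^ 2 = ‖Phi η c‖ ^ 2 := by exact_mod_cast h2
  exact (sq_eq_sq₀ (norm_nonneg _) (norm_nonneg _)).1 h5

lemma Phi_diag (c : X →₀ ℝ) (j : J) :
    Phi η c (j, j) = ((c.sum fun x a => a * ‖η x j‖ ^ 2 : ℝ) : ℂ) := by
  unfold Phi
  have h1 : (c.sum fun x a => (a : ℂ) • tens (η x)) (j, j) =
      c.sum fun x a => (a : ℂ) * (tens (η x)) (j, j) := by
    rw [Finsupp.sum, Finsupp.sum, lp.coeFn_sum, Finset.sum_apply]
    rfl
  rw [h1]
  push_cast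
  rw [Finsupp.sum, Finsupp.sum]
  push_cast
  refine Finset.sum_congr rfl fun x _ => ?_
  rw [tens_apply, Complex.mul_conj, Complex.normSq_eq_norm_sq]
  push_cast; ring

lemma Prob.half {c d : X →₀ ℝ} (hc : Prob c) (hd : Prob d) : Prob ((1 / 2 : ℝ) • (c + d)) := by
  classical
  refine ⟨fun x => ?_, ?_⟩
  · have := hc.1 x; have := hd.1 x
    simp only [Finsupp.smul_apply, Finsupp.add_apply, smul_eq_mul]; linarith
  · rw [Finsupp.sum_smul_index (by simp), ← Finsupp.mul_sum,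
      Finsupp.sum_add_index' (by simp) (by intros; rfl), hc.2, hd.2]
    norm_num

lemma Prob.map {c : X →₀ ℝ} (hc : Prob c) (σ : X → X) : Prob (c.mapDomain σ) := by
  classical
  refine ⟨fun x => ?_, ?_⟩
  · rw [Finsupp.mapDomain, Finsupp.sum_apply]
    refine Finset.sum_nonneg fun y _ => ?_
    simp only [Finsupp.single_apply]
    split_ifs
    · exact hc.1 y
    · exact le_rfl
  · rw [Finsupp.sum_mapDomain_index (by simp) (by intros; rfl), hc.2]

/-- existence of an almost invariant convex combination -/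
lemma exists_almost_inv [Nonempty X] {S : Type} [Fintype S] (σ : S → X → X)
    (hσ : ∀ s x y, ⟪η (σ s x), η (σ s y)⟫_ℂ = ⟪η x, η y⟫_ℂ) {t : ℝ} (ht : 0 < t) :
    ∃ c : X →₀ ℝ, Prob c ∧ ∀ s, ‖Phi η (c.mapDomain (σ s)) - Phi η c‖ ≤ t := by
  classical
  set A : Set ℝ := {r | ∃ c : X →₀ ℝ, Prob c ∧ r = ‖Phi η c‖ ^ 2} with hA
  have hbdd : BddBelow A := ⟨0, by rintro r ⟨c, _, rfl⟩; positivity⟩
  have hne : A.Nonempty := by
    obtain ⟨x⟩ := ‹Nonempty X›
    refine ⟨_, Finsupp.single x 1, ⟨fun y => ?_, ?_⟩, rfl⟩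
    · rw [Finsupp.single_apply]; split_ifs <;> norm_num
    · simp
  obtain ⟨r, ⟨c, hc, rfl⟩, hr⟩ := exists_lt_of_csInf_lt hne
    (show sInf A < sInf A + t ^ 2 / 4 by linarith [pow_pos ht 2])
  refine ⟨c, hc, fun s => ?_⟩
  have hn : ‖Phi η (c.mapDomain (σ s))‖ = ‖Phi η c‖ := by
    rw [Phi_mapDomain]
    exact inner_Phi η _ (hσ s) c
  have hhalf : sInf A ≤ ‖Phi η ((1 / 2 : ℝ) • (c.mapDomain (σ s) + c))‖ ^ 2 :=
    csInf_le hbdd ⟨_, (hc.map (σ s)).half hc, rfl⟩
  rw [Phi_smul, Phi_add, norm_smul] at hhalf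
  have hpar := parallelogram_law_with_norm ℂ (Phi η (c.mapDomain (σ s))) (Phi η c)
  rw [hn] at hpar
  have h12 : ‖((1 / 2 : ℝ) : ℂ)‖ = 1 / 2 := by simp
  rw [h12] at hhalf
  have : ‖Phi η (c.mapDomain (σ s)) - Phi η c‖ ^ 2 ≤ t ^ 2 := by nlinarith
  exact (sq_le_sq₀ (norm_nonneg _) ht.le).1 this

/-- indicator weight -/
noncomputable def ind (W : Set J) (j : J) : ℝ := by classical exact if j ∈ W then 1 else 0

lemma ind_nonneg (W : Set J) (j : J) : 0 ≤ ind W j := by unfold ind; split_ifs <;> norm_num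
lemma ind_le_one (W : Set J) (j : J) : ind W j ≤ 1 := by unfold ind; split_ifs <;> norm_num

lemma mass_ind_finset (F : Finset J) (V : Set J) (x : L2 J) :
    mass (ind V) x = ∑ j ∈ F, ind V j * ‖x j‖ ^ 2 + mass (ind (V \ (F : Set J))) x := by
  classical
  have h1 : ∀ j, ind V j = (if j ∈ F then ind V j else 0) + ind (V \ (F : Set J)) j := by
    intro j; unfold ind
    by_cases hj : j ∈ F <;> by_cases hv : j ∈ V <;> simp [hj, hv]
  have h2 : mass (fun j => (if j ∈ F then ind V j else 0)) x =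
      ∑ j ∈ F, ind V j * ‖x j‖ ^ 2 := by
    unfold mass
    rw [tsum_eq_sum (s := F)]
    · exact Finset.sum_congr rfl fun j hj => by simp [hj]
    · intro j hj; simp [hj]
  have h3 : mass (ind V) x = mass (fun j => (if j ∈ F then ind V j else 0) +
      ind (V \ (F : Set J)) j) x := by
    congr 1; ext j; exact h1 j
  rw [h3, mass_add _ _ (ind_nonneg _) (ind_le_one _), h2]
  · intro j; split_ifs
    · exact ind_nonneg _ _
    · exact le_rfl
  · intro j; split_ifs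
    · exact ind_le_one _ _
    · norm_num

/-- averaged mass -/
noncomputable def mc (c : X →₀ ℝ) (W : Set J) : ℝ := c.sum fun x a => a * mass (ind W) (η x)

theorem exists_almost_inv_mass [Nonempty X] {S : Type} [Fintype S] (σ : S → X → X)
    (hσ : ∀ s x y, ⟪η (σ s x), η (σ s y)⟫_ℂ = ⟪η x, η y⟫_ℂ) (F : Finset J) {δ : ℝ}
    (hF : ∀ x, mass (ind ((F : Set J)ᶜ)) (η x) ≤ δ) (W V : S → Set J)
    (hW : ∀ s x, mass (ind (W s)) (η x) ≤ mass (ind (V s)) (η (σ s x)) + δ)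
    {t : ℝ} (ht : 0 < t) :
    ∃ c : X →₀ ℝ, Prob c ∧ ∀ s, mc η c (W s) ≤ mc η c (V s) + 2 * δ + t := by
  classical
  obtain ⟨c, hc, hinv⟩ := exists_almost_inv η σ hσ (t := t / (F.card + 1)) (by positivity)
  refine ⟨c, hc, fun s => ?_⟩
  have hcs := hc.map (σ s)
  -- mass of the shifted combination
  have h1 : mc η c (W s) ≤ mc η (c.mapDomain (σ s)) (V s) + δ := by
    unfold mc
    rw [Finsupp.sum_mapDomain_index (by simp) (by intros; ring)]
    have : c.sum (fun x a => a * mass (ind (V s)) (η (σ s x))) + δ =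
        c.sum (fun x a => a * (mass (ind (V s)) (η (σ s x)) + δ)) := by
      conv_lhs => rw [← one_mul δ, ← hc.2, Finsupp.sum_mul]
      rw [← Finsupp.sum_add]
      exact Finsupp.sum_congr fun x _ => by ring
    rw [this]
    exact Finset.sum_le_sum fun x _ => mul_le_mul_of_nonneg_left (hW s x) (hc.1 x)
  have key : ∀ d : X →₀ ℝ, Prob d → ∀ V : Set J,
      mc η d V = ∑ j ∈ F, ind V j * (Phi η d (j, j)).re +
        d.sum (fun x a => a * mass (ind (V \ (F : Set J))) (η x)) := by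
    intro d hd V
    unfold mc
    have : ∀ x, mass (ind V) (η x) = _ := fun x => mass_ind_finset F V (η x)
    simp only [this, mul_add]
    rw [Finsupp.sum_add]
    congr 1
    have e : ∀ j, (Phi η d (j, j)).re = d.sum fun x a => a * ‖η x j‖ ^ 2 := by
      intro j; rw [Phi_diag, Complex.ofReal_re]
    simp only [e]
    simp only [Finsupp.sum, Finset.mul_sum]
    rw [Finset.sum_comm]
    exact Finset.sum_congr rfl fun x _ => Finset.sum_congr rfl fun y _ => by ring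
  have hrest : ∀ d : X →₀ ℝ, Prob d → ∀ V : Set J,
      0 ≤ d.sum (fun x a => a * mass (ind (V \ (F : Set J))) (η x)) ∧
      d.sum (fun x a => a * mass (ind (V \ (F : Set J))) (η x)) ≤ δ := by
    intro d hd V
    constructor
    · exact Finset.sum_nonneg fun x _ => mul_nonneg (hd.1 x) (mass_nonneg (ind_nonneg _) _)
    · calc d.sum (fun x a => a * mass (ind (V \ (F : Set J))) (η x))
          ≤ d.sum (fun x a => a * δ) := by
            refine Finset.sum_le_sum fun x _ => mul_le_mul_of_nonneg_left ?_ (hd.1 x)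
            refine le_trans (mass_mono (ind_nonneg _) ?_ (ind_le_one _) _) (hF x)
            intro j; unfold ind
            by_cases hj : j ∈ F <;> by_cases hv : j ∈ V <;> simp [hj, hv]
        _ = δ := by rw [← Finsupp.sum_mul, hd.2, one_mul]
  have h2 : mc η (c.mapDomain (σ s)) (V s) ≤ mc η c (V s) + δ + t := by
    rw [key _ hcs, key _ hc]
    have a1 := (hrest _ hcs (V s)).2
    have a2 := (hrest _ hc (V s)).1
    have a3 : ∑ j ∈ F, ind (V s) j * (Phi η (c.mapDomain (σ s)) (j, j)).re ≤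
        ∑ j ∈ F, ind (V s) j * (Phi η c (j, j)).re + t := by
      have : ∀ j ∈ F, ind (V s) j * (Phi η (c.mapDomain (σ s)) (j, j)).re ≤
          ind (V s) j * (Phi η c (j, j)).re + t / (F.card + 1) := by
        intro j _
        have b1 := lp.norm_apply_le_norm (p := 2) (by norm_num)
          (Phi η (c.mapDomain (σ s)) - Phi η c) (j, j)
        have b2 : (Phi η (c.mapDomain (σ s)) - Phi η c) (j, j) =
          Phi η (c.mapDomain (σ s)) (j, j) - Phi η c (j, j) := rfl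
        rw [b2] at b1
        have b3 := (Complex.abs_re_le_norm _).trans (b1.trans (hinv s))
        rw [Complex.sub_re] at b3
        have b4 := abs_le.1 b3
        have b5 := ind_nonneg (V s) j
        have b6 := ind_le_one (V s) j
        have b7 : 0 ≤ t / (F.card + 1) := by positivity
        nlinarith [b4.1, b4.2]
      calc _ ≤ ∑ j ∈ F, (ind (V s) j * (Phi η c (j, j)).re + t / (F.card + 1)) :=
            Finset.sum_le_sum this
        _ = ∑ j ∈ F, ind (V s) j * (Phi η c (j, j)).re + F.card * (t / (F.card + 1)) := by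
            rw [Finset.sum_add_distrib, Finset.sum_const, nsmul_eq_mul]
        _ ≤ _ := by
            have : (F.card : ℝ) * (t / (F.card + 1)) ≤ t := by
              rw [← mul_div_assoc, div_le_iff₀ (by positivity)]
              nlinarith
            linarith
    linarith
  linarith

lemma mc_mono {c : X →₀ ℝ} (hc : Prob c) {W V : Set J} (h : W ⊆ V) : mc η c W ≤ mc η c V := by
  refine Finset.sum_le_sum fun x _ => mul_le_mul_of_nonneg_left ?_ (hc.1 x)
  refine mass_mono (ind_nonneg _) (fun j => ?_) (ind_le_one _) _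
  unfold ind
  by_cases h1 : j ∈ W
  · simp [h1, h h1]
  · by_cases h2 : j ∈ V <;> simp [h1, h2]

lemma mc_union {c : X →₀ ℝ} {W V : Set J} (h : Disjoint W V) :
    mc η c (W ∪ V) = mc η c W + mc η c V := by
  unfold mc
  rw [← Finsupp.sum_add]
  refine Finsupp.sum_congr fun x _ => ?_
  rw [← mul_add, ← mass_add (ind_nonneg _) (ind_le_one _) (ind_nonneg _) (ind_le_one _)]
  congr 2; ext j
  unfold ind
  by_cases h1 : j ∈ W
  · have : j ∉ V := Set.disjoint_left.1 h h1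
    simp [h1, this]
  · by_cases h2 : j ∈ V <;> simp [h1, h2]

/-- The paradox: `S₁` moves `W₂` disjointly into `W₁`, `S₂` moves `W₁` disjointly into `W₂`. -/
theorem paradox [Nonempty X] {τ : ℝ} (hτ : ∀ x, ‖η x‖ ^ 2 = τ) (σ : Bool × Bool → X → X)
    (hσ : ∀ s x y, ⟪η (σ s x), η (σ s y)⟫_ℂ = ⟪η x, η y⟫_ℂ) (F : Finset J) {δ : ℝ}
    (hF : ∀ x, mass (ind ((F : Set J)ᶜ)) (η x) ≤ δ)
    (W : Bool → Set J) (hWc : W true ∪ W false = Set.univ) (hWd : Disjoint (W true) (W false))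
    (V : Bool × Bool → Set J) (hV : ∀ b c, V (b, c) ⊆ W b)
    (hVd : ∀ b, Disjoint (V (b, true)) (V (b, false)))
    (hW : ∀ b c x, mass (ind (W (!b))) (η x) ≤ mass (ind (V (b, c))) (η (σ (b, c) x)) + δ) :
    τ ≤ 8 * δ := by
  classical
  have hδ : 0 ≤ δ := by
    obtain ⟨x⟩ := ‹Nonempty X›
    exact (mass_nonneg (ind_nonneg _) _).trans (hF x)
  refine le_of_forall_pos_le_add fun t ht => ?_
  obtain ⟨c, hc, hinv⟩ := exists_almost_inv_mass η σ hσ F hF (fun s => W (!s.1)) V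
    (fun s x => hW s.1 s.2 x) (t := t / 4) (by positivity)
  have h1 : ∀ b, 2 * (mc η c (W (!b)) - 2 * δ - t / 4) ≤ mc η c (W b) := by
    intro b
    have e1 := hinv (b, true)
    have e2 := hinv (b, false)
    have e3 : mc η c (V (b, true) ∪ V (b, false)) ≤ mc η c (W b) :=
      mc_mono η hc (Set.union_subset (hV _ _) (hV _ _))
    rw [mc_union η (hVd b)] at e3
    simp only at e1 e2
    linarith
  have ht1 := h1 true
  have ht2 := h1 false
  simp only [Bool.not_true, Bool.not_false] at ht1 ht2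
  have htot : mc η c (W true) + mc η c (W false) = τ := by
    rw [← mc_union η hWd, hWc]
    unfold mc
    have : ∀ x, mass (ind (Set.univ : Set J)) (η x) = τ := by
      intro x
      rw [← hτ x, ← tsum_sq]
      unfold mass ind
      simp
    simp only [this]
    rw [← Finsupp.sum_mul, hc.2, one_mul]
  linarith

end minnorm

end Pool.MP_81d1ca_an.H37
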