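import Mathlib
import Pool.Agent.Lib.MP_81d1ca_an.H37Gns
import Pool.Agent.Lib.MP_81d1ca_an.H37Mass

open scoped InnerProductSpace ComplexConjugate ENNReal
open Filter Topology

namespace Pool.MP_81d1ca_an.H37

section fam

variable {J : Type}

/-- basis vector of `ℓ²(J)` -/
noncomputable def bv (j : J) : L2 J := by classical exact lp.single 2 j (1 : ℂ)

lemma bv_apply_self (j : J) : bv j j = 1 := by classical simp [bv]
lemma bv_apply_ne {j k : J} (h : k ≠ j) : bv j k = 0 := by
  classical
  simp [bv, lp.coeFn_single, Pi.single_eq_of_ne h]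

lemma inner_bv_left (j : J) (x : L2 J) : ⟪bv j, x⟫_ℂ = x j := by
  classical
  unfold bv
  rw [lp.inner_single_left]; simp

lemma inner_bv (j k : J) [Decidable (j = k)] : ⟪bv j, bv k⟫_ℂ = if j = k then 1 else 0 := by
  rw [inner_bv_left]
  split_ifs with h
  · subst h; exact bv_apply_self _
  · exact bv_apply_ne h

lemma tot_bv : Tot (bv : J → L2 J) := by
  classical
  intro x
  have h := lp.hasSum_single (p := 2) (by norm_num) x
  refine mem_closure_of_tendsto h (Eventually.of_forall fun s => ?_)
  refine ⟨Finsupp.onFinset s (fun j => if j ∈ s then x j else 0) (by intro j; simp; tauto), ?_⟩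
  rw [Finsupp.linearCombination_apply, Finsupp.onFinset_sum _ (by simp)]
  refine Finset.sum_congr rfl fun j hj => ?_
  simp only [hj, if_true]
  ext k
  by_cases hk : k = j
  · subst hk; simp [bv]
  · simp [bv, lp.coeFn_single, Pi.single_eq_of_ne hk]

/-- permutation operator -/
noncomputable def permOp (e : J ≃ J) : L2 J →L[ℂ] L2 J := ext bv fun j => bv (e j)

lemma permOp_gram (e : J ≃ J) (i j : J) : ⟪bv (e i), bv (e j)⟫_ℂ = ⟪bv i, bv j⟫_ℂ := by
  classical
  rw [inner_bv, inner_bv]; simp

lemma permOp_bv (e : J ≃ J) (j : J) : permOp e (bv j) = bv (e j) :=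
  ext_apply tot_bv (permOp_gram e) j

lemma permOp_apply (e : J ≃ J) (x : L2 J) (j : J) : permOp e x j = x (e.symm j) := by
  have h1 : permOp e x j = ⟪bv j, permOp e x⟫_ℂ := (inner_bv_left _ _).symm
  rw [h1]
  have h2 : bv j = permOp e (bv (e.symm j)) := by rw [permOp_bv]; simp
  rw [h2, permOp, inner_ext tot_bv (permOp_gram e), inner_bv_left]

variable {E T : Type} [DecidableEq E]

/-- coefficients of the biased Bernoulli characters -/
noncomputable def cf (r : E → ℝ) (B S : Finset E) : ℝ :=
  (∏ e ∈ B \ S, r e) * ∏ e ∈ S, Real.sqrt (1 - r e ^ 2)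

/-- the vectors `w_(B,τ)` -/
noncomputable def wv (r : E → ℝ) (B : Finset E) (t : T) : L2 (Finset E × T) :=
  ∑ S ∈ B.powerset, ((cf r B S : ℝ) : ℂ) • bv (S, t)

lemma inner_wv {r : E → ℝ} (h0 : ∀ e, 0 ≤ r e) (h1 : ∀ e, r e < 1) (B B' : Finset E) (t t' : T)
    [Decidable (t = t')] :
    ⟪wv r B t, wv r B' t'⟫_ℂ = if t = t' then ((∏ e ∈ symmDiff B B', r e : ℝ) : ℂ) else 0 := by
  classical
  unfold wv
  rw [sum_inner]
  simp only [inner_sum, inner_smul_left, inner_smul_right, inner_bv, Prod.mk.injEq]
  split_ifs with ht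
  · subst ht
    have hs : ∀ e, Real.sqrt (1 - r e ^ 2) ^ 2 = 1 - r e ^ 2 := fun e =>
      Real.sq_sqrt (by nlinarith [h0 e, h1 e])
    have key : ∑ S ∈ B.powerset, ∑ S' ∈ B'.powerset,
        ((cf r B' S' : ℝ) : ℂ) * ((starRingEnd ℂ) ((cf r B S : ℝ) : ℂ) *
          (if S = S' ∧ t = t then 1 else 0)) =
        ((∑ S ∈ (B ∩ B').powerset, cf r B S * cf r B' S : ℝ) : ℂ) := by
      push_cast
      have hpi : (B ∩ B').powerset = B.powerset.filter (fun S => S ∈ B'.powerset) := by
        ext S; simp only [Finset.mem_powerset, Finset.mem_filter, Finset.subset_inter_iff]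
      rw [hpi]
      rw [← Finset.sum_filter_add_sum_filter_not B.powerset (fun S => S ∈ B'.powerset)]
      have z : ∑ x ∈ B.powerset with ¬x ∈ B'.powerset, ∑ S' ∈ B'.powerset,
          ((cf r B' S' : ℝ) : ℂ) * ((starRingEnd ℂ) ((cf r B x : ℝ) : ℂ) *
          (if x = S' ∧ t = t then 1 else 0)) = 0 := by
        refine Finset.sum_eq_zero fun S hS => Finset.sum_eq_zero fun S' hS' => ?_
        have : S ≠ S' := by
          rintro rfl
          exact (Finset.mem_filter.1 hS).2 hS'
        simp [this]
      rw [z, add_zero]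
      refine Finset.sum_congr rfl fun S hS => ?_
      rw [Finset.sum_eq_single S]
      · simp; ring
      · intro S' _ hne; simp [Ne.symm hne]
      · intro h; exact (h (Finset.mem_filter.1 hS).2).elim
    rw [key]
    congr 1
    have e1 : ∀ S ∈ (B ∩ B').powerset, cf r B S * cf r B' S =
        (∏ e ∈ symmDiff B B', r e) *
        ((∏ e ∈ S, (1 - r e ^ 2)) * ∏ e ∈ (B ∩ B') \ S, r e ^ 2) := by
      intro S hS
      have hS' := Finset.mem_powerset.1 hS
      have d1 : B \ S = (B \ B') ∪ ((B ∩ B') \ S) := by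
        ext e; simp only [Finset.mem_sdiff, Finset.mem_union, Finset.mem_inter]
        have := @hS' e
        simp only [Finset.mem_inter] at this
        tauto
      have d2 : B' \ S = (B' \ B) ∪ ((B ∩ B') \ S) := by
        ext e; simp only [Finset.mem_sdiff, Finset.mem_union, Finset.mem_inter]
        have := @hS' e
        simp only [Finset.mem_inter] at this
        tauto
      have d3 : symmDiff B B' = (B \ B') ∪ (B' \ B) := rfl
      unfold cf
      rw [d1, d2, d3, Finset.prod_union, Finset.prod_union, Finset.prod_union]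
      · have e3 : ∏ e ∈ S, (1 - r e ^ 2) =
            (∏ e ∈ S, Real.sqrt (1 - r e ^ 2)) * ∏ e ∈ S, Real.sqrt (1 - r e ^ 2) := by
          rw [← Finset.prod_mul_distrib]
          exact Finset.prod_congr rfl fun e _ => by rw [← sq, hs]
        have e4 : ∏ e ∈ (B ∩ B') \ S, r e ^ 2 =
            (∏ e ∈ (B ∩ B') \ S, r e) * ∏ e ∈ (B ∩ B') \ S, r e := by
          rw [← Finset.prod_mul_distrib]
          exact Finset.prod_congr rfl fun e _ => by ring
        rw [e3, e4]; ring
      · rw [Finset.disjoint_left]; intro e; simp only [Finset.mem_sdiff]; tauto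
      · rw [Finset.disjoint_left]; intro e; simp only [Finset.mem_sdiff, Finset.mem_inter]; tauto
      · rw [Finset.disjoint_left]; intro e; simp only [Finset.mem_sdiff, Finset.mem_inter]; tauto
    rw [Finset.sum_congr rfl e1, ← Finset.mul_sum, ← Finset.prod_add]
    simp
  · refine Finset.sum_eq_zero fun S _ => Finset.sum_eq_zero fun S' _ => ?_
    simp [ht]

lemma wv_empty (r : E → ℝ) (t : T) : wv r ∅ t = bv (∅, t) := by
  unfold wv cf
  simp

lemma bv_mem_span_wv {r : E → ℝ} (h0 : ∀ e, 0 ≤ r e) (h1 : ∀ e, r e < 1) (t : T)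
    (B : Finset E) :
    bv (B, t) ∈ Submodule.span ℂ (Set.range fun p : Finset E × T => wv r p.1 p.2) := by
  classical
  induction B using Finset.strongInduction with
  | H B ih =>
    have hpos : ∀ e, 0 < Real.sqrt (1 - r e ^ 2) := fun e =>
      Real.sqrt_pos.2 (by nlinarith [h0 e, h1 e])
    have hne : ((cf r B B : ℝ) : ℂ) ≠ 0 := by
      have : cf r B B ≠ 0 := by
        unfold cf
        simp only [sdiff_self, Finset.bot_eq_empty, Finset.prod_empty, one_mul]
        exact (Finset.prod_pos fun e _ => hpos e).ne'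
      exact_mod_cast this
    have e : wv r B t = ((cf r B B : ℝ) : ℂ) • bv (B, t) +
        ∑ S ∈ B.ssubsets, ((cf r B S : ℝ) : ℂ) • bv (S, t) := by
      unfold wv
      rw [Finset.ssubsets, ← Finset.add_sum_erase _ _ (Finset.mem_powerset_self B)]
    have e2 : bv (B, t) = ((cf r B B : ℝ) : ℂ)⁻¹ • (wv r B t -
        ∑ S ∈ B.ssubsets, ((cf r B S : ℝ) : ℂ) • bv (S, t)) := by
      rw [e, add_sub_cancel_right, smul_smul, inv_mul_cancel₀ hne, one_smul]
    rw [e2]
    refine Submodule.smul_mem _ _ (Submodule.sub_mem _ ?_ ?_)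
    · exact Submodule.subset_span ⟨(B, t), rfl⟩
    · refine Submodule.sum_mem _ fun S hS => Submodule.smul_mem _ _ (ih S ?_)
      exact Finset.mem_ssubsets.1 hS

/-- permutations act on the `w` family -/
lemma permOp_wv {r : E → ℝ} (σ : E ≃ E) (hσ : ∀ e, r (σ e) = r e) (κ : T ≃ T) (B : Finset E)
    (t : T) :
    permOp (Equiv.prodCongr (Equiv.finsetCongr σ) κ) (wv r B t) =
      wv r (B.map σ.toEmbedding) (κ t) := by
  classical
  unfold wv
  rw [map_sum]
  have hp : (B.map σ.toEmbedding).powerset =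
      B.powerset.map (Equiv.finsetCongr σ).toEmbedding := by
    ext S
    simp only [Finset.mem_powerset, Finset.mem_map_equiv, Equiv.finsetCongr_symm,
      Equiv.finsetCongr_apply]
    constructor
    · intro h e he
      rw [Finset.mem_map_equiv, Equiv.symm_symm] at he
      have := h he
      rw [Finset.mem_map_equiv] at this
      simpa using this
    · intro h e he
      rw [Finset.mem_map_equiv]
      apply h
      rw [Finset.mem_map_equiv]
      simpa using he
  rw [hp, Finset.sum_map]
  refine Finset.sum_congr rfl fun S _ => ?_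
  rw [map_smul, permOp_bv]
  simp only [Equiv.coe_toEmbedding, Equiv.finsetCongr_apply, Equiv.prodCongr_apply, Prod.map]
  congr 2
  unfold cf
  rw [← Finset.map_sdiff, Finset.prod_map, Finset.prod_map]
  simp [hσ]

end fam

end Pool.MP_81d1ca_an.H37
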