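import Mathlib
import Pool.Agent.Lib.MP_81d1ca_an.H37Fam
import Pool.Agent.Lib.MP_81d1ca_an.H37FP

open scoped InnerProductSpace ComplexConjugate ENNReal
open Filter Topology Monoid Monoid.CoprodI

namespace Pool.MP_81d1ca_an.H37

/-- index set of the bits: `(λ, n, none)` spins, `(λ, n, some γ)` edges -/
abbrev EE := FG × ℕ × Option FG
/-- the elementary abelian 2-group -/
abbrev VV := EE →₀ ZMod 2

lemma emul (f g : AddMonoid.End VV) (x : VV) : (f * g) x = f (g x) := rfl

/-- left translation on the first coordinate -/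
def pL (l : FG) : EE ≃ EE where
  toFun p := (l * p.1, p.2)
  invFun p := (l⁻¹ * p.1, p.2)
  left_inv p := by simp
  right_inv p := by simp

/-- left translation on the last coordinate -/
def pG (g : FG) : EE ≃ EE where
  toFun p := (p.1, p.2.1, p.2.2.map (g * ·))
  invFun p := (p.1, p.2.1, p.2.2.map (g⁻¹ * ·))
  left_inv p := by
    obtain ⟨a, b, c⟩ := p
    cases c <;> simp
  right_inv p := by
    obtain ⟨a, b, c⟩ := p
    cases c <;> simp

/-- permutation of coordinates -/
def pe (σ : EE ≃ EE) : AddMonoid.End VV where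
  toFun x := x.equivMapDomain σ
  map_zero' := by ext e; rfl
  map_add' x y := by ext e; rfl

lemma pe_apply (σ : EE ≃ EE) (x : VV) (e : EE) : pe σ x e = x (σ.symm e) := rfl

lemma pe_support (σ : EE ≃ EE) (x : VV) : (pe σ x).support = x.support.map σ.toEmbedding := rfl

/-- action on `VV` by translating the first coordinate -/
def aL : FG →* AddMonoid.End VV where
  toFun l := pe (pL l)
  map_one' := by
    ext1 x; ext e
    rw [pe_apply]; simp [pL]
  map_mul' l l' := by
    ext1 x; ext e
    rw [emul, pe_apply, pe_apply, pe_apply]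
    simp [pL, mul_assoc]

/-- action on `VV` by translating the last coordinate -/
def aG : FG →* AddMonoid.End VV where
  toFun l := pe (pG l)
  map_one' := by
    ext1 x; ext ⟨a, b, c⟩
    rw [pe_apply]
    cases c <;> simp [pG]
  map_mul' l l' := by
    ext1 x; ext ⟨a, b, c⟩
    rw [emul, pe_apply, pe_apply, pe_apply]
    cases c <;> simp [pG, mul_assoc]

lemma aL_apply (l : FG) (x : VV) (a : FG) (b : ℕ × Option FG) : aL l x (a, b) = x (l⁻¹ * a, b) := rfl
lemma aG_none (g : FG) (x : VV) (a : FG) (n : ℕ) : aG g x (a, n, none) = x (a, n, none) := rfl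
lemma aG_some (g : FG) (x : VV) (a : FG) (n : ℕ) (k : FG) :
    aG g x (a, n, some k) = x (a, n, some (g⁻¹ * k)) := rfl

/-- embedding used for `θ₀` -/
def iN : FG × ℕ ↪ EE := ⟨fun p => (p.1, p.2, none), fun p q h => by
  simp only [Prod.mk.injEq, and_true] at h; exact Prod.ext h.1 h.2⟩
/-- embedding used for `θ₀` -/
def iS : FG × ℕ ↪ EE := ⟨fun p => (p.1, p.2, some 1), fun p q h => by
  simp only [Prod.mk.injEq, and_true] at h; exact Prod.ext h.1 h.2⟩

/-- `(θ₀ x)(l,n,some 1) = x (l,n,none)`, other coordinates zero -/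
noncomputable def th0 : AddMonoid.End VV where
  toFun x := (x.comapDomain iN iN.injective.injOn).embDomain iS
  map_zero' := by
    ext e
    by_cases he : e ∈ Set.range iS
    · obtain ⟨q, rfl⟩ := he
      rw [Finsupp.embDomain_apply_self]; rfl
    · rw [Finsupp.embDomain_of_notMem_range _ _ _ he]; rfl
  map_add' x y := by
    ext e
    by_cases he : e ∈ Set.range iS
    · obtain ⟨q, rfl⟩ := he
      rw [Finsupp.add_apply, Finsupp.embDomain_apply_self, Finsupp.embDomain_apply_self,
        Finsupp.embDomain_apply_self]; rfl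
    · rw [Finsupp.add_apply, Finsupp.embDomain_of_notMem_range _ _ _ he,
        Finsupp.embDomain_of_notMem_range _ _ _ he, Finsupp.embDomain_of_notMem_range _ _ _ he]; rfl

lemma th0_self (x : VV) (a : FG) (n : ℕ) : th0 x (a, n, some 1) = x (a, n, none) := by
  change Finsupp.embDomain iS _ (iS (a, n)) = _
  rw [Finsupp.embDomain_apply_self]; rfl

lemma th0_none (x : VV) (a : FG) (n : ℕ) : th0 x (a, n, none) = 0 := by
  change Finsupp.embDomain iS _ _ = _
  apply Finsupp.embDomain_of_notMem_range
  rintro ⟨q, hq⟩
  simp [iS] at hq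

lemma th0_ne (x : VV) (a : FG) (n : ℕ) {k : FG} (hk : k ≠ 1) : th0 x (a, n, some k) = 0 := by
  change Finsupp.embDomain iS _ _ = _
  apply Finsupp.embDomain_of_notMem_range
  rintro ⟨q, hq⟩
  simp [iS] at hq
  exact hk hq.2.2.symm

/-- the involution `Θ` -/
noncomputable def Th : AddMonoid.End VV := 1 + th0

lemma Th_apply (x : VV) (e : EE) : Th x e = x e + th0 x e := rfl

lemma zmod2_add_self (a : ZMod 2) : a + a = 0 := by revert a; decide

lemma Th_Th : Th * Th = 1 := by
  ext1 x; ext ⟨a, n, c⟩
  rw [emul, Th_apply, Th_apply]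
  rcases c with _ | k
  · rw [th0_none, th0_none, add_zero, add_zero]; rfl
  · by_cases hk : k = 1
    · subst hk
      rw [th0_self, th0_self, Th_apply, th0_none, add_zero, add_assoc, zmod2_add_self, add_zero]
      rfl
    · rw [th0_ne _ _ _ hk, th0_ne _ _ _ hk, add_zero, add_zero]; rfl

/-- the twisted action of the first free product -/
noncomputable def rG : FG →* AddMonoid.End VV :=
  CoprodI.lift fun b : Bool =>
    match b with
    | true => aG.comp (of (M := fun _ : Bool => C3) (i := true))
    | false =>
      { toFun := fun m => Th * aG (io false m) * Th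
        map_one' := by
          have : io false 1 = 1 := map_one _
          rw [this, map_one, mul_one, Th_Th]
        map_mul' := fun m m' => by
          have : io false (m * m') = io false m * io false m' := map_mul _ _ _
          rw [this, map_mul]
          calc Th * (aG (io false m) * aG (io false m')) * Th
              = Th * aG (io false m) * 1 * aG (io false m') * Th := by
                rw [mul_one]; simp only [mul_assoc]
            _ = _ := by rw [← Th_Th]; simp only [mul_assoc] }

lemma rG_true (m : C3) : rG (io true m) = aG (io true m) := by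
  unfold rG io; rw [CoprodI.lift_of]; rfl
lemma rG_false (m : C3) : rG (io false m) = Th * aG (io false m) * Th := by
  unfold rG io; rw [CoprodI.lift_of]; rfl

lemma aL_Th (l : FG) : Commute Th (aL l) := by
  change _ = _
  ext1 x; ext ⟨a, n, c⟩
  rw [emul, emul, Th_apply, aL_apply, aL_apply, Th_apply]
  rcases c with _ | k
  · rw [th0_none, th0_none]
  · by_cases hk : k = 1
    · subst hk
      rw [th0_self, th0_self]; rfl
    · rw [th0_ne _ _ _ hk, th0_ne _ _ _ hk]

lemma aL_aG (g l : FG) : Commute (aG g) (aL l) := by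
  change _ = _
  ext1 x; ext ⟨a, n, c⟩
  rw [emul, emul]
  rcases c with _ | k <;> rfl

lemma rG_comm (g l : FG) : Commute (rG g) (aL l) := by
  induction g using Monoid.CoprodI.induction_on with
  | one => rw [map_one]; exact Commute.one_left _
  | of i m =>
    cases i
    · change Commute (rG (io false m)) _
      rw [rG_false]
      exact ((aL_Th l).mul_left (aL_aG _ l)).mul_left (aL_Th l)
    · change Commute (rG (io true m)) _
      rw [rG_true]; exact aL_aG _ _
  | mul x y hx hy => rw [map_mul]; exact hx.mul_left hy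

/-- the action of `Γ × Λ` -/
noncomputable def act : FG × FG →* AddMonoid.End VV := MonoidHom.noncommCoprod rG aL rG_comm

lemma act_apply (t : FG × FG) (x : VV) : act t x = rG t.1 (aL t.2 x) := rfl

/-- the biases -/
noncomputable def rr (e : EE) : ℝ :=
  match e.2.2 with
  | none => 0
  | some _ => 1 - 1 / (e.2.1 + 2)

lemma rr_none (a : FG) (n : ℕ) : rr (a, n, none) = 0 := rfl
lemma rr_some (a : FG) (n : ℕ) (k : FG) : rr (a, n, some k) = 1 - 1 / (n + 2) := rfl

lemma rr_nonneg (e : EE) : 0 ≤ rr e := by
  obtain ⟨a, n, c⟩ := e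
  rcases c with _ | k
  · rw [rr_none]
  · rw [rr_some]
    have : (1 : ℝ) / (n + 2) ≤ 1 := by rw [div_le_one (by positivity)]; linarith [n.cast_nonneg (α := ℝ)]
    linarith

lemma rr_lt_one (e : EE) : rr e < 1 := by
  obtain ⟨a, n, c⟩ := e
  rcases c with _ | k
  · rw [rr_none]; norm_num
  · rw [rr_some]
    have : (0 : ℝ) < 1 / (n + 2) := by positivity
    linarith

/-- the character on `VV` -/
noncomputable def psV (x : VV) : ℝ := ∏ e ∈ x.support, rr e

lemma psV_zero : psV 0 = 1 := by simp [psV]

lemma psV_pe (σ : EE ≃ EE) (hσ : ∀ e, rr (σ e) = rr e) (x : VV) : psV (pe σ x) = psV x := by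
  unfold psV
  rw [pe_support, Finset.prod_map]
  simp [hσ]

lemma psV_aL (l : FG) (x : VV) : psV (aL l x) = psV x := psV_pe _ (fun _ => rfl) x
lemma psV_aG (l : FG) (x : VV) : psV (aG l x) = psV x := by
  refine psV_pe _ ?_ x
  rintro ⟨a, n, c⟩
  rcases c with _ | k <;> rfl

lemma psV_eq_zero {x : VV} {a : FG} {n : ℕ} (h : x (a, n, none) ≠ 0) : psV x = 0 := by
  unfold psV
  apply Finset.prod_eq_zero (i := (a, n, none)) (by simpa using h)
  rfl

lemma psV_Th (x : VV) : psV (Th x) = psV x := by
  by_cases h : ∃ a n, x (a, n, none) ≠ 0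
  · obtain ⟨a, n, h⟩ := h
    rw [psV_eq_zero h, psV_eq_zero (a := a) (n := n)]
    rw [Th_apply, th0_none, add_zero]; exact h
  · push Not at h
    have : Th x = x := by
      ext ⟨a, n, c⟩
      rw [Th_apply]
      rcases c with _ | k
      · rw [th0_none, add_zero]
      · by_cases hk : k = 1
        · subst hk; rw [th0_self, h, add_zero]
        · rw [th0_ne _ _ _ hk, add_zero]
    rw [this]

lemma psV_rG (g : FG) (x : VV) : psV (rG g x) = psV x := by
  induction g using Monoid.CoprodI.induction_on generalizing x with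
  | one => rw [map_one]; rfl
  | of i m =>
    cases i
    · change psV (rG (io false m) x) = _
      rw [rG_false, emul, emul, psV_Th, psV_aG, psV_Th]
    · change psV (rG (io true m) x) = _
      rw [rG_true, psV_aG]
  | mul g k hg hk => rw [map_mul, emul, hg, hk]

lemma psV_act (t : FG × FG) (x : VV) : psV (act t x) = psV x := by
  rw [act_apply, psV_rG, psV_aL]

end Pool.MP_81d1ca_an.H37
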