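import Mathlib
import Pool.Agent.Lib.MP_81d1ca_an.H37Grp

open scoped InnerProductSpace ComplexConjugate ENNReal
open Filter Topology Monoid Monoid.CoprodI

namespace Pool.MP_81d1ca_an.H37

/-- Pauli group: `(s,a,b) = (-1)^s X^a Z^b` -/
@[ext] structure Pl where
  s : ZMod 2
  a : ZMod 2
  b : ZMod 2
deriving DecidableEq

namespace Pl
instance : Mul Pl := ⟨fun p q => ⟨p.s + q.s + p.b * q.a, p.a + q.a, p.b + q.b⟩⟩
instance : One Pl := ⟨⟨0, 0, 0⟩⟩
instance : Inv Pl := ⟨fun p => ⟨-p.s + p.b * p.a, -p.a, -p.b⟩⟩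
lemma mul_def (p q : Pl) : p * q = ⟨p.s + q.s + p.b * q.a, p.a + q.a, p.b + q.b⟩ := rfl
lemma one_def : (1 : Pl) = ⟨0, 0, 0⟩ := rfl
lemma inv_def (p : Pl) : p⁻¹ = ⟨-p.s + p.b * p.a, -p.a, -p.b⟩ := rfl
instance : Group Pl := Group.ofLeftAxioms
  (by intro p q r; ext <;> simp only [mul_def] <;> ring)
  (by intro p; ext <;> simp only [mul_def, one_def] <;> ring)
  (by intro p; ext <;> simp only [mul_def, inv_def, one_def] <;> ring)
end Pl

/-- sign -/
def sg (s : ZMod 2) : ℝ := if s = 0 then 1 else -1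
lemma z2 (s : ZMod 2) : s = 0 ∨ s = 1 := by
  revert s; decide
lemma sg_zero : sg 0 = 1 := by simp [sg]
lemma sg_one : sg 1 = -1 := by simp [sg]
lemma sg_add (s t : ZMod 2) : sg (s + t) = sg s * sg t := by
  have h11 : (1 : ZMod 2) + 1 = 0 := by decide
  rcases z2 s with rfl | rfl <;> rcases z2 t with rfl | rfl <;>
    simp [sg_zero, sg_one, h11]
lemma sg_sq (s : ZMod 2) : sg s * sg s = 1 := by
  rcases z2 s with rfl | rfl <;> simp [sg_zero, sg_one]
lemma sg_neg (s : ZMod 2) : sg (-s) = sg s := by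
  have h1 : -(1 : ZMod 2) = 1 := by decide
  rcases z2 s with rfl | rfl <;> simp [sg_zero, h1]

/-- character of the Pauli group -/
def psP (p : Pl) : ℝ := if p.a = 0 ∧ p.b = 0 then sg p.s else 0

lemma psP_conj (p q : Pl) : psP (q * p * q⁻¹) = psP p := by
  unfold psP
  have ha : (q * p * q⁻¹).a = p.a := by simp only [Pl.mul_def, Pl.inv_def]; ring
  have hb : (q * p * q⁻¹).b = p.b := by simp only [Pl.mul_def, Pl.inv_def]; ring
  rw [ha, hb]
  split_ifs with h
  · congr 1
    simp only [Pl.mul_def, Pl.inv_def, h.1, h.2]; ring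
  · rfl

/-- the full group -/
@[ext] structure GG where
  x : VV
  t : FG × FG
  p : Pl

namespace GG
noncomputable instance : Mul GG := ⟨fun g h => ⟨g.x + act g.t h.x, g.t * h.t, g.p * h.p⟩⟩
noncomputable instance : One GG := ⟨⟨0, 1, 1⟩⟩
noncomputable instance : Inv GG := ⟨fun g => ⟨- act g.t⁻¹ g.x, g.t⁻¹, g.p⁻¹⟩⟩
lemma mul_def (g h : GG) : g * h = ⟨g.x + act g.t h.x, g.t * h.t, g.p * h.p⟩ := rfl
lemma one_def : (1 : GG) = ⟨0, 1, 1⟩ := rfl
lemma inv_def (g : GG) : g⁻¹ = ⟨- act g.t⁻¹ g.x, g.t⁻¹, g.p⁻¹⟩ := rfl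
noncomputable instance : Group GG := Group.ofLeftAxioms
  (by
    intro g h k
    simp only [mul_def, map_mul, mul_assoc, emul, map_add, add_assoc])
  (by
    intro g
    simp only [mul_def, one_def, map_one, one_mul, zero_add]
    rfl)
  (by
    intro g
    simp only [mul_def, one_def, inv_def, neg_add_cancel, inv_mul_cancel])
end GG

/-- tags -/
abbrev TT := (FG × FG) × (ZMod 2 × ZMod 2)

/-- tag of a group element -/
def tg (g : GG) : TT := (g.t, (g.p.a, g.p.b))

/-- the Hilbert space -/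
noncomputable abbrev HH := L2 (Finset EE × TT)

/-- the total family -/
noncomputable def vv (g : GG) : HH := ((sg g.p.s : ℝ) : ℂ) • wv rr g.x.support (tg g)

/-- the character -/
noncomputable def psi (g : GG) : ℂ :=
  if g.t = 1 then ((psP g.p * psV g.x : ℝ) : ℂ) else 0

lemma neg_eq_self (x : VV) : -x = x := by
  ext e
  have : ∀ a : ZMod 2, -a = a := by decide
  exact this _

lemma support_add_symmDiff (x y : VV) : (x + y).support = symmDiff x.support y.support := by
  ext e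
  simp only [Finsupp.mem_support_iff, Finsupp.add_apply, Finset.mem_symmDiff]
  have : ∀ a b : ZMod 2, a + b ≠ 0 ↔ (a ≠ 0 ∧ ¬ b ≠ 0 ∨ b ≠ 0 ∧ ¬ a ≠ 0) := by decide
  exact this _ _

lemma inner_vv (g h : GG) : ⟪vv g, vv h⟫_ℂ =
    if tg g = tg h then ((sg g.p.s * sg h.p.s * psV (g.x + h.x) : ℝ) : ℂ) else 0 := by
  classical
  unfold vv
  rw [inner_smul_left, inner_smul_right, inner_wv rr_nonneg rr_lt_one]
  split_ifs with ht
  · unfold psV
    rw [support_add_symmDiff]
    push_cast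
    rw [Complex.conj_ofReal]; ring
  · simp

lemma psi_inv_mul (g h : GG) : psi (g⁻¹ * h) =
    if tg g = tg h then ((sg g.p.s * sg h.p.s * psV (g.x + h.x) : ℝ) : ℂ) else 0 := by
  unfold psi
  have e1 : (g⁻¹ * h).t = g.t⁻¹ * h.t := rfl
  have e2 : (g⁻¹ * h).x = act g.t⁻¹ (g.x + h.x) := by
    change - act g.t⁻¹ g.x + act g.t⁻¹ h.x = _
    rw [neg_eq_self, map_add]
  have e3 : (g⁻¹ * h).p = g.p⁻¹ * h.p := rfl
  rw [e1, e2, e3, psV_act]
  have hmod : ∀ a b : ZMod 2, -a + b = 0 ↔ a = b := by decide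
  by_cases ht : g.t = h.t
  · rw [if_pos (by rw [ht]; simp)]
    unfold psP
    have e4 : (g.p⁻¹ * h.p).a = -g.p.a + h.p.a := rfl
    have e5 : (g.p⁻¹ * h.p).b = -g.p.b + h.p.b := rfl
    have e6 : (g.p⁻¹ * h.p).s = (-g.p.s + g.p.b * g.p.a) + h.p.s + (-g.p.b) * h.p.a := rfl
    simp only [e4, e5, hmod]
    by_cases hab : g.p.a = h.p.a ∧ g.p.b = h.p.b
    · rw [if_pos hab, if_pos (by unfold tg; rw [ht, hab.1, hab.2]), e6, hab.1, hab.2]
      have e7 : (-g.p.s + h.p.b * h.p.a) + h.p.s + (-h.p.b) * h.p.a = -g.p.s + h.p.s := by ring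
      rw [e7, sg_add, sg_neg]
    · rw [if_neg hab, if_neg]
      · simp
      · intro h2
        unfold tg at h2
        simp only [Prod.mk.injEq] at h2
        exact hab h2.2
  · rw [if_neg (by rwa [inv_mul_eq_one]), if_neg]
    intro h2
    unfold tg at h2
    simp only [Prod.mk.injEq] at h2
    exact ht h2.1

lemma psi_conj (g h : GG) : psi (h * g * h⁻¹) = psi g := by
  unfold psi
  have e1 : (h * g * h⁻¹).t = h.t * g.t * h.t⁻¹ := rfl
  have e3 : (h * g * h⁻¹).p = h.p * g.p * h.p⁻¹ := rfl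
  rw [e1, e3, psP_conj]
  by_cases ht : g.t = 1
  · rw [if_pos (by rw [ht]; group), if_pos ht]
    have e2 : (h * g * h⁻¹).x = act h.t g.x := by
      change (h.x + act h.t g.x) + act (h.t * g.t) (- act h.t⁻¹ h.x) = _
      rw [ht, mul_one, neg_eq_self, ← emul, ← map_mul, mul_inv_cancel, map_one]
      change h.x + act h.t g.x + h.x = _
      have : h.x + act h.t g.x + h.x = act h.t g.x + (h.x + - h.x) := by
        rw [neg_eq_self]; abel
      rw [this, add_neg_cancel, add_zero]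
    rw [e2, psV_act]
  · rw [if_neg ht, if_neg]
    intro h2
    apply ht
    have : g.t = h.t⁻¹ * (h.t * g.t * h.t⁻¹) * h.t := by group
    rw [this, h2]; group

/-- indicator vector of a finite set -/
noncomputable def chi (B : Finset EE) : VV := Finsupp.onFinset B (fun e => if e ∈ B then 1 else 0)
  (by intro e; simp)

lemma chi_apply (B : Finset EE) (e : EE) : chi B e = if e ∈ B then 1 else 0 := rfl

lemma chi_support (B : Finset EE) : (chi B).support = B := by
  ext e
  rw [Finsupp.mem_support_iff, chi_apply]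
  split_ifs with h <;> simp [h]

lemma vv_chi (B : Finset EE) (t : TT) : vv ⟨chi B, t.1, ⟨0, t.2.1, t.2.2⟩⟩ = wv rr B t := by
  unfold vv
  rw [sg_zero, chi_support]
  simp [tg]

lemma tot_of_bv {J ι : Type} {v : ι → L2 J} (h : ∀ j, bv j ∈ Submodule.span ℂ (Set.range v)) :
    Tot v := by
  have h1 : Dense ((Submodule.span ℂ (Set.range v) : Submodule ℂ (L2 J)) : Set (L2 J)) := by
    have h2 : Dense (Set.range (Finsupp.linearCombination ℂ (bv : J → L2 J))) := tot_bv
    refine h2.mono ?_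
    rintro _ ⟨c, rfl⟩
    rw [Finsupp.linearCombination_apply]
    exact Submodule.sum_mem _ fun j _ => Submodule.smul_mem _ _ (h j)
  unfold Tot DenseRange
  have h3 : Set.range (Finsupp.linearCombination ℂ v) =
      ((Submodule.span ℂ (Set.range v) : Submodule ℂ (L2 J)) : Set (L2 J)) := by
    rw [← Finsupp.range_linearCombination]; rfl
  rw [h3]; exact h1

lemma tot_vv : Tot vv := by
  apply tot_of_bv
  rintro ⟨B, t⟩
  refine Submodule.span_le.2 ?_ (bv_mem_span_wv rr_nonneg rr_lt_one t B)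
  rintro _ ⟨⟨B', t'⟩, rfl⟩
  exact Submodule.subset_span ⟨_, vv_chi B' t'⟩

theorem charFam : CharFam psi vv where
  inner_eq g h := by rw [inner_vv, psi_inv_mul]
  tot := tot_vv
  conj_inv g h := psi_conj g h
  one := by
    unfold psi psP
    rw [GG.one_def, Pl.one_def]
    simp [psV_zero, sg_zero]

end Pool.MP_81d1ca_an.H37
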