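import Mathlib
import Pool.Agent.Lib.MP_81d1ca_an.H37Char

open scoped InnerProductSpace ComplexConjugate ENNReal
open Filter Topology Monoid Monoid.CoprodI

namespace Pool.MP_81d1ca_an.H37

instance : Fintype C3 := inferInstanceAs (Fintype (ZMod 3))

/-- the support of the base point -/
noncomputable def B0 (n : ℕ) : Finset EE := by
  classical exact Finset.univ.image fun m : C3 => ((io true m, n, none) : EE)

/-- the base point -/
noncomputable def x0 (n : ℕ) : VV := chi (B0 n)

lemma mem_B0 {n : ℕ} {e : EE} : e ∈ B0 n ↔ ∃ m : C3, (io true m, n, none) = e := by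
  unfold B0
  simp

lemma x0_some (n : ℕ) (a : FG) (k : ℕ) (g : FG) : x0 n (a, k, some g) = 0 := by
  unfold x0
  rw [chi_apply, if_neg]
  rw [mem_B0]
  rintro ⟨m, hm⟩
  simp at hm

lemma x0_one (n : ℕ) : x0 n (1, n, none) = 1 := by
  unfold x0
  rw [chi_apply, if_pos]
  rw [mem_B0]
  exact ⟨1, by simp [io]⟩

lemma aL_x0 (n : ℕ) (m : C3) : aL (io true m) (x0 n) = x0 n := by
  ext ⟨a, b⟩
  rw [aL_apply]
  unfold x0
  rw [chi_apply, chi_apply]
  have : ((io true m)⁻¹ * a, b) ∈ B0 n ↔ (a, b) ∈ B0 n := by
    rw [mem_B0, mem_B0]
    constructor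
    · rintro ⟨m', h⟩
      simp only [Prod.mk.injEq] at h
      refine ⟨m * m', ?_⟩
      rw [Prod.mk.injEq]
      refine ⟨?_, h.2⟩
      have : io true (m * m') = io true m * io true m' := map_mul _ _ _
      rw [this, h.1]; simp
    · rintro ⟨m', h⟩
      simp only [Prod.mk.injEq] at h
      refine ⟨m⁻¹ * m', ?_⟩
      rw [Prod.mk.injEq]
      refine ⟨?_, h.2⟩
      have : io true (m⁻¹ * m') = io true m⁻¹ * io true m' := map_mul _ _ _
      rw [this, h.1]
      have : io true m⁻¹ = (io true m)⁻¹ := map_inv _ _
      rw [this]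
  simp only [this]

lemma aG_x0 (n : ℕ) (g : FG) : aG g (x0 n) = x0 n := by
  ext ⟨a, k, c⟩
  rcases c with _ | h
  · rw [aG_none]
  · rw [aG_some, x0_some, x0_some]

lemma rG_true_x0 (n : ℕ) (m : C3) : rG (io true m) (x0 n) = x0 n := by
  rw [rG_true, aG_x0]

lemma rG_false_Th_x0 (n : ℕ) (m : C3) : rG (io false m) (Th (x0 n)) = Th (x0 n) := by
  rw [rG_false, emul, emul, ← emul Th Th, Th_Th]
  change Th (aG (io false m) (x0 n)) = _
  rw [aG_x0]

lemma aL_Th_x0 (n : ℕ) (m : C3) : aL (io true m) (Th (x0 n)) = Th (x0 n) := by
  have h := aL_Th (io true m)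
  have h2 : (Th * aL (io true m)) (x0 n) = (aL (io true m) * Th) (x0 n) := by rw [h.eq]
  rw [emul, emul, aL_x0] at h2
  exact h2.symm

lemma add_self_VV (x : VV) : x + x = 0 := by
  nth_rewrite 2 [← neg_eq_self x]
  exact add_neg_cancel x

lemma x0_add_Th (n : ℕ) : x0 n + Th (x0 n) = th0 (x0 n) := by
  ext e
  rw [Finsupp.add_apply, Th_apply, ← add_assoc, zmod2_add_self, zero_add]

lemma psV_x0_Th (n : ℕ) : (1 - 1 / ((n : ℝ) + 2)) ^ 3 ≤ psV (x0 n + Th (x0 n)) := by
  classical
  rw [x0_add_Th]
  unfold psV
  set r : ℝ := 1 - 1 / ((n : ℝ) + 2) with hr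
  have hr0 : 0 ≤ r := rr_nonneg (1, n, some 1)
  have hr1 : r ≤ 1 := (rr_lt_one (1, n, some 1)).le
  have hsub : (th0 (x0 n)).support ⊆ Finset.univ.image fun m : C3 => ((io true m, n, some 1) : EE) := by
    rintro ⟨a, k, c⟩ he
    rw [Finsupp.mem_support_iff] at he
    rcases c with _ | g
    · exact (he (th0_none _ _ _)).elim
    · by_cases hg : g = 1
      · subst hg
        rw [th0_self] at he
        have : (a, k, none) ∈ B0 n := by
          by_contra h
          apply he
          unfold x0; rw [chi_apply, if_neg h]
        rw [mem_B0] at this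
        obtain ⟨m, hm⟩ := this
        simp only [Prod.mk.injEq] at hm
        rw [Finset.mem_image]
        exact ⟨m, Finset.mem_univ _, by rw [hm.1, hm.2.1]⟩
      · exact (he (th0_ne _ _ _ hg)).elim
  have hprod : ∏ e ∈ (th0 (x0 n)).support, rr e = r ^ (th0 (x0 n)).support.card := by
    rw [Finset.prod_congr rfl (g := fun _ => r), Finset.prod_const]
    intro e he
    have := hsub he
    rw [Finset.mem_image] at this
    obtain ⟨m, _, rfl⟩ := this
    rfl
  rw [hprod]
  apply pow_le_pow_of_le_one hr0 hr1
  refine (Finset.card_le_card hsub).trans (Finset.card_image_le.trans ?_)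
  rw [Finset.card_univ]
  exact (ZMod.card 3).le

/-- the path cocycle on the fibre `(1,n)` -/
lemma path (n : ℕ) (g : FG) : rG g (x0 n) (1, n, none) = 1 ∧ ∃ B : Finset FG,
    (∀ k, rG g (x0 n) (1, n, some k) ≠ 0 ↔ k ∈ B) ∧
    (hd g ≠ some true → ∀ k ∈ B, hd k ≠ some true) ∧
    (hd g ≠ some false → ∀ k ∈ B, hd k = some true) ∧
    len g ≤ B.card + 1 ∧ (hd g ≠ some true → len g ≤ B.card) := by
  classical
  refine induct (P := fun g => rG g (x0 n) (1, n, none) = 1 ∧ ∃ B : Finset FG,
    (∀ k, rG g (x0 n) (1, n, some k) ≠ 0 ↔ k ∈ B) ∧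
    (hd g ≠ some true → ∀ k ∈ B, hd k ≠ some true) ∧
    (hd g ≠ some false → ∀ k ∈ B, hd k = some true) ∧
    len g ≤ B.card + 1 ∧ (hd g ≠ some true → len g ≤ B.card)) ?_ ?_ g
  · rw [map_one]
    refine ⟨x0_one n, ∅, ?_, ?_, ?_, ?_, ?_⟩
    · intro k
      have : (1 : AddMonoid.End VV) (x0 n) (1, n, some k) = 0 := x0_some _ _ _ _
      rw [this]; simp
    · simp
    · simp
    · simp
    · simp
  · rintro i m x hm hx ⟨h1, B, hB, hB1, hB2, hB3, hB4⟩
    cases i
    · -- false letter
      have hx' : ∀ k ∈ B, hd k = some true := hB2 hx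
      have e0 : rG (io false m * x) (x0 n) = Th (aG (io false m) (Th (rG x (x0 n)))) := by
        rw [map_mul, emul, rG_false]; rfl
      have hhd : hd (io false m * x) = some false := hd_mul hm hx
      refine ⟨?_, insert 1 (insert (io false m) (B.image (io false m * ·))), ?_, ?_, ?_, ?_⟩
      · rw [e0, Th_apply, th0_none, aG_none, Th_apply, th0_none, h1]; rfl
      · intro k
        rw [e0]
        -- values
        have v1 : ∀ k, Th (rG x (x0 n)) (1, n, some k) =
            rG x (x0 n) (1, n, some k) + if k = 1 then 1 else 0 := by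
          intro k
          rw [Th_apply]
          split_ifs with hk
          · subst hk; rw [th0_self, h1]
          · rw [th0_ne _ _ _ hk]
        have v2 : Th (aG (io false m) (Th (rG x (x0 n)))) (1, n, some k) =
            rG x (x0 n) (1, n, some ((io false m)⁻¹ * k)) +
              (if (io false m)⁻¹ * k = 1 then 1 else 0) + if k = 1 then 1 else 0 := by
          rw [Th_apply, aG_some, v1]
          congr 1
          split_ifs with hk
          · subst hk; rw [th0_self, aG_none, Th_apply, th0_none, h1]; rfl
          · rw [th0_ne _ _ _ hk]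
        rw [v2]
        have hne : io false m ≠ 1 := by
          intro h
          have h3 : hd (io false m * 1) = some false := hd_mul hm (by simp)
          rw [mul_one, h] at h3
          simp at h3
        by_cases hk1 : k = 1
        · subst hk1
          have a1 : (io false m)⁻¹ * 1 ≠ 1 := by
            rw [mul_one]; simpa using hne
          have a2 : (io false m)⁻¹ * 1 ∉ B := by
            intro h
            have h4 := hx' _ h
            have e5 : (io false m)⁻¹ * 1 = io false m⁻¹ := by
              rw [mul_one]; exact (map_inv _ _).symm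
            rw [e5] at h4
            exact hd_io_ne (i := false) m⁻¹ h4
          have a3 : rG x (x0 n) (1, n, some ((io false m)⁻¹ * 1)) = 0 := by
            by_contra h
            exact a2 ((hB _).1 h)
          rw [a3, if_neg a1, if_pos rfl]
          simp
        · by_cases hk2 : k = io false m
          · subst hk2
            have a2 : (1 : FG) ∉ B := by
              intro h
              have h4 := hx' _ h
              simp at h4
            have a3 : rG x (x0 n) (1, n, some 1) = 0 := by
              by_contra h
              exact a2 ((hB _).1 h)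
            rw [inv_mul_cancel, a3, if_pos rfl, if_neg hk1]
            simp
          · have a1 : (io false m)⁻¹ * k ≠ 1 := by
              intro h
              exact hk2 (inv_mul_eq_one.1 h).symm
            rw [if_neg a1, if_neg hk1, add_zero, add_zero, hB]
            rw [Finset.mem_insert, Finset.mem_insert, Finset.mem_image]
            constructor
            · intro h
              exact Or.inr (Or.inr ⟨_, h, by simp⟩)
            · rintro (h | h | ⟨b, hb, rfl⟩)
              · exact (hk1 h).elim
              · exact (hk2 h).elim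
              · simpa using hb
      · intro _ k hk
        rw [Finset.mem_insert, Finset.mem_insert, Finset.mem_image] at hk
        rcases hk with rfl | rfl | ⟨b, hb, rfl⟩
        · simp
        · exact hd_io_ne (i := false) m
        · have : hd b ≠ some false := by rw [hx' b hb]; simp
          rw [hd_mul hm this]; simp
      · intro h; exact (h hhd).elim
      · have hcard : (insert 1 (insert (io false m) (B.image (io false m * ·)))).card = B.card + 2 := by
          rw [Finset.card_insert_of_notMem, Finset.card_insert_of_notMem,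
            Finset.card_image_of_injective _ (mul_right_injective _)]
          · rw [Finset.mem_image]
            rintro ⟨b, hb, hb2⟩
            have : b = 1 := by simpa using hb2
            subst this
            have := hx' _ hb
            simp at this
          · rw [Finset.mem_insert, Finset.mem_image]
            rintro (h | ⟨b, hb, hb2⟩)
            · have h3 : hd (io false m * 1) = some false := hd_mul hm (by simp)
              rw [mul_one, ← h] at h3
              simp at h3
            · have h3 : hd (io false m * b) = some false := hd_mul hm (by rw [hx' b hb]; simp)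
              have hb3 : io false m * b = 1 := hb2
              rw [hb3] at h3
              simp at h3
        rw [hcard, len_mul hm hx]
        exact ⟨by omega, fun _ => by omega⟩
    · -- true letter
      have hx' : ∀ k ∈ B, hd k ≠ some true := hB1 hx
      have e0 : rG (io true m * x) (x0 n) = aG (io true m) (rG x (x0 n)) := by
        rw [map_mul, emul, rG_true]
      have hhd : hd (io true m * x) = some true := hd_mul hm hx
      refine ⟨?_, B.image (io true m * ·), ?_, ?_, ?_, ?_⟩
      · rw [e0, aG_none, h1]
      · intro k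
        rw [e0, aG_some, hB, Finset.mem_image]
        constructor
        · intro h; exact ⟨_, h, by simp⟩
        · rintro ⟨b, hb, rfl⟩; simpa using hb
      · intro h; exact (h hhd).elim
      · intro _ k hk
        rw [Finset.mem_image] at hk
        obtain ⟨b, hb, rfl⟩ := hk
        exact hd_mul hm (hx' b hb)
      · rw [Finset.card_image_of_injective _ (mul_right_injective _), len_mul hm hx]
        refine ⟨?_, fun h => (h hhd).elim⟩
        have := hB4 hx
        omega

lemma rG_none (g : FG) (x : VV) (a : FG) (n : ℕ) : rG g x (a, n, none) = x (a, n, none) := by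
  induction g using Monoid.CoprodI.induction_on generalizing x with
  | one => rw [map_one]; rfl
  | of i m =>
    cases i
    · change rG (io false m) x _ = _
      rw [rG_false, emul, emul, Th_apply, th0_none, aG_none, Th_apply, th0_none]
      simp
    · change rG (io true m) x _ = _
      rw [rG_true, aG_none]
  | mul g k hg hk => rw [map_mul, emul, hg, hk]

lemma psV_le_pow (n : ℕ) (g : FG) : ∃ B : ℕ, len g ≤ B + 1 ∧
    psV (x0 n + rG g (x0 n)) ≤ (1 - 1 / ((n : ℝ) + 2)) ^ B := by
  classical
  obtain ⟨-, B, hB, -, -, hB3, -⟩ := path n g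
  refine ⟨B.card, hB3, ?_⟩
  have hinj : Function.Injective fun k : FG => ((1, n, some k) : EE) := by
    intro a b h; simpa using h
  have hsub : B.image (fun k : FG => ((1, n, some k) : EE)) ⊆ (x0 n + rG g (x0 n)).support := by
    intro e he
    rw [Finset.mem_image] at he
    obtain ⟨k, hk, rfl⟩ := he
    rw [Finsupp.mem_support_iff, Finsupp.add_apply, x0_some, zero_add, hB]
    exact hk
  unfold psV
  rw [← Finset.prod_sdiff hsub]
  have h1 : ∏ e ∈ B.image (fun k : FG => ((1, n, some k) : EE)), rr e =
      (1 - 1 / ((n : ℝ) + 2)) ^ B.card := by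
    rw [Finset.prod_image (fun a _ b _ h => hinj h), Finset.prod_congr rfl
      (g := fun _ => 1 - 1 / ((n : ℝ) + 2)), Finset.prod_const]
    intro k _; rfl
  rw [h1]
  have h2 : ∏ e ∈ (x0 n + rG g (x0 n)).support \ B.image (fun k : FG => ((1, n, some k) : EE)),
      rr e ≤ 1 := Finset.prod_le_one (fun e _ => rr_nonneg e) (fun e _ => (rr_lt_one e).le)
  have h3 : 0 ≤ (1 - 1 / ((n : ℝ) + 2)) ^ B.card := pow_nonneg (rr_nonneg (1, n, some 1)) _
  nlinarith

/-- only finitely many `γ` have `ψ(x₀ + γ x₀) > 1/2` -/
theorem finite_big (n : ℕ) : {g : FG | 1 / 2 < psV (x0 n + rG g (x0 n))}.Finite := by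
  have hr0 : (0 : ℝ) ≤ 1 - 1 / ((n : ℝ) + 2) := rr_nonneg (1, n, some 1)
  have hr1 : (1 : ℝ) - 1 / ((n : ℝ) + 2) < 1 := rr_lt_one (1, n, some 1)
  obtain ⟨N, hN⟩ := exists_pow_lt_of_lt_one (show (0 : ℝ) < 1 / 2 by norm_num) hr1
  refine (finite_len (N + 1)).subset ?_
  intro g hg
  obtain ⟨B, hB, hB2⟩ := psV_le_pow n g
  simp only [Set.mem_ofPred_eq] at hg ⊢
  by_contra h
  push Not at h
  have hNB : N ≤ B := by omega
  have := pow_le_pow_of_le_one hr0 hr1.le hNB
  linarith

end Pool.MP_81d1ca_an.H37
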