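import Mathlib
import Pool.Agent.Lib.MP_81d1ca_an.H37Path

open scoped InnerProductSpace ComplexConjugate ENNReal
open Filter Topology Monoid Monoid.CoprodI

namespace Pool.MP_81d1ca_an.H37

section restr
variable {J : Type}

/-- restriction to a set of coordinates -/
noncomputable def restrFun (T : Set J) (x : L2 J) : L2 J :=
  ⟨fun j => (ind T j : ℂ) * x j, by
    refine memℓp_gen ?_
    have h := summable_sq x
    refine Summable.of_nonneg_of_le (fun j => by positivity) (fun j => ?_) h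
    have h1 := ind_nonneg T j
    have h2 := ind_le_one T j
    simp only [norm_mul, Complex.norm_real, Real.norm_eq_abs, abs_of_nonneg h1, ENNReal.toReal_ofNat,
      Real.rpow_ofNat]
    rw [mul_pow]
    have h3 : ind T j ^ 2 ≤ 1 := by nlinarith
    nlinarith [sq_nonneg ‖x j‖]⟩

lemma restrFun_apply (T : Set J) (x : L2 J) (j : J) : restrFun T x j = (ind T j : ℂ) * x j := rfl

lemma ind_sq (T : Set J) (j : J) : ind T j ^ 2 = ind T j := by
  unfold ind; split_ifs <;> norm_num

lemma norm_restrFun_sq (T : Set J) (x : L2 J) : ‖restrFun T x‖ ^ 2 = mass (ind T) x := by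
  rw [← tsum_sq]
  unfold mass
  refine tsum_congr fun j => ?_
  rw [restrFun_apply, norm_mul, mul_pow, Complex.norm_real, Real.norm_eq_abs, sq_abs, ind_sq]

/-- restriction operator -/
noncomputable def restr (T : Set J) : L2 J →L[ℂ] L2 J :=
  LinearMap.mkContinuous
    { toFun := restrFun T
      map_add' := fun x y => by
        ext j
        rw [lp.coeFn_add, Pi.add_apply, restrFun_apply, restrFun_apply, restrFun_apply,
          lp.coeFn_add, Pi.add_apply, mul_add]
      map_smul' := fun c x => by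
        ext j
        rw [lp.coeFn_smul, Pi.smul_apply, restrFun_apply, restrFun_apply, lp.coeFn_smul,
          Pi.smul_apply]
        simp only [smul_eq_mul, RingHom.id_apply]; ring } 1 (fun x => by
      have h := norm_restrFun_sq T x
      have h2 := mass_le_norm (ind_nonneg T) (ind_le_one T) x
      rw [one_mul]
      exact (sq_le_sq₀ (norm_nonneg _) (norm_nonneg _)).1 (h.trans_le h2))

lemma restr_apply (T : Set J) (x : L2 J) (j : J) : restr T x j = (ind T j : ℂ) * x j := rfl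

lemma norm_restr_sq (T : Set J) (x : L2 J) : ‖restr T x‖ ^ 2 = mass (ind T) x :=
  norm_restrFun_sq T x

lemma ind_mem {T : Set J} {j : J} (h : j ∈ T) : ind T j = 1 := by unfold ind; rw [if_pos h]
lemma ind_notMem {T : Set J} {j : J} (h : j ∉ T) : ind T j = 0 := by unfold ind; rw [if_neg h]

lemma restr_bv_mem {T : Set J} {j : J} (h : j ∈ T) : restr T (bv j) = bv j := by
  ext k
  rw [restr_apply]
  by_cases hk : k = j
  · subst hk; rw [ind_mem h]; simp
  · rw [bv_apply_ne hk, mul_zero]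

lemma restr_bv_notMem {T : Set J} {j : J} (h : j ∉ T) : restr T (bv j) = 0 := by
  ext k
  rw [restr_apply]
  by_cases hk : k = j
  · subst hk; rw [ind_notMem h]; simp
  · rw [bv_apply_ne hk, mul_zero]; rfl

lemma mass_permOp (e : J ≃ J) (f : J → ℝ) (x : L2 J) :
    mass f (permOp e x) = mass (fun j => f (e j)) x := by
  unfold mass
  rw [← e.tsum_eq]
  refine tsum_congr fun j => ?_
  rw [permOp_apply]; simp

end restr

lemma restr_vv_mem {T : Set TT} {h : GG} (ht : tg h ∈ T) :
    restr {j : Finset EE × TT | j.2 ∈ T} (vv h) = vv h := by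
  unfold vv wv
  rw [map_smul, map_sum]
  congr 1
  refine Finset.sum_congr rfl fun S _ => ?_
  rw [map_smul, restr_bv_mem]
  exact ht

lemma restr_vv_notMem {T : Set TT} {h : GG} (ht : tg h ∉ T) :
    restr {j : Finset EE × TT | j.2 ∈ T} (vv h) = 0 := by
  unfold vv wv
  rw [map_smul, map_sum]
  rw [Finset.sum_eq_zero, smul_zero]
  intro S _
  rw [map_smul, restr_bv_notMem, smul_zero]
  exact ht

/-- left multiplication transports tag classes -/
lemma mass_L {g : GG} {T T' : Set TT} (hg : ∀ h, tg (g * h) ∈ T' ↔ tg h ∈ T) (ξ : HH) :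
    mass (ind {j : Finset EE × TT | j.2 ∈ T'}) (Lop vv g ξ) =
      mass (ind {j : Finset EE × TT | j.2 ∈ T}) ξ := by
  have key : restr {j : Finset EE × TT | j.2 ∈ T'} * Lop vv g =
      Lop vv g * restr {j : Finset EE × TT | j.2 ∈ T} := by
    apply tot_vv.ext_clm
    intro h
    rw [mul_apply_eq_comp, mul_apply_eq_comp, charFam.L_apply]
    by_cases ht : tg h ∈ T
    · rw [restr_vv_mem ht, charFam.L_apply, restr_vv_mem ((hg h).2 ht)]
    · rw [restr_vv_notMem ht, map_zero, restr_vv_notMem (fun h' => ht ((hg h).1 h'))]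
  have k2 := congrArg (fun A : HH →L[ℂ] HH => A ξ) key
  simp only [mul_apply_eq_comp] at k2
  rw [← norm_restr_sq, ← norm_restr_sq, k2]
  congr 1
  exact norm_ext charFam.tot (charFam.gramL g) _

/-- conjugation operator -/
noncomputable def Cop (g : GG) : HH →L[ℂ] HH := Rop vv g * Lop vv g

lemma C_vv (g h : GG) : Cop g (vv h) = vv (g * h * g⁻¹) := by
  unfold Cop
  rw [mul_apply_eq_comp, charFam.L_apply, charFam.R_apply]

lemma norm_R (g : GG) (ξ : HH) : ‖Rop vv g ξ‖ = ‖ξ‖ := norm_ext charFam.tot (charFam.gramR g) ξ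
lemma norm_L (g : GG) (ξ : HH) : ‖Lop vv g ξ‖ = ‖ξ‖ := norm_ext charFam.tot (charFam.gramL g) ξ

lemma norm_C (g : GG) (ξ : HH) : ‖Cop g ξ‖ = ‖ξ‖ := by
  unfold Cop; rw [mul_apply_eq_comp, norm_R, norm_L]

lemma C_sub (g : GG) (ξ : HH) : ‖Cop g ξ - ξ‖ = ‖Lop vv g ξ - Rop vv g⁻¹ ξ‖ := by
  have h : Cop g ξ - ξ = Rop vv g (Lop vv g ξ - Rop vv g⁻¹ ξ) := by
    rw [map_sub]
    have : Rop vv g (Rop vv g⁻¹ ξ) = (Rop vv g * Rop vv g⁻¹) ξ := rfl
    rw [this, charFam.R_mul, mul_inv_cancel, charFam.R_one]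
    rfl
  rw [h, norm_R]

/-- group elements -/
noncomputable def gE (t : FG × FG) : GG := ⟨0, t, 1⟩
/-- group elements -/
noncomputable def gV (x : VV) : GG := ⟨x, 1, 1⟩

lemma gE_conj (l : FG) (h : GG) : gE (1, l) * h * (gE (1, l))⁻¹ =
    ⟨aL l h.x, (h.t.1, l * h.t.2 * l⁻¹), h.p⟩ := by
  apply GG.ext
  · change (0 + act (1, l) h.x) + act ((1, l) * h.t) (- act ((1, l) : FG × FG)⁻¹ 0) = _
    rw [map_zero, neg_zero, map_zero, add_zero, zero_add, act_apply, map_one]; rfl
  · change (1, l) * h.t * (1, l)⁻¹ = _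
    ext <;> simp
  · change 1 * h.p * 1⁻¹ = _
    simp

/-- the permutation of tags -/
def kap (l : FG) : TT ≃ TT where
  toFun t := ((t.1.1, l * t.1.2 * l⁻¹), t.2)
  invFun t := ((t.1.1, l⁻¹ * t.1.2 * l), t.2)
  left_inv t := by ext <;> simp [mul_assoc]
  right_inv t := by ext <;> simp [mul_assoc]

/-- the permutation of the index set -/
def prm (l : FG) : Finset EE × TT ≃ Finset EE × TT :=
  Equiv.prodCongr (Equiv.finsetCongr (pL l)) (kap l)

lemma C_eq_perm (l : FG) : Cop (gE (1, l)) = permOp (prm l) := by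
  apply tot_vv.ext_clm
  intro h
  rw [C_vv, gE_conj]
  unfold vv prm
  rw [map_smul, permOp_wv (pL l) (fun _ => rfl)]
  rfl

/-- classes of words -/
def Wc (b : Bool) : Set FG := {g | decide (hd g = some true) = b}

lemma Wc_or (b : Bool) (g : FG) : g ∈ Wc b ∨ g ∈ Wc (!b) := by
  unfold Wc
  simp only [Set.mem_ofPred_eq]
  cases b <;> by_cases h : hd g = some true <;> simp [h]

lemma Wc_not {b : Bool} {g : FG} (h : g ∈ Wc b) : g ∉ Wc (!b) := by
  unfold Wc at *
  simp only [Set.mem_ofPred_eq] at *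
  cases b <;> by_cases h : hd g = some true <;> simp_all

lemma Wc_hd {b : Bool} {g : FG} (h : g ∈ Wc (!b)) : hd g ≠ some b := by
  unfold Wc at h
  simp only [Set.mem_ofPred_eq] at h
  cases b
  · simp only [Bool.not_false, decide_eq_true_eq] at h
    rw [h]; simp
  · simp only [Bool.not_true, decide_eq_false_iff_not] at h
    exact h

lemma Wc_of_hd {b : Bool} {g : FG} (h : hd g = some b) : g ∈ Wc b := by
  unfold Wc
  simp only [Set.mem_ofPred_eq]
  cases b <;> simp [h]

lemma el_mul_Wc {b c : Bool} {g : FG} (h : g ∈ Wc (!b)) : el (b, c) * g ∈ Wc b :=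
  Wc_of_hd (hd_el_mul (s := (b, c)) (Wc_hd h))

lemma Wc_disj {b : Bool} {g : FG} (h1 : (el (b, true))⁻¹ * g ∈ Wc (!b))
    (h2 : (el (b, false))⁻¹ * g ∈ Wc (!b)) : False := by
  have e : (el (b, false))⁻¹ * g = el (b, false) * ((el (b, true))⁻¹ * g) := by
    calc (el (b, false))⁻¹ * g = ((el (b, false))⁻¹ * el (b, true)) * ((el (b, true))⁻¹ * g) := by
          group
      _ = _ := by rw [el_inv_mul_el]
  rw [e] at h2
  exact Wc_not (el_mul_Wc h1) h2

lemma hd_disj {b : Bool} {g : FG} (h1 : hd ((el (b, true))⁻¹ * g * el (b, true)) = some (!b))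
    (h2 : hd ((el (b, false))⁻¹ * g * el (b, false)) = some (!b)) : False := by
  have h3 := hd_el_conj (s := (b, false)) h1
  have e : el (b, false) * ((el (b, true))⁻¹ * g * el (b, true)) * (el (b, false))⁻¹ =
      (el (b, false))⁻¹ * g * el (b, false) := by
    calc _ = ((el (b, false))⁻¹ * el (b, true)) * ((el (b, true))⁻¹ * g * el (b, true)) *
          ((el (b, false))⁻¹ * el (b, true))⁻¹ := by rw [el_inv_mul_el]
      _ = _ := by group
  rw [e, h2] at h3
  cases b <;> simp at h3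

/-- count of first coordinates in a class -/
noncomputable def cnt (b : Bool) (S : Finset EE) : ℕ := by
  classical exact (S.filter fun e => e.1 ∈ Wc b).card

/-- the weights -/
noncomputable def fw (b : Bool) (j : Finset EE × TT) : ℝ := by
  classical exact
    if j.1 = ∅ then (if hd j.2.1.2 = some b then 1 else 0) else (cnt b j.1 : ℝ) / j.1.card

lemma cnt_le (b : Bool) (S : Finset EE) : cnt b S ≤ S.card := by
  classical
  unfold cnt; exact Finset.card_filter_le _ _

lemma cnt_add (S : Finset EE) : cnt true S + cnt false S = S.card := by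
  classical
  unfold cnt
  rw [← Finset.card_filter_add_card_filter_not (s := S) (fun e => e.1 ∈ Wc true)]
  congr 2
  apply Finset.filter_congr
  intro e _
  constructor
  · intro h; exact fun h' => Wc_not h' h
  · intro h; exact (Wc_or true e.1).resolve_left h

lemma fw_nonneg (b : Bool) (j : Finset EE × TT) : 0 ≤ fw b j := by
  unfold fw; split_ifs <;> positivity

lemma fw_le_one (b : Bool) (j : Finset EE × TT) : fw b j ≤ 1 := by
  unfold fw; split_ifs with h1 h2
  · exact le_rfl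
  · norm_num
  · have : (0 : ℝ) < j.1.card := by
      have := Finset.card_pos.2 (Finset.nonempty_iff_ne_empty.2 h1)
      exact_mod_cast this
    rw [div_le_one this]
    exact_mod_cast cnt_le b j.1

/-- the good indices -/
def J0 : Set (Finset EE × TT) := {j | j.1 = ∅ ∧ j.2.1.2 = 1}

lemma fw_add (j : Finset EE × TT) : fw true j + fw false j = ind J0ᶜ j := by
  by_cases h1 : j.1 = ∅
  · unfold fw
    rw [if_pos h1, if_pos h1]
    rcases h : hd j.2.1.2 with _ | b
    · have h2 := eq_one_of_hd h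
      have hj : j ∉ J0ᶜ := by
        intro hj; exact hj ⟨h1, h2⟩
      rw [ind_notMem hj]; simp
    · have hj : j ∈ J0ᶜ := by
        intro hj
        have h3 : hd j.2.1.2 = none := by rw [hj.2]; simp
        rw [h3] at h; simp at h
      rw [ind_mem hj]
      cases b <;> simp
  · unfold fw
    rw [if_neg h1, if_neg h1]
    have hj : j ∈ J0ᶜ := by
      intro hj; exact h1 hj.1
    rw [ind_mem hj]
    have : (0 : ℝ) < j.1.card := by
      have := Finset.card_pos.2 (Finset.nonempty_iff_ne_empty.2 h1)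
      exact_mod_cast this
    rw [← add_div, div_eq_one_iff_eq this.ne']
    exact_mod_cast cnt_add j.1

lemma prm_symm_fst (l : FG) (j : Finset EE × TT) : ((prm l).symm j).1 = j.1.map (pL l).symm.toEmbedding := rfl
lemma prm_symm_snd (l : FG) (j : Finset EE × TT) : ((prm l).symm j).2.1.2 = l⁻¹ * j.2.1.2 * l := rfl

lemma cnt_map (b : Bool) (l : FG) (S : Finset EE) : cnt b (S.map (pL l).symm.toEmbedding) =
    (by classical exact (S.filter (fun e => l⁻¹ * e.1 ∈ Wc b)).card) := by
  classical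
  unfold cnt
  rw [Finset.filter_map, Finset.card_map]
  rfl

lemma fw_ineq (b : Bool) (j : Finset EE × TT) :
    fw (!b) ((prm (el (b, true))).symm j) + fw (!b) ((prm (el (b, false))).symm j) ≤ fw b j := by
  classical
  by_cases h1 : j.1 = ∅
  · unfold fw
    rw [if_pos h1, prm_symm_fst, prm_symm_fst, prm_symm_snd, prm_symm_snd, h1, Finset.map_empty,
      Finset.map_empty, if_pos rfl, if_pos rfl]
    have key : ∀ c, hd ((el (b, c))⁻¹ * j.2.1.2 * el (b, c)) = some (!b) → hd j.2.1.2 = some b := by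
      intro c hc
      have := hd_el_conj (s := (b, c)) hc
      rw [show el (b, c) * ((el (b, c))⁻¹ * j.2.1.2 * el (b, c)) * (el (b, c))⁻¹ = j.2.1.2 by
        group] at this
      exact this
    by_cases ht : hd ((el (b, true))⁻¹ * j.2.1.2 * el (b, true)) = some (!b)
    · have hf : ¬ hd ((el (b, false))⁻¹ * j.2.1.2 * el (b, false)) = some (!b) :=
        fun h => hd_disj ht h
      rw [if_pos ht, if_neg hf, if_pos (key _ ht)]; norm_num
    · rw [if_neg ht]
      by_cases hf : hd ((el (b, false))⁻¹ * j.2.1.2 * el (b, false)) = some (!b)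
      · rw [if_pos hf, if_pos (key _ hf)]; norm_num
      · rw [if_neg hf]
        split_ifs <;> norm_num
  · unfold fw
    have hne : ∀ l, ((prm l).symm j).1 ≠ ∅ := by
      intro l
      rw [prm_symm_fst]
      rw [Ne, Finset.map_eq_empty]; exact h1
    rw [if_neg (hne _), if_neg (hne _), if_neg h1, prm_symm_fst, prm_symm_fst, Finset.card_map,
      Finset.card_map, ← add_div]
    have : (0 : ℝ) < j.1.card := by
      have := Finset.card_pos.2 (Finset.nonempty_iff_ne_empty.2 h1)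
      exact_mod_cast this
    rw [div_le_div_iff_of_pos_right this]
    rw [cnt_map, cnt_map]
    have hd1 : Disjoint (j.1.filter fun e => (el (b, true))⁻¹ * e.1 ∈ Wc (!b))
        (j.1.filter fun e => (el (b, false))⁻¹ * e.1 ∈ Wc (!b)) := by
      rw [Finset.disjoint_left]
      intro e he he'
      exact Wc_disj (Finset.mem_filter.1 he).2 (Finset.mem_filter.1 he').2
    have hsub : (j.1.filter fun e => (el (b, true))⁻¹ * e.1 ∈ Wc (!b)) ∪
        (j.1.filter fun e => (el (b, false))⁻¹ * e.1 ∈ Wc (!b)) ⊆ j.1.filter fun e => e.1 ∈ Wc b := by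
      intro e he
      rw [Finset.mem_union, Finset.mem_filter, Finset.mem_filter] at he
      rw [Finset.mem_filter]
      rcases he with he | he
      · refine ⟨he.1, ?_⟩
        have := el_mul_Wc (c := true) he.2
        rwa [mul_inv_cancel_left] at this
      · refine ⟨he.1, ?_⟩
        have := el_mul_Wc (c := false) he.2
        rwa [mul_inv_cancel_left] at this
    have hcard := Finset.card_le_card hsub
    rw [Finset.card_union_of_disjoint hd1] at hcard
    have h3 : (j.1.filter fun e => e.1 ∈ Wc b).card = cnt b j.1 := rfl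
    rw [h3] at hcard
    exact_mod_cast hcard

/-- spectral gap part (a): almost conjugation invariant vectors live on `J0` -/
theorem mass_off_J0 {ξ : HH} {ε : ℝ} (h : ∀ s : Bool × Bool, ‖Cop (gE (1, el s)) ξ - ξ‖ ≤ ε) :
    mass (ind J0ᶜ) ξ ≤ 8 * ε * ‖ξ‖ := by
  have hε : 0 ≤ ε := (norm_nonneg _).trans (h (true, true))
  have step : ∀ b : Bool, 2 * mass (fw (!b)) ξ ≤ mass (fw b) ξ + 4 * ε * ‖ξ‖ := by
    intro b
    have each : ∀ c : Bool, mass (fw (!b)) ξ ≤
        mass (fun j => fw (!b) ((prm (el (b, c))).symm j)) ξ + 2 * ε * ‖ξ‖ := by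
      intro c
      have e1 : mass (fun j => fw (!b) ((prm (el (b, c))).symm j)) (Cop (gE (1, el (b, c))) ξ) =
          mass (fw (!b)) ξ := by
        rw [C_eq_perm, mass_permOp]
        simp
      rw [← e1]
      have e2 := abs_le.1 (abs_mass_sub_le (f := fun j => fw (!b) ((prm (el (b, c))).symm j))
        (fun _ => fw_nonneg _ _) (fun _ => fw_le_one _ _) (Cop (gE (1, el (b, c))) ξ) ξ)
      rw [norm_C] at e2
      have e3 : ‖Cop (gE (1, el (b, c))) ξ - ξ‖ * (‖ξ‖ + ‖ξ‖) ≤ ε * (‖ξ‖ + ‖ξ‖) :=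
        mul_le_mul_of_nonneg_right (h (b, c)) (by positivity)
      linarith [e2.2]
    have e4 : mass (fun j => fw (!b) ((prm (el (b, true))).symm j)) ξ +
        mass (fun j => fw (!b) ((prm (el (b, false))).symm j)) ξ ≤ mass (fw b) ξ := by
      rw [← mass_add (fun _ => fw_nonneg _ _) (fun _ => fw_le_one _ _) (fun _ => fw_nonneg _ _)
        (fun _ => fw_le_one _ _)]
      exact mass_mono (fun _ => add_nonneg (fw_nonneg _ _) (fw_nonneg _ _)) (fw_ineq b)
        (fw_le_one b) ξ
    linarith [each true, each false]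
  have h1 := step true
  have h2 := step false
  simp only [Bool.not_true, Bool.not_false] at h1 h2
  have h3 : mass (ind J0ᶜ) ξ = mass (fw true) ξ + mass (fw false) ξ := by
    rw [← mass_add (fw_nonneg _) (fw_le_one _) (fw_nonneg _) (fw_le_one _)]
    congr 1; ext j; exact (fw_add j).symm
  rw [h3]
  linarith

/-- `y`-conjugation: the coordinate formula -/
lemma C_y_coord (n : ℕ) {ξ : HH} (hξ : ∀ j, j ∉ J0 → ξ j = 0) {t : TT} (ht : t.1.2 = 1) :
    Cop (gV (x0 n)) ξ (∅, t) = ((psV (x0 n + rG t.1.1 (x0 n)) : ℝ) : ℂ) * ξ (∅, t) := by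
  classical
  -- adjoint
  have hadj : star (Cop (gV (x0 n))) = Cop (gV (x0 n))⁻¹ := by
    unfold Cop
    rw [star_mul, charFam.L_star, charFam.R_star, charFam.LR_comm]
  set g : GG := ⟨0, t.1, ⟨0, t.2.1, t.2.2⟩⟩ with hg
  have hbv : bv (∅, t) = vv g := by
    have := vv_chi ∅ t
    rw [wv_empty] at this
    rw [← this]
    congr 2
  have hconj : (gV (x0 n))⁻¹ * g * ((gV (x0 n))⁻¹)⁻¹ =
      ⟨x0 n + rG t.1.1 (x0 n), t.1, ⟨0, t.2.1, t.2.2⟩⟩ := by
    rw [inv_inv]
    have hinv : (gV (x0 n))⁻¹ = gV (x0 n) := by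
      apply GG.ext
      · change - act (1 : FG × FG)⁻¹ (x0 n) = x0 n
        rw [inv_one, map_one, neg_eq_self]; rfl
      · change (1 : FG × FG)⁻¹ = 1
        simp
      · change (1 : Pl)⁻¹ = 1
        simp
    rw [hinv]
    apply GG.ext
    · change (x0 n + act (1 : FG × FG) 0) + act (1 * t.1) (x0 n) = _
      rw [map_zero, add_zero, one_mul, act_apply, ht, map_one]; rfl
    · change 1 * t.1 * 1 = _
      simp
    · change 1 * _ * 1 = _
      rw [one_mul, mul_one]
  rw [← inner_bv_left, ← ContinuousLinearMap.adjoint_inner_left,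
    ← ContinuousLinearMap.star_eq_adjoint, hadj, hbv, C_vv, hconj]
  set B := (x0 n + rG t.1.1 (x0 n)).support with hB
  have e1 : vv ⟨x0 n + rG t.1.1 (x0 n), t.1, ⟨0, t.2.1, t.2.2⟩⟩ = wv rr B t := by
    unfold vv
    rw [sg_zero]
    simp only [Complex.ofReal_one, one_smul]
    rfl
  rw [e1]
  unfold wv
  rw [sum_inner, Finset.sum_eq_single ∅]
  · rw [inner_smul_left, inner_bv_left]
    unfold cf psV
    simp [hB]
  · intro S _ hS
    rw [inner_smul_left, inner_bv_left, hξ, mul_zero]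
    intro h
    exact hS h.1
  · intro h; simp at h

/-- the finite set of surviving indices -/
def Fbig (n : ℕ) : Set (Finset EE × TT) :=
  {j | j ∈ J0 ∧ 1 / 2 < psV (x0 n + rG j.2.1.1 (x0 n))}

lemma Fbig_finite (n : ℕ) : (Fbig n).Finite := by
  have h : Fbig n ⊆ (fun p : FG × (ZMod 2 × ZMod 2) => ((∅, ((p.1, 1), p.2)) : Finset EE × TT)) ''
      ({g : FG | 1 / 2 < psV (x0 n + rG g (x0 n))} ×ˢ Set.univ) := by
    rintro ⟨S, ⟨⟨g, l⟩, p⟩⟩ ⟨⟨h1, h2⟩, h3⟩
    simp only at h1 h2 h3
    subst h1 h2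
    exact ⟨(g, p), ⟨h3, trivial⟩, rfl⟩
  exact (((finite_big n).prod Set.finite_univ).image _).subset h

/-- spectral gap part (b) -/
theorem mass_off_Fbig (n : ℕ) {ξ : HH} {ε ε' : ℝ} (hε' : 0 ≤ ε')
    (h : ‖Cop (gV (x0 n)) ξ - ξ‖ ≤ ε) (hJ : mass (ind J0ᶜ) ξ ≤ ε' ^ 2) :
    mass (ind (Fbig n)ᶜ) ξ ≤ ε' ^ 2 + 4 * (ε + 2 * ε') ^ 2 := by
  set ξ0 := restr J0 ξ with hξ0
  have hz : ∀ j, j ∉ J0 → ξ0 j = 0 := by
    intro j hj
    rw [hξ0, restr_apply, ind_notMem hj]; simp
  have hdiff : ‖ξ - ξ0‖ ≤ ε' := by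
    have e : ξ - ξ0 = restr J0ᶜ ξ := by
      ext j
      rw [lp.coeFn_sub, Pi.sub_apply, hξ0, restr_apply, restr_apply]
      by_cases hj : j ∈ J0
      · rw [ind_mem hj, ind_notMem (Set.notMem_compl_iff.2 hj)]; simp
      · rw [ind_notMem hj, ind_mem (show j ∈ J0ᶜ from hj)]; simp
    rw [e]
    have := norm_restr_sq J0ᶜ ξ
    exact (sq_le_sq₀ (norm_nonneg _) hε').1 (this.trans_le hJ)
  have hC : ‖Cop (gV (x0 n)) ξ0 - ξ0‖ ≤ ε + 2 * ε' := by
    have e : Cop (gV (x0 n)) ξ0 - ξ0 = (Cop (gV (x0 n)) ξ - ξ) + (ξ - ξ0) -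
        Cop (gV (x0 n)) (ξ - ξ0) := by
      rw [map_sub]; abel
    rw [e]
    calc _ ≤ ‖(Cop (gV (x0 n)) ξ - ξ) + (ξ - ξ0)‖ + ‖Cop (gV (x0 n)) (ξ - ξ0)‖ := norm_sub_le _ _
      _ ≤ ‖Cop (gV (x0 n)) ξ - ξ‖ + ‖ξ - ξ0‖ + ‖ξ - ξ0‖ := by
          rw [norm_C]; gcongr; exact norm_add_le _ _
      _ ≤ _ := by linarith
  have hkey : mass (ind (J0 \ Fbig n)) ξ ≤ 4 * ‖Cop (gV (x0 n)) ξ0 - ξ0‖ ^ 2 := by
    rw [← tsum_sq, ← tsum_mul_left]
    unfold mass
    refine Summable.tsum_le_tsum (fun j => ?_) (summable_mass (ind_nonneg _) (ind_le_one _) ξ)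
      ((summable_sq _).mul_left 4)
    by_cases hj : j ∈ J0 \ Fbig n
    · rw [ind_mem hj, one_mul]
      obtain ⟨hj1, hj2⟩ := hj
      have hps : psV (x0 n + rG j.2.1.1 (x0 n)) ≤ 1 / 2 := by
        by_contra hc
        push Not at hc
        exact hj2 ⟨hj1, hc⟩
      have hj3 : j = (∅, j.2) := by
        ext1
        · exact hj1.1
        · rfl
      have e0 : ξ0 j = ξ j := by
        rw [hξ0, restr_apply, ind_mem hj1]; simp
      have e1 : (Cop (gV (x0 n)) ξ0 - ξ0) j =
          ((psV (x0 n + rG j.2.1.1 (x0 n)) - 1 : ℝ) : ℂ) * ξ j := by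
        rw [lp.coeFn_sub, Pi.sub_apply]
        have := C_y_coord n hz (t := j.2) hj1.2
        rw [← hj3] at this
        rw [this, e0]
        push_cast; ring
      rw [e1, norm_mul, mul_pow, Complex.norm_real, Real.norm_eq_abs, sq_abs]
      have : 1 / 4 ≤ (psV (x0 n + rG j.2.1.1 (x0 n)) - 1) ^ 2 := by nlinarith
      nlinarith [sq_nonneg ‖ξ j‖]
    · rw [ind_notMem hj, zero_mul]; positivity
  have hsplit : mass (ind (Fbig n)ᶜ) ξ = mass (ind J0ᶜ) ξ + mass (ind (J0 \ Fbig n)) ξ := by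
    rw [← mass_add (ind_nonneg _) (ind_le_one _) (ind_nonneg _) (ind_le_one _)]
    congr 1; ext j
    by_cases hj : j ∈ J0
    · by_cases hf : j ∈ Fbig n
      · rw [ind_notMem (Set.notMem_compl_iff.2 hf), ind_notMem (Set.notMem_compl_iff.2 hj), ind_notMem (show j ∉ J0 \ Fbig n from fun h => h.2 hf)]
        norm_num
      · rw [ind_mem (show j ∈ (Fbig n)ᶜ from hf), ind_notMem (Set.notMem_compl_iff.2 hj), ind_mem (show j ∈ J0 \ Fbig n from ⟨hj, hf⟩)]
        norm_num
    · have hf : j ∉ Fbig n := fun h => hj h.1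
      rw [ind_mem (show j ∈ (Fbig n)ᶜ from hf), ind_mem (show j ∈ J0ᶜ from hj),
        ind_notMem (show j ∉ J0 \ Fbig n from fun h => hj h.1)]
      norm_num
  rw [hsplit]
  have h0 : ‖Cop (gV (x0 n)) ξ0 - ξ0‖ ^ 2 ≤ (ε + 2 * ε') ^ 2 :=
    pow_le_pow_left₀ (norm_nonneg _) hC 2
  linarith

end Pool.MP_81d1ca_an.H37
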