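import Mathlib
import Pool.Agent.Lib.MP_81d1ca_an.H37Gns

open scoped InnerProductSpace ComplexConjugate ENNReal
open Filter Topology

namespace Pool.MP_81d1ca_an.H37

variable {H : Type} [NormedAddCommGroup H] [InnerProductSpace ℂ H] [CompleteSpace H]

section tv
variable {M : VonNeumannAlgebra H} {Ω : H}

lemma TraceVec.norm_star (hΩ : TraceVec M Ω) {x : H →L[ℂ] H} (hx : x ∈ M) :
    ‖(star x) Ω‖ = ‖x Ω‖ := by
  apply norm_eq_of_inner
  have h := hΩ.tracial x hx (star x) (star_mem hx)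
  rw [mul_apply_eq_comp, mul_apply_eq_comp] at h
  have e1 : ⟪Ω, x ((star x) Ω)⟫_ℂ = ⟪(star x) Ω, (star x) Ω⟫_ℂ := by
    nth_rewrite 2 [ContinuousLinearMap.star_eq_adjoint]
    rw [ContinuousLinearMap.adjoint_inner_left]
  have e2 : ⟪Ω, (star x) (x Ω)⟫_ℂ = ⟪x Ω, x Ω⟫_ℂ := by
    rw [ContinuousLinearMap.star_eq_adjoint, ContinuousLinearMap.adjoint_inner_right]
  rw [← e1, ← e2, h]

omit [CompleteSpace H] in
lemma le_left (x y : H →L[ℂ] H) (Ω : H) : ‖(x * y) Ω‖ ≤ ‖x‖ * ‖y Ω‖ := by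
  rw [mul_apply_eq_comp]; exact x.le_opNorm _

lemma TraceVec.le_right (hΩ : TraceVec M Ω) {x y : H →L[ℂ] H} (hx : x ∈ M) (hy : y ∈ M) :
    ‖(x * y) Ω‖ ≤ ‖x Ω‖ * ‖y‖ := by
  rw [← hΩ.norm_star (mul_mem hx hy), star_mul, ← hΩ.norm_star hx, mul_comm (‖_‖)]
  refine (le_left _ _ _).trans ?_
  rw [_root_.norm_star]

lemma TraceVec.le_right1 (hΩ : TraceVec M Ω) {x y : H →L[ℂ] H} (hx : x ∈ M) (hy : y ∈ M)
    (h1 : ‖y‖ ≤ 1) : ‖(x * y) Ω‖ ≤ ‖x Ω‖ :=
  (hΩ.le_right hx hy).trans (mul_le_of_le_one_right (norm_nonneg _) h1)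

omit [CompleteSpace H] in
lemma le_left1 {x : H →L[ℂ] H} (y : H →L[ℂ] H) (Ω : H) (h1 : ‖x‖ ≤ 1) :
    ‖(x * y) Ω‖ ≤ ‖y Ω‖ :=
  (le_left x y Ω).trans (mul_le_of_le_one_left (norm_nonneg _) h1)

lemma norm_proj_le {p : H →L[ℂ] H} (hs : star p = p) (hi : p * p = p) : ‖p‖ ≤ 1 := by
  have h := CStarRing.norm_star_mul_self (x := p)
  rw [hs, hi] at h
  by_contra hc
  push Not at hc
  nlinarith

lemma TraceVec.tri (hΩ : TraceVec M Ω) {a b c a' b' c' : H →L[ℂ] H} (ha : a ∈ M) (hb : b ∈ M)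
    (hc : c ∈ M) (ha' : a' ∈ M) (hb' : b' ∈ M) (nb : ‖b‖ ≤ 1) (nc : ‖c‖ ≤ 1)
    (na' : ‖a'‖ ≤ 1) (nb' : ‖b'‖ ≤ 1) :
    ‖(a * b * c - a' * b' * c') Ω‖ ≤ ‖(a - a') Ω‖ + ‖(b - b') Ω‖ + ‖(c - c') Ω‖ := by
  have e : a * b * c - a' * b' * c' = (a - a') * (b * c) + a' * ((b - b') * c) +
      a' * (b' * (c - c')) := by
    simp only [mul_sub, sub_mul, mul_assoc]; abel
  rw [e, add_apply, add_apply]
  have h1 : ‖((a - a') * (b * c)) Ω‖ ≤ ‖(a - a') Ω‖ :=
    hΩ.le_right1 (sub_mem ha ha') (mul_mem hb hc)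
      ((norm_mul_le _ _).trans (mul_le_one₀ nb (norm_nonneg _) nc))
  have h2 : ‖(a' * ((b - b') * c)) Ω‖ ≤ ‖(b - b') Ω‖ :=
    (le_left1 _ _ na').trans (hΩ.le_right1 (sub_mem hb hb') hc nc)
  have h3 : ‖(a' * (b' * (c - c'))) Ω‖ ≤ ‖(c - c') Ω‖ :=
    (le_left1 _ _ na').trans (le_left1 _ _ nb')
  calc _ ≤ ‖((a - a') * (b * c)) Ω + (a' * ((b - b') * c)) Ω‖ + ‖(a' * (b' * (c - c'))) Ω‖ :=
        norm_add_le _ _
    _ ≤ ‖((a - a') * (b * c)) Ω‖ + ‖(a' * ((b - b') * c)) Ω‖ + ‖(a' * (b' * (c - c'))) Ω‖ := by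
        gcongr; exact norm_add_le _ _
    _ ≤ _ := by gcongr

end tv

/-- range projections -/
lemma exists_range_proj (X : H →L[ℂ] H) (hX : star X = X) : ∃ q : H →L[ℂ] H,
    star q = q ∧ q * q = q ∧ X * q = X ∧ (∀ T : H →L[ℂ] H, T * X = 0 → T * q = 0) ∧
    (∀ y : H →L[ℂ] H, y * X = X * y → star y * X = X * star y → y * q = q * y) := by
  set N : Submodule ℂ H := LinearMap.ker (X : H →ₗ[ℂ] H) with hN
  have hcl : IsClosed (N : Set H) := X.isClosed_ker
  have : CompleteSpace N := hcl.completeSpace_coe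
  set P : H →L[ℂ] H := N.starProjection with hP
  have hPs : star P = P := (isSelfAdjoint_starProjection N)
  have hPi : P * P = P := by
    ext ξ
    rw [mul_apply_eq_comp]
    exact N.starProjection_eq_self_iff.2 (N.starProjection_apply_mem ξ)
  have hXP : X * P = 0 := by
    ext ξ
    rw [mul_apply_eq_comp]
    exact LinearMap.mem_ker.1 (N.starProjection_apply_mem ξ)
  have hfix : ∀ T : H →L[ℂ] H, X * T = 0 → P * T = T := by
    intro T hT
    ext ξ
    rw [mul_apply_eq_comp]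
    apply N.starProjection_eq_self_iff.2
    rw [hN, LinearMap.mem_ker]
    exact congrArg (fun A : H →L[ℂ] H => A ξ) hT
  refine ⟨1 - P, ?_, ?_, ?_, ?_, ?_⟩
  · rw [star_sub, star_one, hPs]
  · have : (1 - P) * (1 - P) = 1 - P - P + P * P := by noncomm_ring
    rw [this, hPi]; abel
  · rw [mul_sub, mul_one, hXP, sub_zero]
  · intro T hT
    have h1 : X * star T = 0 := by
      have := congrArg star hT
      rwa [star_mul, hX, star_zero] at this
    have h2 := congrArg star (hfix _ h1)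
    rw [star_mul, star_star, hPs] at h2
    rw [mul_sub, mul_one, h2, sub_self]
  · intro y hy hy'
    have h1 : P * (y * P) = y * P := by
      apply hfix; rw [← mul_assoc, ← hy, mul_assoc, hXP, mul_zero]
    have h2 : P * (star y * P) = star y * P := by
      apply hfix; rw [← mul_assoc, ← hy', mul_assoc, hXP, mul_zero]
    have h3 := congrArg star h2
    simp only [star_mul, star_star, hPs] at h3
    rw [mul_sub, sub_mul, mul_one, one_mul]
    congr 1
    rw [← h1, ← mul_assoc, h3]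

lemma smul_mem_vn {M : VonNeumannAlgebra H} (c : ℂ) {x : H →L[ℂ] H} (hx : x ∈ M) : c • x ∈ M :=
  M.toStarSubalgebra.smul_mem hx c

/-- a finite family of orthogonal projections of `M` with sum `α` -/
structure IsPV (M : VonNeumannAlgebra H) (α : H →L[ℂ] H) {A : Type} [Fintype A]
    (p : A → (H →L[ℂ] H)) : Prop where
  mem : ∀ a, p a ∈ M
  sa : ∀ a, star (p a) = p a
  idem : ∀ a, p a * p a = p a
  orth : ∀ a b, a ≠ b → p a * p b = 0
  sum : ∑ a, p a = α

namespace IsPV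
variable {M : VonNeumannAlgebra H} {α : H →L[ℂ] H} {A : Type} [Fintype A]
  {p : A → (H →L[ℂ] H)} (hp : IsPV M α p)
include hp

lemma al_mem : α ∈ M := by rw [← hp.sum]; exact sum_mem fun a _ => hp.mem a
lemma al_sa : star α = α := by rw [← hp.sum, star_sum]; simp only [hp.sa]

lemma al_mul (a : A) : α * p a = p a := by
  classical
  rw [← hp.sum, Finset.sum_mul, Finset.sum_eq_single a]
  · exact hp.idem a
  · intro b _ hb; exact hp.orth b a hb
  · simp

lemma mul_al (a : A) : p a * α = p a := by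
  classical
  rw [← hp.sum, Finset.mul_sum, Finset.sum_eq_single a]
  · exact hp.idem a
  · intro b _ hb; exact hp.orth a b (Ne.symm hb)
  · simp

lemma al_idem : α * α = α := by
  nth_rewrite 2 [← hp.sum]
  rw [Finset.mul_sum]
  simp only [hp.al_mul]
  exact hp.sum

lemma al_norm : ‖α‖ ≤ 1 := norm_proj_le hp.al_sa hp.al_idem
lemma norm_le (a : A) : ‖p a‖ ≤ 1 := norm_proj_le (hp.sa a) (hp.idem a)

omit hp in
/-- linear combination -/
noncomputable def comb (p : A → (H →L[ℂ] H)) (χ : A → ℂ) : H →L[ℂ] H := ∑ a, χ a • p a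

lemma comb_mem (χ : A → ℂ) : comb p χ ∈ M := sum_mem fun a _ => smul_mem_vn _ (hp.mem a)

lemma comb_star (χ : A → ℂ) : star (comb p χ) = comb p (fun a => starRingEnd ℂ (χ a)) := by
  unfold comb
  rw [star_sum]
  refine Finset.sum_congr rfl fun a _ => ?_
  rw [star_smul, hp.sa]; rfl

lemma comb_mul (χ χ' : A → ℂ) : comb p χ * comb p χ' = comb p (fun a => χ a * χ' a) := by
  classical
  unfold comb
  rw [Finset.sum_mul_sum]
  refine Finset.sum_congr rfl fun a _ => ?_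
  rw [Finset.sum_eq_single a]
  · rw [smul_mul_smul_comm, hp.idem]
  · intro b _ hb
    rw [smul_mul_smul_comm, hp.orth a b (Ne.symm hb), smul_zero]
  · simp

lemma comb_one : comb p (fun _ => 1) = α := by
  unfold comb; simp only [one_smul]; exact hp.sum

lemma star_comb_mul {χ : A → ℂ} (hχ : ∀ a, ‖χ a‖ = 1) : star (comb p χ) * comb p χ = α := by
  rw [hp.comb_star, hp.comb_mul, ← hp.comb_one]
  congr 1; ext a
  rw [mul_comm, Complex.mul_conj, Complex.normSq_eq_norm_sq, hχ]; simp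

lemma comb_mul_star {χ : A → ℂ} (hχ : ∀ a, ‖χ a‖ = 1) : comb p χ * star (comb p χ) = α := by
  rw [hp.comb_star, hp.comb_mul, ← hp.comb_one]
  congr 1; ext a
  rw [Complex.mul_conj, Complex.normSq_eq_norm_sq, hχ]; simp

lemma al_comb (χ : A → ℂ) : α * comb p χ = comb p χ := by
  unfold comb
  rw [Finset.mul_sum]
  refine Finset.sum_congr rfl fun a _ => ?_
  rw [mul_smul_comm, hp.al_mul]

lemma comb_al (χ : A → ℂ) : comb p χ * α = comb p χ := by
  unfold comb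
  rw [Finset.sum_mul]
  refine Finset.sum_congr rfl fun a _ => ?_
  rw [smul_mul_assoc, hp.mul_al]

omit hp in
lemma comb_comm {y : H →L[ℂ] H} (hy : ∀ a, p a * y = y * p a) (χ : A → ℂ) :
    comb p χ * y = y * comb p χ := by
  unfold comb
  rw [Finset.mul_sum, Finset.sum_mul]
  refine Finset.sum_congr rfl fun a _ => ?_
  rw [mul_smul_comm, smul_mul_assoc, hy]

lemma comb_norm {χ : A → ℂ} (hχ : ∀ a, ‖χ a‖ = 1) : ‖comb p χ‖ ≤ 1 := by
  have h := CStarRing.norm_star_mul_self (x := comb p χ)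
  rw [hp.star_comb_mul hχ] at h
  have := hp.al_norm
  nlinarith [norm_nonneg (comb p χ)]

omit hp in
/-- distance between combinations -/
lemma comb_sub {q : A → (H →L[ℂ] H)} {χ : A → ℂ} (hχ : ∀ a, ‖χ a‖ = 1) {Ω : H} {ε : ℝ}
    (h : ∀ a, ‖(p a - q a) Ω‖ ≤ ε) : ‖(comb p χ - comb q χ) Ω‖ ≤ Fintype.card A * ε := by
  have e : (comb p χ - comb q χ) Ω = ∑ a, χ a • ((p a - q a) Ω) := by
    unfold comb
    rw [← Finset.sum_sub_distrib]
    rw [sum_apply]
    refine Finset.sum_congr rfl fun a _ => ?_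
    rw [← smul_sub]; rfl
  rw [e]
  refine (norm_sum_le _ _).trans ?_
  calc ∑ a, ‖χ a • ((p a - q a) Ω)‖ ≤ ∑ _a : A, ε := by
        refine Finset.sum_le_sum fun a _ => ?_
        rw [norm_smul, hχ, one_mul]; exact h a
    _ = _ := by rw [Finset.sum_const, nsmul_eq_mul, Finset.card_univ]

end IsPV

lemma norm_sum_sub_le {A : Type} [Fintype A] {p q : A → (H →L[ℂ] H)} {Ω : H} {ε : ℝ}
    (h : ∀ a, ‖(p a - q a) Ω‖ ≤ ε) : ‖(∑ a, p a - ∑ a, q a) Ω‖ ≤ Fintype.card A * ε := by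
  have := IsPV.comb_sub (p := p) (q := q) (χ := fun _ => 1) (by simp) h
  unfold IsPV.comb at this
  simpa only [one_smul] using this

end Pool.MP_81d1ca_an.H37
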