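import Mathlib
import Pool.Agent.Lib.MP_81d1ca_an.H37Ops
import Pool.Agent.Lib.MP_81d1ca_an.H37TV

open scoped InnerProductSpace ComplexConjugate ENNReal
open Filter Topology Monoid Monoid.CoprodI

namespace Pool.MP_81d1ca_an.H37

/-- the von Neumann algebra -/
noncomputable abbrev MM : VonNeumannAlgebra HH := charVN vv
/-- the trace vector -/
noncomputable abbrev Om : HH := vv 1

lemma tvM : TraceVec MM Om := charFam.traceVec

/-- left translation -/
noncomputable abbrev L (g : GG) : HH →L[ℂ] HH := Lop vv g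

lemma L_mul (g h : GG) : L g * L h = L (g * h) := charFam.L_mul g h
lemma L_one : L 1 = 1 := charFam.L_one
lemma L_star (g : GG) : star (L g) = L g⁻¹ := charFam.L_star g
lemma L_mem (g : GG) : L g ∈ MM := charFam.L_mem g

section pr
variable {N : ℕ} [NeZero N]

/-- standard character -/
noncomputable abbrev ee (m : ZMod N) : ℂ := ZMod.stdAddChar m

lemma ee_add (a b : ZMod N) : ee (a + b) = ee a * ee b := AddChar.map_add_eq_mul _ _ _
lemma ee_zero : ee (0 : ZMod N) = 1 := AddChar.map_zero_eq_one _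
lemma ee_norm (a : ZMod N) : ‖ee a‖ = 1 := by
  unfold ee; rw [ZMod.stdAddChar_apply]; exact Circle.norm_coe _
lemma ee_conj (a : ZMod N) : (starRingEnd ℂ) (ee a) = ee (-a) := by
  have h1 : ee a * ee (-a) = 1 := by rw [← ee_add, add_neg_cancel, ee_zero]
  have h2 : ee a * (starRingEnd ℂ) (ee a) = 1 := by
    rw [Complex.mul_conj, Complex.normSq_eq_norm_sq, ee_norm]; simp
  have h3 : ee a ≠ 0 := by
    intro h; rw [h, zero_mul] at h1; exact zero_ne_one h1
  exact mul_left_cancel₀ h3 (h2.trans h1.symm)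

lemma ee_sum (t : ZMod N) : ∑ i : ZMod N, ee (i * t) = if t = 0 then (N : ℂ) else 0 := by
  have := AddChar.sum_mulShift (ψ := (ZMod.stdAddChar : AddChar (ZMod N) ℂ)) t
    (ZMod.isPrimitive_stdAddChar N)
  rw [ZMod.card] at this
  unfold ee
  rw [this]
  split_ifs <;> simp

variable (φ : Multiplicative (ZMod N) →* GG)

/-- unitary -/
noncomputable def uu (m : ZMod N) : HH →L[ℂ] HH := L (φ (Multiplicative.ofAdd m))

lemma uu_mul (m k : ZMod N) : uu φ m * uu φ k = uu φ (m + k) := by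
  unfold uu; rw [L_mul, ← map_mul]; rfl
lemma uu_zero : uu φ 0 = 1 := by
  unfold uu
  have : φ (Multiplicative.ofAdd (0 : ZMod N)) = 1 := map_one φ
  rw [this, L_one]
lemma uu_star (m : ZMod N) : star (uu φ m) = uu φ (-m) := by
  unfold uu; rw [L_star, ← map_inv]; rfl
lemma uu_mem (m : ZMod N) : uu φ m ∈ MM := L_mem _

/-- spectral projections -/
noncomputable def pr (i : ZMod N) : HH →L[ℂ] HH :=
  (N : ℂ)⁻¹ • ∑ m : ZMod N, ee (-(i * m)) • uu φ m

lemma pr_star (i : ZMod N) : star (pr φ i) = pr φ i := by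
  unfold pr
  rw [star_smul, star_sum]
  have h1 : star ((N : ℂ)⁻¹) = (N : ℂ)⁻¹ := by simp
  rw [h1]
  congr 1
  rw [← Equiv.sum_comp (Equiv.neg (ZMod N))]
  refine Finset.sum_congr rfl fun m _ => ?_
  rw [star_smul, uu_star]
  simp only [Equiv.neg_apply, neg_neg, mul_neg]
  congr 1
  have := ee_conj (i * m)
  exact this

/-- Fourier inversion -/
lemma uu_eq (m : ZMod N) : uu φ m = ∑ i : ZMod N, ee (i * m) • pr φ i := by
  unfold pr
  simp only [Finset.smul_sum, smul_smul]
  rw [Finset.sum_comm]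
  have : ∀ k : ZMod N, ∑ i : ZMod N, (ee (i * m) * ((N : ℂ)⁻¹ * ee (-(i * k)))) • uu φ k =
      (if k = m then (1 : ℂ) else 0) • uu φ k := by
    intro k
    rw [← Finset.sum_smul]
    congr 1
    have h2 : ∀ i : ZMod N, ee (i * m) * ((N : ℂ)⁻¹ * ee (-(i * k))) = (N : ℂ)⁻¹ * ee (i * (m - k)) := by
      intro i
      have : i * (m - k) = i * m + -(i * k) := by ring
      rw [this, ee_add]; ring
    rw [Finset.sum_congr rfl (fun i _ => h2 i), ← Finset.mul_sum, ee_sum]
    have hN : (N : ℂ) ≠ 0 := Nat.cast_ne_zero.2 (NeZero.ne N)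
    by_cases hk : k = m
    · subst hk; simp [hN]
    · rw [if_neg hk, if_neg (fun h => hk (sub_eq_zero.1 h).symm), mul_zero]
  rw [Finset.sum_congr rfl (fun k _ => this k), Finset.sum_eq_single m]
  · simp
  · intro k _ hk; simp [hk]
  · simp

lemma pr_sum : ∑ i : ZMod N, pr φ i = 1 := by
  have := uu_eq φ 0
  rw [uu_zero] at this
  rw [this]
  refine Finset.sum_congr rfl fun i _ => ?_
  rw [mul_zero, ee_zero, one_smul]

lemma uu_mul_pr (m i : ZMod N) : uu φ m * pr φ i = ee (i * m) • pr φ i := by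
  unfold pr
  rw [mul_smul_comm, Finset.mul_sum, smul_comm (ee (i * m)) ((N : ℂ)⁻¹)]
  congr 1
  rw [Finset.smul_sum]
  rw [← Equiv.sum_comp (Equiv.addLeft m) (fun k => ee (i * m) • ee (-(i * k)) • uu φ k)]
  refine Finset.sum_congr rfl fun k _ => ?_
  rw [mul_smul_comm, uu_mul, smul_smul]
  simp only [Equiv.coe_addLeft]
  congr 1
  rw [← ee_add]; congr 1; ring

lemma pr_mul (i j : ZMod N) : pr φ i * pr φ j = if i = j then pr φ j else 0 := by
  have h1 : pr φ i * pr φ j = (N : ℂ)⁻¹ • ∑ m : ZMod N, ee (-(i * m)) • (uu φ m * pr φ j) := by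
    rw [pr, smul_mul_assoc, Finset.sum_mul]
    simp only [smul_mul_assoc]
  rw [h1]
  simp only [uu_mul_pr, smul_smul]
  rw [← Finset.sum_smul]
  have h2 : ∀ m : ZMod N, ee (-(i * m)) * ee (j * m) = ee (m * (j - i)) := by
    intro m; rw [← ee_add]; congr 1; ring
  rw [Finset.sum_congr rfl (fun m _ => h2 m), ee_sum, smul_smul]
  have hN : (N : ℂ) ≠ 0 := Nat.cast_ne_zero.2 (NeZero.ne N)
  by_cases hij : i = j
  · subst hij; simp [hN]
  · rw [if_neg (fun h => hij (sub_eq_zero.1 h).symm), if_neg hij]; simp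

lemma pr_mem (i : ZMod N) : pr φ i ∈ MM :=
  smul_mem_vn _ (sum_mem fun m _ => smul_mem_vn _ (uu_mem φ m))

lemma pr_isPV : IsPV MM 1 (pr φ) where
  mem := pr_mem φ
  sa := pr_star φ
  idem i := by rw [pr_mul, if_pos rfl]
  orth i j h := by rw [pr_mul, if_neg h]
  sum := pr_sum φ

lemma pr_comm_op {y : HH →L[ℂ] HH} (hy : ∀ m, uu φ m * y = y * uu φ m) (i : ZMod N) :
    pr φ i * y = y * pr φ i := by
  unfold pr
  rw [smul_mul_assoc, mul_smul_comm, Finset.sum_mul, Finset.mul_sum]
  congr 1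
  refine Finset.sum_congr rfl fun m _ => ?_
  rw [smul_mul_assoc, mul_smul_comm, hy]

end pr

lemma uu_comm {N N' : ℕ} [NeZero N] [NeZero N'] {φ : Multiplicative (ZMod N) →* GG}
    {φ' : Multiplicative (ZMod N') →* GG} (h : ∀ m m', φ m * φ' m' = φ' m' * φ m) (m : ZMod N)
    (m' : ZMod N') : uu φ m * uu φ' m' = uu φ' m' * uu φ m := by
  unfold uu; rw [L_mul, L_mul, h]

lemma pr_comm {N N' : ℕ} [NeZero N] [NeZero N'] {φ : Multiplicative (ZMod N) →* GG}
    {φ' : Multiplicative (ZMod N') →* GG} (h : ∀ m m', φ m * φ' m' = φ' m' * φ m) (i : ZMod N)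
    (j : ZMod N') : pr φ i * pr φ' j = pr φ' j * pr φ i := by
  apply pr_comm_op
  intro m
  symm
  apply pr_comm_op
  intro m'
  exact (uu_comm h m m').symm

namespace IsPV
variable {H : Type} [NormedAddCommGroup H] [InnerProductSpace ℂ H] [CompleteSpace H]
  {M : VonNeumannAlgebra H} {I K : Type} [Fintype I] [Fintype K]
  {e : I → (H →L[ℂ] H)} {f : K → (H →L[ℂ] H)}

lemma prod (he : IsPV M 1 e) (hf : IsPV M 1 f) (hc : ∀ i k, e i * f k = f k * e i) :
    IsPV M 1 (fun p : I × K => e p.1 * f p.2) where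
  mem p := mul_mem (he.mem _) (hf.mem _)
  sa p := by rw [star_mul, he.sa, hf.sa, hc]
  idem p := by
    rw [mul_assoc, ← mul_assoc (f p.2), ← hc, mul_assoc, hf.idem, ← mul_assoc, he.idem]
  orth p q h := by
    have e1 : e p.1 * f p.2 * (e q.1 * f q.2) = (e p.1 * e q.1) * (f p.2 * f q.2) := by
      rw [mul_assoc, ← mul_assoc (f p.2), ← hc]; simp only [mul_assoc]
    rw [e1]
    by_cases h1 : p.1 = q.1
    · have h2 : p.2 ≠ q.2 := fun h2 => h (Prod.ext h1 h2)
      rw [hf.orth _ _ h2, mul_zero]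
    · rw [he.orth _ _ h1, zero_mul]
  sum := by
    rw [Fintype.sum_prod_type]
    simp only
    rw [← Finset.sum_mul_sum, he.sum, hf.sum, mul_one]

lemma join {g : ZMod 2 → (H →L[ℂ] H)} (he : IsPV M 1 e) (hf : IsPV M 1 f) (hg : IsPV M 1 g)
    (hce : ∀ i, e i * g 0 = g 0 * e i) (hcf : ∀ j, f j * g 1 = g 1 * f j) :
    IsPV M 1 (Sum.elim (fun i => e i * g 0) (fun j => f j * g 1)) where
  mem := by
    rintro (i | j)
    · exact mul_mem (he.mem _) (hg.mem _)
    · exact mul_mem (hf.mem _) (hg.mem _)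
  sa := by
    rintro (i | j)
    · simp only [Sum.elim_inl]; rw [star_mul, he.sa, hg.sa, hce]
    · simp only [Sum.elim_inr]; rw [star_mul, hf.sa, hg.sa, hcf]
  idem := by
    rintro (i | j)
    · simp only [Sum.elim_inl]
      rw [mul_assoc, ← mul_assoc (g 0), ← hce, mul_assoc, hg.idem, ← mul_assoc, he.idem]
    · simp only [Sum.elim_inr]
      rw [mul_assoc, ← mul_assoc (g 1), ← hcf, mul_assoc, hg.idem, ← mul_assoc, hf.idem]
  orth := by
    rintro (i | j) (i' | j') h
    · simp only [Sum.elim_inl]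
      have h1 : i ≠ i' := fun h1 => h (by rw [h1])
      rw [mul_assoc, ← mul_assoc (g 0), ← hce, mul_assoc, hg.idem, ← mul_assoc, he.orth _ _ h1,
        zero_mul]
    · simp only [Sum.elim_inl, Sum.elim_inr]
      rw [hcf, mul_assoc, ← mul_assoc (g 0), hg.orth 0 1 (by decide), zero_mul, mul_zero]
    · simp only [Sum.elim_inl, Sum.elim_inr]
      rw [hce, mul_assoc, ← mul_assoc (g 1), hg.orth 1 0 (by decide), zero_mul, mul_zero]
    · simp only [Sum.elim_inr]
      have h1 : j ≠ j' := fun h1 => h (by rw [h1])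
      rw [mul_assoc, ← mul_assoc (g 1), ← hcf, mul_assoc, hg.idem, ← mul_assoc, hf.orth _ _ h1,
        zero_mul]
  sum := by
    rw [Fintype.sum_sum_type]
    simp only [Sum.elim_inl, Sum.elim_inr]
    rw [← Finset.sum_mul, ← Finset.sum_mul, he.sum, hf.sum, one_mul, one_mul]
    have := hg.sum
    exact (Fin.sum_univ_two g).symm.trans this

end IsPV

/-- homs into `GG` -/
noncomputable def hE : FG × FG →* GG where
  toFun := gE
  map_one' := rfl
  map_mul' s t := by
    apply GG.ext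
    · change (0 : VV) = 0 + act s 0
      rw [map_zero, add_zero]
    · rfl
    · change (1 : Pl) = 1 * 1
      simp

noncomputable def hV : Multiplicative VV →* GG where
  toFun x := gV (Multiplicative.toAdd x)
  map_one' := rfl
  map_mul' s t := by
    apply GG.ext
    · change _ = Multiplicative.toAdd s + act 1 (Multiplicative.toAdd t)
      rw [map_one]; rfl
    · change (1 : FG × FG) = 1 * 1
      simp
    · change (1 : Pl) = 1 * 1
      simp

noncomputable def hPm : Pl →* GG where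
  toFun p := ⟨0, 1, p⟩
  map_one' := rfl
  map_mul' s t := by
    apply GG.ext
    · change (0 : VV) = 0 + act 1 0
      rw [map_zero, add_zero]
    · change (1 : FG × FG) = 1 * 1
      simp
    · rfl

lemma hE_P (t : FG × FG) (p : Pl) : hE t * hPm p = hPm p * hE t := by
  apply GG.ext
  · change (0 : VV) + act t 0 = 0 + act 1 0
    simp
  · change t * 1 = 1 * t
    simp
  · change (1 : Pl) * p = p * 1
    simp

lemma hV_P (x : Multiplicative VV) (p : Pl) : hV x * hPm p = hPm p * hV x := by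
  apply GG.ext
  · change Multiplicative.toAdd x + act 1 0 = 0 + act 1 (Multiplicative.toAdd x)
    rw [map_one, map_zero]; simp
  · change (1 : FG × FG) * 1 = 1 * 1
    simp
  · change (1 : Pl) * p = p * 1
    simp

lemma hE_V {t : FG × FG} {x : VV} (h : act t x = x) :
    hE t * hV (Multiplicative.ofAdd x) = hV (Multiplicative.ofAdd x) * hE t := by
  apply GG.ext
  · change (0 : VV) + act t x = x + act 1 0
    rw [h, map_zero, zero_add, add_zero]
  · change t * 1 = 1 * t
    simp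
  · change (1 : Pl) * 1 = 1 * 1
    simp

noncomputable def fa : C3 →* GG := hE.comp ((MonoidHom.inl FG FG).comp (of (M := fun _ : Bool => C3) (i := true)))
noncomputable def fb : C3 →* GG := hE.comp ((MonoidHom.inl FG FG).comp (of (M := fun _ : Bool => C3) (i := false)))
noncomputable def fla : C3 →* GG := hE.comp ((MonoidHom.inr FG FG).comp (of (M := fun _ : Bool => C3) (i := true)))
noncomputable def flb : C3 →* GG := hE.comp ((MonoidHom.inr FG FG).comp (of (M := fun _ : Bool => C3) (i := false)))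

lemma fa_apply (m : C3) : fa m = hE (io true m, 1) := rfl
lemma fb_apply (m : C3) : fb m = hE (io false m, 1) := rfl
lemma fla_apply (m : C3) : fla m = hE (1, io true m) := rfl
lemma flb_apply (m : C3) : flb m = hE (1, io false m) := rfl

/-- multiples of a vector -/
noncomputable def mulx (x : VV) : Multiplicative (ZMod 2) →* Multiplicative VV :=
  AddMonoidHom.toMultiplicative
    { toFun := fun m => m • x
      map_zero' := zero_smul _ _
      map_add' := fun a b => add_smul a b x }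

noncomputable def fy (x : VV) : Multiplicative (ZMod 2) →* GG := hV.comp (mulx x)
lemma fy_apply (x : VV) (m : ZMod 2) : fy x (Multiplicative.ofAdd m) = hV (Multiplicative.ofAdd (m • x)) := rfl

lemma act_smul {t : FG × FG} {x : VV} (h : act t x = x) (m : ZMod 2) : act t (m • x) = m • x := by
  rcases z2 m with rfl | rfl
  · rw [zero_smul, map_zero]
  · rw [one_smul, h]

noncomputable def fZ : Multiplicative (ZMod 2) →* GG := hPm.comp
  { toFun := fun m => ⟨0, 0, Multiplicative.toAdd m⟩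
    map_one' := rfl
    map_mul' := fun a b => by
      apply Pl.ext
      · change (0 : ZMod 2) = 0 + 0 + _ * 0
        simp
      · change (0 : ZMod 2) = 0 + 0
        simp
      · rfl }

noncomputable def fX : Multiplicative (ZMod 2) →* GG := hPm.comp
  { toFun := fun m => ⟨0, Multiplicative.toAdd m, 0⟩
    map_one' := rfl
    map_mul' := fun a b => by
      apply Pl.ext
      · change (0 : ZMod 2) = 0 + 0 + 0 * _
        simp
      · rfl
      · change (0 : ZMod 2) = 0 + 0
        simp }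

/-- the central element acts by `-1` -/
lemma L_c (g : GG) : L (⟨0, 1, ⟨1, 0, 0⟩⟩ * g) = - L g := by
  apply tot_vv.ext_clm
  intro h
  rw [neg_apply]
  unfold L
  rw [charFam.L_apply, charFam.L_apply, mul_assoc]
  generalize g * h = k
  have hx : (⟨0, 1, ⟨1, 0, 0⟩⟩ * k : GG).x = k.x := by
    change (0 : VV) + act 1 k.x = k.x
    rw [map_one, zero_add]; rfl
  have ht : (⟨0, 1, ⟨1, 0, 0⟩⟩ * k : GG).t = k.t := by
    change 1 * k.t = k.t
    simp
  have hp : (⟨0, 1, ⟨1, 0, 0⟩⟩ * k : GG).p = ⟨1 + k.p.s, k.p.a, k.p.b⟩ := by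
    apply Pl.ext
    · change 1 + k.p.s + 0 * k.p.a = _
      simp
    · change 0 + k.p.a = _
      simp
    · change 0 + k.p.b = _
      simp
  unfold vv tg
  rw [hx, ht, hp, sg_add, sg_one]
  push_cast
  rw [neg_mul, one_mul, neg_smul]

lemma ZX : uu fZ 1 * uu fX 1 = - (uu fX 1 * uu fZ 1) := by
  unfold uu
  rw [L_mul, L_mul, ← L_c]
  congr 1

lemma pr2 (φ : Multiplicative (ZMod 2) →* GG) (i : ZMod 2) :
    pr φ i = (2 : ℂ)⁻¹ • (1 + ee (-i) • uu φ 1) := by
  unfold pr
  have : ∀ f : ZMod 2 → (HH →L[ℂ] HH), ∑ m : ZMod 2, f m = f 0 + f 1 := fun f => Fin.sum_univ_two f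
  rw [this, uu_zero, mul_zero, neg_zero, ee_zero, one_smul, mul_one]
  norm_num

/-- `E F_i E = E / 2` -/
lemma EFE (i : ZMod 2) : pr fZ 0 * pr fX i * pr fZ 0 = (2 : ℂ)⁻¹ • pr fZ 0 := by
  have hZE : uu fZ 1 * pr fZ 0 = pr fZ 0 := by
    rw [uu_mul_pr, zero_mul, ee_zero, one_smul]
  have hEZ : pr fZ 0 * uu fZ 1 = pr fZ 0 := by
    have : pr fZ 0 * uu fZ 1 = uu fZ 1 * pr fZ 0 := by
      apply pr_comm_op; intro m; rw [uu_mul, uu_mul, add_comm]
    rw [this, hZE]
  have h1 : pr fZ 0 * uu fX 1 * pr fZ 0 = 0 := by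
    have h2 : pr fZ 0 * uu fX 1 * pr fZ 0 = - (pr fZ 0 * uu fX 1 * pr fZ 0) := by
      calc pr fZ 0 * uu fX 1 * pr fZ 0 = (pr fZ 0 * uu fZ 1) * uu fX 1 * pr fZ 0 := by rw [hEZ]
        _ = pr fZ 0 * (uu fZ 1 * uu fX 1) * pr fZ 0 := by simp only [mul_assoc]
        _ = - (pr fZ 0 * uu fX 1 * (uu fZ 1 * pr fZ 0)) := by
            rw [ZX]; simp only [mul_neg, neg_mul, mul_assoc]
        _ = _ := by rw [hZE]
    have h3 : (2 : ℂ) • (pr fZ 0 * uu fX 1 * pr fZ 0) = 0 := by
      rw [two_smul]; nth_rewrite 1 [h2]; rw [neg_add_cancel]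
    exact (smul_eq_zero.1 h3).resolve_left two_ne_zero
  rw [pr2 fX, mul_smul_comm, smul_mul_assoc, mul_add, add_mul, mul_one, mul_smul_comm,
    smul_mul_assoc, h1, smul_zero, add_zero, pr_mul, if_pos rfl]

end Pool.MP_81d1ca_an.H37
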