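import Mathlib
import Pool.Agent.Lib.MP_81d1ca_an.H37Near
import Pool.Agent.Lib.MP_81d1ca_an.H37Alg

open scoped InnerProductSpace ComplexConjugate ENNReal
open Filter Topology Monoid Monoid.CoprodI

namespace Pool.MP_81d1ca_an.H37

abbrev Z3 := ZMod 3
abbrev KK := Z3 × ZMod 2

/-! commutations -/
lemma hE_hE (g l : FG) : hE (g, 1) * hE (1, l) = hE (1, l) * hE (g, 1) := by
  rw [← map_mul, ← map_mul]; simp

lemma c_a_la (m m' : C3) : fa m * fla m' = fla m' * fa m := hE_hE _ _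
lemma c_a_lb (m m' : C3) : fa m * flb m' = flb m' * fa m := hE_hE _ _
lemma c_b_la (m m' : C3) : fb m * fla m' = fla m' * fb m := hE_hE _ _
lemma c_b_lb (m m' : C3) : fb m * flb m' = flb m' * fb m := hE_hE _ _

lemma c_a_y (n : ℕ) (m : C3) (m' : Multiplicative (ZMod 2)) :
    fa m * fy (x0 n) m' = fy (x0 n) m' * fa m := by
  apply hE_V
  apply act_smul
  rw [act_apply]
  change rG (io true m) (aL 1 (x0 n)) = _
  rw [map_one]
  exact rG_true_x0 n m

lemma c_la_y (n : ℕ) (m : C3) (m' : Multiplicative (ZMod 2)) :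
    fla m * fy (x0 n) m' = fy (x0 n) m' * fla m := by
  apply hE_V
  apply act_smul
  rw [act_apply]
  change rG 1 (aL (io true m) (x0 n)) = _
  rw [map_one, aL_x0]; rfl

lemma c_b_yt (n : ℕ) (m : C3) (m' : Multiplicative (ZMod 2)) :
    fb m * fy (Th (x0 n)) m' = fy (Th (x0 n)) m' * fb m := by
  apply hE_V
  apply act_smul
  rw [act_apply]
  change rG (io false m) (aL 1 (Th (x0 n))) = _
  rw [map_one]
  exact rG_false_Th_x0 n m

lemma c_la_yt (n : ℕ) (m : C3) (m' : Multiplicative (ZMod 2)) :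
    fla m * fy (Th (x0 n)) m' = fy (Th (x0 n)) m' * fla m := by
  apply hE_V
  apply act_smul
  rw [act_apply]
  change rG 1 (aL (io true m) (Th (x0 n))) = _
  rw [map_one, aL_Th_x0]; rfl

lemma c_E_Z (t : FG × FG) (m' : Multiplicative (ZMod 2)) : hE t * fZ m' = fZ m' * hE t := hE_P _ _
lemma c_E_X (t : FG × FG) (m' : Multiplicative (ZMod 2)) : hE t * fX m' = fX m' * hE t := hE_P _ _
lemma c_y_Z (x : VV) (m m' : Multiplicative (ZMod 2)) : fy x m * fZ m' = fZ m' * fy x m := hV_P _ _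
lemma c_y_X (x : VV) (m m' : Multiplicative (ZMod 2)) : fy x m * fX m' = fX m' * fy x m := hV_P _ _

/-- joint projections -/
noncomputable def rk (x : VV) (k : KK) : HH →L[ℂ] HH := pr fla k.1 * pr (fy x) k.2

/-- first near partition -/
noncomputable def Pn (n : ℕ) : (Z3 × KK) ⊕ (Z3 × Z3) → (HH →L[ℂ] HH) :=
  Sum.elim (fun p => (pr fa p.1 * rk (x0 n) p.2) * pr fZ 0)
    (fun p => (pr fb p.1 * pr flb p.2) * pr fZ 1)

/-- second near partition -/
noncomputable def Qn (n : ℕ) : (Z3 × Z3) ⊕ (Z3 × KK) → (HH →L[ℂ] HH) :=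
  Sum.elim (fun p => (pr fa p.1 * pr flb p.2) * pr fX 0)
    (fun p => (pr fb p.1 * rk (Th (x0 n)) p.2) * pr fX 1)

lemma mul3_comm {a b c : HH →L[ℂ] HH} (h1 : a * c = c * a) (h2 : b * c = c * b) :
    a * b * c = c * (a * b) := by
  rw [mul_assoc, h2, ← mul_assoc, h1, mul_assoc]

lemma mul3_comm' {a b c : HH →L[ℂ] HH} (h1 : c * a = a * c) (h2 : c * b = b * c) :
    c * (a * b) = a * b * c := (mul3_comm h1.symm h2.symm).symm

lemma rk_isPV {x : VV} (h : ∀ m m', fla m * fy x m' = fy x m' * fla m) : IsPV MM 1 (rk x) :=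
  (pr_isPV fla).prod (pr_isPV (fy x)) (fun i j => pr_comm h i j)

lemma Pn_isPV (n : ℕ) : IsPV MM 1 (Pn n) := by
  unfold Pn
  refine IsPV.join (e := fun p : Z3 × KK => pr fa p.1 * rk (x0 n) p.2)
    (f := fun p : Z3 × Z3 => pr fb p.1 * pr flb p.2) (g := pr fZ)
    ((pr_isPV fa).prod (rk_isPV (c_la_y n)) ?_) ((pr_isPV fb).prod (pr_isPV flb) ?_)
    (pr_isPV fZ) ?_ ?_
  · intro i k
    exact mul3_comm' (pr_comm c_a_la _ _) (pr_comm (c_a_y n) _ _)
  · intro i k; exact pr_comm c_b_lb _ _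
  · intro i
    refine mul3_comm (pr_comm (fun m m' => c_E_Z _ _) _ _) ?_
    exact mul3_comm (pr_comm (fun m m' => c_E_Z _ _) _ _) (pr_comm (c_y_Z _) _ _)
  · intro j
    exact mul3_comm (pr_comm (fun m m' => c_E_Z _ _) _ _) (pr_comm (fun m m' => c_E_Z _ _) _ _)

lemma Qn_isPV (n : ℕ) : IsPV MM 1 (Qn n) := by
  unfold Qn
  refine IsPV.join (e := fun p : Z3 × Z3 => pr fa p.1 * pr flb p.2)
    (f := fun p : Z3 × KK => pr fb p.1 * rk (Th (x0 n)) p.2) (g := pr fX)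
    ((pr_isPV fa).prod (pr_isPV flb) ?_) ((pr_isPV fb).prod (rk_isPV (c_la_yt n)) ?_)
    (pr_isPV fX) ?_ ?_
  · intro i k; exact pr_comm c_a_lb _ _
  · intro i k
    exact mul3_comm' (pr_comm c_b_la _ _) (pr_comm (c_b_yt n) _ _)
  · intro j
    exact mul3_comm (pr_comm (fun m m' => c_E_X _ _) _ _) (pr_comm (fun m m' => c_E_X _ _) _ _)
  · intro i
    refine mul3_comm (pr_comm (fun m m' => c_E_X _ _) _ _) ?_
    exact mul3_comm (pr_comm (fun m m' => c_E_X _ _) _ _) (pr_comm (c_y_X _) _ _)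

/-! row sums -/
lemma sum_Pn_inl_snd (n : ℕ) (i : Z3) : ∑ k : KK, Pn n (Sum.inl (i, k)) = pr fa i * pr fZ 0 := by
  unfold Pn
  simp only [Sum.elim_inl]
  rw [← Finset.sum_mul, ← Finset.mul_sum, (rk_isPV (c_la_y n)).sum, mul_one]

lemma sum_Pn_inl_fst (n : ℕ) (k : KK) : ∑ i : Z3, Pn n (Sum.inl (i, k)) = rk (x0 n) k * pr fZ 0 := by
  unfold Pn
  simp only [Sum.elim_inl]
  rw [← Finset.sum_mul, ← Finset.sum_mul, pr_sum, one_mul]

lemma sum_Pn_inl (n : ℕ) : ∑ p : Z3 × KK, Pn n (Sum.inl p) = pr fZ 0 := by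
  rw [Fintype.sum_prod_type]
  simp only [sum_Pn_inl_snd]
  rw [← Finset.sum_mul, pr_sum, one_mul]

lemma sum_Qn_inl_fst (n : ℕ) (l : Z3) : ∑ i : Z3, Qn n (Sum.inl (i, l)) = pr flb l * pr fX 0 := by
  unfold Qn
  simp only [Sum.elim_inl]
  rw [← Finset.sum_mul, ← Finset.sum_mul, pr_sum, one_mul]

lemma sum_Qn_inr_snd (n : ℕ) (j : Z3) : ∑ k : KK, Qn n (Sum.inr (j, k)) = pr fb j * pr fX 1 := by
  unfold Qn
  simp only [Sum.elim_inr]
  rw [← Finset.sum_mul, ← Finset.mul_sum, (rk_isPV (c_la_yt n)).sum, mul_one]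

/-- zero pattern -/
def ZZ : (Z3 × KK) ⊕ (Z3 × Z3) → (Z3 × Z3) ⊕ (Z3 × KK) → Prop
  | Sum.inl p, Sum.inl q => p.1 ≠ q.1
  | Sum.inl p, Sum.inr q => p.2 ≠ q.2
  | Sum.inr p, Sum.inl q => p.2 ≠ q.2
  | Sum.inr p, Sum.inr q => p.1 ≠ q.1

lemma zero1 {a a' r E s F : HH →L[ℂ] HH} (h0 : a * a' = 0) (h1 : r * a' = a' * r)
    (h2 : E * a' = a' * E) : (a * r * E) * (a' * s * F) = 0 := by
  calc (a * r * E) * (a' * s * F) = a * r * (E * a') * s * F := by simp only [mul_assoc]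
    _ = a * (r * a') * E * s * F := by rw [h2]; simp only [mul_assoc]
    _ = (a * a') * r * E * s * F := by rw [h1]; simp only [mul_assoc]
    _ = 0 := by rw [h0]; simp

lemma norm_yy (n : ℕ) (e : ZMod 2) :
    ‖(pr (fy (Th (x0 n))) e - pr (fy (x0 n)) e) Om‖ ≤
      Real.sqrt (2 * (1 - (1 - 1 / ((n : ℝ) + 2)) ^ 3)) := by
  have h1 : pr (fy (Th (x0 n))) e - pr (fy (x0 n)) e =
      (2 : ℂ)⁻¹ • ee (-e) • (uu (fy (Th (x0 n))) 1 - uu (fy (x0 n)) 1) := by
    rw [pr2, pr2, ← smul_sub, add_sub_add_left_eq_sub, ← smul_sub]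
  have h2 : (uu (fy (Th (x0 n))) 1 - uu (fy (x0 n)) 1) Om = vv (gV (Th (x0 n))) - vv (gV (x0 n)) := by
    rw [sub_apply]
    unfold uu
    rw [fy_apply, fy_apply, one_smul, one_smul]
    unfold Om L
    rw [charFam.L_apply, charFam.L_apply, mul_one, mul_one]
    rfl
  have h3 : ‖vv (gV (Th (x0 n))) - vv (gV (x0 n))‖ ^ 2 = 2 * (1 - psV (x0 n + Th (x0 n))) := by
    have e1 : ∀ x : VV, ‖vv (gV x)‖ = 1 := by
      intro x
      have h := inner_self_eq_norm_sq_to_K (𝕜 := ℂ) (vv (gV x))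
      rw [inner_vv, if_pos rfl, add_self_VV, psV_zero] at h
      have hs : (gV x).p.s = 0 := rfl
      rw [hs, sg_zero] at h
      have h4 : (1 : ℝ) = ‖vv (gV x)‖ ^ 2 := by
        have h5 : ((1 : ℝ) : ℂ) = ((‖vv (gV x)‖ ^ 2 : ℝ) : ℂ) := by
          push_cast at h ⊢; simpa using h
        exact_mod_cast h5
      nlinarith [norm_nonneg (vv (gV x))]
    rw [@norm_sub_sq ℂ, e1, e1, inner_vv, if_pos (show tg (gV (Th (x0 n))) = tg (gV (x0 n)) from rfl)]
    have hs : ∀ x : VV, (gV x).p.s = 0 := fun _ => rfl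
    have hx : ∀ x : VV, (gV x).x = x := fun _ => rfl
    rw [hs, hs, hx, hx, sg_zero, add_comm (Th (x0 n))]
    simp only [one_mul, RCLike.re_to_complex, Complex.ofReal_re]
    ring
  have h4 := psV_x0_Th n
  have h5 : ‖vv (gV (Th (x0 n))) - vv (gV (x0 n))‖ ≤
      Real.sqrt (2 * (1 - (1 - 1 / ((n : ℝ) + 2)) ^ 3)) := by
    apply Real.le_sqrt_of_sq_le
    rw [h3]
    linarith
  rw [h1, smul_apply, smul_apply, h2, norm_smul, norm_smul,
    ee_norm, one_mul]
  have h6 : ‖(2 : ℂ)⁻¹‖ = 1 / 2 := by simp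
  rw [h6]
  linarith [norm_nonneg (vv (gV (Th (x0 n))) - vv (gV (x0 n)))]

lemma near_zero (n : ℕ) (a) (b) (h : ZZ a b) :
    ‖(Pn n a * Qn n b) Om‖ ≤ Real.sqrt (2 * (1 - (1 - 1 / ((n : ℝ) + 2)) ^ 3)) := by
  have hzero : ∀ T : HH →L[ℂ] HH, T = 0 →
      ‖T Om‖ ≤ Real.sqrt (2 * (1 - (1 - 1 / ((n : ℝ) + 2)) ^ 3)) := by
    rintro T rfl
    simp
  rcases a with p | p <;> rcases b with q | q
  · apply hzero
    unfold Pn Qn
    simp only [Sum.elim_inl]
    apply zero1 ((pr_isPV fa).orth _ _ h)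
    · exact (mul3_comm' (pr_comm c_a_la _ _) (pr_comm (c_a_y n) _ _)).symm
    · exact (pr_comm (fun m m' => c_E_Z _ _) _ _).symm
  · -- the only approximate case
    unfold Pn Qn
    simp only [Sum.elim_inl, Sum.elim_inr]
    obtain ⟨i, k, e⟩ := p
    obtain ⟨j, k', e'⟩ := q
    simp only [ZZ] at h
    simp only
    have hZb : pr fZ 0 * pr fb j = pr fb j * pr fZ 0 := (pr_comm (fun m m' => c_E_Z _ _) _ _).symm
    have hZla : pr fZ 0 * pr fla k' = pr fla k' * pr fZ 0 :=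
      (pr_comm (fun m m' => c_E_Z _ _) _ _).symm
    have hZy : pr fZ 0 * pr (fy (Th (x0 n))) e' = pr (fy (Th (x0 n))) e' * pr fZ 0 :=
      (pr_comm (c_y_Z _) _ _).symm
    have hbla : pr fb j * pr fla k' = pr fla k' * pr fb j := pr_comm c_b_la _ _
    have hby : pr fb j * pr (fy (Th (x0 n))) e' = pr (fy (Th (x0 n))) e' * pr fb j :=
      pr_comm (c_b_yt n) _ _
    have hyla : pr (fy (x0 n)) e * pr fla k' = pr fla k' * pr (fy (x0 n)) e :=
      (pr_comm (c_la_y n) _ _).symm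
    have hlayt : pr fla k' * pr (fy (Th (x0 n))) e' = pr (fy (Th (x0 n))) e' * pr fla k' :=
      pr_comm (c_la_yt n) _ _
    have e1 : pr fa i * rk (x0 n) (k, e) * pr fZ 0 * (pr fb j * rk (Th (x0 n)) (k', e') * pr fX 1) =
        pr fa i * (pr fla k * pr fla k') * ((pr (fy (x0 n)) e * pr (fy (Th (x0 n))) e') *
          (pr fb j * pr fZ 0 * pr fX 1)) := by
      unfold rk
      simp only
      calc pr fa i * (pr fla k * pr (fy (x0 n)) e) * pr fZ 0 *
            (pr fb j * (pr fla k' * pr (fy (Th (x0 n))) e') * pr fX 1)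
          = pr fa i * pr fla k * pr (fy (x0 n)) e * (pr fZ 0 * pr fb j) * pr fla k' *
            pr (fy (Th (x0 n))) e' * pr fX 1 := by simp only [mul_assoc]
        _ = pr fa i * pr fla k * pr (fy (x0 n)) e * pr fb j * (pr fZ 0 * pr fla k') *
            pr (fy (Th (x0 n))) e' * pr fX 1 := by rw [hZb]; simp only [mul_assoc]
        _ = pr fa i * pr fla k * pr (fy (x0 n)) e * (pr fb j * pr fla k') * (pr fZ 0 *
            pr (fy (Th (x0 n))) e') * pr fX 1 := by rw [hZla]; simp only [mul_assoc]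
        _ = pr fa i * pr fla k * (pr (fy (x0 n)) e * pr fla k') * (pr fb j *
            pr (fy (Th (x0 n))) e') * pr fZ 0 * pr fX 1 := by rw [hZy, hbla]; simp only [mul_assoc]
        _ = _ := by rw [hyla, hby]; simp only [mul_assoc]
    rw [e1]
    by_cases hk : k = k'
    · subst hk
      have he : e ≠ e' := fun he => h (by rw [he])
      have e2 : pr (fy (x0 n)) e * pr (fy (Th (x0 n))) e' =
          pr (fy (x0 n)) e * (pr (fy (Th (x0 n))) e' - pr (fy (x0 n)) e') := by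
        rw [mul_sub, (pr_isPV (fy (x0 n))).orth _ _ he, sub_zero]
      have n1 : ‖pr fa i * (pr fla k * pr fla k)‖ ≤ 1 := by
        rw [(pr_isPV fla).idem]
        exact (norm_mul_le _ _).trans (mul_le_one₀ ((pr_isPV fa).norm_le _) (norm_nonneg _)
          ((pr_isPV fla).norm_le _))
      have n2 : ‖pr fb j * pr fZ 0 * pr fX 1‖ ≤ 1 := by
        refine (norm_mul_le _ _).trans (mul_le_one₀ ((norm_mul_le _ _).trans
          (mul_le_one₀ ((pr_isPV fb).norm_le _) (norm_nonneg _) ((pr_isPV fZ).norm_le _)))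
          (norm_nonneg _) ((pr_isPV fX).norm_le _))
      refine (le_left1 _ _ n1).trans ?_
      rw [e2]
      refine (tvM.le_right1 (mul_mem (pr_mem _ _) (sub_mem (pr_mem _ _) (pr_mem _ _)))
        (mul_mem (mul_mem (pr_mem _ _) (pr_mem _ _)) (pr_mem _ _)) n2).trans ?_
      refine (le_left1 _ _ ((pr_isPV (fy (x0 n))).norm_le _)).trans ?_
      exact norm_yy n e'
    · apply hzero
      rw [(pr_isPV fla).orth _ _ hk]; simp
  · apply hzero
    unfold Pn Qn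
    simp only [Sum.elim_inl, Sum.elim_inr]
    -- q_j s_l (1-E) p_i s_l' F
    have h1 : pr fb p.1 * pr flb p.2 * pr fZ 1 * (pr fa q.1 * pr flb q.2 * pr fX 0) =
        pr fb p.1 * pr fa q.1 * (pr flb p.2 * pr flb q.2) * (pr fZ 1 * pr fX 0) := by
      have a1 : pr fZ 1 * pr fa q.1 = pr fa q.1 * pr fZ 1 :=
        (pr_comm (fun m m' => c_E_Z _ _) _ _).symm
      have a2 : pr fZ 1 * pr flb q.2 = pr flb q.2 * pr fZ 1 :=
        (pr_comm (fun m m' => c_E_Z _ _) _ _).symm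
      have a3 : pr flb p.2 * pr fa q.1 = pr fa q.1 * pr flb p.2 :=
        (pr_comm c_a_lb _ _).symm
      calc _ = pr fb p.1 * pr flb p.2 * (pr fZ 1 * pr fa q.1) * pr flb q.2 * pr fX 0 := by
            simp only [mul_assoc]
        _ = pr fb p.1 * (pr flb p.2 * pr fa q.1) * (pr fZ 1 * pr flb q.2) * pr fX 0 := by
            rw [a1]; simp only [mul_assoc]
        _ = _ := by rw [a2, a3]; simp only [mul_assoc]
    rw [h1, (pr_isPV flb).orth _ _ h]; simp
  · apply hzero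
    unfold Pn Qn
    simp only [Sum.elim_inr]
    apply zero1 ((pr_isPV fb).orth _ _ h)
    · exact (pr_comm c_b_lb _ _).symm
    · exact (pr_comm (fun m m' => c_E_Z _ _) _ _).symm

lemma tendsto_near : Tendsto (fun n : ℕ => Real.sqrt (2 * (1 - (1 - 1 / ((n : ℝ) + 2)) ^ 3)))
    atTop (𝓝 0) := by
  have h1 : Tendsto (fun n : ℕ => 1 / ((n : ℝ) + 2)) atTop (𝓝 0) := by
    have := tendsto_one_div_add_atTop_nhds_zero_nat (𝕜 := ℝ)
    have h2 := (tendsto_add_atTop_iff_nat 1).2 this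
    refine h2.congr fun n => ?_
    push_cast; congr 1; ring
  have h3 : Tendsto (fun n : ℕ => Real.sqrt (2 * (1 - (1 - 1 / ((n : ℝ) + 2)) ^ 3))) atTop
      (𝓝 (Real.sqrt (2 * (1 - (1 - 0) ^ 3)))) := by
    exact (Real.continuous_sqrt.tendsto _).comp
      (((((tendsto_const_nhds.sub h1).pow 3).const_sub 1)).const_mul 2)
  simpa using h3

end Pool.MP_81d1ca_an.H37
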