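import Mathlib
import Pool.Agent.Lib.MP_81d1ca_an.H37Pat

open scoped InnerProductSpace ComplexConjugate ENNReal
open Filter Topology Monoid Monoid.CoprodI

namespace Pool.MP_81d1ca_an.H37

namespace IsPV
variable {H : Type} [NormedAddCommGroup H] [InnerProductSpace ℂ H] [CompleteSpace H]
  {M : VonNeumannAlgebra H} {α : H →L[ℂ] H} {I K : Type} [Fintype I] [Fintype K]

lemma inl {p : I ⊕ K → (H →L[ℂ] H)} (hp : IsPV M α p) :
    IsPV M (∑ i, p (Sum.inl i)) (fun i => p (Sum.inl i)) where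
  mem i := hp.mem _
  sa i := hp.sa _
  idem i := hp.idem _
  orth i j h := hp.orth _ _ (fun h' => h (Sum.inl_injective h'))
  sum := rfl

lemma sumSnd {p : I × K → (H →L[ℂ] H)} (hp : IsPV M α p) :
    IsPV M α (fun i => ∑ k, p (i, k)) where
  mem i := sum_mem fun k _ => hp.mem _
  sa i := by rw [star_sum]; simp only [hp.sa]
  idem i := by
    classical
    rw [Finset.sum_mul_sum]
    refine Finset.sum_congr rfl fun k _ => ?_
    rw [Finset.sum_eq_single k]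
    · exact hp.idem _
    · intro k' _ hk; exact hp.orth _ _ (fun h => hk (by simpa using h.symm))
    · simp
  orth i j h := by
    rw [Finset.sum_mul_sum]
    exact Finset.sum_eq_zero fun k _ => Finset.sum_eq_zero fun k' _ =>
      hp.orth _ _ (fun h' => h (by simpa using (Prod.ext_iff.1 h').1))
  sum := by
    rw [← hp.sum, Fintype.sum_prod_type]

lemma sumFst {p : I × K → (H →L[ℂ] H)} (hp : IsPV M α p) :
    IsPV M α (fun k => ∑ i, p (i, k)) where
  mem i := sum_mem fun k _ => hp.mem _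
  sa i := by rw [star_sum]; simp only [hp.sa]
  idem k := by
    classical
    rw [Finset.sum_mul_sum]
    refine Finset.sum_congr rfl fun i _ => ?_
    rw [Finset.sum_eq_single i]
    · exact hp.idem _
    · intro k' _ hk; exact hp.orth _ _ (fun h => hk (by simpa using h.symm))
    · simp
  orth i j h := by
    rw [Finset.sum_mul_sum]
    exact Finset.sum_eq_zero fun k _ => Finset.sum_eq_zero fun k' _ =>
      hp.orth _ _ (fun h' => h (by simpa using (Prod.ext_iff.1 h').2))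
  sum := by
    rw [← hp.sum, Fintype.sum_prod_type_right]

lemma option {p : I → (H →L[ℂ] H)} (hm : ∀ i, p i ∈ M) (hs : ∀ i, star (p i) = p i)
    (hi : ∀ i, p i * p i = p i) (ho : ∀ i j, i ≠ j → p i * p j = 0) (hαm : α ∈ M)
    (hαs : star α = α) (hαi : α * α = α) (hα : ∀ i, α * p i = p i) :
    IsPV M α (fun o : Option I => o.elim (α - ∑ i, p i) p) := by
  have hα' : ∀ i, p i * α = p i := by
    intro i
    have := congrArg star (hα i)
    rwa [star_mul, hαs, hs] at this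
  have hz : ∀ i, (α - ∑ j, p j) * p i = 0 := by
    classical
    intro i
    rw [sub_mul, hα, Finset.sum_mul, Finset.sum_eq_single i, hi, sub_self]
    · intro j _ hj; exact ho j i hj
    · simp
  have hz' : ∀ i, p i * (α - ∑ j, p j) = 0 := by
    classical
    intro i
    rw [mul_sub, hα', Finset.mul_sum, Finset.sum_eq_single i, hi, sub_self]
    · intro j _ hj; exact ho i j (Ne.symm hj)
    · simp
  refine ⟨?_, ?_, ?_, ?_, ?_⟩
  · rintro (_ | i)
    · exact sub_mem hαm (sum_mem fun i _ => hm i)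
    · exact hm i
  · rintro (_ | i)
    · simp only [Option.elim_none]
      rw [star_sub, hαs, star_sum]; simp only [hs]
    · exact hs i
  · rintro (_ | i)
    · simp only [Option.elim_none]
      rw [mul_sub, Finset.mul_sum, Finset.sum_eq_zero (fun i _ => hz i), sub_zero, sub_mul, hαi,
        Finset.sum_mul]
      simp only [hα']
    · exact hi i
  · rintro (_ | i) (_ | j) h
    · exact (h rfl).elim
    · exact hz j
    · exact hz' i
    · exact ho i j (fun h' => h (by rw [h']))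
  · rw [Fintype.sum_option]
    simp

end IsPV

/-- tag classes -/
def Wj (b : Bool) : Set (Finset EE × TT) := {j | j.2 ∈ {t : TT | t.1.1 ∈ Wc b}}
/-- tag classes -/
def Vj (s : Bool × Bool) : Set (Finset EE × TT) :=
  {j | j.2 ∈ {t : TT | (el s)⁻¹ * t.1.1 ∈ Wc (!s.1)}}

lemma mass_LW (b c : Bool) (ξ : HH) :
    mass (ind (Vj (b, c))) (L (hE (el (b, c), 1)) ξ) = mass (ind (Wj (!b))) ξ := by
  apply mass_L
  intro h
  have : (tg (hE (el (b, c), 1) * h)).1.1 = el (b, c) * (tg h).1.1 := rfl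
  simp only [Set.mem_ofPred_eq]
  rw [this, inv_mul_cancel_left]

/-- the element with spectral data -/
lemma el_eq_io (b c : Bool) : ∃ m : ZMod 3, el (b, c) = io b (Multiplicative.ofAdd m) := by
  cases c
  · exact ⟨2, rfl⟩
  · exact ⟨1, rfl⟩

lemma hE_E (t : FG × FG) : L (hE t) * pr fZ 0 = pr fZ 0 * L (hE t) := by
  symm
  apply pr_comm_op
  intro m
  unfold uu L
  rw [charFam.L_mul, charFam.L_mul, c_E_Z]

lemma gV_E (x : VV) : L (gV x) * pr fZ 0 = pr fZ 0 * L (gV x) := by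
  symm
  apply pr_comm_op
  intro m
  unfold uu L
  rw [charFam.L_mul, charFam.L_mul]
  congr 1
  exact (hV_P (Multiplicative.ofAdd x) _).symm

lemma norm_E : ‖pr fZ 0 Om‖ ^ 2 = 1 / 2 := by
  have h1 : ⟪pr fZ 0 Om, pr fZ 0 Om⟫_ℂ = ⟪(Om : HH), pr fZ 0 Om⟫_ℂ := by
    have h2 := (pr_isPV fZ).sa 0
    rw [← ContinuousLinearMap.adjoint_inner_right, ← ContinuousLinearMap.star_eq_adjoint, h2,
      ← mul_apply_eq_comp, (pr_isPV fZ).idem]
  have h3 : ⟪(Om : HH), pr fZ 0 Om⟫_ℂ = 1 / 2 := by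
    rw [pr2, smul_apply, inner_smul_right, add_apply, inner_add_right, neg_zero, ee_zero, one_smul]
    have e1 : ⟪(Om : HH), (1 : HH →L[ℂ] HH) Om⟫_ℂ = 1 := by
      change ⟪(Om : HH), Om⟫_ℂ = 1
      rw [inner_self_eq_norm_sq_to_K, tvM.norm_one]; simp
    have e2 : ⟪(Om : HH), uu fZ 1 Om⟫_ℂ = 0 := by
      unfold uu Om L
      rw [charFam.L_apply, mul_one, inner_vv, if_neg]
      intro h
      have h4 : (tg 1).2.2 = (tg (fZ (Multiplicative.ofAdd 1))).2.2 := by rw [h]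
      exact absurd h4 (by decide)
    rw [e1, e2]; norm_num
  have h5 := inner_self_eq_norm_sq_to_K (𝕜 := ℂ) (pr fZ 0 Om)
  rw [h1, h3] at h5
  have h6 : ((1 / 2 : ℝ) : ℂ) = ((‖pr fZ 0 Om‖ ^ 2 : ℝ) : ℂ) := by
    push_cast; simpa using h5
  exact (by exact_mod_cast h6 : (1 / 2 : ℝ) = ‖pr fZ 0 Om‖ ^ 2).symm

lemma gE_eq (t : FG × FG) : gE t = hE t := rfl

/-- a set of almost commuting data: the core of the argument -/
theorem core (n : ℕ) {α : HH →L[ℂ] HH} (hαm : α ∈ MM) (hαs : star α = α) (hαi : α * α = α)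
    (T : Set (HH →L[ℂ] HH))
    (hcα : ∀ t ∈ T, α * t = t * α)
    (hα : ‖(α - pr fZ 0) Om‖ ≤ 1 / 10 ^ 7)
    -- commuting data
    (cs : ∀ s : Bool × Bool, ∃ c ∈ MM, (∀ x, (∀ t ∈ T, x * t = t * x) → x * c = c * x) ∧
      ‖(L (gE (1, el s)) * pr fZ 0 - c) Om‖ ≤ 1 / 10 ^ 7)
    (cy : ∃ c ∈ MM, (∀ x, (∀ t ∈ T, x * t = t * x) → x * c = c * x) ∧
      ‖(L (gV (x0 n)) * pr fZ 0 - c) Om‖ ≤ 1 / 10 ^ 7)
    -- unitaries
    (us : ∀ s : Bool × Bool, ∃ u ∈ MM, star u * u = α ∧ α * u = u ∧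
      (∀ t ∈ T, u * t = t * u) ∧ ‖(L (hE (el s, 1)) * pr fZ 0 - u) Om‖ ≤ 1 / 10 ^ 6) : False := by
  classical
  set E := pr fZ 0 with hE0
  have hEm : E ∈ MM := pr_mem _ _
  have nE : ‖E‖ ≤ 1 := (pr_isPV fZ).norm_le 0
  have hEi : E * E = E := (pr_isPV fZ).idem 0
  have hEs : star E = E := (pr_isPV fZ).sa 0
  have nα : ‖α‖ ≤ 1 := norm_proj_le hαs hαi
  have n1E : ‖(1 : HH →L[ℂ] HH) - E‖ ≤ 1 := by
    apply norm_proj_le
    · rw [star_sub, star_one, hEs]
    · have : (1 - E) * (1 - E) = 1 - E - E + E * E := by noncomm_ring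
      rw [this, hEi]; abel
  have h1Em : (1 : HH →L[ℂ] HH) - E ∈ MM := sub_mem (one_mem _) hEm
  have h1E : (1 - E) * E = 0 := by rw [sub_mul, one_mul, hEi, sub_self]
  have hE1 : E * (1 - E) = 0 := by rw [mul_sub, mul_one, hEi, sub_self]
  -- the set
  let X := {x : HH →L[ℂ] HH // x ∈ MM ∧ star x * x = α ∧ α * x = x ∧ x * α = x ∧
    ∀ t ∈ T, x * t = t * x}
  have xnorm : ∀ x : X, ‖(x : HH →L[ℂ] HH)‖ ≤ 1 := by
    intro x
    have h := CStarRing.norm_star_mul_self (x := (x : HH →L[ℂ] HH))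
    rw [x.2.2.1] at h
    nlinarith [norm_nonneg (x : HH →L[ℂ] HH)]
  have nOm : ‖(Om : HH)‖ = 1 := tvM.norm_one
  have xOm : ∀ x : X, ‖(x : HH →L[ℂ] HH) Om‖ ≤ 1 := by
    intro x
    refine ((x : HH →L[ℂ] HH).le_opNorm _).trans ?_
    rw [nOm, mul_one]; exact xnorm x
  -- (1-E) x and x (1-E)
  have x1 : ∀ x : X, ‖((1 - E) * (x : HH →L[ℂ] HH)) Om‖ ≤ 1 / 10 ^ 7 := by
    intro x
    have e : (1 - E) * (x : HH →L[ℂ] HH) = (1 - E) * (α - E) * (x : HH →L[ℂ] HH) := by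
      rw [mul_sub (1 - E) α E, h1E, sub_zero, mul_assoc, x.2.2.2.1]
    rw [e]
    refine (tvM.le_right1 (mul_mem h1Em (sub_mem hαm hEm)) x.2.1 (xnorm x)).trans ?_
    exact (le_left1 _ _ n1E).trans hα
  have x2 : ∀ x : X, ‖((x : HH →L[ℂ] HH) * (1 - E)) Om‖ ≤ 1 / 10 ^ 7 := by
    intro x
    have e : (x : HH →L[ℂ] HH) * (1 - E) = (x : HH →L[ℂ] HH) * ((α - E) * (1 - E)) := by
      rw [sub_mul α E (1 - E), hE1, sub_zero, ← mul_assoc, x.2.2.2.2.1]
    rw [e]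
    refine (le_left1 _ _ (xnorm x)).trans ?_
    exact (tvM.le_right1 (sub_mem hαm hEm) h1Em n1E).trans hα
  have nL : ∀ g, ‖L g‖ ≤ 1 := by
    intro g
    apply ContinuousLinearMap.opNorm_le_bound _ zero_le_one
    intro ξ; rw [norm_L, one_mul]
  -- almost commutation with group elements
  have comm : ∀ (g : GG) (x : X), L g * E = E * L g →
      (∃ c ∈ MM, (∀ x, (∀ t ∈ T, x * t = t * x) → x * c = c * x) ∧
      ‖(L g * E - c) Om‖ ≤ 1 / 10 ^ 7) → ‖Cop g ((x : HH →L[ℂ] HH) Om) - (x : HH →L[ℂ] HH) Om‖ ≤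
      4 / 10 ^ 7 := by
    rintro g x hgE ⟨c, hcm, hcc, hc⟩
    rw [C_sub]
    have e0 : Rop vv g⁻¹ ((x : HH →L[ℂ] HH) Om) = ((x : HH →L[ℂ] HH) * L g) Om := by
      rw [charFam.mul_L x.2.1]
    have e1 : L g ((x : HH →L[ℂ] HH) Om) - Rop vv g⁻¹ ((x : HH →L[ℂ] HH) Om) =
        (L g * ((1 - E) * (x : HH →L[ℂ] HH))) Om + ((L g * E - c) * (x : HH →L[ℂ] HH)) Om -
        ((x : HH →L[ℂ] HH) * (L g * E - c)) Om - ((x : HH →L[ℂ] HH) * (1 - E) * L g) Om := by
      rw [e0]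
      have e2 : L g * (x : HH →L[ℂ] HH) - (x : HH →L[ℂ] HH) * L g =
          L g * ((1 - E) * (x : HH →L[ℂ] HH)) + (L g * E - c) * (x : HH →L[ℂ] HH) -
          (x : HH →L[ℂ] HH) * (L g * E - c) - (x : HH →L[ℂ] HH) * (1 - E) * L g := by
        have hxc := hcc x x.2.2.2.2.2
        simp only [mul_sub, sub_mul, mul_one, one_mul, mul_assoc]
        rw [← hxc, hgE]; abel
      have e3 := congrArg (fun A : HH →L[ℂ] HH => A Om) e2
      simp only [sub_apply, add_apply] at e3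
      rw [← e3]; rfl
    have hLEm : L g * E - c ∈ MM := sub_mem (mul_mem (L_mem g) hEm) hcm
    have b1 : ‖(L g * ((1 - E) * (x : HH →L[ℂ] HH))) Om‖ ≤ 1 / 10 ^ 7 :=
      (le_left1 _ _ (nL g)).trans (x1 x)
    have b2 : ‖((L g * E - c) * (x : HH →L[ℂ] HH)) Om‖ ≤ 1 / 10 ^ 7 :=
      (tvM.le_right1 hLEm x.2.1 (xnorm x)).trans hc
    have b3 : ‖((x : HH →L[ℂ] HH) * (L g * E - c)) Om‖ ≤ 1 / 10 ^ 7 :=
      (le_left1 _ _ (xnorm x)).trans hc
    have b4 : ‖((x : HH →L[ℂ] HH) * (1 - E) * L g) Om‖ ≤ 1 / 10 ^ 7 :=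
      (tvM.le_right1 (mul_mem x.2.1 h1Em) (L_mem g) (nL g)).trans (x2 x)
    rw [e1]
    have c1 := norm_sub_le ((L g * ((1 - E) * (x : HH →L[ℂ] HH))) Om +
      ((L g * E - c) * (x : HH →L[ℂ] HH)) Om - ((x : HH →L[ℂ] HH) * (L g * E - c)) Om)
      (((x : HH →L[ℂ] HH) * (1 - E) * L g) Om)
    have c2 := norm_sub_le ((L g * ((1 - E) * (x : HH →L[ℂ] HH))) Om +
      ((L g * E - c) * (x : HH →L[ℂ] HH)) Om) (((x : HH →L[ℂ] HH) * (L g * E - c)) Om)
    have c3 := norm_add_le ((L g * ((1 - E) * (x : HH →L[ℂ] HH))) Om)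
      (((L g * E - c) * (x : HH →L[ℂ] HH)) Om)
    linarith
  -- mass estimate
  have hF : ∀ x : X, mass (ind (((Fbig_finite n).toFinset : Set (Finset EE × TT))ᶜ))
      ((x : HH →L[ℂ] HH) Om) ≤ 1 / 10 ^ 4 := by
    intro x
    rw [Set.Finite.coe_toFinset]
    have m1 : mass (ind J0ᶜ) ((x : HH →L[ℂ] HH) Om) ≤ (2 / 10 ^ 3 : ℝ) ^ 2 := by
      have := mass_off_J0 (ξ := (x : HH →L[ℂ] HH) Om) (ε := 4 / 10 ^ 7)
        (fun s => comm _ x (hE_E _) (cs s))
      have h2 := xOm x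
      have h3 := norm_nonneg ((x : HH →L[ℂ] HH) Om)
      norm_num at this ⊢
      linarith
    have m2 := mass_off_Fbig n (by norm_num) (comm _ x (gV_E _) cy) m1
    refine m2.trans ?_
    norm_num
  choose u hum huu hαu hut hud using us
  let σ : Bool × Bool → X → X := fun s x => ⟨u s * (x : HH →L[ℂ] HH), mul_mem (hum s) x.2.1, by
    rw [star_mul, mul_assoc, ← mul_assoc (star (u s)), huu, x.2.2.2.1, x.2.2.1], by
    rw [← mul_assoc, hαu], by rw [mul_assoc, x.2.2.2.2.1], by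
    intro t ht
    rw [mul_assoc, x.2.2.2.2.2 t ht, ← mul_assoc, hut s t ht, mul_assoc]⟩
  let η : X → L2 (Finset EE × TT) := fun x => (x : HH →L[ℂ] HH) Om
  have hinn : ∀ x y : X, ∀ s, ⟪η (σ s x), η (σ s y)⟫_ℂ = ⟪η x, η y⟫_ℂ := by
    intro x y s
    change ⟪(u s * (x : HH →L[ℂ] HH)) Om, (u s * (y : HH →L[ℂ] HH)) Om⟫_ℂ =
      ⟪(x : HH →L[ℂ] HH) Om, (y : HH →L[ℂ] HH) Om⟫_ℂ
    rw [mul_apply_eq_comp, ← ContinuousLinearMap.adjoint_inner_right,
      ← ContinuousLinearMap.star_eq_adjoint]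
    congr 1
    have := congrArg (fun A : HH →L[ℂ] HH => A Om)
      (show star (u s) * (u s * (y : HH →L[ℂ] HH)) = y by rw [← mul_assoc, huu, y.2.2.2.1])
    exact this
  have hXne : Nonempty X := ⟨⟨α, hαm, by rw [hαs, hαi], hαi, hαi, hcα⟩⟩
  have hnorm : ∀ x : X, ‖η x‖ ^ 2 = ‖α Om‖ ^ 2 := by
    intro x
    congr 1
    apply norm_eq_of_inner
    change ⟪(x : HH →L[ℂ] HH) Om, (x : HH →L[ℂ] HH) Om⟫_ℂ = _
    rw [← ContinuousLinearMap.adjoint_inner_right, ← ContinuousLinearMap.star_eq_adjoint,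
      ← mul_apply_eq_comp, x.2.2.1, ← ContinuousLinearMap.adjoint_inner_right,
      ← ContinuousLinearMap.star_eq_adjoint, ← mul_apply_eq_comp, hαs, hαi]
  have hWm : ∀ (b c : Bool) (x : X), mass (ind (Wj (!b))) (η x) ≤
      mass (ind (Vj (b, c))) (η (σ (b, c) x)) + 1 / 10 ^ 4 := by
    intro b c x
    have h1 := mass_LW b c (η x)
    rw [← h1]
    have h2 := abs_le.1 (abs_mass_sub_le (f := ind (Vj (b, c))) (ind_nonneg _) (ind_le_one _)
      (L (hE (el (b, c), 1)) (η x)) (η (σ (b, c) x)))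
    rw [norm_L] at h2
    have h3 : ‖L (hE (el (b, c), 1)) (η x) - η (σ (b, c) x)‖ ≤ 2 / 10 ^ 6 := by
      have e1 : L (hE (el (b, c), 1)) (η x) - η (σ (b, c) x) =
          (L (hE (el (b, c), 1)) * ((1 - E) * (x : HH →L[ℂ] HH))) Om +
          ((L (hE (el (b, c), 1)) * E - u (b, c)) * (x : HH →L[ℂ] HH)) Om := by
        have e2 : L (hE (el (b, c), 1)) * (x : HH →L[ℂ] HH) - u (b, c) * (x : HH →L[ℂ] HH) =
            (L (hE (el (b, c), 1)) * ((1 - E) * (x : HH →L[ℂ] HH))) +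
            ((L (hE (el (b, c), 1)) * E - u (b, c)) * (x : HH →L[ℂ] HH)) := by
          simp only [mul_sub, sub_mul, mul_one, one_mul, mul_assoc]; abel
        exact congrArg (fun A : HH →L[ℂ] HH => A Om) e2
      rw [e1]
      refine (norm_add_le _ _).trans ?_
      have b1 : ‖(L (hE (el (b, c), 1)) * ((1 - E) * (x : HH →L[ℂ] HH))) Om‖ ≤ 1 / 10 ^ 7 :=
        (le_left1 _ _ (nL _)).trans (x1 x)
      have b2 : ‖((L (hE (el (b, c), 1)) * E - u (b, c)) * (x : HH →L[ℂ] HH)) Om‖ ≤ 1 / 10 ^ 6 :=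
        (tvM.le_right1 (sub_mem (mul_mem (L_mem _) hEm) (hum _)) x.2.1 (xnorm x)).trans (hud _)
      norm_num at b1 b2 ⊢
      linarith
    have h4 : ‖η x‖ ≤ 1 := xOm x
    have h5 : ‖η (σ (b, c) x)‖ ≤ 1 := xOm _
    have h6 : ‖L (hE (el (b, c), 1)) (η x) - η (σ (b, c) x)‖ * (‖η x‖ + ‖η (σ (b, c) x)‖) ≤
        2 / 10 ^ 6 * 2 := by
      apply mul_le_mul h3 (by linarith) (by positivity) (by positivity)
    norm_num at h6 ⊢
    linarith [h2.2]
  have hfin := paradox η (τ := ‖α Om‖ ^ 2) hnorm σ (fun s x y => hinn x y s)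
    (Fbig_finite n).toFinset (δ := 1 / 10 ^ 4) hF Wj
    (by
      ext j
      simp only [Set.mem_union, Set.mem_univ, iff_true]
      exact Wc_or true j.2.1.1)
    (by
      rw [Set.disjoint_left]
      intro j h1 h2
      exact Wc_not (b := true) h1 h2) Vj
    (by
      intro b c j hj
      have h1 : (el (b, c))⁻¹ * j.2.1.1 ∈ Wc (!b) := hj
      have := el_mul_Wc (c := c) h1
      rw [mul_inv_cancel_left] at this
      exact this)
    (by
      intro b
      rw [Set.disjoint_left]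
      intro j h1 h2
      exact Wc_disj (b := b) h1 h2) hWm
  have h7 := norm_E
  have h8 : ‖E Om‖ ≤ ‖α Om‖ + 1 / 10 ^ 7 := by
    have e : E Om = α Om - (α - E) Om := by rw [sub_apply]; abel
    rw [e]
    exact (norm_sub_le _ _).trans (by linarith)
  have h9 := norm_nonneg (α Om)
  have h10 := norm_nonneg (E Om)
  norm_num at hfin h8
  rw [← hE0] at h7
  have h11 : ‖α Om‖ ≤ 1 / 20 := by
    by_contra hc
    push Not at hc
    nlinarith
  have h12 : ‖E Om‖ ≤ 1 / 10 := by linarith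
  nlinarith

end Pool.MP_81d1ca_an.H37
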