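import Mathlib
import Pool.Agent.Lib.MP_81d1ca_an.H37Contra

open scoped InnerProductSpace ComplexConjugate ENNReal
open Filter Topology Monoid Monoid.CoprodI

namespace Pool.MP_81d1ca_an.H37

namespace IsPV
variable {H : Type} [NormedAddCommGroup H] [InnerProductSpace ℂ H] [CompleteSpace H]
  {M : VonNeumannAlgebra H} {α : H →L[ℂ] H} {I K : Type} [Fintype I] [Fintype K]

lemma inr {p : I ⊕ K → (H →L[ℂ] H)} (hp : IsPV M α p) :
    IsPV M (∑ i, p (Sum.inr i)) (fun i => p (Sum.inr i)) where
  mem _ := hp.mem _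
  sa _ := hp.sa _
  idem _ := hp.idem _
  orth _ _ h := hp.orth _ _ (fun h' => h (Sum.inr_injective h'))
  sum := rfl

end IsPV

lemma card_ZK : Fintype.card (Z3 × KK) = 18 := rfl
lemma card_K : Fintype.card KK = 6 := rfl
lemma card_Z : Fintype.card Z3 = 3 := rfl

theorem no_close (n : ℕ) {P' : (Z3 × KK) ⊕ (Z3 × Z3) → (HH →L[ℂ] HH)}
    {Q' : (Z3 × Z3) ⊕ (Z3 × KK) → (HH →L[ℂ] HH)}
    (hP : IsPV MM 1 P') (hQ : IsPV MM 1 Q') (hZ : ∀ a b, ZZ a b → P' a * Q' b = 0)
    {ε : ℝ} (hε : ε ≤ 1 / 10 ^ 11) (hPd : ∀ a, ‖(P' a - Pn n a) Om‖ ≤ ε)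
    (hQd : ∀ b, ‖(Q' b - Qn n b) Om‖ ≤ ε) : False := by
  classical
  have hε0 : 0 ≤ ε := (norm_nonneg _).trans (hPd (Sum.inr (0, 0)))
  have hZ' : ∀ a b, ZZ a b → Q' b * P' a = 0 := by
    intro a b h
    have := congrArg star (hZ a b h)
    rwa [star_mul, hP.sa, hQ.sa, star_zero] at this
  let A : Z3 → KK → (HH →L[ℂ] HH) := fun i k => P' (Sum.inl (i, k))
  let C : Z3 → Z3 → (HH →L[ℂ] HH) := fun j l => P' (Sum.inr (j, l))
  let B : Z3 → Z3 → (HH →L[ℂ] HH) := fun i l => Q' (Sum.inl (i, l))
  let D : Z3 → KK → (HH →L[ℂ] HH) := fun j k => Q' (Sum.inr (j, k))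
  have hS : SqPat A C B D :=
    { AA := fun i k => hP.idem _
      AA' := fun i k i' k' h => hP.orth _ _ (by
        intro h'
        have h2 := Sum.inl_injective h'
        rw [Prod.mk.injEq] at h2
        rcases h with h | h
        · exact h h2.1
        · exact h h2.2)
      DD := fun j k => hQ.idem _
      DD' := fun i k i' k' h => hQ.orth _ _ (by
        intro h'
        have h2 := Sum.inr_injective h'
        rw [Prod.mk.injEq] at h2
        rcases h with h | h
        · exact h h2.1
        · exact h h2.2)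
      AC := fun i k j l => hP.orth _ _ (by simp)
      CA := fun i k j l => hP.orth _ _ (by simp)
      BD := fun i k j l => hQ.orth _ _ (by simp)
      DB := fun i k j l => hQ.orth _ _ (by simp)
      sumAC := by
        have := hP.sum
        rw [Fintype.sum_sum_type, Fintype.sum_prod_type, Fintype.sum_prod_type] at this
        exact this
      sumBD := by
        have := hQ.sum
        rw [Fintype.sum_sum_type, Fintype.sum_prod_type, Fintype.sum_prod_type] at this
        exact this
      zAB := fun i k i' l h => hZ (Sum.inl (i, k)) (Sum.inl (i', l)) h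
      zBA := fun i k i' l h => hZ' (Sum.inl (i, k)) (Sum.inl (i', l)) h
      zAD := fun i k j k' h => hZ (Sum.inl (i, k)) (Sum.inr (j, k')) h
      zDA := fun i k j k' h => hZ' (Sum.inl (i, k)) (Sum.inr (j, k')) h
      zCB := fun j l i l' h => hZ (Sum.inr (j, l)) (Sum.inl (i, l')) h
      zBC := fun j l i l' h => hZ' (Sum.inr (j, l)) (Sum.inl (i, l')) h
      zCD := fun j l j' k h => hZ (Sum.inr (j, l)) (Sum.inr (j', k)) h
      zDC := fun j l j' k h => hZ' (Sum.inr (j, l)) (Sum.inr (j', k)) h }
  set E := pr fZ 0 with hE0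
  have nE : ‖E‖ ≤ 1 := (pr_isPV fZ).norm_le 0
  have hEm : E ∈ MM := pr_mem _ _
  set α := SqPat.al A with hα0
  have hA0 : IsPV MM α (fun p => P' (Sum.inl p)) := by
    have := hP.inl
    rwa [Fintype.sum_prod_type] at this
  have hI : IsPV MM α (SqPat.alI A) := hA0.sumSnd
  have hK : IsPV MM α (SqPat.alK A) := hA0.sumFst
  have hBm : IsPV MM _ (fun l => ∑ i, B i l) := (hQ.inl).sumFst
  have hDm : IsPV MM _ (fun j => ∑ k, D j k) := (hQ.inr).sumSnd
  have hαm := hA0.al_mem
  have hαs := hA0.al_sa
  have hαi := hA0.al_idem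
  have nα := hA0.al_norm
  -- distances
  have dα : ‖(α - E) Om‖ ≤ 18 * ε := by
    have := norm_sum_sub_le (p := fun p : Z3 × KK => P' (Sum.inl p))
      (q := fun p => Pn n (Sum.inl p)) (Ω := Om) (fun p => hPd _)
    rw [card_ZK, sum_Pn_inl, Fintype.sum_prod_type] at this
    exact_mod_cast this
  have dI : ∀ i, ‖(SqPat.alI A i - pr fa i * E) Om‖ ≤ 6 * ε := by
    intro i
    have := norm_sum_sub_le (p := fun k : KK => P' (Sum.inl (i, k)))
      (q := fun k => Pn n (Sum.inl (i, k))) (Ω := Om) (fun p => hPd _)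
    rw [card_K, sum_Pn_inl_snd] at this
    exact_mod_cast this
  have dK : ∀ k, ‖(SqPat.alK A k - rk (x0 n) k * E) Om‖ ≤ 3 * ε := by
    intro k
    have := norm_sum_sub_le (p := fun i : Z3 => P' (Sum.inl (i, k)))
      (q := fun i => Pn n (Sum.inl (i, k))) (Ω := Om) (fun p => hPd _)
    rw [card_Z, sum_Pn_inl_fst] at this
    exact_mod_cast this
  have dB : ∀ l, ‖(∑ i, B i l - pr flb l * pr fX 0) Om‖ ≤ 3 * ε := by
    intro l
    have := norm_sum_sub_le (p := fun i : Z3 => Q' (Sum.inl (i, l)))
      (q := fun i => Qn n (Sum.inl (i, l))) (Ω := Om) (fun p => hQd _)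
    rw [card_Z, sum_Qn_inl_fst] at this
    exact_mod_cast this
  have dD : ∀ j, ‖(∑ k, D j k - pr fb j * pr fX 1) Om‖ ≤ 6 * ε := by
    intro j
    have := norm_sum_sub_le (p := fun k : KK => Q' (Sum.inr (j, k)))
      (q := fun k => Qn n (Sum.inr (j, k))) (Ω := Om) (fun p => hQd _)
    rw [card_K, sum_Qn_inr_snd] at this
    exact_mod_cast this
  set X := SqPat.X A D with hX0
  set Zz := SqPat.Z A B with hZ0
  have comE : ∀ (φ : C3 →* GG), (∀ m m', φ m * fZ m' = fZ m' * φ m) → ∀ (i : Z3) (e : ZMod 2),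
      E * (pr φ i * pr fX e) * E = (2 : ℂ)⁻¹ • (pr φ i * E) := by
    intro φ hφ i e
    have h1 : E * pr φ i = pr φ i * E := (pr_comm hφ _ _).symm
    calc E * (pr φ i * pr fX e) * E = (E * pr φ i) * pr fX e * E := by simp only [mul_assoc]
      _ = pr φ i * (E * pr fX e * E) := by rw [h1]; simp only [mul_assoc]
      _ = _ := by rw [EFE, mul_smul_comm]
  have nprod : ∀ (φ : C3 →* GG) (i : Z3) (e : ZMod 2), ‖pr φ i * pr fX e‖ ≤ 1 := by
    intro φ i e
    exact (norm_mul_le _ _).trans (mul_le_one₀ ((pr_isPV φ).norm_le _) (norm_nonneg _)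
      ((pr_isPV fX).norm_le _))
  have dX : ∀ j, ‖(X j - (2 : ℂ)⁻¹ • (pr fb j * E)) Om‖ ≤ 42 * ε := by
    intro j
    have := tvM.tri hαm (hDm.mem j) hαm hEm (mul_mem (pr_mem fb j) (pr_mem fX 1))
      (hDm.norm_le j) nα nE (nprod fb j 1) (c' := E)
    rw [comE fb (fun m m' => c_E_Z _ _)] at this
    exact this.trans (by linarith [dD j])
  have dZ : ∀ l, ‖(Zz l - (2 : ℂ)⁻¹ • (pr flb l * E)) Om‖ ≤ 39 * ε := by
    intro l
    have := tvM.tri hαm (hBm.mem l) hαm hEm (mul_mem (pr_mem flb l) (pr_mem fX 0))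
      (hBm.norm_le l) nα nE (nprod flb l 0) (c' := E)
    rw [comE flb (fun m m' => c_E_Z _ _)] at this
    exact this.trans (by linarith [dB l])
  -- self adjointness and membership
  have hXs : ∀ j, star (X j) = X j := by
    intro j
    rw [hX0]; unfold SqPat.X
    rw [star_mul, star_mul, hαs, hDm.sa, mul_assoc]
  have hZs : ∀ l, star (Zz l) = Zz l := by
    intro l
    rw [hZ0]; unfold SqPat.Z
    rw [star_mul, star_mul, hαs, hBm.sa, mul_assoc]
  have hXm : ∀ j, X j ∈ MM := fun j => mul_mem (mul_mem hαm (hDm.mem j)) hαm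
  have hZm : ∀ l, Zz l ∈ MM := fun l => mul_mem (mul_mem hαm (hBm.mem l)) hαm
  -- range projections
  choose q hqs hqi hqX hqT hqc using fun j => exists_range_proj (X j) (hXs j)
  have hqm : ∀ j, q j ∈ MM := by
    intro j
    rw [charFam.mem_charVN]
    intro k
    apply hqc
    · exact (charFam.mem_charVN.1 (hXm j)) k
    · rw [charFam.R_star]; exact (charFam.mem_charVN.1 (hXm j)) k⁻¹
  have hαq : ∀ j, α * q j = q j := by
    intro j
    have := hqT j (α - 1) (by rw [sub_mul, one_mul, hS.al_X, sub_self])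
    rw [sub_mul, one_mul] at this
    exact sub_eq_zero.1 this
  have hqo : ∀ j j', j ≠ j' → q j * q j' = 0 := by
    intro j j' h
    apply hqT
    have h1 : X j' * q j = 0 := hqT j _ (hS.X_mul_X_ne (Ne.symm h))
    have := congrArg star h1
    rwa [star_mul, hqs, hXs, star_zero] at this
  set S := ∑ j, X j with hSdef
  have hSq : ∀ j, S * q j = X j := by
    intro j
    have h1 : (X j - S) * X j = 0 := by
      rw [sub_mul, hSdef, Finset.sum_mul, Finset.sum_eq_single j, sub_self]
      · intro j' _ hj; exact hS.X_mul_X_ne hj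
      · simp
    have := hqT j _ h1
    rw [sub_mul, hqX] at this
    exact (sub_eq_zero.1 this).symm
  have hSm : S ∈ MM := sum_mem fun j _ => hXm j
  -- distance of S
  have dS : ‖(S - (2 : ℂ)⁻¹ • E) Om‖ ≤ 126 * ε := by
    have := norm_sum_sub_le (p := X) (q := fun j => (2 : ℂ)⁻¹ • (pr fb j * E)) (Ω := Om) dX
    rw [card_Z, ← Finset.smul_sum, ← Finset.sum_mul, pr_sum, one_mul] at this
    refine this.trans ?_
    push_cast; linarith
  have dS2 : ‖(α - (2 : ℂ) • S) Om‖ ≤ 270 * ε := by
    have e : α - (2 : ℂ) • S = (α - E) - (2 : ℂ) • (S - (2 : ℂ)⁻¹ • E) := by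
      rw [smul_sub, smul_smul]; norm_num
    rw [e, sub_apply, smul_apply]
    refine (norm_sub_le _ _).trans ?_
    rw [norm_smul]
    have : ‖(2 : ℂ)‖ = 2 := by simp
    rw [this]; linarith
  have dq : ∀ j, ‖(q j - pr fb j * E) Om‖ ≤ 354 * ε := by
    intro j
    have e : q j - pr fb j * E = (α - (2 : ℂ) • S) * q j +
        (2 : ℂ) • (X j - (2 : ℂ)⁻¹ • (pr fb j * E)) := by
      rw [sub_mul, hαq, smul_mul_assoc, hSq, smul_sub, smul_smul]; norm_num
    rw [e, add_apply, smul_apply]
    refine (norm_add_le _ _).trans ?_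
    rw [norm_smul]
    have : ‖(2 : ℂ)‖ = 2 := by simp
    rw [this]
    have h2 : ‖((α - (2 : ℂ) • S) * q j) Om‖ ≤ 270 * ε :=
      (tvM.le_right1 (sub_mem hαm (smul_mem_vn _ hSm)) (hqm j)
        (norm_proj_le (hqs j) (hqi j))).trans dS2
    linarith [dX j]
  have hO := IsPV.option hqm hqs hqi hqo hαm hαs hαi hαq
  set O := (fun o : Option Z3 => o.elim (α - ∑ i, q i) q) with hO0
  have dO : ∀ o : Option Z3, ‖(O o - (o.elim 0 fun j => pr fb j * E)) Om‖ ≤ 1080 * ε := by
    rintro (_ | j)
    · simp only [hO0, Option.elim_none, sub_zero]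
      have e : α - ∑ i, q i = (α - E) - (∑ i, q i - ∑ i, pr fb i * E) := by
        rw [← Finset.sum_mul, pr_sum, one_mul]; abel
      rw [e, sub_apply]
      refine (norm_sub_le _ _).trans ?_
      have := norm_sum_sub_le (p := q) (q := fun j => pr fb j * E) (Ω := Om) dq
      rw [card_Z, show ((3 : ℕ) : ℝ) = 3 by norm_num] at this
      linarith
    · exact (dq j).trans (by linarith)
  -- commutation of q with T
  have hqK : ∀ j k, q j * SqPat.alK A k = SqPat.alK A k * q j := by
    intro j k
    symm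
    apply hqc
    · exact hS.comm_alK_X k j
    · rw [hK.sa]; exact hS.comm_alK_X k j
  have hqZ : ∀ j l, q j * Zz l = Zz l * q j := by
    intro j l
    symm
    apply hqc
    · exact (hS.comm_X_Z j l).symm
    · rw [hZs]; exact (hS.comm_X_Z j l).symm
  have hcK : ∀ k, α * SqPat.alK A k = SqPat.alK A k * α := by
    intro k; rw [hS.al_alK, hS.alK_al]
  have hcZ : ∀ l, α * Zz l = Zz l * α := by
    intro l; rw [hS.al_Z, hS.Z_al]
  let T : Set (HH →L[ℂ] HH) := Set.range (SqPat.alK A) ∪ Set.range Zz
  have hTK : ∀ x : HH →L[ℂ] HH, (∀ t ∈ T, x * t = t * x) → ∀ k, SqPat.alK A k * x = x * SqPat.alK A k :=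
    fun x h k => (h _ (Or.inl ⟨k, rfl⟩)).symm
  have hTZ : ∀ x : HH →L[ℂ] HH, (∀ t ∈ T, x * t = t * x) → ∀ l, Zz l * x = x * Zz l :=
    fun x h k => (h _ (Or.inr ⟨k, rfl⟩)).symm
  refine core n hαm hαs hαi T ?_ (dα.trans (by norm_num at hε ⊢; linarith)) ?_ ?_ ?_
  · rintro t (⟨k, rfl⟩ | ⟨l, rfl⟩)
    · exact hcK k
    · exact hcZ l
  · -- cs
    rintro ⟨b, c⟩
    obtain ⟨m, hm⟩ := el_eq_io b c
    rw [hm]
    cases b
    · -- false letter
      refine ⟨IsPV.comb (fun l => (2 : ℂ) • Zz l) (fun l => ee (l * m)), ?_, ?_, ?_⟩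
      · exact sum_mem fun l _ => smul_mem_vn _ (smul_mem_vn _ (hZm l))
      · intro x hx
        symm
        apply IsPV.comb_comm
        intro l
        rw [smul_mul_assoc, mul_smul_comm, hTZ x hx]
      · have e1 : L (gE (1, io false (Multiplicative.ofAdd m))) * E =
            IsPV.comb (fun l => pr flb l * E) (fun l => ee (l * m)) := by
          change uu flb m * E = _
          rw [uu_eq, Finset.sum_mul]
          unfold IsPV.comb
          simp only [smul_mul_assoc]
        rw [e1]
        have h2 : ∀ l, ‖(pr flb l * E - (2 : ℂ) • Zz l) Om‖ ≤ 78 * ε := by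
          intro l
          have e : pr flb l * E - (2 : ℂ) • Zz l = -((2 : ℂ) • (Zz l - (2 : ℂ)⁻¹ • (pr flb l * E))) := by
            rw [smul_sub, smul_smul]; norm_num
          rw [e, neg_apply, norm_neg, smul_apply, norm_smul]
          have : ‖(2 : ℂ)‖ = 2 := by simp
          rw [this]; linarith [dZ l]
        refine (IsPV.comb_sub (fun l => ee_norm _) h2).trans ?_
        rw [card_Z]
        norm_num at hε ⊢; linarith
    · -- true letter
      refine ⟨IsPV.comb (SqPat.alK A) (fun k => ee (k.1 * m)), hK.comb_mem _, ?_, ?_⟩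
      · intro x hx
        symm
        apply IsPV.comb_comm
        exact hTK x hx
      · have e1 : L (gE (1, io true (Multiplicative.ofAdd m))) * E =
            IsPV.comb (fun k : KK => rk (x0 n) k * E) (fun k => ee (k.1 * m)) := by
          change uu fla m * E = _
          rw [uu_eq]
          unfold IsPV.comb rk
          rw [Fintype.sum_prod_type]
          simp only
          rw [Finset.sum_mul]
          refine Finset.sum_congr rfl fun i _ => ?_
          rw [← Finset.smul_sum, ← Finset.sum_mul, ← Finset.mul_sum, pr_sum, mul_one,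
            smul_mul_assoc]
        rw [e1]
        have h2 : ∀ k, ‖(rk (x0 n) k * E - SqPat.alK A k) Om‖ ≤ 3 * ε := by
          intro k
          have e : rk (x0 n) k * E - SqPat.alK A k = -(SqPat.alK A k - rk (x0 n) k * E) := by abel
          rw [e, neg_apply, norm_neg]; exact dK k
        refine (IsPV.comb_sub (fun l => ee_norm _) h2).trans ?_
        rw [card_K]
        norm_num at hε ⊢; linarith
  · -- cy
    refine ⟨IsPV.comb (SqPat.alK A) (fun k => ee (k.2 * 1)), hK.comb_mem _, ?_, ?_⟩
    · intro x hx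
      symm
      apply IsPV.comb_comm
      exact hTK x hx
    · have e1 : L (gV (x0 n)) * E =
          IsPV.comb (fun k : KK => rk (x0 n) k * E) (fun k => ee (k.2 * 1)) := by
        have e2 : L (gV (x0 n)) = uu (fy (x0 n)) 1 := by
          unfold uu
          rw [fy_apply, one_smul]; rfl
        rw [e2, uu_eq]
        unfold IsPV.comb rk
        rw [Fintype.sum_prod_type_right]
        simp only
        rw [Finset.sum_mul]
        refine Finset.sum_congr rfl fun i _ => ?_
        rw [← Finset.smul_sum, ← Finset.sum_mul, ← Finset.sum_mul, pr_sum, one_mul,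
          smul_mul_assoc]
      rw [e1]
      have h2 : ∀ k, ‖(rk (x0 n) k * E - SqPat.alK A k) Om‖ ≤ 3 * ε := by
        intro k
        have e : rk (x0 n) k * E - SqPat.alK A k = -(SqPat.alK A k - rk (x0 n) k * E) := by abel
        rw [e, neg_apply, norm_neg]; exact dK k
      refine (IsPV.comb_sub (fun l => ee_norm _) h2).trans ?_
      rw [card_K]
      norm_num at hε ⊢; linarith
  · -- us
    rintro ⟨b, c⟩
    obtain ⟨m, hm⟩ := el_eq_io b c
    rw [hm]
    cases b
    · have hχ : ∀ o : Option Z3, ‖(o.elim (1 : ℂ) fun j => ee (j * m))‖ = 1 := by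
        rintro (_ | j)
        · simp
        · exact ee_norm _
      refine ⟨IsPV.comb O (fun o => o.elim 1 fun j => ee (j * m)), hO.comb_mem _,
        hO.star_comb_mul hχ, hO.al_comb _, ?_, ?_⟩
      · intro t ht
        apply IsPV.comb_comm
        rintro (_ | j)
        · rcases ht with ⟨k, rfl⟩ | ⟨l, rfl⟩
          · simp only [hO0, Option.elim_none]
            rw [sub_mul, mul_sub, hcK, Finset.sum_mul, Finset.mul_sum]
            simp only [hqK]
          · simp only [hO0, Option.elim_none]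
            rw [sub_mul, mul_sub, hcZ, Finset.sum_mul, Finset.mul_sum]
            simp only [hqZ]
        · rcases ht with ⟨k, rfl⟩ | ⟨l, rfl⟩
          · exact hqK j k
          · exact hqZ j l
      · have e1 : L (hE (io false (Multiplicative.ofAdd m), 1)) * E =
            IsPV.comb (fun o : Option Z3 => o.elim 0 fun j => pr fb j * E)
              (fun o => o.elim 1 fun j => ee (j * m)) := by
          change uu fb m * E = _
          rw [uu_eq, Finset.sum_mul]
          unfold IsPV.comb
          rw [Fintype.sum_option]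
          simp only [smul_mul_assoc, Option.elim_none, Option.elim_some, smul_zero, zero_add]
        rw [e1]
        have h2 : ∀ o : Option Z3, ‖((o.elim 0 fun j => pr fb j * E) - O o) Om‖ ≤ 1080 * ε := by
          intro o
          have := dO o
          rw [sub_apply, norm_sub_rev, ← sub_apply]
          exact this
        refine (IsPV.comb_sub hχ h2).trans ?_
        have : Fintype.card (Option Z3) = 4 := rfl
        rw [this]
        norm_num at hε ⊢; linarith
    · have hχ : ∀ i : Z3, ‖ee (i * m)‖ = 1 := fun i => ee_norm _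
      refine ⟨IsPV.comb (SqPat.alI A) (fun i => ee (i * m)), hI.comb_mem _,
        hI.star_comb_mul hχ, hI.al_comb _, ?_, ?_⟩
      · intro t ht
        apply IsPV.comb_comm
        intro i
        rcases ht with ⟨k, rfl⟩ | ⟨l, rfl⟩
        · exact hS.comm_alI_alK i k
        · exact hS.comm_alI_Z i l
      · have e1 : L (hE (io true (Multiplicative.ofAdd m), 1)) * E =
            IsPV.comb (fun i => pr fa i * E) (fun i => ee (i * m)) := by
          change uu fa m * E = _
          rw [uu_eq, Finset.sum_mul]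
          unfold IsPV.comb
          simp only [smul_mul_assoc]
        rw [e1]
        have h2 : ∀ i, ‖(pr fa i * E - SqPat.alI A i) Om‖ ≤ 6 * ε := by
          intro i
          have := dI i
          rw [sub_apply, norm_sub_rev, ← sub_apply]
          exact this
        refine (IsPV.comb_sub hχ h2).trans ?_
        rw [card_Z]
        norm_num at hε ⊢; linarith

end Pool.MP_81d1ca_an.H37
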