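import Mathlib
import Pool.Agent.Lib.MP_81d1ca_an.H37Gns

/-! Interface for the pattern lifting theorem (helper37 route).  `TraceVec` is in H37Gns. -/

set_option autoImplicit false
open scoped InnerProductSpace
open Filter Topology

namespace Pool.MP_81d1ca_an.H37

/-- a finite projection valued partition of unity in `M` -/
structure IsPVM {H : Type} [NormedAddCommGroup H] [InnerProductSpace ℂ H] [CompleteSpace H]
    (M : VonNeumannAlgebra H) {A : Type} [Fintype A] (p : A → (H →L[ℂ] H)) : Prop where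
  mem : ∀ a, p a ∈ M
  sa : ∀ a, star (p a) = p a
  idem : ∀ a, p a * p a = p a
  orth : ∀ a b, a ≠ b → p a * p b = 0
  sum : ∑ a, p a = 1

/-- the frozen statement S05225, verbatim -/
def Statement : Prop :=
  ∀ (H : Type) [NormedAddCommGroup H] [InnerProductSpace ℂ H] [CompleteSpace H]
    (N : VonNeumannAlgebra H) (τ : (H →L[ℂ] H) → ℂ),
    (∃ ξ : ℕ → H, Summable (fun i => ‖ξ i‖ ^ 2) ∧
        ∀ x ∈ N, HasSum (fun i => ⟪ξ i, x (ξ i)⟫_ℂ) (τ x)) →
    τ 1 = 1 →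
    (∀ x ∈ N, ∀ y ∈ N, τ (x * y) = τ (y * x)) →
    (∀ x ∈ N, τ (star x * x) = 0 → x = 0) →
    ∀ (U : Ultrafilter ℕ), (U : Filter ℕ) ≤ Filter.cofinite →
    ∀ (u v : ℕ → unitary (H →L[ℂ] H)),
      (∀ n, (u n : H →L[ℂ] H) ∈ N ∧ (v n : H →L[ℂ] H) ∈ N) →
      (∀ k l : ℤ, Filter.Tendsto
          (fun n => τ (((u n ^ k : unitary (H →L[ℂ] H)) : H →L[ℂ] H) *
                        ((v n ^ l : unitary (H →L[ℂ] H)) : H →L[ℂ] H)) -
                    τ ((u n ^ k : unitary (H →L[ℂ] H)) : H →L[ℂ] H) *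
                    τ ((v n ^ l : unitary (H →L[ℂ] H)) : H →L[ℂ] H))
          (U : Filter ℕ) (nhds 0)) →
      ∃ u' v' : ℕ → unitary (H →L[ℂ] H),
        (∀ n, (u' n : H →L[ℂ] H) ∈ N ∧ (v' n : H →L[ℂ] H) ∈ N) ∧
        Filter.Tendsto
          (fun n => τ (star ((u' n : H →L[ℂ] H) - (u n : H →L[ℂ] H)) *
                        ((u' n : H →L[ℂ] H) - (u n : H →L[ℂ] H))))
          (U : Filter ℕ) (nhds 0) ∧
        Filter.Tendsto
          (fun n => τ (star ((v' n : H →L[ℂ] H) - (v n : H →L[ℂ] H)) *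
                        ((v' n : H →L[ℂ] H) - (v n : H →L[ℂ] H))))
          (U : Filter ℕ) (nhds 0) ∧
        ∀ n (k l : ℤ),
          τ (((u' n ^ k : unitary (H →L[ℂ] H)) : H →L[ℂ] H) *
             ((v' n ^ l : unitary (H →L[ℂ] H)) : H →L[ℂ] H)) =
          τ ((u' n ^ k : unitary (H →L[ℂ] H)) : H →L[ℂ] H) *
          τ ((v' n ^ l : unitary (H →L[ℂ] H)) : H →L[ℂ] H)

end Pool.MP_81d1ca_an.H37
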