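import Mathlib
import Pool.Agent.Lib.MP_81d1ca_an.H37Gns

set_option autoImplicit false
set_option linter.unusedSectionVars false
set_option linter.deprecated false
open scoped InnerProductSpace
open Filter Topology

namespace Pool.MP_81d1ca_an.PL
open Pool.MP_81d1ca_an.H37

section A
variable {K : Type} [NormedAddCommGroup K] [InnerProductSpace ℂ K] [CompleteSpace K]

/-- adjoint on inner products -/
lemma inner_star_left (x : K →L[ℂ] K) (a b : K) : ⟪(star x) a, b⟫_ℂ = ⟪a, x b⟫_ℂ := by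
  rw [ContinuousLinearMap.star_eq_adjoint, ContinuousLinearMap.adjoint_inner_left]

lemma inner_star_right (x : K →L[ℂ] K) (a b : K) : ⟪a, (star x) b⟫_ℂ = ⟪x a, b⟫_ℂ := by
  rw [ContinuousLinearMap.star_eq_adjoint, ContinuousLinearMap.adjoint_inner_right]

/-- eigenspace of `u` for `c`. -/
noncomputable def eigS (u : K →L[ℂ] K) (c : ℂ) : Submodule ℂ K :=
  LinearMap.eqLocus (c⁻¹ • u : K →L[ℂ] K).toLinearMap (1 : K →L[ℂ] K).toLinearMap

instance (u : K →L[ℂ] K) (c : ℂ) : CompleteSpace (eigS u c) := by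
  unfold eigS; infer_instance

/-- eigenprojection -/
noncomputable def eig (u : K →L[ℂ] K) (c : ℂ) : K →L[ℂ] K := (eigS u c).starProjection

lemma mem_eigS {u : K →L[ℂ] K} {c : ℂ} (hc : c ≠ 0) {x : K} : x ∈ eigS u c ↔ u x = c • x := by
  unfold eigS
  rw [LinearMap.mem_eqLocus]
  simp only [ContinuousLinearMap.coe_coe, ContinuousLinearMap.smul_apply,
    ContinuousLinearMap.one_apply]
  constructor
  · intro h
    calc u x = c • (c⁻¹ • u x) := by rw [smul_smul, mul_inv_cancel₀ hc, one_smul]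
      _ = c • x := by rw [h]
  · intro h
    rw [h, smul_smul, inv_mul_cancel₀ hc, one_smul]

lemma eig_mem {u : K →L[ℂ] K} {c : ℂ} (hc : c ≠ 0) (x : K) : u (eig u c x) = c • eig u c x :=
  (mem_eigS hc).1 (Submodule.starProjection_apply_mem _ _)

lemma eig_self {u : K →L[ℂ] K} {c : ℂ} (hc : c ≠ 0) {x : K} (h : u x = c • x) : eig u c x = x :=
  Submodule.starProjection_eq_self_iff.2 ((mem_eigS hc).2 h)

lemma eig_idem (u : K →L[ℂ] K) (c : ℂ) : eig u c * eig u c = eig u c :=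
  Submodule.isIdempotentElem_starProjection _

lemma eig_star (u : K →L[ℂ] K) (c : ℂ) : star (eig u c) = eig u c := by
  have := (isSelfAdjoint_starProjection (eigS u c))
  exact this

lemma mul_eig {u : K →L[ℂ] K} {c : ℂ} (hc : c ≠ 0) : u * eig u c = c • eig u c := by
  ext1 x
  exact eig_mem hc x

/-- eigenvectors for different eigenvalues of a unitary are orthogonal -/
lemma inner_eig_of_ne {u : K →L[ℂ] K} (hu : star u * u = 1) {c d : ℂ} (hc : ‖c‖ = 1)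
    (hcd : c ≠ d) {x y : K} (hx : u x = c • x) (hy : u y = d • y) : ⟪x, y⟫_ℂ = 0 := by
  have h1 : ⟪u x, u y⟫_ℂ = ⟪x, y⟫_ℂ := by
    rw [← inner_star_left, ← ContinuousLinearMap.mul_apply, hu, ContinuousLinearMap.one_apply]
  rw [hx, hy, inner_smul_left, inner_smul_right] at h1
  by_contra h0
  have h2 : (starRingEnd ℂ) c * d = 1 := by
    have : ((starRingEnd ℂ) c * d) * ⟪x, y⟫_ℂ = 1 * ⟪x, y⟫_ℂ := by rw [one_mul, mul_assoc]; exact h1
    exact mul_right_cancel₀ h0 this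
  apply hcd
  have h3 : c * (starRingEnd ℂ) c = 1 := by
    rw [Complex.mul_conj, Complex.normSq_eq_norm_sq, hc]; norm_num
  calc c = c * ((starRingEnd ℂ) c * d) := by rw [h2, mul_one]
    _ = d := by rw [← mul_assoc, h3, one_mul]

lemma eig_mul_eig_of_ne {u : K →L[ℂ] K} (hu : star u * u = 1) {c d : ℂ} (hc : ‖c‖ = 1)
    (hd : ‖d‖ = 1) (hcd : c ≠ d) : eig u c * eig u d = 0 := by
  have hc0 : c ≠ 0 := by intro h; rw [h] at hc; simp at hc
  have hd0 : d ≠ 0 := by intro h; rw [h] at hd; simp at hd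
  ext1 x
  apply ext_inner_left ℂ
  intro y
  rw [ContinuousLinearMap.mul_apply, ContinuousLinearMap.zero_apply, inner_zero_right]
  rw [← eig_star u c, inner_star_right]
  exact inner_eig_of_ne hu hc hcd (eig_mem hc0 y) (eig_mem hd0 x)

lemma eig_apply_of_ne {u : K →L[ℂ] K} (hu : star u * u = 1) {c d : ℂ} (hc : ‖c‖ = 1)
    (hd : ‖d‖ = 1) (hcd : c ≠ d) {x : K} (hx : u x = d • x) : eig u c x = 0 := by
  have hd0 : d ≠ 0 := by intro h; rw [h] at hd; simp at hd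
  have h1 := congrArg (fun T : K →L[ℂ] K => T x) (eig_mul_eig_of_ne hu hc hd hcd)
  simpa [eig_self hd0 hx] using h1

lemma eig_mem_vn {N : VonNeumannAlgebra K} {u : K →L[ℂ] K} (hu : u ∈ N) {c : ℂ} (hc : c ≠ 0) :
    eig u c ∈ N := by
  rw [VonNeumannAlgebra.IsStarProjection.mem_iff]
  · intro y hy
    have hy2 : u * y = y * u := (VonNeumannAlgebra.mem_commutant_iff.1 hy) u hu
    rw [Module.End.mem_invtSubmodule]
    intro x hx
    rw [Submodule.mem_comap]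
    obtain ⟨z, rfl⟩ := hx
    refine ⟨y (eig u c z), ?_⟩
    apply eig_self hc
    have h3 := congrArg (fun T : K →L[ℂ] K => T (eig u c z)) hy2
    simp only [ContinuousLinearMap.mul_apply] at h3
    rw [h3, eig_mem hc, map_smul]
  · exact ⟨eig_idem u c, eig_star u c⟩

/-- mean ergodic averages -/
noncomputable def avg (u : K →L[ℂ] K) (c : ℂ) (n : ℕ) (x : K) : K :=
  (n : ℂ)⁻¹ • ∑ k ∈ Finset.range n, (c⁻¹) ^ k • (u ^ k) x

lemma tendsto_avg {u : K →L[ℂ] K} (hu : ‖u‖ ≤ 1) {c : ℂ} (hc : ‖c‖ = 1) (x : K) :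
    Tendsto (fun n => avg u c n x) atTop (𝓝 (eig u c x)) := by
  have h1 : ‖c⁻¹ • u‖ ≤ 1 := by
    rw [norm_smul, norm_inv, hc, inv_one, one_mul]; exact hu
  have h2 := ContinuousLinearMap.tendsto_birkhoffAverage_orthogonalProjection (c⁻¹ • u) h1 x
  have h3 : ((((c⁻¹ • u : K →L[ℂ] K).toLinearMap.eqLocus
      (1 : K →L[ℂ] K).toLinearMap).orthogonalProjectionOnto x : _) : K) = eig u c x := rfl
  rw [h3] at h2
  refine h2.congr fun n => ?_
  unfold birkhoffAverage birkhoffSum avg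
  congr 1
  apply Finset.sum_congr rfl
  intro k _
  have : ∀ k : ℕ, (⇑(c⁻¹ • u))^[k] x = (c⁻¹) ^ k • (u ^ k) x := by
    intro k
    induction k with
    | zero => simp
    | succ k ih =>
      rw [Function.iterate_succ_apply', ih]
      rw [ContinuousLinearMap.smul_apply, map_smul, smul_smul, pow_succ' u,
        ContinuousLinearMap.mul_apply, pow_succ']
  simpa using this k

lemma norm_unitary_apply (u : unitary (K →L[ℂ] K)) (x : K) : ‖(u : K →L[ℂ] K) x‖ = ‖x‖ := by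
  have h1 : ⟪(u : K →L[ℂ] K) x, (u : K →L[ℂ] K) x⟫_ℂ = ⟪x, x⟫_ℂ := by
    rw [← inner_star_left, ← ContinuousLinearMap.mul_apply, Unitary.coe_star_mul_self,
      ContinuousLinearMap.one_apply]
  rw [inner_self_eq_norm_sq_to_K, inner_self_eq_norm_sq_to_K] at h1
  have h2 : ‖(u : K →L[ℂ] K) x‖ ^ 2 = ‖x‖ ^ 2 := by exact_mod_cast h1
  exact (sq_eq_sq₀ (norm_nonneg _) (norm_nonneg _)).1 h2

lemma norm_unitary_le (u : unitary (K →L[ℂ] K)) : ‖(u : K →L[ℂ] K)‖ ≤ 1 :=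
  ContinuousLinearMap.opNorm_le_bound _ zero_le_one fun x => by
    rw [norm_unitary_apply, one_mul]

/-- independence of powers passes to eigenprojections -/
lemma indep_eig {u v : unitary (K →L[ℂ] K)} {ξ : K}
    (h : ∀ k l : ℤ, ⟪ξ, (((u ^ k : unitary (K →L[ℂ] K)) : K →L[ℂ] K) *
      ((v ^ l : unitary (K →L[ℂ] K)) : K →L[ℂ] K)) ξ⟫_ℂ =
      ⟪ξ, ((u ^ k : unitary (K →L[ℂ] K)) : K →L[ℂ] K) ξ⟫_ℂ *
      ⟪ξ, ((v ^ l : unitary (K →L[ℂ] K)) : K →L[ℂ] K) ξ⟫_ℂ)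
    {c d : ℂ} (hc : ‖c‖ = 1) (hd : ‖d‖ = 1) :
    ⟪eig (u : K →L[ℂ] K) c ξ, eig (v : K →L[ℂ] K) d ξ⟫_ℂ =
      ⟪eig (u : K →L[ℂ] K) c ξ, ξ⟫_ℂ * ⟪ξ, eig (v : K →L[ℂ] K) d ξ⟫_ℂ := by
  have hnu : ‖(u : K →L[ℂ] K)‖ ≤ 1 := by
    exact norm_unitary_le u
  have hnv : ‖(v : K →L[ℂ] K)‖ ≤ 1 := by
    exact norm_unitary_le v
  have t1 := tendsto_avg hnu hc ξ
  have t2 := tendsto_avg hnv hd ξ
  have e1 : ∀ k l : ℕ, ⟪((u : K →L[ℂ] K) ^ k) ξ, ((v : K →L[ℂ] K) ^ l) ξ⟫_ℂ =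
      ⟪((u : K →L[ℂ] K) ^ k) ξ, ξ⟫_ℂ * ⟪ξ, ((v : K →L[ℂ] K) ^ l) ξ⟫_ℂ := by
    intro k l
    have h1 := h (-(k : ℤ)) l
    have h2 : ((u ^ (-(k : ℤ)) : unitary (K →L[ℂ] K)) : K →L[ℂ] K) =
        star ((u : K →L[ℂ] K) ^ k) := by
      rw [zpow_neg, zpow_natCast]
      simp [← Unitary.star_eq_inv]
    have h3 : ((v ^ (l : ℤ) : unitary (K →L[ℂ] K)) : K →L[ℂ] K) = (v : K →L[ℂ] K) ^ l := by
      rw [zpow_natCast]; simp
    rw [h2, h3, ContinuousLinearMap.mul_apply, inner_star_right, inner_star_right] at h1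
    exact h1
  have e2 : ∀ n, ⟪avg (u : K →L[ℂ] K) c n ξ, avg (v : K →L[ℂ] K) d n ξ⟫_ℂ =
      ⟪avg (u : K →L[ℂ] K) c n ξ, ξ⟫_ℂ * ⟪ξ, avg (v : K →L[ℂ] K) d n ξ⟫_ℂ := by
    intro n
    unfold avg
    simp only [inner_smul_left, inner_smul_right, sum_inner, inner_sum]
    simp only [Finset.mul_sum, Finset.sum_mul]
    apply Finset.sum_congr rfl
    intro l _
    apply Finset.sum_congr rfl
    intro k _
    rw [e1]
    ring
  have t3 : Tendsto (fun n => ⟪avg (u : K →L[ℂ] K) c n ξ, avg (v : K →L[ℂ] K) d n ξ⟫_ℂ) atTop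
      (𝓝 ⟪eig (u : K →L[ℂ] K) c ξ, eig (v : K →L[ℂ] K) d ξ⟫_ℂ) := t1.inner t2
  have t4 : Tendsto (fun n => ⟪avg (u : K →L[ℂ] K) c n ξ, ξ⟫_ℂ *
      ⟪ξ, avg (v : K →L[ℂ] K) d n ξ⟫_ℂ) atTop
      (𝓝 (⟪eig (u : K →L[ℂ] K) c ξ, ξ⟫_ℂ * ⟪ξ, eig (v : K →L[ℂ] K) d ξ⟫_ℂ)) :=
    (t1.inner tendsto_const_nhds).mul (tendsto_const_nhds.inner t2)
  simp_rw [e2] at t3
  exact tendsto_nhds_unique t3 t4

end A
end Pool.MP_81d1ca_an.PL
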