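import Mathlib
import Pool.Agent.Lib.MP_81d1ca_an.PLa
import Pool.Agent.Lib.MP_81d1ca_an.H37Iface0

set_option autoImplicit false
set_option linter.unusedSectionVars false
set_option linter.deprecated false
open scoped InnerProductSpace
open Filter Topology

namespace Pool.MP_81d1ca_an.PL
open Pool.MP_81d1ca_an.H37

section TV
variable {K : Type} [NormedAddCommGroup K] [InnerProductSpace ℂ K] [CompleteSpace K]
variable {N : VonNeumannAlgebra K} {ξ : K}

lemma inner_self_of_star_mul (x : K →L[ℂ] K) (ξ : K) :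
    ⟪ξ, (star x * x) ξ⟫_ℂ = ((‖x ξ‖ ^ 2 : ℝ) : ℂ) := by
  rw [ContinuousLinearMap.mul_apply, inner_star_right, inner_self_eq_norm_sq_to_K]
  push_cast; rfl

lemma TV_norm_star (h : TraceVec N ξ) {x : K →L[ℂ] K} (hx : x ∈ N) :
    ‖(star x) ξ‖ = ‖x ξ‖ := by
  have h1 := h.tracial (star x) (star_mem hx) x hx
  have h2 := inner_self_of_star_mul x ξ
  have h3 := inner_self_of_star_mul (star x) ξ
  rw [star_star] at h3
  rw [h2, h3] at h1
  have h4 : ‖x ξ‖ ^ 2 = ‖(star x) ξ‖ ^ 2 := by exact_mod_cast h1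
  exact ((sq_eq_sq₀ (norm_nonneg _) (norm_nonneg _)).1 h4).symm

lemma norm_proj_apply_le {p : K →L[ℂ] K} (hs : star p = p) (hi : p * p = p) (x : K) :
    ‖p x‖ ≤ ‖x‖ := by
  have h1 : ‖p x‖ ^ 2 = (⟪x, p x⟫_ℂ).re := by
    have h2 := inner_self_of_star_mul p x
    rw [hs, hi] at h2
    rw [h2]; exact (Complex.ofReal_re _).symm
  have h3 : (⟪x, p x⟫_ℂ).re ≤ ‖x‖ * ‖p x‖ :=
    (Complex.re_le_norm _).trans (norm_inner_le_norm _ _)
  by_contra hcon
  rw [not_le] at hcon
  nlinarith [norm_nonneg x, norm_nonneg (p x)]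

lemma TV_norm_mul_proj (h : TraceVec N ξ) {x p : K →L[ℂ] K} (hx : x ∈ N) (hp : p ∈ N)
    (hs : star p = p) (hi : p * p = p) : ‖(x * p) ξ‖ ≤ ‖x ξ‖ := by
  rw [← TV_norm_star h (mul_mem hx hp), star_mul, hs, ContinuousLinearMap.mul_apply]
  refine (norm_proj_apply_le hs hi _).trans ?_
  rw [TV_norm_star h hx]

lemma TV_proj (p : K →L[ℂ] K) (hs : star p = p) (hi : p * p = p) (x : K) :
    ⟪x, p x⟫_ℂ = ((‖p x‖ ^ 2 : ℝ) : ℂ) := by
  have h2 := inner_self_of_star_mul p x
  rwa [hs, hi] at h2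

lemma TV_two_proj (h : TraceVec N ξ) {p q : K →L[ℂ] K} (hp : p ∈ N) (hq : q ∈ N)
    (hps : star p = p) (hpi : p * p = p) (hqs : star q = q) (hqi : q * q = q) :
    ⟪ξ, (p * q) ξ⟫_ℂ = ((‖(p * q) ξ‖ ^ 2 : ℝ) : ℂ) := by
  have h1 := inner_self_of_star_mul (p * q) ξ
  have h2 : star (p * q) * (p * q) = q * (p * q) := by
    rw [star_mul, hps, hqs, mul_assoc, ← mul_assoc p p q, hpi]
  rw [h2, h.tracial q hq (p * q) (mul_mem hp hq), mul_assoc, hqi] at h1
  exact h1

end TV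

section PVM
variable {K : Type} [NormedAddCommGroup K] [InnerProductSpace ℂ K] [CompleteSpace K]
variable {N : VonNeumannAlgebra K} {A : Type} [Fintype A] [DecidableEq A] {p : A → (K →L[ℂ] K)}

lemma IsPVM.mul_eq (h : IsPVM N p) (a b : A) : p a * p b = if a = b then p a else 0 := by
  split_ifs with h1
  · subst h1; exact h.idem a
  · exact h.orth a b h1

/-- diagonal operators of a PVM -/
noncomputable def dg (p : A → (K →L[ℂ] K)) (x : A → ℂ) : K →L[ℂ] K := ∑ a, x a • p a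

lemma dg_mul (h : IsPVM N p) (x y : A → ℂ) : dg p x * dg p y = dg p (x * y) := by
  unfold dg
  rw [Finset.sum_mul_sum]
  apply Finset.sum_congr rfl
  intro a _
  rw [Finset.sum_eq_single a]
  · rw [smul_mul_smul_comm, h.idem, Pi.mul_apply]
  · intro b _ hb
    rw [smul_mul_smul_comm, h.orth a b (Ne.symm hb), smul_zero]
  · simp

lemma dg_one (h : IsPVM N p) : dg p 1 = 1 := by
  unfold dg
  simp [h.sum]

lemma dg_star (h : IsPVM N p) (x : A → ℂ) : star (dg p x) = dg p (star x) := by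
  unfold dg
  rw [star_sum]
  apply Finset.sum_congr rfl
  intro a _
  rw [star_smul, h.sa, Pi.star_apply]

/-- the unitary with spectral measure `p` -/
noncomputable def dgU (h : IsPVM N p) : (A → Circle) →* unitary (K →L[ℂ] K) where
  toFun x := ⟨dg p (fun a => (x a : ℂ)), by
    rw [Unitary.mem_iff, dg_star h, dg_mul h, dg_mul h]
    have e1 : (star (fun a => (x a : ℂ)) * fun a => (x a : ℂ)) = 1 := by
      funext a
      simp only [Pi.mul_apply, Pi.star_apply, Pi.one_apply, Complex.star_def]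
      rw [← Complex.normSq_eq_conj_mul_self]; simp
    rw [e1, mul_comm, e1, dg_one h]
    exact ⟨rfl, rfl⟩⟩
  map_one' := by
    apply Subtype.ext
    show dg p (fun a => ((1 : Circle) : ℂ)) = 1
    rw [← dg_one h]
    rfl
  map_mul' x y := by
    apply Subtype.ext
    show dg p (fun a => ((x a * y a : Circle) : ℂ)) = dg p _ * dg p _
    rw [dg_mul h]
    rfl

lemma dgU_zpow (h : IsPVM N p) (x : A → Circle) (k : ℤ) :
    ((dgU h x ^ k : unitary (K →L[ℂ] K)) : K →L[ℂ] K) = dg p (fun a => ((x a ^ k : Circle) : ℂ)) := by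
  rw [← map_zpow]
  rfl

lemma dgU_coe (h : IsPVM N p) (x : A → Circle) :
    (dgU h x : K →L[ℂ] K) = dg p (fun a => ((x a : Circle) : ℂ)) := rfl

lemma vn_smul_mem {x : K →L[ℂ] K} (hx : x ∈ N) (c : ℂ) : c • x ∈ N :=
  N.toStarSubalgebra.smul_mem hx c

lemma dg_mem (h : IsPVM N p) (x : A → ℂ) : dg p x ∈ N := by
  unfold dg
  exact sum_mem fun a _ => vn_smul_mem (h.mem a) _

end PVM

end Pool.MP_81d1ca_an.PL
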