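import Mathlib
import Pool.Agent.Lib.MP_81d1ca_an.PLb

set_option autoImplicit false
set_option linter.unusedSectionVars false
set_option linter.deprecated false
open scoped InnerProductSpace
open Filter Topology

namespace Pool.MP_81d1ca_an.PL
open Pool.MP_81d1ca_an.H37

/-- `K` is the direct sum of `ℓ²(T)` and `H`. -/
structure Emb (T : Type) [Fintype T] [DecidableEq T] (H K : Type) [NormedAddCommGroup H]
    [InnerProductSpace ℂ H] [CompleteSpace H] [NormedAddCommGroup K]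
    [InnerProductSpace ℂ K] [CompleteSpace K] where
  J : H →L[ℂ] K
  δ : T → K
  JJ : ∀ h h', ⟪J h, J h'⟫_ℂ = ⟪h, h'⟫_ℂ
  δδ : ∀ t t', ⟪δ t, δ t'⟫_ℂ = if t = t' then 1 else 0
  δJ : ∀ t h, ⟪δ t, J h⟫_ℂ = 0
  dec : ∀ x, ∑ t, ⟪δ t, x⟫_ℂ • δ t + J (ContinuousLinearMap.adjoint J x) = x

lemma exists_emb (T : Type) [Fintype T] [DecidableEq T] (H : Type) [NormedAddCommGroup H]
    [InnerProductSpace ℂ H] [CompleteSpace H] :
    Nonempty (Emb T H (WithLp 2 (EuclideanSpace ℂ T × H))) := by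
  let J : H →L[ℂ] WithLp 2 (EuclideanSpace ℂ T × H) :=
    ((WithLp.prodContinuousLinearEquiv 2 ℂ (EuclideanSpace ℂ T) H).symm :
      _ →L[ℂ] WithLp 2 (EuclideanSpace ℂ T × H)) ∘L (ContinuousLinearMap.inr ℂ (EuclideanSpace ℂ T) H)
  let δ : T → WithLp 2 (EuclideanSpace ℂ T × H) :=
    fun t => WithLp.toLp 2 (EuclideanSpace.single t (1 : ℂ), (0 : H))
  have hJ1 : ∀ h, (J h).fst = 0 := fun h => rfl
  have hJ2 : ∀ h, (J h).snd = h := fun h => rfl
  have hadj : ∀ x, ContinuousLinearMap.adjoint J x = x.snd := by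
    intro x
    apply ext_inner_right ℂ
    intro h
    rw [ContinuousLinearMap.adjoint_inner_left, WithLp.prod_inner_apply]
    show ⟪x.fst, (J h).fst⟫_ℂ + ⟪x.snd, (J h).snd⟫_ℂ = _
    rw [hJ1, hJ2, inner_zero_right, zero_add]
  have hδ : ∀ t x, ⟪δ t, x⟫_ℂ = x.fst t := by
    intro t x
    rw [WithLp.prod_inner_apply]
    show ⟪EuclideanSpace.single t (1 : ℂ), x.fst⟫_ℂ + ⟪(0 : H), x.snd⟫_ℂ = _
    rw [inner_zero_left, add_zero, EuclideanSpace.inner_single_left]
    simp
  refine ⟨⟨J, δ, ?_, ?_, ?_, ?_⟩⟩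
  · intro h h'
    rw [WithLp.prod_inner_apply]
    show ⟪(J h).fst, (J h').fst⟫_ℂ + ⟪(J h).snd, (J h').snd⟫_ℂ = _
    rw [hJ1, hJ1, hJ2, hJ2, inner_zero_right, zero_add]
  · intro t t'
    rw [hδ]
    show (EuclideanSpace.single t' (1 : ℂ) : EuclideanSpace ℂ T) t = _
    simp [Pi.single_apply]
  · intro t h
    rw [hδ, hJ1]; rfl
  · intro x
    rw [hadj]
    simp only [hδ]
    have hext : ∀ y z : WithLp 2 (EuclideanSpace ℂ T × H), y.fst = z.fst → y.snd = z.snd → y = z := by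
      intro y z h1 h2
      apply WithLp.ofLp_injective
      exact Prod.ext h1 h2
    apply hext
    · rw [← WithLp.fstL_apply (𝕜 := ℂ), map_add, map_sum]
      simp only [map_smul, WithLp.fstL_apply]
      rw [hJ1, add_zero]
      ext t
      have h3 : (∑ t' : T, x.fst t' • (δ t').fst) t = ∑ t' : T, (x.fst t' • (δ t').fst) t := by
        simp
      rw [h3]
      have h4 : ∀ t' : T, (x.fst t' • (δ t').fst) t = if t = t' then x.fst t' else 0 := by
        intro t'
        show x.fst t' • (EuclideanSpace.single t' (1 : ℂ) : EuclideanSpace ℂ T) t = _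
        simp
      simp_rw [h4]
      simp
    · rw [← WithLp.sndL_apply (𝕜 := ℂ), map_add, map_sum]
      simp only [map_smul, WithLp.sndL_apply]
      rw [hJ2]
      have h4 : ∀ t' : T, (x.fst t' • (δ t').snd) = 0 := by
        intro t'
        show x.fst t' • (0 : H) = _
        simp
      simp_rw [h4]
      simp

section B
variable {T : Type} [Fintype T] [DecidableEq T] {H K : Type} [NormedAddCommGroup H]
    [InnerProductSpace ℂ H] [CompleteSpace H] [NormedAddCommGroup K]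
    [InnerProductSpace ℂ K] [CompleteSpace K] (e : Emb T H K)

namespace Emb

/-- atom projections -/
noncomputable def E (t : T) : K →L[ℂ] K := (innerSL ℂ (e.δ t)).smulRight (e.δ t)

lemma E_apply (t : T) (x : K) : e.E t x = ⟪e.δ t, x⟫_ℂ • e.δ t := by
  simp [E]

/-- embedding of operators on `H` -/
noncomputable def emb (y : H →L[ℂ] H) : K →L[ℂ] K :=
  e.J ∘L y ∘L ContinuousLinearMap.adjoint e.J

/-- the adjoint of `J` -/
noncomputable def Js : K →L[ℂ] H := ContinuousLinearMap.adjoint e.J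

lemma emb_apply (y : H →L[ℂ] H) (x : K) : e.emb y x = e.J (y (e.Js x)) := rfl

@[simp] lemma Js_J (h : H) : e.Js (e.J h) = h := by
  apply ext_inner_right ℂ
  intro h'
  rw [Js, ContinuousLinearMap.adjoint_inner_left, e.JJ]

@[simp] lemma Js_δ (t : T) : e.Js (e.δ t) = 0 := by
  apply ext_inner_right ℂ
  intro h'
  rw [Js, ContinuousLinearMap.adjoint_inner_left, e.δJ, inner_zero_left]

lemma Jδ (t : T) (h : H) : ⟪e.J h, e.δ t⟫_ℂ = 0 := by
  rw [← inner_conj_symm, e.δJ, map_zero]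

lemma dec' (x : K) : ∑ t, ⟪e.δ t, x⟫_ℂ • e.δ t + e.J (e.Js x) = x := e.dec x

lemma inner_Js (x : K) (h : H) : ⟪e.Js x, h⟫_ℂ = ⟪x, e.J h⟫_ℂ := by
  rw [Js, ContinuousLinearMap.adjoint_inner_left]

lemma inner_J (h : H) (x : K) : ⟪e.J h, x⟫_ℂ = ⟪h, e.Js x⟫_ℂ := by
  rw [Js, ContinuousLinearMap.adjoint_inner_right]

lemma ext_on {x y : K →L[ℂ] K} (h1 : ∀ t, x (e.δ t) = y (e.δ t)) (h2 : ∀ h, x (e.J h) = y (e.J h)) :
    x = y := by
  ext1 z
  rw [← e.dec' z, map_add, map_add, map_sum, map_sum, h2]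
  congr 1
  apply Finset.sum_congr rfl
  intro t _
  rw [map_smul, map_smul, h1]

@[simp] lemma E_δ (t t' : T) : e.E t (e.δ t') = if t = t' then e.δ t else 0 := by
  rw [E_apply, e.δδ]; split_ifs <;> simp

@[simp] lemma E_J (t : T) (h : H) : e.E t (e.J h) = 0 := by
  rw [E_apply, e.δJ, zero_smul]

@[simp] lemma emb_δ (y : H →L[ℂ] H) (t : T) : e.emb y (e.δ t) = 0 := by
  rw [emb_apply, Js_δ, map_zero, map_zero]

@[simp] lemma emb_J (y : H →L[ℂ] H) (h : H) : e.emb y (e.J h) = e.J (y h) := by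
  rw [emb_apply, Js_J]

lemma E_star (t : T) : star (e.E t) = e.E t := by
  rw [ContinuousLinearMap.star_eq_adjoint]
  symm
  rw [ContinuousLinearMap.eq_adjoint_iff]
  intro x y
  rw [E_apply, E_apply, inner_smul_left, inner_smul_right, inner_conj_symm]
  ring

lemma emb_star (y : H →L[ℂ] H) : star (e.emb y) = e.emb (star y) := by
  rw [ContinuousLinearMap.star_eq_adjoint]
  symm
  rw [ContinuousLinearMap.eq_adjoint_iff]
  intro x z
  rw [emb_apply, emb_apply, inner_J, inner_star_left, ← inner_Js]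

/-- diagonal blocks -/
noncomputable def blk (θ : T → ℂ) (y : H →L[ℂ] H) : K →L[ℂ] K := ∑ t, θ t • e.E t + e.emb y

@[simp] lemma blk_δ (θ : T → ℂ) (y : H →L[ℂ] H) (t : T) : e.blk θ y (e.δ t) = θ t • e.δ t := by
  unfold blk
  rw [ContinuousLinearMap.add_apply, emb_δ, add_zero, ContinuousLinearMap.sum_apply]
  rw [Finset.sum_eq_single t]
  · simp
  · intro b _ hb
    simp [hb]
  · simp

@[simp] lemma blk_J (θ : T → ℂ) (y : H →L[ℂ] H) (h : H) : e.blk θ y (e.J h) = e.J (y h) := by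
  unfold blk
  rw [ContinuousLinearMap.add_apply, emb_J, ContinuousLinearMap.sum_apply]
  simp

lemma blk_mul (θ θ' : T → ℂ) (y y' : H →L[ℂ] H) :
    e.blk θ y * e.blk θ' y' = e.blk (θ * θ') (y * y') := by
  apply e.ext_on
  · intro t
    simp [ContinuousLinearMap.mul_apply, smul_smul, mul_comm]
  · intro h
    simp [ContinuousLinearMap.mul_apply]

lemma blk_one : e.blk 1 1 = 1 := by
  apply e.ext_on
  · intro t
    simp 
  · intro h
    simp

lemma blk_add (θ θ' : T → ℂ) (y y' : H →L[ℂ] H) :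
    e.blk θ y + e.blk θ' y' = e.blk (θ + θ') (y + y') := by
  apply e.ext_on
  · intro t
    simp [add_smul]
  · intro h
    simp

lemma blk_zero : e.blk 0 0 = 0 := by
  apply e.ext_on
  · intro t
    simp 
  · intro h
    simp

lemma blk_smul (c : ℂ) (θ : T → ℂ) (y : H →L[ℂ] H) :
    c • e.blk θ y = e.blk (c • θ) (c • y) := by
  apply e.ext_on
  · intro t
    simp [smul_smul]
  · intro h
    simp

lemma blk_sum {ι : Type} (s : Finset ι) (θ : ι → T → ℂ) (y : ι → (H →L[ℂ] H)) :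
    ∑ i ∈ s, e.blk (θ i) (y i) = e.blk (∑ i ∈ s, θ i) (∑ i ∈ s, y i) := by
  classical
  induction s using Finset.induction_on with
  | empty => simp [blk_zero]
  | insert a s ha ih => rw [Finset.sum_insert ha, Finset.sum_insert ha, Finset.sum_insert ha, ih,
      blk_add]

lemma blk_star (θ : T → ℂ) (y : H →L[ℂ] H) : star (e.blk θ y) = e.blk (star θ) (star y) := by
  unfold blk
  rw [star_add, star_sum, emb_star]
  congr 1
  apply Finset.sum_congr rfl
  intro t _
  rw [star_smul, E_star]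
  rfl

/-- compression to the `H` block -/
noncomputable def cut (x : K →L[ℂ] K) : H →L[ℂ] H := e.Js ∘L x ∘L e.J

lemma cut_apply (x : K →L[ℂ] K) (h : H) : e.cut x h = e.Js (x (e.J h)) := rfl

/-- scalar at the atom `t` -/
noncomputable def th (x : K →L[ℂ] K) (t : T) : ℂ := ⟪e.δ t, x (e.δ t)⟫_ℂ

@[simp] lemma cut_blk (θ : T → ℂ) (y : H →L[ℂ] H) : e.cut (e.blk θ y) = y := by
  ext1 h
  rw [cut_apply, blk_J, Js_J]

@[simp] lemma th_blk (θ : T → ℂ) (y : H →L[ℂ] H) : e.th (e.blk θ y) = θ := by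
  funext t
  rw [th, blk_δ, inner_smul_right, e.δδ]; simp

lemma cut_star (x : K →L[ℂ] K) : e.cut (star x) = star (e.cut x) := by
  ext1 h
  apply ext_inner_right ℂ
  intro h'
  rw [inner_star_left, cut_apply, cut_apply, inner_Js, inner_star_left, ← inner_J]

lemma th_star (x : K →L[ℂ] K) (t : T) : e.th (star x) t = (starRingEnd ℂ) (e.th x t) := by
  rw [th, th, inner_star_right, inner_conj_symm]

lemma cut_sub (x y : K →L[ℂ] K) : e.cut (x - y) = e.cut x - e.cut y := by
  ext1 h; simp [cut_apply]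

lemma cut_smul (c : ℂ) (x : K →L[ℂ] K) : e.cut (c • x) = c • e.cut x := by
  ext1 h; simp [cut_apply]

lemma cut_sum {ι : Type} (s : Finset ι) (x : ι → (K →L[ℂ] K)) :
    e.cut (∑ i ∈ s, x i) = ∑ i ∈ s, e.cut (x i) := by
  ext1 h; simp [cut_apply, ContinuousLinearMap.sum_apply]

@[simp] lemma cut_one : e.cut 1 = 1 := by
  ext1 h; simp [cut_apply]

@[simp] lemma cut_zero : e.cut 0 = 0 := by
  ext1 h; simp [cut_apply]

/-- The direct sum von Neumann algebra `ℂ^T ⊕ M`. -/
noncomputable def NB (M : VonNeumannAlgebra H) : VonNeumannAlgebra K :=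
  vnOfSet (Set.range e.E ∪ e.emb '' (M.commutant : Set (H →L[ℂ] H)))

variable {e} {M : VonNeumannAlgebra H}

lemma mem_NB {x : K →L[ℂ] K} : x ∈ e.NB M ↔ (∀ t, e.E t * x = x * e.E t) ∧
    (∀ y ∈ M.commutant, e.emb y * x = x * e.emb y) := by
  rw [NB, mem_vnOfSet]
  constructor
  · intro h
    exact ⟨fun t => (h _ (Or.inl ⟨t, rfl⟩)).1, fun y hy => (h _ (Or.inr ⟨y, hy, rfl⟩)).1⟩
  · rintro ⟨h1, h2⟩ z (⟨t, rfl⟩ | ⟨y, hy, rfl⟩)
    · rw [E_star]; exact ⟨h1 t, h1 t⟩
    · rw [emb_star]; exact ⟨h2 y hy, h2 _ (star_mem hy)⟩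

lemma apply_δ {x : K →L[ℂ] K} (hx : x ∈ e.NB M) (t : T) : x (e.δ t) = e.th x t • e.δ t := by
  have h := congrArg (fun z : K →L[ℂ] K => z (e.δ t)) ((mem_NB.1 hx).1 t)
  simp only [ContinuousLinearMap.mul_apply, E_δ, if_true] at h
  rw [E_apply] at h
  exact h.symm

lemma apply_J {x : K →L[ℂ] K} (hx : x ∈ e.NB M) (h : H) : x (e.J h) = e.J (e.cut x h) := by
  have h1 := e.dec' (x (e.J h))
  have h2 : ∀ t, ⟪e.δ t, x (e.J h)⟫_ℂ • e.δ t = 0 := by
    intro t
    have h3 := congrArg (fun z : K →L[ℂ] K => z (e.J h)) ((mem_NB.1 hx).1 t)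
    simp only [ContinuousLinearMap.mul_apply, E_J, map_zero] at h3
    rwa [E_apply] at h3
  simp only [h2, Finset.sum_const_zero, zero_add] at h1
  exact h1.symm

lemma cut_mem {x : K →L[ℂ] K} (hx : x ∈ e.NB M) : e.cut x ∈ M := by
  rw [← VonNeumannAlgebra.commutant_commutant M, VonNeumannAlgebra.mem_commutant_iff]
  intro y hy
  ext1 h
  have h3 := congrArg (fun z : K →L[ℂ] K => e.Js (z (e.J h))) ((mem_NB.1 hx).2 y hy)
  simp only [ContinuousLinearMap.mul_apply, emb_J] at h3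
  rw [emb_apply, Js_J] at h3
  exact h3

lemma eq_blk {x : K →L[ℂ] K} (hx : x ∈ e.NB M) : x = e.blk (e.th x) (e.cut x) := by
  apply e.ext_on
  · intro t; rw [apply_δ hx, blk_δ]
  · intro h; rw [apply_J hx, blk_J]

lemma blk_mem (θ : T → ℂ) {y : H →L[ℂ] H} (hy : y ∈ M) : e.blk θ y ∈ e.NB M := by
  rw [mem_NB]
  constructor
  · intro t
    apply e.ext_on
    · intro t'
      simp only [ContinuousLinearMap.mul_apply, blk_δ, map_smul, E_δ]
      split_ifs with h
      · subst h; simp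
      · simp
    · intro h
      simp [ContinuousLinearMap.mul_apply]
  · intro y' hy'
    have h1 := (VonNeumannAlgebra.mem_commutant_iff.1 hy') y hy
    apply e.ext_on
    · intro t'
      simp [ContinuousLinearMap.mul_apply]
    · intro h
      simp only [ContinuousLinearMap.mul_apply, blk_J, emb_J]
      have h2 := congrArg (fun z : H →L[ℂ] H => z h) h1
      simp only [ContinuousLinearMap.mul_apply] at h2
      rw [h2]

lemma cut_mul {x y : K →L[ℂ] K} (hy : y ∈ e.NB M) : e.cut (x * y) = e.cut x * e.cut y := by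
  ext1 h
  rw [cut_apply, ContinuousLinearMap.mul_apply, apply_J hy, ContinuousLinearMap.mul_apply]
  rfl

lemma th_mul {x y : K →L[ℂ] K} (hy : y ∈ e.NB M) (t : T) :
    e.th (x * y) t = e.th x t * e.th y t := by
  rw [th, ContinuousLinearMap.mul_apply, apply_δ hy, map_smul, inner_smul_right, mul_comm]
  rfl

/-- The total vector. -/
noncomputable def tot (e : Emb T H K) (m : T → ℝ) (s : ℝ) (Ω : H) : K :=
  ∑ t, ((Real.sqrt (m t) : ℝ) : ℂ) • e.δ t + ((Real.sqrt s : ℝ) : ℂ) • e.J Ω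

lemma inner_δ_tot (m : T → ℝ) (s : ℝ) (Ω : H) (t : T) :
    ⟪e.δ t, e.tot m s Ω⟫_ℂ = ((Real.sqrt (m t) : ℝ) : ℂ) := by
  unfold tot
  rw [inner_add_right, inner_smul_right, e.δJ, mul_zero, add_zero, inner_sum,
    Finset.sum_eq_single t]
  · rw [inner_smul_right, e.δδ]; simp
  · intro b _ hb
    rw [inner_smul_right, e.δδ, if_neg (Ne.symm hb), mul_zero]
  · simp

lemma Js_tot (m : T → ℝ) (s : ℝ) (Ω : H) :
    e.Js (e.tot m s Ω) = ((Real.sqrt s : ℝ) : ℂ) • Ω := by
  unfold tot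
  rw [map_add, map_sum, map_smul, Js_J]
  simp

lemma apply_tot {x : K →L[ℂ] K} (hx : x ∈ e.NB M) (m : T → ℝ) (s : ℝ) (Ω : H) :
    x (e.tot m s Ω) = ∑ t, (((Real.sqrt (m t) : ℝ) : ℂ) * e.th x t) • e.δ t +
      ((Real.sqrt s : ℝ) : ℂ) • e.J (e.cut x Ω) := by
  unfold tot
  rw [map_add, map_sum, map_smul, apply_J hx]
  congr 1
  apply Finset.sum_congr rfl
  intro t _
  rw [map_smul, apply_δ hx, smul_smul]

lemma tau_formula {x : K →L[ℂ] K} (hx : x ∈ e.NB M) {m : T → ℝ} (hm : ∀ t, 0 ≤ m t) {s : ℝ}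
    (hs : 0 ≤ s) (Ω : H) : ⟪e.tot m s Ω, x (e.tot m s Ω)⟫_ℂ =
      ∑ t, (m t : ℂ) * e.th x t + (s : ℂ) * ⟪Ω, e.cut x Ω⟫_ℂ := by
  rw [apply_tot hx, inner_add_right, inner_sum, inner_smul_right, ← inner_conj_symm _ (e.J _),
    inner_J, Js_tot, inner_smul_right, map_mul, Complex.conj_ofReal, inner_conj_symm, ← mul_assoc,
    ← Complex.ofReal_mul, Real.mul_self_sqrt hs]
  congr 1
  apply Finset.sum_congr rfl
  intro t _
  rw [inner_smul_right, ← inner_conj_symm _ (e.δ t), inner_δ_tot, Complex.conj_ofReal]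
  have : ((m t : ℝ) : ℂ) = ((Real.sqrt (m t) : ℝ) : ℂ) * ((Real.sqrt (m t) : ℝ) : ℂ) := by
    rw [← Complex.ofReal_mul, Real.mul_self_sqrt (hm t)]
  rw [this]; ring

lemma traceVec_NB {Ω : H} (hΩ : TraceVec M Ω) {m : T → ℝ} (hm : ∀ t, 0 < m t) {s : ℝ}
    (hs : 0 < s) (hsum : ∑ t, m t + s = 1) : TraceVec (e.NB M) (e.tot m s Ω) where
  norm_one := by
    have h1 := tau_formula (e := e) (M := M) (one_mem _) (fun t => (hm t).le) hs.le Ω
    rw [ContinuousLinearMap.one_apply, inner_self_eq_norm_sq_to_K] at h1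
    have h2 : ∀ t, e.th 1 t = 1 := by
      intro t; rw [th, ContinuousLinearMap.one_apply, e.δδ, if_pos rfl]
    have h3 : ⟪Ω, e.cut 1 Ω⟫_ℂ = 1 := by
      rw [cut_one, ContinuousLinearMap.one_apply, inner_self_eq_norm_sq_to_K, hΩ.norm_one]; simp
    simp only [h2, h3, mul_one] at h1
    have h4 : ‖e.tot m s Ω‖ ^ 2 = 1 := by
      have : ((‖e.tot m s Ω‖ ^ 2 : ℝ) : ℂ) = ((∑ t, m t + s : ℝ) : ℂ) := by
        push_cast; exact h1
      rw [hsum] at this
      exact_mod_cast this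
    have h5 := norm_nonneg (e.tot m s Ω)
    nlinarith
  tracial := by
    intro x hx y hy
    rw [tau_formula (mul_mem hx hy) (fun t => (hm t).le) hs.le,
      tau_formula (mul_mem hy hx) (fun t => (hm t).le) hs.le, cut_mul hy, cut_mul hx,
      hΩ.tracial _ (cut_mem hx) _ (cut_mem hy)]
    congr 1
    apply Finset.sum_congr rfl
    intro t _
    rw [th_mul hy, th_mul hx, mul_comm (e.th x t)]
  separating := by
    intro x hx h0
    have h1 : ∀ t, e.th x t = 0 := by
      intro t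
      have h2 := congrArg (fun z => ⟪e.δ t, z⟫_ℂ) h0
      simp only [inner_zero_right] at h2
      rw [apply_tot hx, inner_add_right, inner_smul_right, e.δJ, mul_zero, add_zero, inner_sum,
        Finset.sum_eq_single t] at h2
      · rw [inner_smul_right, e.δδ, if_pos rfl, mul_one] at h2
        rcases mul_eq_zero.1 h2 with h3 | h3
        · exfalso
          have := Real.sqrt_pos.2 (hm t)
          have h4 : Real.sqrt (m t) = 0 := by exact_mod_cast h3
          linarith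
        · exact h3
      · intro b _ hb
        rw [inner_smul_right, e.δδ, if_neg (Ne.symm hb), mul_zero]
      · simp
    have h2 : e.cut x = 0 := by
      apply hΩ.separating _ (cut_mem hx)
      have h3 := congrArg e.Js h0
      rw [apply_tot hx, map_add, map_sum, map_smul, Js_J, map_zero] at h3
      simp only [map_smul, Js_δ, smul_zero, Finset.sum_const_zero, zero_add] at h3
      rcases smul_eq_zero.1 h3 with h4 | h4
      · exfalso
        have := Real.sqrt_pos.2 hs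
        have h5 : Real.sqrt s = 0 := by exact_mod_cast h4
        linarith
      · exact h4
    rw [eq_blk hx, h2]
    have h6 : e.th x = 0 := funext h1
    rw [h6, blk_zero]

end Emb
end B

end Pool.MP_81d1ca_an.PL
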