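import Mathlib
import Pool.Agent.Lib.MP_81d1ca_an.PLc

set_option autoImplicit false
set_option linter.unusedSectionVars false
set_option linter.deprecated false
open scoped InnerProductSpace
open Filter Topology

namespace Pool.MP_81d1ca_an.PL
open Pool.MP_81d1ca_an.H37

/-- numeric core of the rigidity -/
lemma numeric_core {x y : ℝ} (hx0 : 0 ≤ x) (hx1 : x ≤ 1) (hy0 : 0 ≤ y) (hy1 : y ≤ 1)
    (h1 : 1 / 4 ≤ (1 - x) * y) (h2 : 1 / 4 ≤ x * (1 - y)) : x = 1 / 2 ∧ y = 1 / 2 := by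
  have hx : x = 1 / 2 := by
    rcases lt_trichotomy x (1 / 2) with h | h | h
    · exfalso; nlinarith
    · exact h
    · exfalso; nlinarith
  subst hx
  constructor
  · rfl
  · linarith

lemma numeric {A B : Type} [Fintype A] [Fintype B] (a : Option A → ℝ) (b : Option B → ℝ)
    (ha : ∑ α : A, a (some α) = 1 / 2)
    (hb : ∑ β : B, b (some β) = 1 / 2) 
    (ε φ : Option A → Option B → ℝ) (hε : ∀ α β, 0 ≤ ε α β) (hφ : ∀ α β, 0 ≤ φ α β)
    (h1 : ∀ β, ε none β + ∑ α, ε (some α) none ≤ 1)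
    (h2 : ∀ α, φ α none + ∑ β, φ none (some β) ≤ 1)
    (h3 : ∀ α, a (some α) * (1 / 2) ≤ ε (some α) none * φ (some α) none)
    (h4 : ∀ β, (1 / 2) * b (some β) ≤ ε none (some β) * φ none (some β))
    (h5 : 1 / 4 ≤ ε none none * φ none none) :
    (∀ α, ε (some α) none = a (some α)) ∧ ε none none = 1 / 2 ∧
      (∀ β, φ none (some β) = b (some β)) ∧ φ none none = 1 / 2 := by
  set X := ∑ α, ε (some α) none with hX
  set Y := ∑ β, φ none (some β) with hY
  have hX0 : 0 ≤ X := Finset.sum_nonneg fun α _ => hε _ _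
  have hY0 : 0 ≤ Y := Finset.sum_nonneg fun α _ => hφ _ _
  have e1 : 1 / 4 ≤ X * (1 - Y) := by
    calc (1 : ℝ) / 4 = ∑ α : A, a (some α) * (1 / 2) := by rw [← Finset.sum_mul, ha]; norm_num
      _ ≤ ∑ α : A, ε (some α) none * (1 - Y) := by
        apply Finset.sum_le_sum
        intro α _
        refine (h3 α).trans ?_
        have := h2 (some α)
        exact mul_le_mul_of_nonneg_left (by linarith) (hε _ _)
      _ = X * (1 - Y) := by rw [← Finset.sum_mul]
  have e2 : 1 / 4 ≤ (1 - X) * Y := by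
    calc (1 : ℝ) / 4 = ∑ β : B, (1 / 2) * b (some β) := by rw [← Finset.mul_sum, hb]; norm_num
      _ ≤ ∑ β : B, (1 - X) * φ none (some β) := by
        apply Finset.sum_le_sum
        intro β _
        refine (h4 β).trans ?_
        have := h1 (some β)
        exact mul_le_mul_of_nonneg_right (by linarith) (hφ _ _)
      _ = (1 - X) * Y := by rw [← Finset.mul_sum]
  have hX1 : X ≤ 1 := by have := h1 none; have := hε none none; linarith
  have hY1 : Y ≤ 1 := by have := h2 none; have := hφ none none; linarith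
  obtain ⟨hX2, hY2⟩ := numeric_core hX0 hX1 hY0 hY1 e2 e1
  have g1 : ε none none ≤ 1 / 2 := by have := h1 none; linarith
  have g2 : φ none none ≤ 1 / 2 := by have := h2 none; linarith
  have g3 : ε none none = 1 / 2 := by
    have := hε none none; have := hφ none none; nlinarith
  have g4 : φ none none = 1 / 2 := by
    have := hε none none; have := hφ none none; nlinarith
  have g5 : ∀ α, a (some α) ≤ ε (some α) none := by
    intro α
    have k1 : φ (some α) none ≤ 1 / 2 := by have := h2 (some α); linarith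
    have k2 := h3 α
    have k3 := hε (some α) none
    nlinarith
  have g6 : ∀ β, b (some β) ≤ φ none (some β) := by
    intro β
    have k1 : ε none (some β) ≤ 1 / 2 := by have := h1 (some β); linarith
    have k2 := h4 β
    have k3 := hφ none (some β)
    nlinarith
  have g7 := (Finset.sum_eq_sum_iff_of_le (s := Finset.univ) (f := fun α => a (some α))
    (g := fun α => ε (some α) none) fun α _ => g5 α).1 (by rw [ha, ← hX, hX2])
  have g8 := (Finset.sum_eq_sum_iff_of_le (s := Finset.univ) (f := fun β => b (some β))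
    (g := fun β => φ none (some β)) fun β _ => g6 β).1 (by rw [hb, ← hY, hY2])
  exact ⟨fun α => (g7 α (Finset.mem_univ _)).symm, g3,
    fun β => (g8 β (Finset.mem_univ _)).symm, g4⟩

section eigs
variable {K : Type} [NormedAddCommGroup K] [InnerProductSpace ℂ K] [CompleteSpace K]
variable {N : VonNeumannAlgebra K} {ξ : K} {ι : Type} [Fintype ι] [DecidableEq ι]

/-- sum of eigenprojections is a projection -/
lemma sum_eig_proj {u : unitary (K →L[ℂ] K)} {c : ι → ℂ} (hc : ∀ i, ‖c i‖ = 1)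
    (hinj : Function.Injective c) :
    star (∑ i, eig (u : K →L[ℂ] K) (c i)) = ∑ i, eig (u : K →L[ℂ] K) (c i) ∧
    (∑ i, eig (u : K →L[ℂ] K) (c i)) * (∑ i, eig (u : K →L[ℂ] K) (c i)) =
      ∑ i, eig (u : K →L[ℂ] K) (c i) := by
  constructor
  · rw [star_sum]
    exact Finset.sum_congr rfl fun i _ => eig_star _ _
  · rw [Finset.sum_mul_sum]
    apply Finset.sum_congr rfl
    intro i _
    rw [Finset.sum_eq_single i]
    · exact eig_idem _ _
    · intro j _ hj
      exact eig_mul_eig_of_ne (Unitary.coe_star_mul_self u) (hc i) (hc j)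
        (fun h => hj (hinj h).symm)
    · simp

lemma sum_eig_norm {u : unitary (K →L[ℂ] K)} {c : ι → ℂ} (hc : ∀ i, ‖c i‖ = 1)
    (hinj : Function.Injective c) (x : K) :
    ‖(∑ i, eig (u : K →L[ℂ] K) (c i)) x‖ ^ 2 = ∑ i, ‖eig (u : K →L[ℂ] K) (c i) x‖ ^ 2 := by
  obtain ⟨h1, h2⟩ := sum_eig_proj (u := u) hc hinj
  have h3 := TV_proj _ h1 h2 x
  rw [ContinuousLinearMap.sum_apply, inner_sum] at h3
  have h4 : ∀ i, ⟪x, eig (u : K →L[ℂ] K) (c i) x⟫_ℂ =
      ((‖eig (u : K →L[ℂ] K) (c i) x‖ ^ 2 : ℝ) : ℂ) :=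
    fun i => TV_proj _ (eig_star _ _) (eig_idem _ _) x
  simp_rw [h4] at h3
  rw [ContinuousLinearMap.sum_apply]
  exact_mod_cast h3.symm

lemma sum_eig_le {u : unitary (K →L[ℂ] K)} {c : ι → ℂ} (hc : ∀ i, ‖c i‖ = 1)
    (hinj : Function.Injective c) (x : K) :
    ∑ i, ‖eig (u : K →L[ℂ] K) (c i) x‖ ^ 2 ≤ ‖x‖ ^ 2 := by
  obtain ⟨h1, h2⟩ := sum_eig_proj (u := u) hc hinj
  rw [← sum_eig_norm hc hinj]
  have := norm_proj_apply_le h1 h2 x
  gcongr

lemma sum_eig_eq_one (hξ : TraceVec N ξ) {u : unitary (K →L[ℂ] K)} (hu : (u : K →L[ℂ] K) ∈ N)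
    {c : ι → ℂ} (hc : ∀ i, ‖c i‖ = 1)
    (hinj : Function.Injective c) (h : ∑ i, ‖eig (u : K →L[ℂ] K) (c i) ξ‖ ^ 2 = 1) :
    ∑ i, eig (u : K →L[ℂ] K) (c i) = 1 := by
  obtain ⟨h1, h2⟩ := sum_eig_proj (u := u) hc hinj
  set R := ∑ i, eig (u : K →L[ℂ] K) (c i) with hR
  have hR1 : R ∈ N := by
    rw [hR]
    exact sum_mem fun i _ => eig_mem_vn hu (by intro h0; have := hc i; rw [h0] at this; simp at this)
  have h3 : star (1 - R) = 1 - R := by rw [star_sub, star_one, h1]
  have h4 : (1 - R) * (1 - R) = 1 - R := by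
    rw [mul_sub, sub_mul, sub_mul, h2]; simp
  have h5 := TV_proj _ h3 h4 ξ
  have h6 : ⟪ξ, (1 - R) ξ⟫_ℂ = 0 := by
    rw [ContinuousLinearMap.sub_apply, inner_sub_right, TV_proj _ h1 h2, sum_eig_norm hc hinj, h,
      ContinuousLinearMap.one_apply, inner_self_eq_norm_sq_to_K, hξ.norm_one]
    simp
  rw [h6] at h5
  have h7 : ‖(1 - R) ξ‖ ^ 2 = 0 := by exact_mod_cast h5.symm
  have h8 : (1 - R) ξ = 0 := by
    have := pow_eq_zero_iff (two_ne_zero) |>.1 h7
    exact norm_eq_zero.1 this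
  have h9 := hξ.separating _ (sub_mem (one_mem _) hR1) h8
  exact (sub_eq_zero.1 h9).symm

end eigs

/-- the weights -/
structure Data (A B : Type) [Fintype A] [Fintype B] (a : Option A → ℝ) (b : Option B → ℝ)
    (w : Option A → Option B → ℝ) (s : ℝ) : Prop where
  a_none : a none = 1 / 2
  b_none : b none = 1 / 2
  a_sum : ∑ α : A, a (some α) = 1 / 2
  b_sum : ∑ β : B, b (some β) = 1 / 2
  w_left : ∀ β, w none β = 0
  w_right : ∀ α, w α none = 0
  s_pos : 0 < s
  m_pos : ∀ t : Option A × Option B, 0 < a t.1 * b t.2 - s * w t.1 t.2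
  m_sum : ∑ t : Option A × Option B, (a t.1 * b t.2 - s * w t.1 t.2) + s = 1

section rigid
variable {A B : Type} [Fintype A] [Fintype B] [DecidableEq A] [DecidableEq B]
variable {H K : Type} [NormedAddCommGroup H]
    [InnerProductSpace ℂ H] [CompleteSpace H] [NormedAddCommGroup K]
    [InnerProductSpace ℂ K] [CompleteSpace K]

lemma norm_δ {T : Type} [Fintype T] [DecidableEq T] (e : Emb T H K) (t : T) : ‖e.δ t‖ = 1 := by
  have h := e.δδ t t
  rw [if_pos rfl, inner_self_eq_norm_sq_to_K] at h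
  have h2 : ‖e.δ t‖ ^ 2 = 1 := by
    have h3 : ((‖e.δ t‖ ^ 2 : ℝ) : ℂ) = 1 := by push_cast; exact h
    exact_mod_cast h3
  have := norm_nonneg (e.δ t)
  nlinarith

lemma th_norm {T : Type} [Fintype T] [DecidableEq T] {e : Emb T H K} {M : VonNeumannAlgebra H}
    {u : unitary (K →L[ℂ] K)} (hu : (u : K →L[ℂ] K) ∈ e.NB M) (t : T) :
    ‖e.th (u : K →L[ℂ] K) t‖ = 1 := by
  have h1 := norm_unitary_apply u (e.δ t)
  rw [Emb.apply_δ hu, norm_smul, norm_δ, mul_one] at h1
  exact h1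

lemma eig_δ {T : Type} [Fintype T] [DecidableEq T] {e : Emb T H K} {M : VonNeumannAlgebra H}
    {u : unitary (K →L[ℂ] K)} (hu : (u : K →L[ℂ] K) ∈ e.NB M) (t : T) {c : ℂ} (hc : ‖c‖ = 1) :
    eig (u : K →L[ℂ] K) c (e.δ t) = if c = e.th (u : K →L[ℂ] K) t then e.δ t else 0 := by
  split_ifs with h
  · apply eig_self
    · intro h0; rw [h0] at hc; simp at hc
    · rw [h]; exact Emb.apply_δ hu t
  · exact eig_apply_of_ne (Unitary.coe_star_mul_self u) hc (th_norm hu t) h (Emb.apply_δ hu t)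

lemma ne_zero_of_norm_one {c : ℂ} (hc : ‖c‖ = 1) : c ≠ 0 := by
  intro h0; rw [h0] at hc; simp at hc

/-- real form of the independence of eigenprojections -/
lemma indep_norm {N : VonNeumannAlgebra K} {ξ : K} (hN : TraceVec N ξ)
    {u v : unitary (K →L[ℂ] K)} (hu : (u : K →L[ℂ] K) ∈ N) (hv : (v : K →L[ℂ] K) ∈ N)
    (hind : ∀ k l : ℤ, ⟪ξ, (((u ^ k : unitary (K →L[ℂ] K)) : K →L[ℂ] K) *
      ((v ^ l : unitary (K →L[ℂ] K)) : K →L[ℂ] K)) ξ⟫_ℂ =
      ⟪ξ, ((u ^ k : unitary (K →L[ℂ] K)) : K →L[ℂ] K) ξ⟫_ℂ *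
      ⟪ξ, ((v ^ l : unitary (K →L[ℂ] K)) : K →L[ℂ] K) ξ⟫_ℂ)
    {c d : ℂ} (hc : ‖c‖ = 1) (hd : ‖d‖ = 1) :
    ⟪ξ, (eig (u : K →L[ℂ] K) c * eig (v : K →L[ℂ] K) d) ξ⟫_ℂ =
      ((‖eig (u : K →L[ℂ] K) c ξ‖ ^ 2 * ‖eig (v : K →L[ℂ] K) d ξ‖ ^ 2 : ℝ) : ℂ) := by
  rw [ContinuousLinearMap.mul_apply]
  have h1 := indep_eig hind hc hd
  have h2 : ⟪ξ, (eig (u : K →L[ℂ] K) c) ((eig (v : K →L[ℂ] K) d) ξ)⟫_ℂ =
      ⟪eig (u : K →L[ℂ] K) c ξ, eig (v : K →L[ℂ] K) d ξ⟫_ℂ := by
    rw [← inner_star_left, eig_star]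
  rw [h2, h1, ← inner_conj_symm (eig (u : K →L[ℂ] K) c ξ) ξ, TV_proj _ (eig_star _ _) (eig_idem _ _),
    TV_proj _ (eig_star _ _) (eig_idem _ _), Complex.conj_ofReal]
  push_cast; rfl

variable {a : Option A → ℝ} {b : Option B → ℝ} {w : Option A → Option B → ℝ} {s : ℝ}

theorem rigid (D : Data A B a b w s) (e : Emb (Option A × Option B) H K)
    {M : VonNeumannAlgebra H} {Ω : H} (hΩ : TraceVec M Ω)
    {u v : unitary (K →L[ℂ] K)} (hu : (u : K →L[ℂ] K) ∈ e.NB M) (hv : (v : K →L[ℂ] K) ∈ e.NB M)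
    {ξ : K} (hξ : ξ = e.tot (fun t => a t.1 * b t.2 - s * w t.1 t.2) s Ω)
    (hind : ∀ k l : ℤ, ⟪ξ, (((u ^ k : unitary (K →L[ℂ] K)) : K →L[ℂ] K) *
      ((v ^ l : unitary (K →L[ℂ] K)) : K →L[ℂ] K)) ξ⟫_ℂ =
      ⟪ξ, ((u ^ k : unitary (K →L[ℂ] K)) : K →L[ℂ] K) ξ⟫_ℂ *
      ⟪ξ, ((v ^ l : unitary (K →L[ℂ] K)) : K →L[ℂ] K) ξ⟫_ℂ)
    (hx : ∀ t t' : Option A × Option B, t.1 ≠ t'.1 →
      e.th (u : K →L[ℂ] K) t ≠ e.th (u : K →L[ℂ] K) t')
    (hy : ∀ t t' : Option A × Option B, t.2 ≠ t'.2 →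
      e.th (v : K →L[ℂ] K) t ≠ e.th (v : K →L[ℂ] K) t') :
    IsPVM (e.NB M) (fun α : Option A => eig (u : K →L[ℂ] K) (e.th (u : K →L[ℂ] K) (α, none))) ∧
    IsPVM (e.NB M) (fun β : Option B => eig (v : K →L[ℂ] K) (e.th (v : K →L[ℂ] K) (none, β))) ∧
    e.cut (eig (u : K →L[ℂ] K) (e.th (u : K →L[ℂ] K) (none, none))) = 0 ∧
    e.cut (eig (v : K →L[ℂ] K) (e.th (v : K →L[ℂ] K) (none, none))) = 0 ∧
    ∀ α β, ⟪Ω, (e.cut (eig (u : K →L[ℂ] K) (e.th (u : K →L[ℂ] K) (α, none))) *
      e.cut (eig (v : K →L[ℂ] K) (e.th (v : K →L[ℂ] K) (none, β)))) Ω⟫_ℂ = ((w α β : ℝ) : ℂ) := by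
  have hN : TraceVec (e.NB M) ξ := by
    rw [hξ]; exact Emb.traceVec_NB hΩ D.m_pos D.s_pos D.m_sum
  set x : Option A × Option B → ℂ := e.th (u : K →L[ℂ] K) with hxdef
  set y : Option A × Option B → ℂ := e.th (v : K →L[ℂ] K) with hydef
  have hx1 : ∀ t, ‖x t‖ = 1 := th_norm hu
  have hy1 : ∀ t, ‖y t‖ = 1 := th_norm hv
  have hxM : ∀ t, eig (u : K →L[ℂ] K) (x t) ∈ e.NB M :=
    fun t => eig_mem_vn hu (ne_zero_of_norm_one (hx1 t))
  have hyM : ∀ t, eig (v : K →L[ℂ] K) (y t) ∈ e.NB M :=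
    fun t => eig_mem_vn hv (ne_zero_of_norm_one (hy1 t))
  have ineq : ∀ t, a t.1 * b t.2 - s * w t.1 t.2 ≤ ‖eig (u : K →L[ℂ] K) (x t) ξ‖ ^ 2 *
      ‖eig (v : K →L[ℂ] K) (y t) ξ‖ ^ 2 := by
    intro t
    have h1 := indep_norm hN hu hv hind (hx1 t) (hy1 t)
    rw [TV_two_proj hN (hxM t) (hyM t) (eig_star _ _) (eig_idem _ _) (eig_star _ _)
      (eig_idem _ _)] at h1
    have h2 : ‖(eig (u : K →L[ℂ] K) (x t) * eig (v : K →L[ℂ] K) (y t)) ξ‖ ^ 2 =
        ‖eig (u : K →L[ℂ] K) (x t) ξ‖ ^ 2 * ‖eig (v : K →L[ℂ] K) (y t) ξ‖ ^ 2 := by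
      exact_mod_cast h1
    rw [← h2]
    have h3 : ⟪e.δ t, (eig (u : K →L[ℂ] K) (x t) * eig (v : K →L[ℂ] K) (y t)) ξ⟫_ℂ =
        ((Real.sqrt (a t.1 * b t.2 - s * w t.1 t.2) : ℝ) : ℂ) := by
      rw [ContinuousLinearMap.mul_apply, ← inner_star_left, eig_star, eig_δ hu t (hx1 t),
        if_pos rfl, ← inner_star_left, eig_star, eig_δ hv t (hy1 t), if_pos rfl, hξ,
        Emb.inner_δ_tot]
    have h4 : Real.sqrt (a t.1 * b t.2 - s * w t.1 t.2) ≤
        ‖(eig (u : K →L[ℂ] K) (x t) * eig (v : K →L[ℂ] K) (y t)) ξ‖ := by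
      have h5 := norm_inner_le_norm (𝕜 := ℂ) (e.δ t)
        ((eig (u : K →L[ℂ] K) (x t) * eig (v : K →L[ℂ] K) (y t)) ξ)
      rw [h3, norm_δ, one_mul, Complex.norm_real, Real.norm_eq_abs,
        abs_of_nonneg (Real.sqrt_nonneg _)] at h5
      exact h5
    calc a t.1 * b t.2 - s * w t.1 t.2 = Real.sqrt (a t.1 * b t.2 - s * w t.1 t.2) ^ 2 := by
          rw [Real.sq_sqrt (D.m_pos t).le]
      _ ≤ _ := by
          have := Real.sqrt_nonneg (a t.1 * b t.2 - s * w t.1 t.2)
          gcongr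
  have h1 : ∀ β : Option B, ‖eig (u : K →L[ℂ] K) (x (none, β)) ξ‖ ^ 2 +
      ∑ α : A, ‖eig (u : K →L[ℂ] K) (x (some α, none)) ξ‖ ^ 2 ≤ 1 := by
    intro β
    have g := sum_eig_le (u := u) (c := fun o : Option A => match o with
      | none => x (none, β)
      | some α => x (some α, none)) (by
        intro i; cases i
        · exact hx1 _
        · exact hx1 _) (by
        intro i j hij
        by_contra hne
        cases i <;> cases j <;> first | exact hne rfl | exact hx _ _ (by simpa using hne) hij) ξ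
    rw [Fintype.sum_option, hN.norm_one] at g
    simpa using g
  have h2 : ∀ α : Option A, ‖eig (v : K →L[ℂ] K) (y (α, none)) ξ‖ ^ 2 +
      ∑ β : B, ‖eig (v : K →L[ℂ] K) (y (none, some β)) ξ‖ ^ 2 ≤ 1 := by
    intro α
    have g := sum_eig_le (u := v) (c := fun o : Option B => match o with
      | none => y (α, none)
      | some β => y (none, some β)) (by
        intro i; cases i
        · exact hy1 _
        · exact hy1 _) (by
        intro i j hij
        by_contra hne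
        cases i <;> cases j <;> first | exact hne rfl | exact hy _ _ (by simpa using hne) hij) ξ
    rw [Fintype.sum_option, hN.norm_one] at g
    simpa using g
  obtain ⟨r1, r2, r3, r4⟩ := numeric a b D.a_sum D.b_sum
    (fun α β => ‖eig (u : K →L[ℂ] K) (x (α, β)) ξ‖ ^ 2)
    (fun α β => ‖eig (v : K →L[ℂ] K) (y (α, β)) ξ‖ ^ 2) (fun _ _ => by positivity)
    (fun _ _ => by positivity) h1 h2
    (fun α => by
      have := ineq (some α, none)
      simpa [D.b_none, D.w_right] using this)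
    (fun β => by
      have := ineq (none, some β)
      simpa [D.a_none, D.w_left] using this)
    (by
      have := ineq (none, none)
      simp only [D.a_none, D.b_none, D.w_left, mul_zero, sub_zero] at this
      linarith)
  have ra : ∀ α : Option A, ‖eig (u : K →L[ℂ] K) (x (α, none)) ξ‖ ^ 2 = a α := by
    intro α
    cases α with
    | none => rw [D.a_none]; exact r2
    | some α => exact r1 α
  have rb : ∀ β : Option B, ‖eig (v : K →L[ℂ] K) (y (none, β)) ξ‖ ^ 2 = b β := by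
    intro β
    cases β with
    | none => rw [D.b_none]; exact r4
    | some β => exact r3 β
  have injx : Function.Injective (fun α : Option A => x (α, none)) := by
    intro i j hij
    by_contra hne
    exact hx (i, none) (j, none) hne hij
  have injy : Function.Injective (fun β : Option B => y (none, β)) := by
    intro i j hij
    by_contra hne
    exact hy (none, i) (none, j) hne hij
  have sa : ∑ α : Option A, eig (u : K →L[ℂ] K) (x (α, none)) = 1 := by
    apply sum_eig_eq_one hN hu (fun α => hx1 _) injx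
    simp_rw [ra]
    rw [Fintype.sum_option, D.a_none, D.a_sum]; norm_num
  have sb : ∑ β : Option B, eig (v : K →L[ℂ] K) (y (none, β)) = 1 := by
    apply sum_eig_eq_one hN hv (fun α => hy1 _) injy
    simp_rw [rb]
    rw [Fintype.sum_option, D.b_none, D.b_sum]; norm_num
  have xt : ∀ t : Option A × Option B, x (t.1, none) = x t := by
    intro t
    have g := congrArg (fun z : K →L[ℂ] K => z (e.δ t)) sa
    simp only [ContinuousLinearMap.sum_apply, ContinuousLinearMap.one_apply] at g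
    have g2 : ∃ α : Option A, x (α, none) = x t := by
      by_contra hcon
      push Not at hcon
      have g3 : ∀ α : Option A, eig (u : K →L[ℂ] K) (x (α, none)) (e.δ t) = 0 := by
        intro α
        rw [eig_δ hu t (hx1 _), if_neg (hcon α)]
      simp_rw [g3] at g
      have g4 := norm_δ e t
      rw [← g] at g4
      simp at g4
    obtain ⟨α, hα⟩ := g2
    have g5 : α = t.1 := by
      by_contra hne
      exact hx (α, none) t hne hα
    rw [← g5]; exact hα
  have yt : ∀ t : Option A × Option B, y (none, t.2) = y t := by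
    intro t
    have g := congrArg (fun z : K →L[ℂ] K => z (e.δ t)) sb
    simp only [ContinuousLinearMap.sum_apply, ContinuousLinearMap.one_apply] at g
    have g2 : ∃ β : Option B, y (none, β) = y t := by
      by_contra hcon
      push Not at hcon
      have g3 : ∀ β : Option B, eig (v : K →L[ℂ] K) (y (none, β)) (e.δ t) = 0 := by
        intro α
        rw [eig_δ hv t (hy1 _), if_neg (hcon α)]
      simp_rw [g3] at g
      have g4 := norm_δ e t
      rw [← g] at g4
      simp at g4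
    obtain ⟨β, hβ⟩ := g2
    have g5 : β = t.2 := by
      by_contra hne
      exact hy (none, β) t hne hβ
    rw [← g5]; exact hβ
  have thx : ∀ (α : Option A) (t : Option A × Option B),
      e.th (eig (u : K →L[ℂ] K) (x (α, none))) t = if α = t.1 then 1 else 0 := by
    intro α t
    rw [Emb.th, eig_δ hu t (hx1 _)]
    by_cases h : α = t.1
    · rw [if_pos h, if_pos (by rw [h]; exact xt t), e.δδ, if_pos rfl]
    · rw [if_neg h, if_neg (fun h' => hx (α, none) t h h'), inner_zero_right]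
  have thy : ∀ (β : Option B) (t : Option A × Option B),
      e.th (eig (v : K →L[ℂ] K) (y (none, β))) t = if β = t.2 then 1 else 0 := by
    intro β t
    rw [Emb.th, eig_δ hv t (hy1 _)]
    by_cases h : β = t.2
    · rw [if_pos h, if_pos (by rw [h]; exact yt t), e.δδ, if_pos rfl]
    · rw [if_neg h, if_neg (fun h' => hy (none, β) t h h'), inner_zero_right]
  have hs0 : (s : ℂ) ≠ 0 := by exact_mod_cast D.s_pos.ne'
  have iv : ∀ α β, ⟪Ω, (e.cut (eig (u : K →L[ℂ] K) (x (α, none))) *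
      e.cut (eig (v : K →L[ℂ] K) (y (none, β)))) Ω⟫_ℂ = ((w α β : ℝ) : ℂ) := by
    intro α β
    have g1 := indep_norm hN hu hv hind (hx1 (α, none)) (hy1 (none, β))
    have g2 := Emb.tau_formula (e := e) (M := M) (mul_mem (hxM (α, none)) (hyM (none, β)))
      (fun t => (D.m_pos t).le) D.s_pos.le Ω
    rw [← hξ, g1, ra, rb, Finset.sum_eq_single (α, β)] at g2
    · rw [Emb.th_mul (hyM _), thx, thy, Emb.cut_mul (hyM _)] at g2
      simp only [if_true] at g2
      have g3 : (s : ℂ) * ⟪Ω, (e.cut (eig (u : K →L[ℂ] K) (x (α, none))) *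
          e.cut (eig (v : K →L[ℂ] K) (y (none, β)))) Ω⟫_ℂ = (s : ℂ) * ((w α β : ℝ) : ℂ) := by
        simp only [Complex.ofReal_mul, Complex.ofReal_sub] at g2
        linear_combination -g2
      exact mul_left_cancel₀ hs0 g3
    · intro t _ ht
      rw [Emb.th_mul (hyM _), thx, thy]
      by_cases h : α = t.1
      · by_cases h' : β = t.2
        · exfalso; apply ht; exact Prod.ext h.symm h'.symm
        · rw [if_neg h']; simp
      · rw [if_neg h]; simp
    · simp
  have pvx : IsPVM (e.NB M) (fun α : Option A => eig (u : K →L[ℂ] K) (x (α, none))) :=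
    { mem := fun α => hxM _
      sa := fun α => eig_star _ _
      idem := fun α => eig_idem _ _
      orth := fun α α' h => eig_mul_eig_of_ne (Unitary.coe_star_mul_self u) (hx1 _) (hx1 _)
        (fun h' => h (injx h'))
      sum := sa }
  have pvy : IsPVM (e.NB M) (fun β : Option B => eig (v : K →L[ℂ] K) (y (none, β))) :=
    { mem := fun α => hyM _
      sa := fun α => eig_star _ _
      idem := fun α => eig_idem _ _
      orth := fun α α' h => eig_mul_eig_of_ne (Unitary.coe_star_mul_self v) (hy1 _) (hy1 _)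
        (fun h' => h (injy h'))
      sum := sb }
  refine ⟨pvx, pvy, ?_, ?_, iv⟩
  · apply hΩ.separating _ (Emb.cut_mem (hxM _))
    have g1 : star (e.cut (eig (u : K →L[ℂ] K) (x (none, none)))) =
        e.cut (eig (u : K →L[ℂ] K) (x (none, none))) := by rw [← Emb.cut_star, eig_star]
    have g2 : e.cut (eig (u : K →L[ℂ] K) (x (none, none))) *
        e.cut (eig (u : K →L[ℂ] K) (x (none, none))) =
        e.cut (eig (u : K →L[ℂ] K) (x (none, none))) := by
      rw [← Emb.cut_mul (hxM _), eig_idem]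
    have g3 : e.cut (eig (u : K →L[ℂ] K) (x (none, none))) =
        ∑ β : Option B, e.cut (eig (u : K →L[ℂ] K) (x (none, none))) *
          e.cut (eig (v : K →L[ℂ] K) (y (none, β))) := by
      rw [← Finset.mul_sum, ← Emb.cut_sum, sb, Emb.cut_one, mul_one]
    have g4 := TV_proj _ g1 g2 Ω
    conv_lhs at g4 => rw [g3]
    rw [ContinuousLinearMap.sum_apply, inner_sum] at g4
    simp only [iv, D.w_left, Complex.ofReal_zero, Finset.sum_const_zero] at g4
    have g5 : ‖e.cut (eig (u : K →L[ℂ] K) (x (none, none))) Ω‖ ^ 2 = 0 := by exact_mod_cast g4.symm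
    exact norm_eq_zero.1 ((pow_eq_zero_iff two_ne_zero).1 g5)
  · apply hΩ.separating _ (Emb.cut_mem (hyM _))
    have g1 : star (e.cut (eig (v : K →L[ℂ] K) (y (none, none)))) =
        e.cut (eig (v : K →L[ℂ] K) (y (none, none))) := by rw [← Emb.cut_star, eig_star]
    have g2 : e.cut (eig (v : K →L[ℂ] K) (y (none, none))) *
        e.cut (eig (v : K →L[ℂ] K) (y (none, none))) =
        e.cut (eig (v : K →L[ℂ] K) (y (none, none))) := by
      rw [← Emb.cut_mul (hyM _), eig_idem]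
    have g3 : e.cut (eig (v : K →L[ℂ] K) (y (none, none))) =
        ∑ α : Option A, e.cut (eig (u : K →L[ℂ] K) (x (α, none))) *
          e.cut (eig (v : K →L[ℂ] K) (y (none, none))) := by
      rw [← Finset.sum_mul, ← Emb.cut_sum, sa, Emb.cut_one, one_mul]
    have g4 := TV_proj _ g1 g2 Ω
    conv_lhs at g4 => rw [g3]
    rw [ContinuousLinearMap.sum_apply, inner_sum] at g4
    simp only [iv, D.w_right, Complex.ofReal_zero, Finset.sum_const_zero] at g4
    have g5 : ‖e.cut (eig (v : K →L[ℂ] K) (y (none, none))) Ω‖ ^ 2 = 0 := by exact_mod_cast g4.symm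
    exact norm_eq_zero.1 ((pow_eq_zero_iff two_ne_zero).1 g5)

end rigid

end Pool.MP_81d1ca_an.PL
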