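import Mathlib
import Pool.Agent.Lib.MP_81d1ca_an.PLd

set_option autoImplicit false
set_option linter.unusedSectionVars false
set_option linter.deprecated false
open scoped InnerProductSpace
open Filter Topology

namespace Pool.MP_81d1ca_an.PL
open Pool.MP_81d1ca_an.H37

section close
variable {K : Type} [NormedAddCommGroup K] [InnerProductSpace ℂ K] [CompleteSpace K]
variable {N : VonNeumannAlgebra K} {ξ : K} {ι : Type} [Fintype ι] [DecidableEq ι]

lemma close_pvm (hN : TraceVec N ξ) {p p' : ι → (K →L[ℂ] K)} (hp : IsPVM N p) (hp' : IsPVM N p')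
    {x x' : ι → ℂ} {c : ℝ} (hc : 0 < c) (h : ∀ i j, i ≠ j → c ≤ ‖x' i - x j‖) (i : ι) :
    ‖(p' i - p i) ξ‖ ≤ (Fintype.card ι * (2 / c)) * ‖(dg p' x' - dg p x) ξ‖ := by
  set W := dg p' x' - dg p x with hW
  have hWN : W ∈ N := sub_mem (dg_mem hp' x') (dg_mem hp x)
  have key : ∀ i j, i ≠ j → ‖(p' i * p j) ξ‖ ≤ (1 / c) * ‖W ξ‖ := by
    intro i j hij
    have h1 : p' i * W * p j = (x' i - x j) • (p' i * p j) := by
      have e1 : p' i * dg p' x' = x' i • p' i := by
        unfold dg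
        rw [Finset.mul_sum, Finset.sum_eq_single i]
        · rw [mul_smul_comm, hp'.idem]
        · intro b _ hb
          rw [mul_smul_comm, hp'.orth i b (Ne.symm hb), smul_zero]
        · simp
      have e2 : dg p x * p j = x j • p j := by
        unfold dg
        rw [Finset.sum_mul, Finset.sum_eq_single j]
        · rw [smul_mul_assoc, hp.idem]
        · intro b _ hb
          rw [smul_mul_assoc, hp.orth b j hb, smul_zero]
        · simp
      rw [hW, mul_sub, sub_mul, e1, mul_assoc, e2, smul_mul_assoc, mul_smul_comm, sub_smul]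
    have h2 : ‖(p' i * W * p j) ξ‖ ≤ ‖W ξ‖ := by
      rw [mul_assoc, ContinuousLinearMap.mul_apply]
      exact (norm_proj_apply_le (hp'.sa i) (hp'.idem i) _).trans
        (TV_norm_mul_proj hN hWN (hp.mem j) (hp.sa j) (hp.idem j))
    rw [h1, ContinuousLinearMap.smul_apply, norm_smul] at h2
    have h3 : c * ‖(p' i * p j) ξ‖ ≤ ‖W ξ‖ :=
      (mul_le_mul_of_nonneg_right (h i j hij) (norm_nonneg _)).trans h2
    rw [one_div, ← div_eq_inv_mul, le_div_iff₀ hc, mul_comm]
    exact h3
  have h4 : p' i - p i = ∑ j, (p' i * p j - p' j * p i) := by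
    rw [Finset.sum_sub_distrib, ← Finset.mul_sum, ← Finset.sum_mul, hp.sum, hp'.sum, mul_one,
      one_mul]
  rw [h4, ContinuousLinearMap.sum_apply]
  refine (norm_sum_le _ _).trans ?_
  have h5 : ∀ j ∈ Finset.univ, ‖(p' i * p j - p' j * p i) ξ‖ ≤ (2 / c) * ‖W ξ‖ := by
    intro j _
    by_cases hij : i = j
    · subst hij
      rw [sub_self, ContinuousLinearMap.zero_apply, norm_zero]
      positivity
    · rw [ContinuousLinearMap.sub_apply]
      refine (norm_sub_le _ _).trans ?_
      have k1 := key i j hij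
      have k2 := key j i (Ne.symm hij)
      calc _ ≤ (1 / c) * ‖W ξ‖ + (1 / c) * ‖W ξ‖ := add_le_add k1 k2
        _ = (2 / c) * ‖W ξ‖ := by ring
  refine (Finset.sum_le_sum h5).trans ?_
  rw [Finset.sum_const, Finset.card_univ, nsmul_eq_mul, mul_assoc]

lemma eq_dg_eig {u : K →L[ℂ] K} {c : ι → ℂ} (hc : ∀ i, c i ≠ 0)
    (hp : IsPVM N (fun i => eig u (c i))) : u = dg (fun i => eig u (c i)) c := by
  calc u = u * ∑ i, eig u (c i) := by rw [hp.sum, mul_one]
    _ = _ := by
      unfold dg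
      rw [Finset.mul_sum]
      exact Finset.sum_congr rfl fun i _ => mul_eig (hc i)

lemma exists_gap (x : ι → ℂ) (hx : Function.Injective x) :
    ∃ c : ℝ, 0 < c ∧ ∀ i j, i ≠ j → c ≤ ‖x i - x j‖ := by
  by_cases hne : Nonempty {p : ι × ι // p.1 ≠ p.2}
  · obtain ⟨p0, hp0⟩ := Finite.exists_min (fun p : {p : ι × ι // p.1 ≠ p.2} => ‖x p.1.1 - x p.1.2‖)
    refine ⟨‖x p0.1.1 - x p0.1.2‖, ?_, fun i j hij => hp0 ⟨(i, j), hij⟩⟩
    rw [norm_pos_iff, sub_ne_zero]
    exact fun h => p0.2 (hx h)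
  · refine ⟨1, one_pos, fun i j hij => ?_⟩
    exact absurd ⟨⟨(i, j), hij⟩⟩ hne

lemma exists_circle (ι : Type) [Fintype ι] : ∃ x : ι → Circle, Function.Injective x := by
  classical
  by_cases hne : Nonempty ι
  · have : NeZero (Fintype.card ι) := ⟨Fintype.card_ne_zero⟩
    refine ⟨fun i => ZMod.toCircle (N := Fintype.card ι) (((Fintype.equivFin ι i : ℕ)) : ZMod _), ?_⟩
    intro i j hij
    have h1 := ZMod.injective_toCircle hij
    have h2 := (ZMod.natCast_eq_natCast_iff' _ _ _).1 h1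
    rw [Nat.mod_eq_of_lt (Fintype.equivFin ι i).2, Nat.mod_eq_of_lt (Fintype.equivFin ι j).2] at h2
    exact (Fintype.equivFin ι).injective (Fin.ext h2)
  · exact ⟨fun i => absurd ⟨i⟩ hne, fun i => absurd ⟨i⟩ hne⟩

end close

section pvms
variable {A : Type} [Fintype A] [DecidableEq A] {H : Type} [NormedAddCommGroup H]
    [InnerProductSpace ℂ H] [CompleteSpace H] {M : VonNeumannAlgebra H}

/-- extension of a PVM by zero at `none` -/
noncomputable def optE (p : A → (H →L[ℂ] H)) : Option A → (H →L[ℂ] H)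
  | none => 0
  | some a => p a

lemma isPVM_optE {p : A → (H →L[ℂ] H)} (hp : IsPVM M p) : IsPVM M (optE p) where
  mem a := by cases a with
    | none => exact zero_mem _
    | some a => exact hp.mem a
  sa a := by cases a with
    | none => exact star_zero _
    | some a => exact hp.sa a
  idem a := by cases a with
    | none => exact mul_zero _
    | some a => exact hp.idem a
  orth a b hab := by
    cases a with
    | none => exact zero_mul _
    | some a => cases b with
      | none => exact mul_zero _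
      | some b => exact hp.orth a b (fun h => hab (congrArg some h))
  sum := by
    rw [Fintype.sum_option]
    show (0 : H →L[ℂ] H) + ∑ a, p a = 1
    rw [zero_add, hp.sum]

variable {T : Type} [Fintype T] [DecidableEq T] {K : Type} [NormedAddCommGroup K]
    [InnerProductSpace ℂ K] [CompleteSpace K]

/-- extension of a PVM to the direct sum -/
noncomputable def extP (e : Emb T H K) (cell : T → A) (p : A → (H →L[ℂ] H)) (a : A) : K →L[ℂ] K :=
  e.blk (fun t => if cell t = a then 1 else 0) (p a)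

lemma isPVM_extP (e : Emb T H K) (cell : T → A) {p : A → (H →L[ℂ] H)} (hp : IsPVM M p) :
    IsPVM (e.NB M) (extP e cell p) where
  mem a := Emb.blk_mem _ (hp.mem a)
  sa a := by
    unfold extP
    rw [Emb.blk_star, hp.sa]
    congr 1
    funext t
    simp only [Pi.star_apply]
    split_ifs <;> simp
  idem a := by
    unfold extP
    rw [Emb.blk_mul, hp.idem]
    congr 1
    funext t
    simp only [Pi.mul_apply]
    split_ifs <;> simp
  orth a b hab := by
    unfold extP
    rw [Emb.blk_mul, hp.orth a b hab]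
    rw [← Emb.blk_zero e]
    congr 1
    funext t
    simp only [Pi.mul_apply, Pi.zero_apply]
    by_cases h1 : cell t = a
    · rw [if_pos h1, if_neg (fun h2 => hab (h1.symm.trans h2)), mul_zero]
    · rw [if_neg h1, zero_mul]
  sum := by
    unfold extP
    rw [Emb.blk_sum, hp.sum]
    have h : (∑ i : A, fun t : T => if cell t = i then (1 : ℂ) else 0) = 1 := by
      funext t
      simp
    rw [h, Emb.blk_one]

end pvms

section final
variable {A B : Type} [Fintype A] [Fintype B] [DecidableEq A] [DecidableEq B]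
variable {H K : Type} [NormedAddCommGroup H]
    [InnerProductSpace ℂ H] [CompleteSpace H] [NormedAddCommGroup K]
    [InnerProductSpace ℂ K] [CompleteSpace K]
variable {a : Option A → ℝ} {b : Option B → ℝ} {w : Option A → Option B → ℝ} {s : ℝ}

lemma sum_sq_pvm {M : VonNeumannAlgebra H} {Ω : H} (hΩ : TraceVec M Ω) {P : A → (H →L[ℂ] H)}
    {Q : B → (H →L[ℂ] H)} (hP : IsPVM M P) (hQ : IsPVM M Q) :
    ∑ α, ∑ β, ‖(P α * Q β) Ω‖ ^ 2 = 1 := by
  have h1 : ∀ α β, ⟪Ω, (P α * Q β) Ω⟫_ℂ = ((‖(P α * Q β) Ω‖ ^ 2 : ℝ) : ℂ) := fun α β =>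
    TV_two_proj hΩ (hP.mem α) (hQ.mem β) (hP.sa α) (hP.idem α) (hQ.sa β) (hQ.idem β)
  have h2 : (∑ α, ∑ β, P α * Q β) = 1 := by
    rw [← Finset.sum_mul_sum, hP.sum, hQ.sum, mul_one]
  have h3 : ⟪Ω, (∑ α, ∑ β, P α * Q β) Ω⟫_ℂ = ∑ α, ∑ β, ((‖(P α * Q β) Ω‖ ^ 2 : ℝ) : ℂ) := by
    simp_rw [← h1]
    rw [ContinuousLinearMap.sum_apply, inner_sum]
    apply Finset.sum_congr rfl
    intro α _
    rw [ContinuousLinearMap.sum_apply, inner_sum]
  rw [h2, ContinuousLinearMap.one_apply, inner_self_eq_norm_sq_to_K, hΩ.norm_one] at h3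
  have h4 : ((∑ α, ∑ β, ‖(P α * Q β) Ω‖ ^ 2 : ℝ) : ℂ) = 1 := by
    push_cast
    push_cast at h3
    rw [← h3]; simp
  exact_mod_cast h4

/-- existence of the limit masses -/
lemma exists_w {M : VonNeumannAlgebra H} {Ω : H} (hΩ : TraceVec M Ω) (U : Ultrafilter ℕ)
    {P : ℕ → A → (H →L[ℂ] H)} {Q : ℕ → B → (H →L[ℂ] H)} (hP : ∀ n, IsPVM M (P n))
    (hQ : ∀ n, IsPVM M (Q n)) :
    ∃ w : A → B → ℝ, (∀ α β, 0 ≤ w α β) ∧ (∀ α β, w α β ≤ 1) ∧ (∑ α, ∑ β, w α β = 1) ∧
      ∀ α β, Tendsto (fun n => ‖(P n α * Q n β) Ω‖ ^ 2) (U : Filter ℕ) (𝓝 (w α β)) := by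
  have hle : ∀ n α β, ‖(P n α * Q n β) Ω‖ ^ 2 ≤ 1 := by
    intro n α β
    rw [← sum_sq_pvm hΩ (hP n) (hQ n)]
    calc ‖(P n α * Q n β) Ω‖ ^ 2 ≤ ∑ β, ‖(P n α * Q n β) Ω‖ ^ 2 :=
          Finset.single_le_sum (f := fun β => ‖(P n α * Q n β) Ω‖ ^ 2)
            (fun _ _ => by positivity) (Finset.mem_univ β)
      _ ≤ _ := Finset.single_le_sum (f := fun α => ∑ β, ‖(P n α * Q n β) Ω‖ ^ 2)
            (fun _ _ => by positivity) (Finset.mem_univ α)
  have h1 : ∀ α β, ∃ x ∈ Set.Icc (0 : ℝ) 1,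
      Tendsto (fun n => ‖(P n α * Q n β) Ω‖ ^ 2) (U : Filter ℕ) (𝓝 x) := by
    intro α β
    have h2 := (isCompact_Icc (a := (0 : ℝ)) (b := 1)).ultrafilter_le_nhds
      (U.map (fun n => ‖(P n α * Q n β) Ω‖ ^ 2)) (by
        rw [Filter.le_principal_iff, Ultrafilter.mem_coe, Ultrafilter.mem_map]
        apply Filter.univ_mem'
        intro n
        exact ⟨by positivity, hle n α β⟩)
    obtain ⟨x, hx, hx2⟩ := h2
    exact ⟨x, hx, hx2⟩
  choose w hw hw2 using h1
  refine ⟨w, fun α β => (hw α β).1, fun α β => (hw α β).2, ?_, hw2⟩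
  have h3 : Tendsto (fun n => ∑ α, ∑ β, ‖(P n α * Q n β) Ω‖ ^ 2) (U : Filter ℕ)
      (𝓝 (∑ α, ∑ β, w α β)) :=
    tendsto_finset_sum _ fun α _ => tendsto_finset_sum _ fun β _ => hw2 α β
  have h4 : (fun n => ∑ α, ∑ β, ‖(P n α * Q n β) Ω‖ ^ 2) = fun _ => (1 : ℝ) := by
    funext n
    exact sum_sq_pvm hΩ (hP n) (hQ n)
  rw [h4] at h3
  exact tendsto_nhds_unique h3 tendsto_const_nhds

/-- weights -/
noncomputable def wt (A : Type) [Fintype A] : Option A → ℝ
  | none => 1 / 2
  | some _ => 1 / (2 * Fintype.card A)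

/-- extension of `w` -/
def wE (w : A → B → ℝ) : Option A → Option B → ℝ
  | some α, some β => w α β
  | _, _ => 0

lemma wt_sum (A : Type) [Fintype A] [Nonempty A] : ∑ α : A, wt A (some α) = 1 / 2 := by
  have : (Fintype.card A : ℝ) ≠ 0 := Nat.cast_ne_zero.2 Fintype.card_ne_zero
  simp [wt]

lemma data_of [Nonempty A] [Nonempty B] {w : A → B → ℝ} 
    (hw1 : ∀ α β, w α β ≤ 1) (hw2 : ∑ α, ∑ β, w α β = 1) :
    Data A B (wt A) (wt B) (wE w) (1 / (8 * Fintype.card A * Fintype.card B)) := by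
  have hA : (0 : ℝ) < Fintype.card A := Nat.cast_pos.2 Fintype.card_pos
  have hB : (0 : ℝ) < Fintype.card B := Nat.cast_pos.2 Fintype.card_pos
  refine ⟨rfl, rfl, wt_sum A, wt_sum B, fun β => by cases β <;> rfl, fun α => by cases α <;> rfl,
    by positivity, ?_, ?_⟩
  · rintro ⟨α, β⟩
    cases α with
    | none => 
      cases β with
      | none => simp [wt, wE]
      | some β => simp only [wt, wE, mul_zero, sub_zero]; positivity
    | some α => 
      cases β with
      | none => simp only [wt, wE, mul_zero, sub_zero]; positivity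
      | some β =>
        simp only [wt, wE]
        have h1 := hw1 α β
        have h2 : 1 / (8 * (Fintype.card A : ℝ) * Fintype.card B) * w α β ≤
            1 / (8 * (Fintype.card A : ℝ) * Fintype.card B) * 1 := by
          apply mul_le_mul_of_nonneg_left h1 (by positivity)
        have h3 : 1 / (2 * (Fintype.card A : ℝ)) * (1 / (2 * (Fintype.card B : ℝ))) =
            2 * (1 / (8 * (Fintype.card A : ℝ) * Fintype.card B)) := by
          field_simp; norm_num
        have h4 : 0 < 1 / (8 * (Fintype.card A : ℝ) * Fintype.card B) := by positivity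
        rw [h3]; linarith
  · rw [Finset.sum_sub_distrib, Fintype.sum_prod_type, Fintype.sum_prod_type]
    have e1 : ∑ x : Option A, ∑ y : Option B, wt A x * wt B y = 1 := by
      rw [← Finset.sum_mul_sum, Fintype.sum_option, Fintype.sum_option, wt_sum, wt_sum]
      simp [wt]
      norm_num
    have e2 : ∑ x : Option A, ∑ y : Option B,
        (1 / (8 * (Fintype.card A : ℝ) * Fintype.card B)) * wE w x y =
        1 / (8 * (Fintype.card A : ℝ) * Fintype.card B) := by
      simp_rw [← Finset.mul_sum]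
      rw [Fintype.sum_option]
      simp_rw [Fintype.sum_option]
      simp only [wE, Finset.sum_const_zero, zero_add, add_zero]
      rw [hw2, mul_one]
    rw [e1]
    rw [e2]; ring

end final

end Pool.MP_81d1ca_an.PL
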