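import Mathlib
import Pool.Agent.Lib.MP_81d1ca_an.PLe

set_option autoImplicit false
set_option linter.unusedSectionVars false
set_option linter.deprecated false
open scoped InnerProductSpace
open Filter Topology

namespace Pool.MP_81d1ca_an.PL
open Pool.MP_81d1ca_an.H37

section tau
variable {A B : Type} [Fintype A] [Fintype B] [DecidableEq A] [DecidableEq B]
variable {K : Type} [NormedAddCommGroup K] [InnerProductSpace ℂ K] [CompleteSpace K]

lemma tau_dg_mul (ξ : K) (p : A → (K →L[ℂ] K)) (q : B → (K →L[ℂ] K)) (x : A → ℂ) (y : B → ℂ) :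
    ⟪ξ, (dg p x * dg q y) ξ⟫_ℂ = ∑ α, ∑ β, x α * y β * ⟪ξ, (p α * q β) ξ⟫_ℂ := by
  unfold dg
  rw [Finset.sum_mul_sum, ContinuousLinearMap.sum_apply, inner_sum]
  apply Finset.sum_congr rfl
  intro α _
  rw [ContinuousLinearMap.sum_apply, inner_sum]
  apply Finset.sum_congr rfl
  intro β _
  rw [smul_mul_smul_comm, ContinuousLinearMap.smul_apply, inner_smul_right]

lemma tau_dg (ξ : K) (p : A → (K →L[ℂ] K)) (x : A → ℂ) :
    ⟪ξ, (dg p x) ξ⟫_ℂ = ∑ α, x α * ⟪ξ, (p α) ξ⟫_ℂ := by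
  unfold dg
  rw [ContinuousLinearMap.sum_apply, inner_sum]
  apply Finset.sum_congr rfl
  intro α _
  rw [ContinuousLinearMap.smul_apply, inner_smul_right]

/-- asymptotic independence of the approximants -/
lemma tendsto_indep {N : VonNeumannAlgebra K} {ξ : K} {F : Filter ℕ}
    {p : ℕ → A → (K →L[ℂ] K)} {q : ℕ → B → (K →L[ℂ] K)}
    (hp : ∀ n, IsPVM N (p n)) (hq : ∀ n, IsPVM N (q n)) {a : A → ℝ} {b : B → ℝ}
    (ha : ∑ α, a α = 1) (hb : ∑ β, b β = 1)
    (h : ∀ α β, Tendsto (fun n => ⟪ξ, (p n α * q n β) ξ⟫_ℂ) F (𝓝 ((a α * b β : ℝ) : ℂ)))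
    (x : A → ℂ) (y : B → ℂ) :
    Tendsto (fun n => ⟪ξ, (dg (p n) x * dg (q n) y) ξ⟫_ℂ -
      ⟪ξ, (dg (p n) x) ξ⟫_ℂ * ⟪ξ, (dg (q n) y) ξ⟫_ℂ) F (𝓝 0) := by
  have h1 : ∀ α, Tendsto (fun n => ⟪ξ, (p n α) ξ⟫_ℂ) F (𝓝 ((a α : ℝ) : ℂ)) := by
    intro α
    have e1 : ∀ n, ⟪ξ, (p n α) ξ⟫_ℂ = ∑ β, ⟪ξ, (p n α * q n β) ξ⟫_ℂ := by
      intro n
      rw [← inner_sum, ← ContinuousLinearMap.sum_apply, ← Finset.mul_sum, (hq n).sum, mul_one]
    simp_rw [e1]
    have e2 : ((a α : ℝ) : ℂ) = ∑ β, ((a α * b β : ℝ) : ℂ) := by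
      rw [← Complex.ofReal_sum, ← Finset.mul_sum, hb, mul_one]
    rw [e2]
    exact tendsto_finset_sum _ fun β _ => h α β
  have h2 : ∀ β, Tendsto (fun n => ⟪ξ, (q n β) ξ⟫_ℂ) F (𝓝 ((b β : ℝ) : ℂ)) := by
    intro β
    have e1 : ∀ n, ⟪ξ, (q n β) ξ⟫_ℂ = ∑ α, ⟪ξ, (p n α * q n β) ξ⟫_ℂ := by
      intro n
      rw [← inner_sum, ← ContinuousLinearMap.sum_apply, ← Finset.sum_mul, (hp n).sum, one_mul]
    simp_rw [e1]
    have e2 : ((b β : ℝ) : ℂ) = ∑ α, ((a α * b β : ℝ) : ℂ) := by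
      rw [← Complex.ofReal_sum, ← Finset.sum_mul, ha, one_mul]
    rw [e2]
    exact tendsto_finset_sum _ fun α _ => h α β
  simp_rw [tau_dg_mul, tau_dg]
  have h3 : Tendsto (fun n => ∑ α, ∑ β, x α * y β * ⟪ξ, (p n α * q n β) ξ⟫_ℂ -
      (∑ α, x α * ⟪ξ, (p n α) ξ⟫_ℂ) * ∑ β, y β * ⟪ξ, (q n β) ξ⟫_ℂ) F
      (𝓝 (∑ α, ∑ β, x α * y β * ((a α * b β : ℝ) : ℂ) -
        (∑ α, x α * ((a α : ℝ) : ℂ)) * ∑ β, y β * ((b β : ℝ) : ℂ))) := by
    apply Tendsto.sub
    · exact tendsto_finset_sum _ fun α _ => tendsto_finset_sum _ fun β _ =>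
        (h α β).const_mul _
    · exact (tendsto_finset_sum _ fun α _ => (h1 α).const_mul _).mul
        (tendsto_finset_sum _ fun β _ => (h2 β).const_mul _)
  have h4 : ∑ α, ∑ β, x α * y β * ((a α * b β : ℝ) : ℂ) -
        (∑ α, x α * ((a α : ℝ) : ℂ)) * ∑ β, y β * ((b β : ℝ) : ℂ) = 0 := by
    rw [Finset.sum_mul_sum, sub_eq_zero]
    apply Finset.sum_congr rfl
    intro α _
    apply Finset.sum_congr rfl
    intro β _
    push_cast; ring
  rw [h4] at h3
  exact h3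

end tau

section emb
variable {T : Type} [Fintype T] [DecidableEq T] {H K : Type} [NormedAddCommGroup H]
    [InnerProductSpace ℂ H] [CompleteSpace H] [NormedAddCommGroup K]
    [InnerProductSpace ℂ K] [CompleteSpace K] {e : Emb T H K} {M : VonNeumannAlgebra H}

lemma th_sub_bound {x y : K →L[ℂ] K} (hx : x ∈ e.NB M) (hy : y ∈ e.NB M) (m : T → ℝ) 
    (s : ℝ) (Ω : H) (t : T) :
    ‖e.th x t - e.th y t‖ * Real.sqrt (m t) ≤ ‖(x - y) (e.tot m s Ω)‖ := by
  have h1 : ⟪e.δ t, (x - y) (e.tot m s Ω)⟫_ℂ =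
      (e.th x t - e.th y t) * ((Real.sqrt (m t) : ℝ) : ℂ) := by
    rw [Emb.apply_tot (sub_mem hx hy), inner_add_right, inner_smul_right, e.δJ, mul_zero, add_zero,
      inner_sum, Finset.sum_eq_single t]
    · rw [inner_smul_right, e.δδ, if_pos rfl, mul_one]
      have : e.th (x - y) t = e.th x t - e.th y t := by
        simp [Emb.th, inner_sub_right]
      rw [this]; ring
    · intro b _ hb
      rw [inner_smul_right, e.δδ, if_neg (Ne.symm hb), mul_zero]
    · simp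
  have h2 := norm_inner_le_norm (𝕜 := ℂ) (e.δ t) ((x - y) (e.tot m s Ω))
  rw [h1, norm_δ, one_mul, norm_mul, Complex.norm_real, Real.norm_eq_abs,
    abs_of_nonneg (Real.sqrt_nonneg _)] at h2
  exact h2

lemma cut_bound {x : K →L[ℂ] K} (hx : x ∈ e.NB M) (m : T → ℝ) 
    (s : ℝ) (Ω : H) :
    Real.sqrt s * ‖e.cut x Ω‖ ≤ ‖x (e.tot m s Ω)‖ := by
  have h1 : e.Js (x (e.tot m s Ω)) = ((Real.sqrt s : ℝ) : ℂ) • e.cut x Ω := by
    rw [Emb.apply_tot hx, map_add, map_sum, map_smul, Emb.Js_J]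
    simp
  have hJ : ∀ h, ‖e.J h‖ = ‖h‖ := by
    intro h
    have h1 := e.JJ h h
    rw [inner_self_eq_norm_sq_to_K, inner_self_eq_norm_sq_to_K] at h1
    have h2 : ‖e.J h‖ ^ 2 = ‖h‖ ^ 2 := by
      have h3 : ((‖e.J h‖ ^ 2 : ℝ) : ℂ) = ((‖h‖ ^ 2 : ℝ) : ℂ) := by push_cast; exact h1
      exact_mod_cast h3
    exact (sq_eq_sq₀ (norm_nonneg _) (norm_nonneg _)).1 h2
  have h2 : ∀ z, ‖e.Js z‖ ≤ ‖z‖ := by
    intro z
    have h3 : ‖e.Js z‖ * ‖e.Js z‖ ≤ ‖z‖ * ‖e.Js z‖ := by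
      have h4 : ⟪e.Js z, e.Js z⟫_ℂ = ⟪z, e.J (e.Js z)⟫_ℂ := Emb.inner_Js e _ _
      have h5 : ‖e.Js z‖ * ‖e.Js z‖ = ‖⟪e.Js z, e.Js z⟫_ℂ‖ := by
        rw [inner_self_eq_norm_sq_to_K]; simp [sq]
      rw [h5, h4]
      refine (norm_inner_le_norm _ _).trans ?_
      rw [hJ]
    by_contra hcon
    rw [not_le] at hcon
    nlinarith [norm_nonneg z, norm_nonneg (e.Js z)]
  have h3 := h2 (x (e.tot m s Ω))
  rw [h1, norm_smul, Complex.norm_real, Real.norm_eq_abs, abs_of_nonneg (Real.sqrt_nonneg _)] at h3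
  exact h3

end emb

lemma half_rigid {A : Type} [Fintype A] [DecidableEq A] {T : Type} [Fintype T] [DecidableEq T]
    {H K : Type} [NormedAddCommGroup H]
    [InnerProductSpace ℂ H] [CompleteSpace H] [NormedAddCommGroup K]
    [InnerProductSpace ℂ K] [CompleteSpace K] {e : Emb T H K} {M : VonNeumannAlgebra H}
    {p : Option A → (K →L[ℂ] K)} (hp : IsPVM (e.NB M) p) (h0 : e.cut (p none) = 0) :
    IsPVM M (fun α : A => e.cut (p (some α))) where
  mem α := Emb.cut_mem (hp.mem _)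
  sa α := by rw [← Emb.cut_star, hp.sa]
  idem α := by rw [← Emb.cut_mul (hp.mem _), hp.idem]
  orth α β h := by
    rw [← Emb.cut_mul (hp.mem _), hp.orth _ _ (fun h' => h (Option.some_injective _ h')),
      Emb.cut_zero]
  sum := by
    have h1 := congrArg e.cut hp.sum
    rw [Emb.cut_sum, Fintype.sum_option, h0, zero_add, Emb.cut_one] at h1
    exact h1

lemma dg_extP {A : Type} [Fintype A] [DecidableEq A] {T : Type} [Fintype T] [DecidableEq T]
    {H K : Type} [NormedAddCommGroup H]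
    [InnerProductSpace ℂ H] [CompleteSpace H] [NormedAddCommGroup K]
    [InnerProductSpace ℂ K] [CompleteSpace K] (e : Emb T H K) (cell : T → A)
    (p : A → (H →L[ℂ] H)) (x : A → ℂ) :
    dg (extP e cell p) x = e.blk (fun t => x (cell t)) (dg p x) := by
  unfold dg extP
  simp_rw [Emb.blk_smul]
  rw [Emb.blk_sum]
  congr 1
  funext t
  rw [Finset.sum_apply]
  simp

/-- one-sided closeness estimate -/
lemma close_half {A : Type} [Fintype A] [DecidableEq A] {T : Type} [Fintype T] [DecidableEq T]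
    {H K : Type} [NormedAddCommGroup H]
    [InnerProductSpace ℂ H] [CompleteSpace H] [NormedAddCommGroup K]
    [InnerProductSpace ℂ K] [CompleteSpace K] {e : Emb T H K} {M : VonNeumannAlgebra H}
    {m : T → ℝ} {s : ℝ} (hs : 0 < s) {Om : H} (hN : TraceVec (e.NB M) (e.tot m s Om))
    {cell : T → Option A} {P : A → (H →L[ℂ] H)} (hP : IsPVM M P) {x : Option A → Circle}
    {c : ℝ} (hc : 0 < c) (hgap : ∀ i j, i ≠ j → c ≤ ‖(x i : ℂ) - x j‖)
    {u u' : unitary (K →L[ℂ] K)} (hu : (u : K →L[ℂ] K) = dg (extP e cell (optE P)) (fun i => (x i : ℂ)))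
    {x' : Option A → ℂ} (hx'1 : ∀ i, ‖x' i‖ = 1)
    (hp' : IsPVM (e.NB M) (fun i => eig (u' : K →L[ℂ] K) (x' i)))
    (hx' : ∀ i, ‖x' i - x i‖ < c / 3) (α : A) :
    ‖(e.cut (eig (u' : K →L[ℂ] K) (x' (some α))) - P α) Om‖ ≤
      (1 / Real.sqrt s) * ((Fintype.card (Option A) * (2 / (2 * c / 3))) *
        ‖((u' : K →L[ℂ] K) - (u : K →L[ℂ] K)) (e.tot m s Om)‖) := by
  have hp := isPVM_extP e cell (isPVM_optE hP)
  have h1 := close_pvm hN hp hp' (x := fun i => (x i : ℂ)) (x' := x') (c := 2 * c / 3)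
    (by positivity) (by
      intro i j hij
      have h2 := hgap i j hij
      have h3 := hx' i
      have h4 : ‖(x i : ℂ) - x j‖ ≤ ‖x' i - x j‖ + ‖x' i - x i‖ := by
        calc ‖(x i : ℂ) - x j‖ = ‖(x' i - x j) - (x' i - x i)‖ := by congr 1; ring
          _ ≤ _ := norm_sub_le _ _
      linarith) (some α)
  rw [← eq_dg_eig (fun i => ne_zero_of_norm_one (hx'1 i)) hp', ← hu] at h1
  have h5 := cut_bound (e := e) (M := M) (sub_mem (hp'.mem (some α)) (hp.mem (some α))) m s Om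
  have h6 : e.cut (eig (u' : K →L[ℂ] K) (x' (some α)) - extP e cell (optE P) (some α)) =
      e.cut (eig (u' : K →L[ℂ] K) (x' (some α))) - P α := by
    rw [Emb.cut_sub]
    congr 1
    unfold extP
    rw [Emb.cut_blk]
    rfl
  rw [h6] at h5
  have h7 := Real.sqrt_pos.2 hs
  rw [one_div, ← div_eq_inv_mul, le_div_iff₀ h7, mul_comm]
  exact h5.trans h1

lemma tendsto_norm_of_tau {K : Type} [NormedAddCommGroup K]
    [InnerProductSpace ℂ K] [CompleteSpace K] {F : Filter ℕ} {ξ : K} {z : ℕ → (K →L[ℂ] K)}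
    (h : Tendsto (fun n => ⟪ξ, (star (z n) * z n) ξ⟫_ℂ) F (𝓝 0)) :
    Tendsto (fun n => ‖z n ξ‖) F (𝓝 0) := by
  simp_rw [inner_self_of_star_mul] at h
  have h1 : Tendsto (fun n => ‖z n ξ‖ ^ 2) F (𝓝 0) := by
    have h2 := (Complex.continuous_re.tendsto 0).comp h
    have h3 : (Complex.re ∘ fun n => ((‖z n ξ‖ ^ 2 : ℝ) : ℂ)) = fun n => ‖z n ξ‖ ^ 2 := by
      funext n; exact Complex.ofReal_re _
    rw [h3] at h2
    simpa using h2
  have h4 := (Real.continuous_sqrt.tendsto 0).comp h1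
  have h5 : (Real.sqrt ∘ fun n => ‖z n ξ‖ ^ 2) = fun n => ‖z n ξ‖ := by
    funext n; exact Real.sqrt_sq (norm_nonneg _)
  rw [h5] at h4
  simpa using h4

end Pool.MP_81d1ca_an.PL

namespace Pool.MP_81d1ca_an.H37
open Pool.MP_81d1ca_an.PL

/-- operators on the direct sum -/
abbrev OpK (A B : Type) [Fintype A] [Fintype B] (H : Type) [NormedAddCommGroup H]
    [InnerProductSpace ℂ H] [CompleteSpace H] :=
  WithLp 2 (EuclideanSpace ℂ (Option A × Option B) × H) →L[ℂ]
    WithLp 2 (EuclideanSpace ℂ (Option A × Option B) × H)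

/-- PATTERN LIFTING. -/
theorem pattern_lift (hst : Statement) {H : Type} [NormedAddCommGroup H] [InnerProductSpace ℂ H]
    [CompleteSpace H] (M : VonNeumannAlgebra H) (Om : H) (hOm : TraceVec M Om)
    (U : Ultrafilter ℕ) (hU : (U : Filter ℕ) ≤ Filter.cofinite)
    {A B : Type} [Fintype A] [Fintype B] [Nonempty A] [Nonempty B] [DecidableEq A] [DecidableEq B]
    (P : ℕ → A → (H →L[ℂ] H)) (Q : ℕ → B → (H →L[ℂ] H))
    (hP : ∀ n, IsPVM M (P n)) (hQ : ∀ n, IsPVM M (Q n))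
    (Z : A → B → Prop)
    (hZ : ∀ a b, Z a b → Tendsto (fun n => ‖(P n a * Q n b) Om‖) (U : Filter ℕ) (nhds 0)) :
    ∃ (P' : ℕ → A → (H →L[ℂ] H)) (Q' : ℕ → B → (H →L[ℂ] H)),
      (∀ᶠ n in (U : Filter ℕ), IsPVM M (P' n) ∧ IsPVM M (Q' n) ∧
        ∀ a b, Z a b → P' n a * Q' n b = 0) ∧
      (∀ a, Tendsto (fun n => ‖(P' n a - P n a) Om‖) (U : Filter ℕ) (nhds 0)) ∧
      (∀ b, Tendsto (fun n => ‖(Q' n b - Q n b) Om‖) (U : Filter ℕ) (nhds 0)) := by
  obtain ⟨w, hw0, hw1, hwsum, hwlim⟩ := exists_w hOm U hP hQ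
  obtain ⟨e⟩ := exists_emb (Option A × Option B) H
  have D := data_of hw1 hwsum
  set a := wt A with ha
  set b := wt B with hb
  set W := wE w with hW
  set s : ℝ := 1 / (8 * Fintype.card A * Fintype.card B) with hs
  obtain ⟨m, hm⟩ : ∃ m : Option A × Option B → ℝ, m = fun t => a t.1 * b t.2 - s * W t.1 t.2 :=
    ⟨_, rfl⟩
  obtain ⟨ξ, hξ⟩ : ∃ ξ, ξ = e.tot m s Om := ⟨_, rfl⟩
  have hmpos : ∀ t, 0 < m t := by rw [hm]; exact D.m_pos
  have hN : TraceVec (e.NB M) ξ := by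
    rw [hξ, hm]
    exact Emb.traceVec_NB hOm D.m_pos D.s_pos D.m_sum
  obtain ⟨x, hx⟩ := exists_circle (Option A)
  obtain ⟨y, hy⟩ := exists_circle (Option B)
  have hx' : Function.Injective (fun i => (x i : ℂ)) := Subtype.val_injective.comp hx
  have hy' : Function.Injective (fun i => (y i : ℂ)) := Subtype.val_injective.comp hy
  obtain ⟨c, hc, hcgap⟩ := exists_gap _ hx'
  obtain ⟨d, hd, hdgap⟩ := exists_gap _ hy'
  have hp : ∀ n, IsPVM (e.NB M) (extP e Prod.fst (optE (P n))) :=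
    fun n => isPVM_extP e _ (isPVM_optE (hP n))
  have hq : ∀ n, IsPVM (e.NB M) (extP e Prod.snd (optE (Q n))) :=
    fun n => isPVM_extP e _ (isPVM_optE (hQ n))
  have hWlim : ∀ α β, Tendsto (fun n => ‖(optE (P n) α * optE (Q n) β) Om‖ ^ 2) (U : Filter ℕ)
      (𝓝 (W α β)) := by
    intro α β
    cases α with
    | none =>
      have : (fun n => ‖(optE (P n) none * optE (Q n) β) Om‖ ^ 2) = fun _ => (0 : ℝ) := by
        funext n
        show ‖((0 : H →L[ℂ] H) * optE (Q n) β) Om‖ ^ 2 = 0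
        simp
      rw [this, D.w_left]
      exact tendsto_const_nhds
    | some α => cases β with
      | none =>
        have : (fun n => ‖(optE (P n) (some α) * optE (Q n) none) Om‖ ^ 2) = fun _ => (0 : ℝ) := by
          funext n
          show ‖(optE (P n) (some α) * (0 : H →L[ℂ] H)) Om‖ ^ 2 = 0
          simp
        rw [this, D.w_right]
        exact tendsto_const_nhds
      | some β => exact hwlim α β
  have hlim : ∀ α β, Tendsto (fun n => ⟪ξ, (extP e Prod.fst (optE (P n)) α *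
      extP e Prod.snd (optE (Q n)) β) ξ⟫_ℂ) (U : Filter ℕ) (𝓝 ((a α * b β : ℝ) : ℂ)) := by
    intro α β
    have e1 : ∀ n, ⟪ξ, (extP e Prod.fst (optE (P n)) α *
      extP e Prod.snd (optE (Q n)) β) ξ⟫_ℂ =
        ((m (α, β) + s * ‖(optE (P n) α * optE (Q n) β) Om‖ ^ 2 : ℝ) : ℂ) := by
      intro n
      rw [hξ, Emb.tau_formula (mul_mem ((hp n).mem α) ((hq n).mem β)) (fun t => (hmpos t).le)
        D.s_pos.le]
      unfold extP
      rw [Emb.blk_mul, Emb.cut_blk, Emb.th_blk, TV_two_proj hOm ((isPVM_optE (hP n)).mem α)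
        ((isPVM_optE (hQ n)).mem β) ((isPVM_optE (hP n)).sa α) ((isPVM_optE (hP n)).idem α)
        ((isPVM_optE (hQ n)).sa β) ((isPVM_optE (hQ n)).idem β), Finset.sum_eq_single (α, β)]
      · simp
      · intro t _ ht
        by_cases h1 : t.1 = α
        · by_cases h2 : t.2 = β
          · exfalso; apply ht; exact Prod.ext h1 h2
          · simp [h2]
        · simp [h1]
      · simp
    simp_rw [e1]
    apply (Complex.continuous_ofReal.tendsto _).comp
    have e2 : a α * b β = m (α, β) + s * W α β := by rw [hm]; ring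
    rw [e2]
    exact ((hWlim α β).const_mul s).const_add _
  have hasum : ∑ α, a α = 1 := by
    rw [Fintype.sum_option, D.a_none, D.a_sum]; norm_num
  have hbsum : ∑ β, b β = 1 := by
    rw [Fintype.sum_option, D.b_none, D.b_sum]; norm_num
  obtain ⟨u, hu⟩ : ∃ u : ℕ → unitary (OpK A B H), u = fun n => dgU (hp n) x := ⟨_, rfl⟩
  obtain ⟨v, hv⟩ : ∃ v : ℕ → unitary (OpK A B H), v = fun n => dgU (hq n) y := ⟨_, rfl⟩
  obtain ⟨u', v', hmem, hcu, hcv, hind⟩ := hst _ (e.NB M) (fun x => ⟪ξ, x ξ⟫_ℂ)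
    ⟨fun i => if i = 0 then ξ else 0, by
      apply summable_of_ne_finset_zero (s := {0})
      intro i hi
      have hi' : i ≠ 0 := by simpa using hi
      simp [hi'], by
      intro z _
      have h1 := hasSum_single (f := fun i : ℕ => ⟪(if i = 0 then ξ else 0 : _),
        z (if i = 0 then ξ else 0)⟫_ℂ) 0 (by
          intro i hi
          simp [hi])
      simpa using h1⟩
    (by
      show ⟪ξ, (1 : OpK A B H) ξ⟫_ℂ = 1
      rw [ContinuousLinearMap.one_apply, inner_self_eq_norm_sq_to_K, hN.norm_one]; simp)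
    hN.tracial
    (by
      intro z hz h0
      apply hN.separating z hz
      have h1 := inner_self_of_star_mul z ξ
      rw [h0] at h1
      have h2 : ‖z ξ‖ ^ 2 = 0 := by exact_mod_cast h1.symm
      exact norm_eq_zero.1 ((pow_eq_zero_iff two_ne_zero).1 h2))
    U hU u v
    (by
      intro n
      rw [hu, hv]
      exact ⟨dg_mem (hp n) _, dg_mem (hq n) _⟩)
    (by
      intro k l
      rw [hu, hv]
      simp only [dgU_zpow]
      exact tendsto_indep hp hq hasum hbsum hlim _ _)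
  have Du := tendsto_norm_of_tau hcu
  have Dv := tendsto_norm_of_tau hcv
  have hucoe : ∀ n, (u n : OpK A B H) = dg (extP e Prod.fst (optE (P n))) (fun i => (x i : ℂ)) := by
    intro n; rw [hu]; rfl
  have hvcoe : ∀ n, (v n : OpK A B H) = dg (extP e Prod.snd (optE (Q n))) (fun i => (y i : ℂ)) := by
    intro n; rw [hv]; rfl
  have thu : ∀ t, Tendsto (fun n => ‖e.th (u' n : OpK A B H) t - x t.1‖) (U : Filter ℕ) (𝓝 0) := by
    intro t
    have h7 := Real.sqrt_pos.2 (hmpos t)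
    have h8 : Tendsto (fun n => ‖((u' n : OpK A B H) - (u n : OpK A B H)) ξ‖ / Real.sqrt (m t))
        (U : Filter ℕ) (𝓝 0) := by
      simpa using Du.div_const (Real.sqrt (m t))
    refine squeeze_zero (fun n => norm_nonneg _) (fun n => ?_) h8
    rw [le_div_iff₀ h7]
    have h9 := th_sub_bound (e := e) (M := M) (hmem n).1 (y := (u n : OpK A B H))
      (by rw [hucoe]; exact dg_mem (hp n) _) m s Om t
    rw [← hξ] at h9
    have h10 : e.th (u n : OpK A B H) t = x t.1 := by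
      rw [hucoe, dg_extP, Emb.th_blk]
    rw [h10] at h9
    exact h9
  have thv : ∀ t, Tendsto (fun n => ‖e.th (v' n : OpK A B H) t - y t.2‖) (U : Filter ℕ) (𝓝 0) := by
    intro t
    have h7 := Real.sqrt_pos.2 (hmpos t)
    have h8 : Tendsto (fun n => ‖((v' n : OpK A B H) - (v n : OpK A B H)) ξ‖ / Real.sqrt (m t))
        (U : Filter ℕ) (𝓝 0) := by
      simpa using Dv.div_const (Real.sqrt (m t))
    refine squeeze_zero (fun n => norm_nonneg _) (fun n => ?_) h8
    rw [le_div_iff₀ h7]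
    have h9 := th_sub_bound (e := e) (M := M) (hmem n).2 (y := (v n : OpK A B H))
      (by rw [hvcoe]; exact dg_mem (hq n) _) m s Om t
    rw [← hξ] at h9
    have h10 : e.th (v n : OpK A B H) t = y t.2 := by
      rw [hvcoe, dg_extP, Emb.th_blk]
    rw [h10] at h9
    exact h9
  have hgood : ∀ᶠ n in (U : Filter ℕ), (∀ t, ‖e.th (u' n : OpK A B H) t - x t.1‖ < c / 3) ∧
      (∀ t, ‖e.th (v' n : OpK A B H) t - y t.2‖ < d / 3) := by
    apply Filter.Eventually.and
    · rw [Filter.eventually_all]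
      intro t
      exact (thu t).eventually (gt_mem_nhds (by positivity))
    · rw [Filter.eventually_all]
      intro t
      exact (thv t).eventually (gt_mem_nhds (by positivity))
  have hrig : ∀ᶠ n in (U : Filter ℕ), 
    (∀ t, ‖e.th (u' n : OpK A B H) t - x t.1‖ < c / 3) ∧
    (∀ t, ‖e.th (v' n : OpK A B H) t - y t.2‖ < d / 3) ∧
    IsPVM (e.NB M) (fun α : Option A => eig (u' n : OpK A B H) (e.th (u' n : OpK A B H) (α, none))) ∧
    IsPVM (e.NB M) (fun β : Option B => eig (v' n : OpK A B H) (e.th (v' n : OpK A B H) (none, β))) ∧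
    e.cut (eig (u' n : OpK A B H) (e.th (u' n : OpK A B H) (none, none))) = 0 ∧
    e.cut (eig (v' n : OpK A B H) (e.th (v' n : OpK A B H) (none, none))) = 0 ∧
    ∀ α β, ⟪Om, (e.cut (eig (u' n : OpK A B H) (e.th (u' n : OpK A B H) (α, none))) *
      e.cut (eig (v' n : OpK A B H) (e.th (v' n : OpK A B H) (none, β)))) Om⟫_ℂ =
        ((W α β : ℝ) : ℂ) := by
    filter_upwards [hgood] with n hn
    refine ⟨hn.1, hn.2, ?_⟩
    have h1 := hind n
    apply rigid D e hOm (hmem n).1 (hmem n).2 (ξ := ξ) (by rw [hξ, hm]) h1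
    · intro t t' htt heq
      have h2 := hcgap t.1 t'.1 htt
      have h3 := hn.1 t
      have h4 := hn.1 t'
      have h5 : ‖(x t.1 : ℂ) - x t'.1‖ ≤ ‖e.th (u' n : OpK A B H) t' - x t'.1‖ +
          ‖e.th (u' n : OpK A B H) t - x t.1‖ := by
        calc ‖(x t.1 : ℂ) - x t'.1‖ = ‖(e.th (u' n : OpK A B H) t' - x t'.1) -
            (e.th (u' n : OpK A B H) t - x t.1)‖ := by rw [heq]; congr 1; ring
          _ ≤ _ := norm_sub_le _ _
      linarith
    · intro t t' htt heq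
      have h2 := hdgap t.2 t'.2 htt
      have h3 := hn.2 t
      have h4 := hn.2 t'
      have h5 : ‖(y t.2 : ℂ) - y t'.2‖ ≤ ‖e.th (v' n : OpK A B H) t' - y t'.2‖ +
          ‖e.th (v' n : OpK A B H) t - y t.2‖ := by
        calc ‖(y t.2 : ℂ) - y t'.2‖ = ‖(e.th (v' n : OpK A B H) t' - y t'.2) -
            (e.th (v' n : OpK A B H) t - y t.2)‖ := by rw [heq]; congr 1; ring
          _ ≤ _ := norm_sub_le _ _
      linarith
  refine ⟨fun n α => e.cut (eig (u' n : OpK A B H) (e.th (u' n : OpK A B H) (some α, none))),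
    fun n β => e.cut (eig (v' n : OpK A B H) (e.th (v' n : OpK A B H) (none, some β))), ?_, ?_, ?_⟩
  · filter_upwards [hrig] with n hn
    obtain ⟨g1, g2, g3, g4, g5, g6, g7⟩ := hn
    have k1 := half_rigid g3 g5
    have k2 := half_rigid g4 g6
    refine ⟨k1, k2, ?_⟩
    intro α β hαβ
    have h1 : W (some α) (some β) = 0 := by
      have h2 := (hZ α β hαβ).pow 2
      have h3 := tendsto_nhds_unique h2 (hwlim α β)
      show w α β = 0
      simpa using h3.symm
    have h4 := g7 (some α) (some β)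
    rw [h1] at h4
    have h5 := TV_two_proj hOm (k1.mem α) (k2.mem β) (k1.sa α) (k1.idem α) (k2.sa β) (k2.idem β)
    rw [h4] at h5
    apply hOm.separating _ (mul_mem (k1.mem α) (k2.mem β))
    have h6 : ‖(e.cut (eig (u' n : OpK A B H) (e.th (u' n : OpK A B H) (some α, none))) *
      e.cut (eig (v' n : OpK A B H) (e.th (v' n : OpK A B H) (none, some β)))) Om‖ ^ 2 = 0 := by
      exact_mod_cast h5.symm
    exact norm_eq_zero.1 ((pow_eq_zero_iff two_ne_zero).1 h6)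
  · intro α
    have h8 : Tendsto (fun n => (1 / Real.sqrt s) * ((Fintype.card (Option A) *
        (2 / (2 * c / 3))) * ‖((u' n : OpK A B H) - (u n : OpK A B H)) ξ‖))
        (U : Filter ℕ) (𝓝 0) := by
      simpa using (Du.const_mul (Fintype.card (Option A) * (2 / (2 * c / 3)) : ℝ)).const_mul
        (1 / Real.sqrt s)
    refine squeeze_zero' (Filter.Eventually.of_forall fun n => norm_nonneg _) ?_ h8
    filter_upwards [hrig] with n hn
    obtain ⟨g1, g2, g3, g4, g5, g6, g7⟩ := hn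
    rw [hξ] at hN ⊢
    exact close_half D.s_pos hN (hP n) hc hcgap (hucoe n)
      (x' := fun i => e.th (u' n : OpK A B H) (i, none)) (fun i => th_norm (hmem n).1 _) g3
      (fun i => g1 (i, none)) α
  · intro β
    have h8 : Tendsto (fun n => (1 / Real.sqrt s) * ((Fintype.card (Option B) *
        (2 / (2 * d / 3))) * ‖((v' n : OpK A B H) - (v n : OpK A B H)) ξ‖))
        (U : Filter ℕ) (𝓝 0) := by
      simpa using (Dv.const_mul (Fintype.card (Option B) * (2 / (2 * d / 3)) : ℝ)).const_mul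
        (1 / Real.sqrt s)
    refine squeeze_zero' (Filter.Eventually.of_forall fun n => norm_nonneg _) ?_ h8
    filter_upwards [hrig] with n hn
    obtain ⟨g1, g2, g3, g4, g5, g6, g7⟩ := hn
    rw [hξ] at hN ⊢
    exact close_half D.s_pos hN (hQ n) hd hdgap (hvcoe n)
      (x' := fun i => e.th (v' n : OpK A B H) (none, i)) (fun i => th_norm (hmem n).2 _) g4
      (fun i => g2 (none, i)) β

end Pool.MP_81d1ca_an.H37
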