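import Mathlib
import Pool.Agent.Lib.MP_81d1ca_an.H37NoClose
import Pool.Agent.Lib.MP_81d1ca_an.PatternLift

open scoped InnerProductSpace ComplexConjugate ENNReal
open Filter Topology Monoid Monoid.CoprodI

namespace Pool.MP_81d1ca_an.H37

lemma IsPV.toPVM {H : Type} [NormedAddCommGroup H] [InnerProductSpace ℂ H] [CompleteSpace H]
    {M : VonNeumannAlgebra H} {I : Type} [Fintype I] {p : I → (H →L[ℂ] H)} (hp : IsPV M 1 p) :
    IsPVM M p := ⟨hp.mem, hp.sa, hp.idem, hp.orth, hp.sum⟩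

lemma IsPVM.toPV {H : Type} [NormedAddCommGroup H] [InnerProductSpace ℂ H] [CompleteSpace H]
    {M : VonNeumannAlgebra H} {I : Type} [Fintype I] {p : I → (H →L[ℂ] H)} (hp : IsPVM M p) :
    IsPV M 1 p := ⟨hp.mem, hp.sa, hp.idem, hp.orth, hp.sum⟩

theorem not_statement : ¬ Statement := by
  intro hst
  have hU : ((Filter.hyperfilter ℕ : Ultrafilter ℕ) : Filter ℕ) ≤ Filter.cofinite :=
    Filter.hyperfilter_le_cofinite
  have hUat : ((Filter.hyperfilter ℕ : Ultrafilter ℕ) : Filter ℕ) ≤ atTop := by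
    rw [← Nat.cofinite_eq_atTop]; exact hU
  obtain ⟨P', Q', hex, hPt, hQt⟩ := pattern_lift hst MM Om tvM (Filter.hyperfilter ℕ) hU Pn Qn
    (fun n => (Pn_isPV n).toPVM) (fun n => (Qn_isPV n).toPVM) ZZ (by
      intro a b h
      refine squeeze_zero (fun n => norm_nonneg _) (fun n => near_zero n a b h) ?_
      exact tendsto_near.mono_left hUat)
  have hP1 : ∀ᶠ n in ((Filter.hyperfilter ℕ : Ultrafilter ℕ) : Filter ℕ),
      ∀ a, ‖(P' n a - Pn n a) Om‖ ≤ 1 / 10 ^ 11 := by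
    rw [eventually_all]
    intro a
    exact (hPt a).eventually_le_const (by norm_num)
  have hQ1 : ∀ᶠ n in ((Filter.hyperfilter ℕ : Ultrafilter ℕ) : Filter ℕ),
      ∀ b, ‖(Q' n b - Qn n b) Om‖ ≤ 1 / 10 ^ 11 := by
    rw [eventually_all]
    intro b
    exact (hQt b).eventually_le_const (by norm_num)
  obtain ⟨n, ⟨h1, h2, h3⟩, h4, h5⟩ := (hex.and (hP1.and hQ1)).exists
  exact no_close n h1.toPV h2.toPV h3 le_rfl h4 h5

end Pool.MP_81d1ca_an.H37
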